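import Pool.Agent.P.MP_0ad50f_co.SC.Defs

namespace Pool.Agent.P.MP_0ad50f_co.SC

variable {V : Type} [DecidableEq V] [Fintype V] {G : SimpleGraph V} [DecidableRel G.Adj]

/-- The part of a graph inside a vertex set. -/
def redRes (G : SimpleGraph V) (S : Set V) : SimpleGraph V where
  Adj x y := G.Adj x y ∧ x ∈ S ∧ y ∈ S
  symm := ⟨fun _ _ h => ⟨h.1.symm, h.2.2, h.2.1⟩⟩
  loopless := ⟨fun _ h => h.1.ne rfl⟩

theorem red_nb_eq {G1 G2 : SimpleGraph V} [DecidableRel G1.Adj] [DecidableRel G2.Adj] {v : V}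
    (h : ∀ w, G1.Adj v w ↔ G2.Adj v w) : G1.neighborFinset v = G2.neighborFinset v := by
  ext w
  rw [SimpleGraph.mem_neighborFinset, SimpleGraph.mem_neighborFinset, h]

theorem red_deg_eq {G1 G2 : SimpleGraph V} [DecidableRel G1.Adj] [DecidableRel G2.Adj] {v : V}
    (h : ∀ w, G1.Adj v w ↔ G2.Adj v w) : G1.degree v = G2.degree v := by
  rw [← SimpleGraph.card_neighborFinset_eq_degree, ← SimpleGraph.card_neighborFinset_eq_degree,
    red_nb_eq h]

theorem red_res_adj {S : Set V} (hS : ∀ v w, G.Adj v w → v ∈ S → w ∈ S) {v : V} (hv : v ∈ S)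
    (w : V) : (redRes G S).Adj v w ↔ G.Adj v w :=
  ⟨fun h => h.1, fun h => ⟨h, hv, hS v w h hv⟩⟩

theorem red_res_sub {S : Set V} (hS : ∀ v w, G.Adj v w → v ∈ S → w ∈ S)
    [DecidableRel (redRes G S).Adj] (h3 : Sub3 G) (hT : T1only G) :
    Sub3 (redRes G S) ∧ T1only (redRes G S) := by
  constructor
  · intro v
    by_cases hv : v ∈ S
    · rw [red_deg_eq (red_res_adj hS hv)]
      exact h3 v
    · by_contra hc
      have hp : 0 < (redRes G S).degree v := by omega
      obtain ⟨w, hw⟩ := ((redRes G S).degree_pos_iff_exists_adj v).1 hp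
      exact hv hw.2.1
  · intro v w hd ha
    rw [red_deg_eq (red_res_adj hS ha.2.1)] at hd
    rw [red_deg_eq (red_res_adj hS ha.2.2)]
    exact hT v w hd ha.1

theorem red_res_lt {S : Set V} {w : V} (hw : w ∉ S) (hd : 1 ≤ G.degree w) :
    (redRes G S).edgeSet.ncard < G.edgeSet.ncard := by
  obtain ⟨x, hx⟩ := (G.degree_pos_iff_exists_adj w).1 hd
  refine Set.ncard_lt_ncard ⟨?_, fun h => ?_⟩ (Set.toFinite _)
  · exact SimpleGraph.edgeSet_mono fun _ _ h => h.1
  · have h1 : s(w, x) ∈ (redRes G S).edgeSet := h hx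
    exact hw ((SimpleGraph.mem_edgeSet _).1 h1).2.1

theorem red_glue {S : Set V} (hS : ∀ v w, G.Adj v w → v ∈ S → w ∈ S)
    [DecidableRel (redRes G S).Adj] [DecidableRel (redRes G Sᶜ).Adj]
    (h1 : Goal (redRes G S)) (h2 : Goal (redRes G Sᶜ)) : Goal G := by
  classical
  have hS' : ∀ v w, G.Adj v w → v ∈ Sᶜ → w ∈ Sᶜ := fun v w h hv hw => hv (hS w v h.symm hw)
  obtain ⟨c1, a1, b1, d1⟩ := h1
  obtain ⟨c2, a2, b2, d2⟩ := h2
  let c : Sym2 V → ℕ := fun e => if ∃ x ∈ e, x ∈ S then c1 e else c2 e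
  have e1 : ∀ v w, v ∈ S → c s(v, w) = c1 s(v, w) := fun v w hv =>
    if_pos ⟨v, Sym2.mem_mk_left v w, hv⟩
  have e2 : ∀ v w, G.Adj v w → v ∈ Sᶜ → c s(v, w) = c2 s(v, w) := by
    intro v w h hv
    refine if_neg ?_
    rintro ⟨x, hx, hxS⟩
    rcases Sym2.mem_iff.1 hx with rfl | rfl
    · exact hv hxS
    · exact hS' _ _ h hv hxS
  have s1 : ∀ v, v ∈ S → ∑ w ∈ G.neighborFinset v, c s(v, w) =
      ∑ w ∈ (redRes G S).neighborFinset v, c1 s(v, w) := by
    intro v hv
    rw [red_nb_eq (red_res_adj hS hv)]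
    exact Finset.sum_congr rfl fun w _ => e1 v w hv
  have s2 : ∀ v, v ∈ Sᶜ → ∑ w ∈ G.neighborFinset v, c s(v, w) =
      ∑ w ∈ (redRes G Sᶜ).neighborFinset v, c2 s(v, w) := by
    intro v hv
    rw [red_nb_eq (red_res_adj hS' hv)]
    exact Finset.sum_congr rfl fun w hw => e2 v w ((G.mem_neighborFinset v w).1 hw) hv
  refine ⟨c, ?_, ?_, ?_⟩
  · intro e he
    induction e using Sym2.ind with
    | _ v w =>
      have h : G.Adj v w := he
      by_cases hv : v ∈ S
      · rw [e1 v w hv]
        exact a1 _ ((red_res_adj hS hv w).2 h)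
      · rw [e2 v w h hv]
        exact a2 _ ((red_res_adj hS' hv w).2 h)
  · intro v w w' h h' hne
    by_cases hv : v ∈ S
    · rw [e1 v w hv, e1 v w' hv]
      exact b1 v w w' ((red_res_adj hS hv w).2 h) ((red_res_adj hS hv w').2 h') hne
    · rw [e2 v w h hv, e2 v w' h' hv]
      exact b2 v w w' ((red_res_adj hS' hv w).2 h) ((red_res_adj hS' hv w').2 h') hne
  · intro u v h hd
    by_cases hu : u ∈ S
    · have hv := hS u v h hu
      rw [s1 u hu, s1 v hv]
      refine d1 u v ((red_res_adj hS hu v).2 h) ?_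
      rw [red_deg_eq (red_res_adj hS hu), red_deg_eq (red_res_adj hS hv)]
      exact hd
    · have hv := hS' u v h hu
      rw [s2 u hu, s2 v hv]
      refine d2 u v ((red_res_adj hS' hu v).2 h) ?_
      rw [red_deg_eq (red_res_adj hS' hu), red_deg_eq (red_res_adj hS' hv)]
      exact hd

/-- Reduction to graphs with one nontrivial component. -/
theorem red_conn
    (H : ∀ (G : SimpleGraph V) [DecidableRel G.Adj], Sub3 G → T1only G → CutConn G → Goal G)
    (G : SimpleGraph V) [DecidableRel G.Adj] (h3 : Sub3 G) (hT : T1only G) : Goal G := by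
  have key : ∀ n : ℕ, ∀ (G : SimpleGraph V) [DecidableRel G.Adj], G.edgeSet.ncard = n →
      Sub3 G → T1only G → Goal G := by
    intro n
    induction n using Nat.strong_induction_on with
    | _ n ih =>
      intro G _ hn h3 hT
      by_cases hc : CutConn G
      · exact H G h3 hT hc
      · unfold CutConn at hc
        push Not at hc
        obtain ⟨S, hS, ⟨v, hv, hdv⟩, w, hdw, hw⟩ := hc
        have hS' : ∀ v w, G.Adj v w → v ∈ Sᶜ → w ∈ Sᶜ :=
          fun v w h hv hw => hv (hS w v h.symm hw)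
        letI i1 : DecidableRel (redRes G S).Adj := Classical.decRel _
        letI i2 : DecidableRel (redRes G Sᶜ).Adj := Classical.decRel _
        have p1 := red_res_sub hS h3 hT
        have p2 := red_res_sub hS' h3 hT
        have l1 : (redRes G S).edgeSet.ncard < n := hn ▸ red_res_lt hw hdw
        have l2 : (redRes G Sᶜ).edgeSet.ncard < n :=
          hn ▸ red_res_lt (S := Sᶜ) (fun h => h hv) hdv
        exact red_glue hS (ih _ l1 _ rfl p1.1 p1.2) (ih _ l2 _ rfl p2.1 p2.2)
  exact key _ G rfl h3 hT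

theorem red_avoid (a b c d : ℕ) : ∃ x : ℕ, 1 ≤ x ∧ x ≤ 5 ∧ x ≠ a ∧ x ≠ b ∧ x ≠ c ∧ x ≠ d := by
  by_contra h
  push Not at h
  have h1 := h 1
  have h2 := h 2
  have h3 := h 3
  have h4 := h 4
  have h5 := h 5
  omega

theorem red_sum_two {v a b : V} (hab : a ≠ b) (h : ∀ w, G.Adj v w ↔ w = a ∨ w = b)
    (f : V → ℕ) : ∑ w ∈ G.neighborFinset v, f w = f a + f b := by
  have e : G.neighborFinset v = {a, b} := by
    ext w
    rw [SimpleGraph.mem_neighborFinset, h, Finset.mem_insert, Finset.mem_singleton]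
  rw [e, Finset.sum_pair hab]

theorem red_sum_one {v a : V} (h : ∀ w, G.Adj v w ↔ w = a)
    (f : V → ℕ) : ∑ w ∈ G.neighborFinset v, f w = f a := by
  have e : G.neighborFinset v = {a} := by
    ext w
    rw [SimpleGraph.mem_neighborFinset, h, Finset.mem_singleton]
  rw [e, Finset.sum_singleton]

/-- Colour the edge `t t'` last. -/
theorem red_finish {t t' s : V} (c0 : Sym2 V → ℕ) (hst : s ≠ t')
    (ht : ∀ w, G.Adj t w ↔ w = s ∨ w = t')
    (ht' : (∀ w, G.Adj t' w ↔ w = t) ∨
      ∃ s', s' ≠ t ∧ (∀ w, G.Adj t' w ↔ w = s' ∨ w = t) ∧ c0 s(t, s) ≠ c0 s(t', s'))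
    (h1 : ∀ v w, G.Adj v w → v ≠ t → v ≠ t' → 1 ≤ c0 s(v, w) ∧ c0 s(v, w) ≤ 5)
    (h2 : ∀ v w w', G.Adj v w → G.Adj v w' → w ≠ w' → v ≠ t → v ≠ t' →
      c0 s(v, w) ≠ c0 s(v, w'))
    (h3 : ∀ u v, G.Adj u v → u ≠ t → u ≠ t' → v ≠ t → v ≠ t' →
      2 ≤ G.degree u ∨ 2 ≤ G.degree v →
      ∑ w ∈ G.neighborFinset u, c0 s(u, w) ≠ ∑ w ∈ G.neighborFinset v, c0 s(v, w)) :
    Goal G := by
  have htt : G.Adj t t' := (ht t').2 (Or.inr rfl)
  have hts : G.Adj t s := (ht s).2 (Or.inl rfl)
  have hne : t ≠ t' := htt.ne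
  have hs : s ≠ t := hts.ne'
  have hb : 1 ≤ c0 s(t, s) := by
    rw [Sym2.eq_swap]
    exact (h1 s t hts.symm hs hst).1
  -- data at `t'`
  obtain ⟨s', k, hk, hsum, hoth⟩ : ∃ (s' : V) (k : ℕ), k ≠ c0 s(t, s) ∧
      (∀ f : V → ℕ, (G.Adj t' s' → s' ≠ t → f s' = k) →
        ∑ w ∈ G.neighborFinset t', f w = k + f t) ∧
      ∀ w, G.Adj t' w → w ≠ t → w = s' ∧ k = c0 s(t', s') := by
    rcases ht' with h | ⟨s', hs', h, hc⟩
    · refine ⟨t, 0, by omega, fun f _ => ?_, fun w hw hwt => absurd ((h w).1 hw) hwt⟩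
      rw [red_sum_one h, zero_add]
    · refine ⟨s', c0 s(t', s'), hc.symm, fun f hf => ?_, fun w hw hwt => ?_⟩
      · rw [red_sum_two hs' h, hf ((h s').2 (Or.inl rfl)) hs']
      · exact ⟨((h w).1 hw).resolve_right hwt, rfl⟩
  obtain ⟨x, x1, x5, xa, xb, xc, xd⟩ := red_avoid (c0 s(t, s)) k
    ((∑ w ∈ G.neighborFinset s, c0 s(s, w)) - c0 s(t, s))
    ((∑ w ∈ G.neighborFinset s', c0 s(s', w)) - k)
  let c : Sym2 V → ℕ := fun e => if e = s(t, t') then x else c0 e
  have ex : c s(t, t') = x := if_pos rfl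
  have ex' : c s(t', t) = x := if_pos Sym2.eq_swap
  have eo : ∀ v w, v ≠ t → v ≠ t' → c s(v, w) = c0 s(v, w) := by
    intro v w hv hv'
    refine if_neg fun h => ?_
    rcases Sym2.eq_iff.1 h with h | h
    · exact hv h.1
    · exact hv' h.1
  have eo' : ∀ v w, w ≠ t → w ≠ t' → c s(v, w) = c0 s(v, w) := by
    intro v w hw hw'
    rw [Sym2.eq_swap, eo w v hw hw', Sym2.eq_swap]
  have so : ∀ v, v ≠ t → v ≠ t' → ∑ w ∈ G.neighborFinset v, c s(v, w) =
      ∑ w ∈ G.neighborFinset v, c0 s(v, w) :=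
    fun v hv hv' => Finset.sum_congr rfl fun w _ => eo v w hv hv'
  have st : ∑ w ∈ G.neighborFinset t, c s(t, w) = c0 s(t, s) + x := by
    rw [red_sum_two hst ht, eo' t s hs hst, ex]
  have st' : ∑ w ∈ G.neighborFinset t', c s(t', w) = k + x := by
    rw [hsum (fun w => c s(t', w)) ?_, ex']
    intro ha hn
    rw [eo' t' s' hn ha.ne']
    exact (hoth s' ha hn).2.symm
  have half : ∀ u v, G.Adj u v → u = t ∨ u = t' →
      ∑ w ∈ G.neighborFinset u, c s(u, w) ≠ ∑ w ∈ G.neighborFinset v, c s(v, w) := by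
    intro u v h hu
    rcases hu with hu | hu
    · rw [hu] at h ⊢
      rcases (ht v).1 h with hv | hv
      · rw [hv, st, so s hs hst]
        omega
      · rw [hv, st, st']
        omega
    · rw [hu] at h ⊢
      by_cases hv : v = t
      · rw [hv, st, st']
        omega
      · have hv' := (hoth v h hv).1
        rw [st', so v hv h.ne', hv']
        omega
  refine ⟨c, ?_, ?_, ?_⟩
  · intro e he
    induction e using Sym2.ind with
    | _ v w =>
      have h : G.Adj v w := he
      by_cases hv : v ≠ t ∧ v ≠ t'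
      · rw [eo v w hv.1 hv.2]
        exact h1 v w h hv.1 hv.2
      by_cases hw : w ≠ t ∧ w ≠ t'
      · rw [eo' v w hw.1 hw.2, Sym2.eq_swap]
        exact h1 w v h.symm hw.1 hw.2
      have hvw := h.ne
      have e : s(v, w) = s(t, t') := by
        rw [Sym2.eq_iff]
        by_cases hvt : v = t
        · by_cases hwt : w = t
          · exact absurd (hvt.trans hwt.symm) hvw
          · exact Or.inl ⟨hvt, by tauto⟩
        · have hv2 : v = t' := by tauto
          by_cases hwt : w = t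
          · exact Or.inr ⟨hv2, hwt⟩
          · have hw2 : w = t' := by tauto
            exact absurd (hv2.trans hw2.symm) hvw
      rw [e, ex]
      exact ⟨x1, x5⟩
  · intro v w w' h h' hww
    by_cases hv : v = t
    · rw [hv] at h h' ⊢
      rcases (ht w).1 h with a | a <;> rcases (ht w').1 h' with b | b
      · exact absurd (a.trans b.symm) hww
      · rw [a, b, ex, eo' t s hs hst]
        exact xa.symm
      · rw [a, b, ex, eo' t s hs hst]
        exact xa
      · exact absurd (a.trans b.symm) hww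
    by_cases hv' : v = t'
    · rw [hv'] at h h' ⊢
      by_cases a : w = t
      · have b : w' ≠ t := fun b => hww (a.trans b.symm)
        obtain ⟨e1, e2⟩ := hoth w' h' b
        rw [a, ex', eo' t' w' b h'.ne', e1, ← e2]
        exact xb
      · by_cases b : w' = t
        · obtain ⟨e1, e2⟩ := hoth w h a
          rw [b, ex', eo' t' w a h.ne', e1, ← e2]
          exact xb.symm
        · exact absurd ((hoth w h a).1.trans (hoth w' h' b).1.symm) hww
    rw [eo v w hv hv', eo v w' hv hv']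
    exact h2 v w w' h h' hww hv hv'
  · intro u v h hd
    by_cases hu : u = t ∨ u = t'
    · exact half u v h hu
    by_cases hv : v = t ∨ v = t'
    · exact (half v u h.symm hv).symm
    push Not at hu hv
    rw [so u hu.1 hu.2, so v hv.1 hv.2]
    exact h3 u v h hu.1 hu.2 hv.1 hv.2 hd

/-- Delete the edge `t t'`. -/
def redDel (G : SimpleGraph V) (t t' : V) : SimpleGraph V where
  Adj x y := G.Adj x y ∧ ¬ (x = t ∧ y = t') ∧ ¬ (x = t' ∧ y = t)
  symm := ⟨fun _ _ h => ⟨h.1.symm, fun a => h.2.2 ⟨a.2, a.1⟩, fun a => h.2.1 ⟨a.2, a.1⟩⟩⟩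
  loopless := ⟨fun _ h => h.1.ne rfl⟩

/-- Replace the edge `t' s'` by `t s'`. -/
def redMove (G : SimpleGraph V) (t t' s' : V) (h : t ≠ s') : SimpleGraph V where
  Adj x y := (redDel G t' s').Adj x y ∨ (x = t ∧ y = s') ∨ (x = s' ∧ y = t)
  symm := ⟨fun _ _ a => a.elim (fun a => Or.inl a.symm) fun a =>
    a.elim (fun a => Or.inr (Or.inr ⟨a.2, a.1⟩)) fun a => Or.inr (Or.inl ⟨a.2, a.1⟩)⟩
  loopless := ⟨fun _ a => a.elim (fun a => a.ne rfl) fun a =>
    a.elim (fun a => h (a.1.symm.trans a.2)) fun a => h (a.2.symm.trans a.1)⟩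

theorem red_del_adj {t t' v : V} (hv : v ≠ t) (hv' : v ≠ t') (w : V) :
    (redDel G t t').Adj v w ↔ G.Adj v w :=
  ⟨fun h => h.1, fun h => ⟨h, fun a => hv a.1, fun a => hv' a.1⟩⟩

theorem red_deg_le {v : V} (T : Finset V) (h : ∀ w, G.Adj v w → w ∈ T) :
    G.degree v ≤ T.card := by
  rw [← SimpleGraph.card_neighborFinset_eq_degree]
  exact Finset.card_le_card fun w hw => h w ((G.mem_neighborFinset v w).1 hw)

theorem red_two_lt {G1 : SimpleGraph V} [DecidableRel G1.Adj] {t t' : V}
    (ht : G.degree t = 2) (h1 : G1.degree t ≠ 2) (h2 : G1.degree t' ≠ 2)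
    (h : ∀ v, v ≠ t → v ≠ t' → G1.degree v = G.degree v) :
    (Finset.univ.filter fun v => G1.degree v = 2).card <
      (Finset.univ.filter fun v => G.degree v = 2).card := by
  refine Finset.card_lt_card ⟨fun v hv => ?_, fun hh => ?_⟩
  · have hv2 := (Finset.mem_filter.1 hv).2
    have a : v ≠ t := fun a => h1 (a ▸ hv2)
    have b : v ≠ t' := fun b => h2 (b ▸ hv2)
    exact Finset.mem_filter.2 ⟨Finset.mem_univ _, (h v a b).symm.trans hv2⟩
  · exact h1 (Finset.mem_filter.1 (hh (Finset.mem_filter.2 ⟨Finset.mem_univ t, ht⟩))).2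

theorem red_other {t t' : V} (hd : G.degree t = 2) (ha : G.Adj t t') :
    ∃ s, s ≠ t' ∧ ∀ w, G.Adj t w ↔ w = s ∨ w = t' := by
  rw [← SimpleGraph.card_neighborFinset_eq_degree, Finset.card_eq_two] at hd
  obtain ⟨x, y, hxy, e⟩ := hd
  have m : ∀ w, G.Adj t w ↔ w = x ∨ w = y := fun w => by
    rw [← SimpleGraph.mem_neighborFinset, e, Finset.mem_insert, Finset.mem_singleton]
  rcases (m t').1 ha with a | a
  · exact ⟨y, fun b => hxy (a.symm.trans b.symm), fun w => by rw [m, a, or_comm]⟩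
  · exact ⟨x, fun b => hxy (b.trans a), fun w => by rw [m, a]⟩

theorem red_step_del {t t' s : V} (h3 : Sub3 G) (hd : G.degree t = 2) (hst : s ≠ t')
    (ht : ∀ w, G.Adj t w ↔ w = s ∨ w = t')
    (ht' : (∀ w, G.Adj t' w ↔ w = t) ∨ ∀ w, G.Adj t' w ↔ w = s ∨ w = t)
    (ih : ∀ (G1 : SimpleGraph V) [DecidableRel G1.Adj],
      (Finset.univ.filter fun v => G1.degree v = 2).card <
        (Finset.univ.filter fun v => G.degree v = 2).card → Sub3 G1 → Goal G1) : Goal G := by
  letI i1 : DecidableRel (redDel G t t').Adj := Classical.decRel _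
  have htt : G.Adj t t' := (ht t').2 (Or.inr rfl)
  have hts : G.Adj t s := (ht s).2 (Or.inl rfl)
  have d1 : (redDel G t t').degree t ≤ 1 := by
    refine (red_deg_le {s} fun w hw => ?_).trans (Finset.card_singleton s).le
    rcases (ht w).1 hw.1 with a | a
    · exact Finset.mem_singleton.2 a
    · exact absurd ⟨rfl, a⟩ hw.2.1
  have d2 : (redDel G t t').degree t' ≤ 1 := by
    refine (red_deg_le {s} fun w hw => ?_).trans (Finset.card_singleton s).le
    rcases ht' with h | h
    · exact absurd ⟨rfl, (h w).1 hw.1⟩ hw.2.2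
    · rcases (h w).1 hw.1 with a | a
      · exact Finset.mem_singleton.2 a
      · exact absurd ⟨rfl, a⟩ hw.2.2
  have dd : ∀ v, v ≠ t → v ≠ t' → (redDel G t t').degree v = G.degree v :=
    fun v a b => red_deg_eq (red_del_adj a b)
  have hs3 : Sub3 (redDel G t t') := by
    intro v
    by_cases a : v = t
    · rw [a]
      omega
    by_cases b : v = t'
    · rw [b]
      omega
    rw [dd v a b]
    exact h3 v
  obtain ⟨c, a1, b1, e1⟩ := ih (redDel G t t') (red_two_lt hd (by omega) (t' := t') (by omega) dd) hs3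
  refine red_finish c hst ht ?_ ?_ ?_ ?_
  · rcases ht' with h | h
    · exact Or.inl h
    · refine Or.inr ⟨s, hts.ne', h, ?_⟩
      rw [Sym2.eq_swap, Sym2.eq_swap (a := t')]
      exact b1 s t t' ((red_del_adj hts.ne' hst t).2 hts.symm)
        ((red_del_adj hts.ne' hst t').2 ((h s).2 (Or.inl rfl)).symm) htt.ne
  · intro v w h a b
    exact a1 _ ((red_del_adj a b w).2 h)
  · intro v w w' h h' hww a b
    exact b1 v w w' ((red_del_adj a b w).2 h) ((red_del_adj a b w').2 h') hww
  · intro u v h a b a' b' hh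
    rw [← red_nb_eq (red_del_adj (G := G) a b), ← red_nb_eq (red_del_adj (G := G) a' b')]
    refine e1 u v ((red_del_adj a b v).2 h) ?_
    rw [dd u a b, dd v a' b']
    exact hh

theorem red_step_move {t t' s s' : V} (h3 : Sub3 G) (hd : G.degree t = 2) (hst : s ≠ t')
    (ht : ∀ w, G.Adj t w ↔ w = s ∨ w = t') (hs't : s' ≠ t) (hss : s' ≠ s)
    (ht' : ∀ w, G.Adj t' w ↔ w = s' ∨ w = t)
    (ih : ∀ (G1 : SimpleGraph V) [DecidableRel G1.Adj],
      (Finset.univ.filter fun v => G1.degree v = 2).card <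
        (Finset.univ.filter fun v => G.degree v = 2).card → Sub3 G1 → Goal G1) : Goal G := by
  letI i1 : DecidableRel (redMove G t t' s' hs't.symm).Adj := Classical.decRel _
  have htt : G.Adj t t' := (ht t').2 (Or.inr rfl)
  have hts : G.Adj t s := (ht s).2 (Or.inl rfl)
  have hts' : G.Adj t' s' := (ht' s').2 (Or.inl rfl)
  have hne : t ≠ t' := htt.ne
  have hne' : s' ≠ t' := hts'.ne'
  have hna : ¬ G.Adj s' t := fun h => ((ht s').1 h.symm).elim hss hne'
  have ao : ∀ v, v ≠ t → v ≠ t' → v ≠ s' → ∀ w,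
      (redMove G t t' s' hs't.symm).Adj v w ↔ G.Adj v w := by
    intro v a b c w
    constructor
    · rintro (h | h | h)
      · exact h.1
      · exact absurd h.1 a
      · exact absurd h.1 c
    · exact fun h => Or.inl ((red_del_adj b c w).2 h)
  have as : ∀ w, (redMove G t t' s' hs't.symm).Adj s' w ↔ w = t ∨ (w ≠ t' ∧ G.Adj s' w) := by
    intro w
    constructor
    · rintro (h | h | h)
      · exact Or.inr ⟨fun a => h.2.2 ⟨rfl, a⟩, h.1⟩
      · exact absurd h.1 hs't
      · exact Or.inl h.2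
    · rintro (h | h)
      · exact Or.inr (Or.inr ⟨rfl, h⟩)
      · exact Or.inl ⟨h.2, fun a => hne' a.1, fun a => h.1 a.2⟩
  have ns : (redMove G t t' s' hs't.symm).neighborFinset s' =
      insert t ((G.neighborFinset s').erase t') := by
    ext w
    rw [SimpleGraph.mem_neighborFinset, as, Finset.mem_insert, Finset.mem_erase,
      SimpleGraph.mem_neighborFinset]
  have m1 : t ∉ (G.neighborFinset s').erase t' := fun h =>
    hna ((G.mem_neighborFinset s' t).1 (Finset.mem_of_mem_erase h))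
  have m2 : t' ∈ G.neighborFinset s' := (G.mem_neighborFinset s' t').2 hts'.symm
  have dd : ∀ v, v ≠ t → v ≠ t' → (redMove G t t' s' hs't.symm).degree v = G.degree v := by
    intro v a b
    by_cases c : v = s'
    · rw [c, ← SimpleGraph.card_neighborFinset_eq_degree,
        ← SimpleGraph.card_neighborFinset_eq_degree, ns, Finset.card_insert_of_notMem m1,
        Finset.card_erase_add_one m2]
    · exact red_deg_eq (ao v a b c)
  have at1 : ∀ w, (redMove G t t' s' hs't.symm).Adj t w ↔ w = s' ∨ G.Adj t w := by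
    intro w
    constructor
    · rintro (h | h | h)
      · exact Or.inr h.1
      · exact Or.inl h.2
      · exact absurd h.1.symm hs't
    · rintro (h | h)
      · exact Or.inr (Or.inl ⟨rfl, h⟩)
      · exact Or.inl ((red_del_adj hne hs't.symm w).2 h)
  have d1 : (redMove G t t' s' hs't.symm).degree t = 3 := by
    have e : (redMove G t t' s' hs't.symm).neighborFinset t = insert s' (G.neighborFinset t) := by
      ext w
      rw [SimpleGraph.mem_neighborFinset, at1, Finset.mem_insert, SimpleGraph.mem_neighborFinset]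
    rw [← SimpleGraph.card_neighborFinset_eq_degree, e, Finset.card_insert_of_notMem
      fun h => hna ((G.mem_neighborFinset t s').1 h).symm,
      SimpleGraph.card_neighborFinset_eq_degree, hd]
  have d2 : (redMove G t t' s' hs't.symm).degree t' ≤ 1 := by
    refine (red_deg_le {t} fun w hw => ?_).trans (Finset.card_singleton t).le
    rcases hw with h | h | h
    · rcases (ht' w).1 h.1 with a | a
      · exact absurd ⟨rfl, a⟩ h.2.1
      · exact Finset.mem_singleton.2 a
    · exact absurd h.1.symm hne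
    · exact absurd h.1.symm hne'
  have hs3 : Sub3 (redMove G t t' s' hs't.symm) := by
    intro v
    by_cases a : v = t
    · rw [a]
      omega
    by_cases b : v = t'
    · rw [b]
      omega
    rw [dd v a b]
    exact h3 v
  obtain ⟨c, a1, b1, e1⟩ := ih (redMove G t t' s' hs't.symm)
    (red_two_lt hd (by omega) (t' := t') (by omega) dd) hs3
  let c0 : Sym2 V → ℕ := fun e => if e = s(s', t') then c s(s', t) else c e
  have ex : c0 s(s', t') = c s(s', t) := if_pos rfl
  have eo : ∀ v w, v ≠ t' → ¬ (v = s' ∧ w = t') → c0 s(v, w) = c s(v, w) := by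
    intro v w a b
    refine if_neg fun h => ?_
    rcases Sym2.eq_iff.1 h with h | h
    · exact b h
    · exact a h.1
  -- the neighbour of `v` in the new graph that plays the role of `w`
  have tr : ∀ v w, G.Adj v w → v ≠ t → v ≠ t' → ∃ z, (redMove G t t' s' hs't.symm).Adj v z ∧
      c0 s(v, w) = c s(v, z) ∧ ((z = w ∧ ¬ (v = s' ∧ w = t')) ∨ (v = s' ∧ w = t' ∧ z = t)) := by
    intro v w h a b
    by_cases q : v = s' ∧ w = t'
    · refine ⟨t, ?_, ?_, Or.inr ⟨q.1, q.2, rfl⟩⟩
      · rw [q.1]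
        exact (as t).2 (Or.inl rfl)
      · rw [q.1, q.2, ex]
    · exact ⟨w, Or.inl ⟨h, fun z => b z.1, q⟩, eo v w b q, Or.inl ⟨rfl, q⟩⟩
  have so : ∀ v, v ≠ t → v ≠ t' → ∑ w ∈ G.neighborFinset v, c0 s(v, w) =
      ∑ w ∈ (redMove G t t' s' hs't.symm).neighborFinset v, c s(v, w) := by
    intro v a b
    by_cases q : v = s'
    · rw [q, ns, Finset.sum_insert m1, ← Finset.add_sum_erase _ _ m2, ex]
      refine congrArg _ (Finset.sum_congr rfl fun w hw => eo s' w hne' fun z => ?_)
      exact (Finset.mem_erase.1 hw).1 z.2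
    · rw [red_nb_eq (ao v a b q)]
      exact Finset.sum_congr rfl fun w _ => eo v w b fun z => q z.1
  refine red_finish c0 hst ht (Or.inr ⟨s', hs't, ht', ?_⟩) ?_ ?_ ?_
  · rw [eo t s hne fun z => hs't z.1.symm, Sym2.eq_swap (a := t'), ex, Sym2.eq_swap (a := s')]
    exact b1 t s s' ((at1 s).2 (Or.inr hts)) ((at1 s').2 (Or.inl rfl)) hss.symm
  · intro v w h a b
    obtain ⟨z, hz, e, -⟩ := tr v w h a b
    rw [e]
    exact a1 _ hz
  · intro v w w' h h' hww a b
    obtain ⟨z, hz, e, q⟩ := tr v w h a b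
    obtain ⟨z', hz', e', q'⟩ := tr v w' h' a b
    rw [e, e']
    refine b1 v z z' hz hz' fun zz => ?_
    rcases q with q | q <;> rcases q' with q' | q'
    · exact hww (q.1.symm.trans (zz.trans q'.1))
    · have : w = t := q.1.symm.trans (zz.trans q'.2.2)
      rw [q'.1, this] at h
      exact hna h
    · have : w' = t := q'.1.symm.trans (zz.symm.trans q.2.2)
      rw [q.1, this] at h'
      exact hna h'
    · exact hww (q.2.1.trans q'.2.1.symm)
  · intro u v h a b a' b' hh
    rw [so u a b, so v a' b']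
    refine e1 u v (Or.inl ⟨h, fun z => b z.1, fun z => b' z.2⟩) ?_
    rw [dd u a b, dd v a' b']
    exact hh

/-- Reduction to graphs whose vertices of degree two have only cubic neighbours. -/
theorem red_late
    (H : ∀ (G : SimpleGraph V) [DecidableRel G.Adj], Sub3 G → T1only G → Goal G)
    (G : SimpleGraph V) [DecidableRel G.Adj] (h3 : Sub3 G) : Goal G := by
  have key : ∀ n : ℕ, ∀ (G : SimpleGraph V) [DecidableRel G.Adj],
      (Finset.univ.filter fun v => G.degree v = 2).card = n → Sub3 G → Goal G := by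
    intro n
    induction n using Nat.strong_induction_on with
    | _ n ih =>
      intro G _ hn h3
      by_cases hT : T1only G
      · exact H G h3 hT
      unfold T1only at hT
      push Not at hT
      obtain ⟨t, t', hd, ha, hd'⟩ := hT
      have ih' : ∀ (G1 : SimpleGraph V) [DecidableRel G1.Adj],
          (Finset.univ.filter fun v => G1.degree v = 2).card <
            (Finset.univ.filter fun v => G.degree v = 2).card → Sub3 G1 → Goal G1 :=
        fun G1 _ hl hs => ih _ (hn ▸ hl) G1 rfl hs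
      obtain ⟨s, hst, ht⟩ := red_other hd ha
      have hp : 0 < G.degree t' := (G.degree_pos_iff_exists_adj t').2 ⟨t, ha.symm⟩
      have hle := h3 t'
      by_cases h1 : G.degree t' = 1
      · obtain ⟨y, -, hy⟩ := SimpleGraph.degree_eq_one_iff_existsUnique_adj.1 h1
        refine red_step_del h3 hd hst ht (Or.inl fun w => ⟨fun h => ?_, fun h => ?_⟩) ih'
        · exact (hy w h).trans (hy t ha.symm).symm
        · rw [h]
          exact ha.symm
      · obtain ⟨s', hs't, ht'⟩ := red_other (show G.degree t' = 2 by omega) ha.symm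
        by_cases hss : s' = s
        · exact red_step_del h3 hd hst ht (Or.inr (hss ▸ ht')) ih'
        · exact red_step_move h3 hd hst ht hs't hss ht' ih'
  exact key _ G rfl h3

end Pool.Agent.P.MP_0ad50f_co.SC
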