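import Pool.Agent.P.MP_0ad50f_co.SC.Core
import Pool.Agent.P.MP_0ad50f_co.SC.Red

namespace Pool.Agent.P.MP_0ad50f_co.SC

theorem main (V : Type) [Fintype V] [DecidableEq V] (G : SimpleGraph V) [DecidableRel G.Adj]
    (h3 : ∀ v, G.degree v ≤ 3) (h2 : ∀ u v, G.Adj u v → 2 ≤ G.degree u ∨ 2 ≤ G.degree v) :
    ∃ c : Sym2 V → ℕ, (∀ e ∈ G.edgeSet, 1 ≤ c e ∧ c e ≤ 5) ∧
      (∀ u v, G.Adj u v →
        ∑ w ∈ G.neighborFinset u, c s(u, w) ≠ ∑ w ∈ G.neighborFinset v, c s(v, w)) ∧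
      ∀ v a, ((G.neighborFinset v).filter fun w => c s(v, w) = a).card ≤ 1 := by
  obtain ⟨c, h1, hp, hs⟩ : Goal G :=
    red_late (fun G _ h3 hT => red_conn (fun G _ h3 hT hc => core0 h3 hT hc) G h3 hT) G h3
  refine ⟨c, h1, fun u v huv => hs u v huv (h2 u v huv), fun v a => ?_⟩
  rw [Finset.card_le_one]
  intro w hw w' hw'
  rw [Finset.mem_filter, SimpleGraph.mem_neighborFinset] at hw hw'
  by_contra hne
  exact hp v w w' hw.1 hw'.1 hne (hw.2.trans hw'.2.symm)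

end Pool.Agent.P.MP_0ad50f_co.SC
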