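import Pool.Agent.P.MP_0ad50f_co.SC.LiftC0

namespace Pool.Agent.P.MP_0ad50f_co.SC

variable {V : Type} [DecidableEq V]

namespace Inst

theorem liftc_mem {u z v : V} : v ∈ ({u, z} : Finset V) ↔ v = u ∨ v = z := by simp

theorem liftc_rem_A {I : Inst V} {u z v : V} :
    v ∈ (I.rem {u, z}).A ↔ v ∈ I.A ∧ v ≠ u ∧ v ≠ z := by
  simp [rem, not_or]

theorem liftc_rem_far {I : Inst V} {X : Finset V} {d : Dart V} (hd : (I.th d).1 ∉ X) :
    (I.rem X).th d = I.th d ∧ (I.rem X).kind d = I.kind d := by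
  simp [rem, hd]

theorem liftc_rem_notF {I : Inst V} {X : Finset V} {d : Dart V} (hd : (I.rem X).kind d ≠ .F) :
    (I.th d).1 ∉ X := by
  intro hX
  apply hd
  simp [rem, hX]

theorem liftc_join_far {I : Inst V} {p q d : Dart V} {k : Kind} {t : K} (hp : d ≠ p) (hq : d ≠ q) :
    (I.join p q k t).th d = I.th d ∧ (I.join p q k t).kind d = I.kind d ∧
      (I.join p q k t).g d = I.g d := by
  simp [join, hp, hq]

theorem liftc_join_p {I : Inst V} {p q : Dart V} {k : Kind} {t : K} :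
    (I.join p q k t).th p = q ∧ (I.join p q k t).kind p = k := by
  simp [join]

theorem liftc_join_q {I : Inst V} {p q : Dart V} {k : Kind} {t : K} :
    (I.join p q k t).th q = p ∧ (I.join p q k t).kind q = k := by
  refine ⟨?_, by simp [join]⟩
  by_cases h : q = p
  · simp [join, h]
  · simp [join, h]

theorem liftc_eA {I : Inst V} (h : I.WF) {a b c e : Dart V} (ha : a.1 ∈ I.A) (h3 : Three a b c)
    (h3' : Three e (I.th b) (I.th c)) : e.1 ∈ I.A := by
  have hb : b.1 ∈ I.A := by rw [h3.1]; exact ha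
  rw [← h3'.1]
  exact h.mem b hb

/-- Two different darts outside the pair that point to one vertex do not point into the pair. -/
theorem liftc_two {I : Inst V} (h : I.WF) {a b c e : Dart V} (ha : a.1 ∈ I.A) (h3 : Three a b c)
    (hz : e.1 ≠ a.1) (h3' : Three e (I.th b) (I.th c)) {d d' : Dart V} (hd : d.1 ∈ I.A)
    (hd' : d'.1 ∈ I.A) (h1 : d.1 ≠ a.1) (h2 : d.1 ≠ e.1) (h1' : d'.1 ≠ a.1) (h2' : d'.1 ≠ e.1)
    (hne : d ≠ d') (hs : (I.th d).1 = (I.th d').1) : (I.th d).1 ∉ ({a.1, e.1} : Finset V) := by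
  intro hX
  have he := liftc_eA h ha h3 h3'
  have hX' : (I.th d').1 ∈ ({a.1, e.1} : Finset V) := hs ▸ hX
  rw [liftc_mem] at hX hX'
  have k1 := leave h ha h3 h3' hd h1 h2 hX
  have k2 := leave h ha h3 h3' hd' h1' h2' hX'
  rcases k1 with k1 | k1 <;> rcases k2 with k2 | k2
  · exact hne (k1.trans k2.symm)
  · rw [k1, k2, h.inv a ha, h.inv e he] at hs
    exact hz hs.symm
  · rw [k1, k2, h.inv a ha, h.inv e he] at hs
    exact hz hs
  · exact hne (k1.trans k2.symm)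

theorem liftc_dig_rem {I : Inst V} (h : I.WF) {a b c e : Dart V} (ha : a.1 ∈ I.A)
    (h3 : Three a b c) (hz : e.1 ≠ a.1) (h3' : Three e (I.th b) (I.th c))
    {a2 b2 c2 e2 : Dart V} (hd2 : I.Dig a2 b2 c2 e2) (h1 : a2.1 ≠ a.1) (h2 : a2.1 ≠ e.1) :
    (I.rem {a.1, e.1}).Dig a2 b2 c2 e2 ∧ e2.1 ∉ ({a.1, e.1} : Finset V) := by
  obtain ⟨hA, t3, kb, kc, hz2, t3'⟩ := hd2
  have hb : (I.th b2).1 ∉ ({a.1, e.1} : Finset V) :=
    liftc_two h ha h3 hz h3' (d := b2) (d' := c2) (by rw [t3.1]; exact hA) (by rw [t3.2.1]; exact hA)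
      (by rw [t3.1]; exact h1) (by rw [t3.1]; exact h2) (by rw [t3.2.1]; exact h1)
      (by rw [t3.2.1]; exact h2) t3.2.2.2.2 (t3'.1.trans t3'.2.1.symm)
  have he2 : e2.1 ∉ ({a.1, e.1} : Finset V) := t3'.1 ▸ hb
  have hc : (I.th c2).1 ∉ ({a.1, e.1} : Finset V) := by rw [t3'.2.1]; exact he2
  refine ⟨⟨liftc_rem_A.2 ⟨hA, h1, h2⟩, t3, ?_, ?_, hz2, ?_⟩, he2⟩
  · rw [(liftc_rem_far hb).2]; exact kb
  · rw [(liftc_rem_far hc).2]; exact kc
  · rw [(liftc_rem_far hb).1, (liftc_rem_far hc).1]; exact t3'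

theorem liftc_bridge_rem {I : Inst V} {X : Finset V} {d : Dart V} (hd : (I.th d).1 ∉ X)
    (hb : I.Bridge d) : (I.rem X).Bridge d := by
  obtain ⟨S, h1, h2, h3⟩ := hb
  refine ⟨S, h1, by rw [(liftc_rem_far hd).1]; exact h2, ?_⟩
  intro d' hA hk hne hS
  have hf : (I.th d').1 ∉ X := liftc_rem_notF (by rcases hk with hk | hk <;> rw [hk] <;> decide)
  rw [(liftc_rem_far hf).2] at hk
  rw [(liftc_rem_far hf).1]
  exact h3 d' (Finset.mem_sdiff.1 hA).1 hk hne hS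

theorem liftc_dig_setN {I : Inst V} (h : I.WF) {a : Dart V} (ha : a.1 ∈ I.A) (hk : I.kind a = .Z)
    {a2 b2 c2 e2 : Dart V} (hd2 : I.Dig a2 b2 c2 e2) : (I.setN a).Dig a2 b2 c2 e2 := by
  obtain ⟨hA, t3, kb, kc, hz2, t3'⟩ := hd2
  have hk' : I.kind (I.th a) = .Z := (h.kind_th a ha).trans hk
  have key : ∀ d, I.kind d = .R → (I.setN a).kind d = .R := by
    intro d hd
    have n1 : d ≠ a := by rintro rfl; rw [hk] at hd; cases hd
    have n2 : d ≠ I.th a := by rintro rfl; rw [hk'] at hd; cases hd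
    simp [setN, n1, n2, hd]
  exact ⟨hA, t3, key _ kb, key _ kc, hz2, t3'⟩

theorem liftc_setN_kind {I : Inst V} {a d : Dart V} (hd : (I.setN a).kind d ≠ .N) :
    (I.setN a).kind d = I.kind d := by
  by_cases hh : d = a ∨ d = I.th a
  · exact absurd (by simp only [setN]; rw [if_pos hh]) hd
  · simp only [setN]; rw [if_neg hh]

theorem inv3_setN {I : Inst V} (h : I.WF) (hi : I.Inv3) {a : Dart V} (ha : a.1 ∈ I.A)
    (hk : I.kind a = .Z) : (I.setN a).Inv3 := by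
  intro d hA hd
  have hd0 : I.kind d = .Z := by
    rw [← liftc_setN_kind (a := a) (by rw [hd]; decide)]; exact hd
  rcases hi d hA hd0 with ⟨S, h1, h2, h3⟩ | ⟨b, c, e, hg⟩ | ⟨b, c, e, hg⟩
  · refine Or.inl ⟨S, h1, h2, ?_⟩
    intro d' hA' hk' hne hS
    rw [liftc_setN_kind (by rcases hk' with hk' | hk' <;> rw [hk'] <;> decide)] at hk'
    exact h3 d' hA' hk' hne hS
  · exact Or.inr (Or.inl ⟨b, c, e, liftc_dig_setN h ha hk hg⟩)
  · exact Or.inr (Or.inr ⟨b, c, e, liftc_dig_setN h ha hk hg⟩)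

theorem inv3_rem {I : Inst V} (h : I.WF) (hi : I.Inv3) {a b c e : Dart V} (hd : I.Dig a b c e)
    (hk : I.kind a = .Z) : (I.rem {a.1, e.1}).Inv3 := by
  obtain ⟨ha, h3, -, -, hz, h3'⟩ := hd
  intro d hA hd
  obtain ⟨hA0, h1, h2⟩ := liftc_rem_A.1 hA
  have hf : (I.th d).1 ∉ ({a.1, e.1} : Finset V) := liftc_rem_notF (by rw [hd]; decide)
  have hd0 : I.kind d = .Z := by rw [← (liftc_rem_far hf).2]; exact hd
  have hf' := hf
  rw [liftc_mem, not_or] at hf'
  rcases hi d hA0 hd0 with hb | ⟨b2, c2, e2, hg⟩ | ⟨b2, c2, e2, hg⟩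
  · exact Or.inl (liftc_bridge_rem hf hb)
  · exact Or.inr (Or.inl ⟨b2, c2, e2, (liftc_dig_rem h ha h3 hz h3' hg h1 h2).1⟩)
  · refine Or.inr (Or.inr ⟨b2, c2, e2, ?_⟩)
    rw [(liftc_rem_far hf).1]
    exact (liftc_dig_rem h ha h3 hz h3' hg hf'.1 hf'.2).1

theorem dig_D0r {I : Inst V} (h : I.WF) {a b c e : Dart V} (hd : I.Dig a b c e)
    (hk : I.kind a = .Z) (hne : I.th a ≠ e) (t : K) {a2 b2 c2 e2 : Dart V}
    (hd2 : I.Dig a2 b2 c2 e2) (h1 : a2.1 ≠ a.1) (h2 : a2.1 ≠ e.1) :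
    ((I.rem {a.1, e.1}).join (I.th a) (I.th e) .R t).Dig a2 b2 c2 e2 ∧
      ((I.rem {a.1, e.1}).join (I.th a) (I.th e) .R t).g b2 = I.g b2 ∧
      ((I.rem {a.1, e.1}).join (I.th a) (I.th e) .R t).g c2 = I.g c2 := by
  obtain ⟨ha, h3, -, -, hz, h3'⟩ := hd
  have he := liftc_eA h ha h3 h3'
  obtain ⟨⟨hA, t3, kb, kc, hz2, t3'⟩, he2⟩ := liftc_dig_rem h ha h3 hz h3' hd2 h1 h2
  rw [liftc_mem, not_or] at he2
  have key : ∀ d : Dart V, (I.th d).1 = e2.1 → d ≠ I.th a ∧ d ≠ I.th e := by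
    intro d hd
    constructor
    · rintro rfl
      rw [h.inv a ha] at hd
      exact he2.1 hd.symm
    · rintro rfl
      rw [h.inv e he] at hd
      exact he2.2 hd.symm
  have nb := key b2 hd2.2.2.2.2.2.1
  have nc := key c2 hd2.2.2.2.2.2.2.1
  have jb := liftc_join_far (I := I.rem {a.1, e.1}) (k := .R) (t := t) nb.1 nb.2
  have jc := liftc_join_far (I := I.rem {a.1, e.1}) (k := .R) (t := t) nc.1 nc.2
  refine ⟨⟨hA, t3, ?_, ?_, hz2, ?_⟩, jb.2.2, jc.2.2⟩
  · rw [jb.2.1]; exact kb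
  · rw [jc.2.1]; exact kc
  · rw [jb.1, jc.1]; exact t3'

theorem inv3_D0r {I : Inst V} (h : I.WF) (hi : I.Inv3) {a b c e : Dart V} (hd : I.Dig a b c e)
    (hk : I.kind a = .Z) (hke : I.kind e = .R ∨ I.kind e = .Z) (hne : I.th a ≠ e) (t : K) :
    ((I.rem {a.1, e.1}).join (I.th a) (I.th e) .R t).Inv3 := by
  have hdig := hd
  obtain ⟨ha, h3, kb, kc, hz, h3'⟩ := hd
  have he := liftc_eA h ha h3 h3'
  have hbA : b.1 ∈ I.A := by rw [h3.1]; exact ha
  intro d hA hd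
  obtain ⟨hA0, h1, h2⟩ := liftc_rem_A.1 hA
  have np : d ≠ I.th a := by
    rintro rfl
    rw [liftc_join_p.2] at hd
    cases hd
  have nq : d ≠ I.th e := by
    rintro rfl
    rw [liftc_join_q.2] at hd
    cases hd
  have jd := liftc_join_far (I := I.rem {a.1, e.1}) (k := .R) (t := t) np nq
  rw [jd.2.1] at hd
  have hf : (I.th d).1 ∉ ({a.1, e.1} : Finset V) := liftc_rem_notF (by rw [hd]; decide)
  have hd0 : I.kind d = .Z := by rw [← (liftc_rem_far hf).2]; exact hd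
  have hth := jd.1.trans (liftc_rem_far hf).1
  have hf' := hf
  rw [liftc_mem, not_or] at hf'
  rcases hi d hA0 hd0 with ⟨S, s1, s2, s3⟩ | ⟨b2, c2, e2, hg⟩ | ⟨b2, c2, e2, hg⟩
  · refine Or.inl ⟨S, s1, by rw [hth]; exact s2, ?_⟩
    intro d' hA' hk' hne' hS
    have hA0' := (liftc_rem_A.1 hA').1
    by_cases q1 : d' = I.th a
    · subst q1
      rw [liftc_join_p.1]
      have u1 := s3 (I.th a) hA0' (Or.inr ((h.kind_th a ha).trans hk)) hne' hS
      rw [h.inv a ha] at u1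
      have u2 := s3 b hbA (Or.inl kb) (by rintro rfl; exact h1 h3.1) (by rw [h3.1]; exact u1)
      rw [h3'.1] at u2
      exact s3 e he hke (by rintro rfl; exact h2 rfl) u2
    · by_cases q2 : d' = I.th e
      · subst q2
        rw [liftc_join_q.1]
        have u1 := s3 (I.th e) hA0' (by rw [h.kind_th e he]; exact hke) hne' hS
        rw [h.inv e he] at u1
        have u2 := s3 (I.th b) (h.mem b hbA) (Or.inl ((h.kind_th b hbA).trans kb))
          (by intro hh; exact h2 (hh ▸ h3'.1)) (by rw [h3'.1]; exact u1)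
        rw [h.inv b hbA, h3.1] at u2
        exact s3 a ha (Or.inr hk) (by rintro rfl; exact h1 rfl) u2
      · have jd' := liftc_join_far (I := I.rem {a.1, e.1}) (k := .R) (t := t) q1 q2
        rw [jd'.2.1] at hk'
        have hf2 : (I.th d').1 ∉ ({a.1, e.1} : Finset V) :=
          liftc_rem_notF (by rcases hk' with hk' | hk' <;> rw [hk'] <;> decide)
        rw [(liftc_rem_far hf2).2] at hk'
        rw [jd'.1, (liftc_rem_far hf2).1]
        exact s3 d' hA0' hk' hne' hS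
  · exact Or.inr (Or.inl ⟨b2, c2, e2, (dig_D0r h hdig hk hne t hg h1 h2).1⟩)
  · refine Or.inr (Or.inr ⟨b2, c2, e2, ?_⟩)
    rw [hth]
    exact (dig_D0r h hdig hk hne t hg hf'.1 hf'.2).1

/-- A dart outside the pair other than the two outer partners is unchanged. -/
theorem liftc_D0r_far {I : Inst V} (h : I.WF) {a b c e : Dart V} (hd : I.Dig a b c e) (t : K)
    {d : Dart V} (hA : d.1 ∈ I.A) (h1 : d.1 ≠ a.1) (h2 : d.1 ≠ e.1) (np : d ≠ I.th a)
    (nq : d ≠ I.th e) :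
    ((I.rem {a.1, e.1}).join (I.th a) (I.th e) .R t).th d = I.th d ∧
      ((I.rem {a.1, e.1}).join (I.th a) (I.th e) .R t).kind d = I.kind d := by
  obtain ⟨ha, h3, -, -, hz, h3'⟩ := hd
  have hf : (I.th d).1 ∉ ({a.1, e.1} : Finset V) := by
    intro hX
    rcases leave h ha h3 h3' hA h1 h2 (liftc_mem.1 hX) with k | k
    · exact np k
    · exact nq k
  have jd := liftc_join_far (I := I.rem {a.1, e.1}) (k := .R) (t := t) np nq
  exact ⟨jd.1.trans (liftc_rem_far hf).1, jd.2.1.trans (liftc_rem_far hf).2⟩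

theorem liftc_root_congr {I J : Inst V} {v : V} (hk : ∀ i, J.kind (v, i) = I.kind (v, i))
    (hr : I.Root v) : J.Root v := by
  rcases hr with ⟨i, hi⟩ | hr
  · exact Or.inl ⟨i, (hk i).trans hi⟩
  · refine Or.inr ?_
    have : J.jZN v = I.jZN v := by simp only [jZN, hk]
    rw [this]
    exact hr

theorem rootedP_D0r {I : Inst V} (h : I.WF) {a b c e : Dart V} (hd : I.Dig a b c e)
    (hk : I.kind a = .Z) (hke : I.kind e = .R ∨ I.kind e = .Z) (hne : I.th a ≠ e) (t : K)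
    (hr : I.RootedP (I.th a).1) :
    ((I.rem {a.1, e.1}).join (I.th a) (I.th e) .R t).RootedP (I.th a).1 := by
  obtain ⟨r, hr⟩ := hr
  refine ⟨fun v => if v = (I.th a).1 then 0 else r v + 1, ?_⟩
  intro v hv
  obtain ⟨hA, h1, h2⟩ := liftc_rem_A.1 hv
  by_cases hp : v = (I.th a).1
  · exact Or.inl hp
  refine Or.inr ?_
  by_cases hq : v = (I.th e).1
  · refine Or.inr ⟨(I.th e).2, ?_⟩
    have e1 : (v, (I.th e).2) = I.th e := Prod.ext hq rfl
    rw [e1, liftc_join_q.1]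
    simp [hp]
  have far : ∀ i, ((I.rem {a.1, e.1}).join (I.th a) (I.th e) .R t).th (v, i) = I.th (v, i) ∧
      ((I.rem {a.1, e.1}).join (I.th a) (I.th e) .R t).kind (v, i) = I.kind (v, i) := fun i =>
    liftc_D0r_far h hd t (d := (v, i)) hA h1 h2 (fun hh => hp (congrArg Prod.fst hh))
      (fun hh => hq (congrArg Prod.fst hh))
  rcases hr v hA with hh | hh | ⟨i, hh⟩
  · exact absurd hh hp
  · exact Or.inl (liftc_root_congr (fun i => (far i).2) hh)
  · refine Or.inr ⟨i, ?_⟩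
    rw [(far i).1]
    simp only [if_neg hp]
    split_ifs <;> omega

/-- An end of a digon with a short outer dart descends along it or to the other end. -/
theorem liftc_desc {I : Inst V} {a b c e : Dart V} (hd : I.Dig a b c e) (hk : I.kind a = .Z)
    {r : V → ℕ} (hr : I.Root a.1 ∨ ∃ i, r (I.th (a.1, i)).1 < r a.1) :
    r (I.th a).1 < r a.1 ∨ r e.1 < r a.1 := by
  obtain ⟨ha, h3, kb, kc, hz, h3'⟩ := hd
  rcases hr with (⟨i, hi⟩ | hr) | ⟨i, hi⟩
  · rcases h3.cases (a.1, i) rfl with k | k | k <;> rw [k] at hi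
    · rw [hk] at hi; cases hi
    · rw [kb] at hi; cases hi
    · rw [kc] at hi; cases hi
  · rw [h3.jZN_eq I, hk, kb, kc] at hr
    exact absurd hr (by decide)
  · rcases h3.cases (a.1, i) rfl with k | k | k <;> rw [k] at hi
    · exact Or.inl hi
    · rw [h3'.1] at hi; exact Or.inr hi
    · rw [h3'.2.1] at hi; exact Or.inr hi

theorem rooted_bad {I : Inst V} (h : I.WF) {a b c e : Dart V} (hb : I.Bad a b c e) (t : K)
    (hr : I.Rooted) : ((I.rem {a.1, e.1}).join (I.th a) (I.th e) .R t).Rooted := by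
  obtain ⟨hd, hk, hke, hw, hne, -, -⟩ := hb
  obtain ⟨r, hr⟩ := hr
  have ha := hd.1
  have he := liftc_eA h ha hd.2.1 hd.2.2.2.2.2
  refine ⟨r, ?_⟩
  intro v hv
  obtain ⟨hA, h1, h2⟩ := liftc_rem_A.1 hv
  by_cases hp : v = (I.th a).1
  · have hpq : I.th a ≠ I.th e := fun hh =>
      hd.2.2.2.2.1 (congrArg Prod.fst (h.th_inj ha he hh)).symm
    obtain ⟨d, t3⟩ := Three.third hw hpq
    have hdv : d.1 = v := by rw [hp]; exact t3.1.symm
    have far := liftc_D0r_far h hd t (d := d) (by rw [hdv]; exact hA) (by rw [hdv]; exact h1)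
      (by rw [hdv]; exact h2) t3.2.2.1 t3.2.2.2.1
    have kp : I.kind (I.th a) = .Z := (h.kind_th a ha).trans hk
    have kq : I.kind (I.th e) = .Z := (h.kind_th e he).trans hke
    have ed : (v, d.2) = d := Prod.ext hdv.symm rfl
    have d1 := liftc_desc hd hk (hr a.1 ha)
    have d2 := liftc_desc (Dig.symm h hd) hke (hr e.1 he)
    rcases hr v hA with (⟨i, hi⟩ | hh) | ⟨i, hi⟩
    · rcases t3.cases (v, i) hdv.symm with k | k | k <;> rw [k] at hi
      · exact Or.inl (Or.inl ⟨d.2, by rw [ed, far.2]; exact hi⟩)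
      · rw [kp] at hi; cases hi
      · rw [kq] at hi; cases hi
    · refine Or.inl (Or.inr ?_)
      rw [← hdv, t3.jZN_eq] at hh ⊢
      rw [kp, kq] at hh
      rw [far.2, liftc_join_p.2, liftc_join_q.2]
      revert hh
      cases I.kind d <;> decide
    · rcases t3.cases (v, i) hdv.symm with k | k | k <;> rw [k] at hi
      · exact Or.inr ⟨d.2, by rw [ed, far.1]; exact hi⟩
      · rw [h.inv a ha] at hi
        rw [← hw] at d2
        rw [← hp] at d1 d2
        omega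
      · rw [h.inv e he] at hi
        rw [← hw] at d2
        rw [← hp] at d1 d2
        omega
  · have hq : v ≠ (I.th e).1 := by rw [← hw]; exact hp
    have far : ∀ i, ((I.rem {a.1, e.1}).join (I.th a) (I.th e) .R t).th (v, i) = I.th (v, i) ∧
        ((I.rem {a.1, e.1}).join (I.th a) (I.th e) .R t).kind (v, i) = I.kind (v, i) := fun i =>
      liftc_D0r_far h hd t (d := (v, i)) hA h1 h2 (fun hh => hp (congrArg Prod.fst hh))
        (fun hh => hq (congrArg Prod.fst hh))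
    rcases hr v hA with hh | ⟨i, hh⟩
    · exact Or.inl (liftc_root_congr (fun i => (far i).2) hh)
    · exact Or.inr ⟨i, by rw [(far i).1]; exact hh⟩

theorem liftc_gad_rem {I : Inst V} (h : I.WF) {a b c e : Dart V} (ha : a.1 ∈ I.A)
    (h3 : Three a b c) (hz : e.1 ≠ a.1) (h3' : Three e (I.th b) (I.th c))
    {a2 b2 c2 e2 : Dart V} (hg : I.Gad a2 b2 c2 e2)
    (ho : a2.1 ∉ ({a.1, e.1} : Finset V) ∨ e2.1 ∉ ({a.1, e.1} : Finset V)) :
    (I.rem {a.1, e.1}).Gad a2 b2 c2 e2 := by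
  obtain ⟨hA, t3, kb, kc, hz2, t3', ka, ke, hw, hne⟩ := hg
  have hbA : b2.1 ∈ I.A := by rw [t3.1]; exact hA
  have hcA : c2.1 ∈ I.A := by rw [t3.2.1]; exact hA
  have heA := liftc_eA h hA t3 t3'
  have both : a2.1 ∉ ({a.1, e.1} : Finset V) ∧ e2.1 ∉ ({a.1, e.1} : Finset V) := by
    rcases ho with ho | ho
    · refine ⟨ho, ?_⟩
      rw [liftc_mem, not_or] at ho
      have := liftc_two h ha h3 hz h3' hbA hcA (by rw [t3.1]; exact ho.1) (by rw [t3.1]; exact ho.2)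
        (by rw [t3.2.1]; exact ho.1) (by rw [t3.2.1]; exact ho.2) t3.2.2.2.2
        (t3'.1.trans t3'.2.1.symm)
      rw [t3'.1] at this
      exact this
    · refine ⟨?_, ho⟩
      rw [liftc_mem, not_or] at ho
      have := liftc_two h ha h3 hz h3' (h.mem b2 hbA) (h.mem c2 hcA) (by rw [t3'.1]; exact ho.1)
        (by rw [t3'.1]; exact ho.2) (by rw [t3'.2.1]; exact ho.1) (by rw [t3'.2.1]; exact ho.2)
        t3'.2.2.2.2 (by rw [h.inv b2 hbA, h.inv c2 hcA, t3.1, t3.2.1])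
      rw [h.inv b2 hbA, t3.1] at this
      exact this
  have n1 := both.1
  have n2 := both.2
  rw [liftc_mem, not_or] at n1 n2
  have fa : (I.th a2).1 ∉ ({a.1, e.1} : Finset V) :=
    liftc_two h ha h3 hz h3' hA heA n1.1 n1.2 n2.1 n2.2
      (fun hh => hz2 (congrArg Prod.fst hh).symm) hw
  have fe : (I.th e2).1 ∉ ({a.1, e.1} : Finset V) := hw ▸ fa
  have fb : (I.th b2).1 ∉ ({a.1, e.1} : Finset V) := by rw [t3'.1]; exact both.2
  have fc : (I.th c2).1 ∉ ({a.1, e.1} : Finset V) := by rw [t3'.2.1]; exact both.2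
  refine ⟨liftc_rem_A.2 ⟨hA, n1.1, n1.2⟩, t3, ?_, ?_, hz2, ?_, ?_, ?_, ?_, ?_⟩
  · rw [(liftc_rem_far fb).2]; exact kb
  · rw [(liftc_rem_far fc).2]; exact kc
  · rw [(liftc_rem_far fb).1, (liftc_rem_far fc).1]; exact t3'
  · rw [(liftc_rem_far fa).2]; exact ka
  · rw [(liftc_rem_far fe).2]; exact ke
  · rw [(liftc_rem_far fa).1, (liftc_rem_far fe).1]; exact hw
  · rw [(liftc_rem_far fa).1]; exact hne

theorem inv_rem_gad {I : Inst V} (h : I.WF) (hi : I.Inv) {a b c e : Dart V}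
    (hd : I.Gad a b c e) : (I.rem {a.1, e.1}).Inv := by
  obtain ⟨ha, h3, -, -, hz, h3', -⟩ := hd
  intro d hA hd
  obtain ⟨hA0, h1, h2⟩ := liftc_rem_A.1 hA
  have hf : (I.th d).1 ∉ ({a.1, e.1} : Finset V) := liftc_rem_notF (by rw [hd]; decide)
  have hd0 : I.kind d = .Z := by rw [← (liftc_rem_far hf).2]; exact hd
  have hf' := hf
  rw [liftc_mem, not_or] at hf'
  have hd1 : d.1 ∉ ({a.1, e.1} : Finset V) := by
    rw [liftc_mem, not_or]; exact ⟨h1, h2⟩
  rcases hi d hA0 hd0 with hb | ⟨b2, c2, e2, hg⟩ | ⟨b2, c2, e2, hg⟩ | ⟨a2, b2, c2, e2, hg, hl⟩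
  · exact Or.inl (liftc_bridge_rem hf hb)
  · exact Or.inr (Or.inl ⟨b2, c2, e2, (liftc_dig_rem h ha h3 hz h3' hg h1 h2).1⟩)
  · refine Or.inr (Or.inr (Or.inl ⟨b2, c2, e2, ?_⟩))
    rw [(liftc_rem_far hf).1]
    exact (liftc_dig_rem h ha h3 hz h3' hg hf'.1 hf'.2).1
  · refine Or.inr (Or.inr (Or.inr ⟨a2, b2, c2, e2, liftc_gad_rem h ha h3 hz h3' hg ?_, ?_⟩))
    · rcases hl with hl | hl | hl | hl
      · exact Or.inl (hl ▸ hd1)
      · exact Or.inr (hl ▸ hd1)
      · exact Or.inl (hl ▸ hf)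
      · exact Or.inr (hl ▸ hf)
    · rw [(liftc_rem_far hf).1]
      exact hl

end Inst

end Pool.Agent.P.MP_0ad50f_co.SC
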