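import Pool.Agent.P.MP_0ad50f_co.SC.CL
import Pool.Agent.P.MP_0ad50f_co.SC.LiftC

namespace Pool.Agent.P.MP_0ad50f_co.SC

variable {V : Type} [DecidableEq V]

namespace Inst

theorem ap_noF {I : Inst V} (hr : ∀ v ∈ I.A, ¬ I.Root v) {d : Dart V} (hd : d.1 ∈ I.A) :
    I.kind d ≠ .F := fun e => hr d.1 hd (Or.inl ⟨d.2, e⟩)

theorem ap_RN {I : Inst V} (hZ : I.NoK .Z) (hr : ∀ v ∈ I.A, ¬ I.Root v) {d : Dart V}
    (hd : d.1 ∈ I.A) : I.kind d = .R ∨ I.kind d = .N := by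
  have h1 := hZ d hd
  have h2 := ap_noF hr hd
  cases e : I.kind d with
  | R => exact Or.inl rfl
  | N => exact Or.inr rfl
  | Z => exact absurd e h1
  | F => exact absurd e h2

theorem ap_N_of_RR {I : Inst V} (hZ : I.NoK .Z) (hr : ∀ v ∈ I.A, ¬ I.Root v) {a b c : Dart V}
    (ha : a.1 ∈ I.A) (h3 : Three a b c) (hb : I.kind b = .R) (hc : I.kind c = .R) :
    I.kind a = .N := by
  rcases ap_RN hZ hr ha with e | e
  · exfalso
    apply hr a.1 ha
    right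
    rw [h3.jZN_eq I, e, hb, hc]
    decide
  · exact e

theorem ap_cases {I : Inst V} (hZ : I.NoK .Z) (hr : ∀ v ∈ I.A, ¬ I.Root v) {a b c : Dart V}
    (ha : a.1 ∈ I.A) (h3 : Three a b c) (hk : I.kind a = .N) :
    (I.kind b = .N ∧ I.kind c = .N) ∨ (I.kind b = .R ∧ I.kind c = .R) := by
  have hb : b.1 ∈ I.A := by rw [h3.1]; exact ha
  have hc : c.1 ∈ I.A := by rw [h3.2.1]; exact ha
  rcases ap_RN hZ hr hb with e1 | e1 <;> rcases ap_RN hZ hr hc with e2 | e2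
  · exact Or.inr ⟨e1, e2⟩
  · exfalso
    apply hr a.1 ha
    right
    rw [h3.jZN_eq I, hk, e1, e2]
    decide
  · exfalso
    apply hr a.1 ha
    right
    rw [h3.jZN_eq I, hk, e1, e2]
    decide
  · exact Or.inl ⟨e1, e2⟩

theorem ap_rem_th {I : Inst V} {X : Finset V} {d : Dart V} (h : (I.th d).1 ∉ X) :
    (I.rem X).th d = I.th d := if_neg h

theorem ap_rem_th' {I : Inst V} {X : Finset V} {d : Dart V} (h : (I.th d).1 ∈ X) :
    (I.rem X).th d = d := if_pos h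

theorem ap_rem_kind {I : Inst V} {X : Finset V} {d : Dart V} (h : (I.th d).1 ∉ X) :
    (I.rem X).kind d = I.kind d := if_neg h

theorem ap_rem_kind' {I : Inst V} {X : Finset V} {d : Dart V} (h : (I.th d).1 ∈ X) :
    (I.rem X).kind d = .F := if_pos h

theorem ap_rem_mem {I : Inst V} {X : Finset V} {v : V} : v ∈ (I.rem X).A ↔ v ∈ I.A ∧ v ∉ X :=
  Finset.mem_sdiff

theorem ap_noZ_rem {I : Inst V} (hZ : I.NoK .Z) (X : Finset V) : (I.rem X).NoK .Z := by
  intro d hd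
  by_cases e : (I.th d).1 ∈ X
  · rw [ap_rem_kind' e]; decide
  · rw [ap_rem_kind e]; exact hZ d (ap_rem_mem.1 hd).1

theorem ap_join_th {I : Inst V} {p q d : Dart V} {k : Kind} {t : K} (h1 : d ≠ p) (h2 : d ≠ q) :
    (I.join p q k t).th d = I.th d := by
  show (if d = p then q else if d = q then p else I.th d) = I.th d
  rw [if_neg h1, if_neg h2]

theorem ap_join_thq {I : Inst V} {p q : Dart V} {k : Kind} {t : K} (h1 : q ≠ p) :
    (I.join p q k t).th q = p := by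
  show (if q = p then q else if q = q then p else I.th q) = p
  rw [if_neg h1, if_pos rfl]

theorem ap_join_kind {I : Inst V} {p q d : Dart V} {k : Kind} {t : K} (h1 : d ≠ p) (h2 : d ≠ q) :
    (I.join p q k t).kind d = I.kind d := if_neg (not_or.2 ⟨h1, h2⟩)

theorem ap_join_kind' {I : Inst V} {p q d : Dart V} {k : Kind} {t : K} (h1 : d = p ∨ d = q) :
    (I.join p q k t).kind d = k := if_pos h1

theorem ap_join_g {I : Inst V} {p q d : Dart V} {k : Kind} {t : K} (h1 : d ≠ p) (h2 : d ≠ q) :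
    (I.join p q k t).g d = I.g d := if_neg (not_or.2 ⟨h1, h2⟩)

theorem ap_noZ_join {I : Inst V} (hZ : I.NoK .Z) (p q : Dart V) (t : K) :
    (I.join p q .N t).NoK .Z := by
  intro d hd
  by_cases e : d = p ∨ d = q
  · rw [ap_join_kind' e]; decide
  · rw [ap_join_kind (not_or.1 e).1 (not_or.1 e).2]; exact hZ d hd

theorem ap_flip {I : Inst V} (h : I.WF) {a b : Dart V} (ha : a.1 ∈ I.A) (e : I.th a = b) :
    I.th b = a := by
  rw [← e, h.inv a ha]

theorem ap_sum_ne : ∀ x y : K, x ≠ y → x + y ≠ 0 := by decide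

theorem ap_theta {I : Inst V} (h : I.WF) (hl : I.LoopsOK) {a b c e : Dart V} (hd : I.Dig a b c e)
    (hk : I.kind a = .N) (hg : I.g b ≠ I.g c) (hae : I.th a = e)
    (hrk : ∃ r : V → ℕ, ∀ v ∈ I.A, v ≠ a.1 → v ≠ e.1 → v = (I.th e).1 ∨
      ∃ i, (I.th (v, i)).1 ≠ a.1 ∧ (I.th (v, i)).1 ≠ e.1 ∧ r (I.th (v, i)).1 < r v) :
    I.Solv := by
  obtain ⟨ha, h3, hb, hc, hz, h3'⟩ := hd
  obtain ⟨r, hr⟩ := hrk
  have hbA : b.1 ∈ I.A := by rw [h3.1]; exact ha
  have hcA : c.1 ∈ I.A := by rw [h3.2.1]; exact ha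
  have hea : I.th e = a := ap_flip h ha hae
  obtain ⟨J, -, -, hJ, hA, -⟩ := ne_core (b' := I.th b) (c' := I.th c) h hl ha hk
    (by rw [hae]; exact hz) h3 (by rw [hae]; exact h3') hb hc
    (by rw [h.kind_th b hbA, hb]) (by rw [h.kind_th c hcA, hc])
    (by
      rintro ⟨e1, -⟩
      apply hz
      rw [← h3'.1, e1, h3.2.1])
    (fun e1 => hg e1.2.2)
  have hno : ∀ n, ∀ v ∈ I.A, v ≠ a.1 → v ≠ e.1 → r v = n → False := by
    intro n
    induction n using Nat.strong_induction_on with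
    | _ n ih =>
      intro v hv h1 h2 hn
      rcases hr v hv h1 h2 with e1 | ⟨i, e1, e2, e3⟩
      · rw [hea] at e1
        exact h1 e1
      · exact ih _ (hn ▸ e3) _ (h.mem (v, i) hv) e1 e2 rfl
  have hem : ∀ v, v ∉ J.A := by
    intro v hv
    rw [hA, hae, Finset.mem_sdiff, Finset.mem_insert, Finset.mem_singleton, not_or] at hv
    exact hno _ v hv.1 hv.2.1 hv.2.2 rfl
  exact hJ ⟨fun _ => 0, fun v hv => absurd hv (hem v), fun d hv => absurd hv (hem d.1)⟩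

theorem ap_same {I : Inst V} (h : I.WF) (hl : I.LoopsOK) (hZ : I.NoK .Z) {a b c e : Dart V}
    (hd : I.Dig a b c e) (hk : I.kind a = .N) (hke : I.kind e = .N) (hg : I.g b ≠ I.g c)
    (hae : I.th a ≠ e) (heA : e.1 ∈ I.A) (hp1 : (I.th a).1 ≠ a.1) (hp2 : (I.th a).1 ≠ e.1)
    (hpq : (I.th a).1 = (I.th e).1)
    (hrk : ∃ r : V → ℕ, ∀ v ∈ I.A, v ≠ a.1 → v ≠ e.1 → v = (I.th e).1 ∨
      ∃ i, (I.th (v, i)).1 ≠ a.1 ∧ (I.th (v, i)).1 ≠ e.1 ∧ r (I.th (v, i)).1 < r v) :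
    I.Solv := by
  obtain ⟨r, hr⟩ := hrk
  have ha := hd.1
  have hroot : (I.rem {a.1, e.1}).Rooted := by
    refine ⟨r, fun v hv => ?_⟩
    rw [ap_rem_mem, Finset.mem_insert, Finset.mem_singleton, not_or] at hv
    rcases hr v hv.1 hv.2.1 hv.2.2 with e1 | ⟨i, e1, e2, e3⟩
    · left
      left
      refine ⟨(I.th e).2, ?_⟩
      rw [e1]
      apply ap_rem_kind'
      show (I.th (I.th e)).1 ∈ _
      rw [h.inv e heA]
      simp
    · right
      refine ⟨i, ?_⟩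
      rw [ap_rem_th (by simp [e1, e2])]
      exact e3
  obtain ⟨x, hx⟩ := CL _ (wf_rem h _) (loops_rem hl _) (ap_noZ_rem hZ _) hroot
  refine lift_APd h hd hk hke hae hg hx (fun e1 => absurd e1 ?_)
  refine lab_ne (hx.1 _ ?_) hpq.symm (fun e2 => hd.2.2.2.2.1 ?_)
  · rw [ap_rem_mem]
    exact ⟨h.mem a ha, by simp [hp1, hp2]⟩
  · rw [h.th_inj ha heA e2]

theorem ap_nnn {I : Inst V} (h : I.WF) (hl : I.LoopsOK) (hZ : I.NoK .Z) {a b c e d2 d3 : Dart V}
    (hd : I.Dig a b c e) (hk : I.kind a = .N) (heA : e.1 ∈ I.A)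
    (hp1 : (I.th a).1 ≠ a.1) (hp2 : (I.th a).1 ≠ e.1)
    (h3p : Three (I.th a) d2 d3) (hk2 : I.kind d2 = .N) (hk3 : I.kind d3 = .N)
    (hn3 : (I.th d3).1 ≠ (I.th a).1) {r : V → ℕ}
    (hr : ∀ v ∈ I.A, v ≠ a.1 → v ≠ e.1 → v = (I.th e).1 ∨
      ∃ i, (I.th (v, i)).1 ≠ a.1 ∧ (I.th (v, i)).1 ≠ e.1 ∧ r (I.th (v, i)).1 < r v)
    (h21 : (I.th d2).1 ≠ a.1) (h22 : (I.th d2).1 ≠ e.1) (h23 : r (I.th d2).1 < r (I.th a).1) :
    I.Solv := by
  obtain ⟨ha, h3, hb, hc, hz, h3'⟩ := hd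
  have hpA := h.mem a ha
  have h2A : d2.1 ∈ I.A := by rw [h3p.1]; exact hpA
  have h3A : d3.1 ∈ I.A := by rw [h3p.2.1]; exact hpA
  have hbA : b.1 ∈ I.A := by rw [h3.1]; exact ha
  have hn2 : (I.th d2).1 ≠ (I.th a).1 := fun e1 => by rw [e1] at h23; omega
  have hne23 : I.th d2 ≠ I.th d3 := fun e1 => h3p.2.2.2.2 (h.th_inj h2A h3A e1)
  have h3q : Three d2 d3 (I.th a) :=
    ⟨h3p.2.1.trans h3p.1.symm, h3p.1.symm, h3p.2.2.2.2, h3p.2.2.1.symm, h3p.2.2.2.1.symm⟩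
  refine lift_C3 h h2A h3q hk2 hk3 (by rw [h.kind_th a ha, hk]) (by rw [h3p.1]; exact hn2)
    (by rw [h3p.1]; exact hn3) (by rw [h.inv a ha, h3p.1]; exact hp1.symm) ?_
  rw [h3p.1]
  refine CL _ ?_ (loops_join (loops_rem hl _) (Or.inl rfl)) (ap_noZ_join (ap_noZ_rem hZ _) _ _ _) ?_
  · refine wf_join (wf_rem h _) ?_ ?_ hne23 ?_ ?_ (Or.inr rfl) 0
    · exact ap_rem_mem.2 ⟨h.mem d2 h2A, by simp [hn2]⟩
    · exact ap_rem_mem.2 ⟨h.mem d3 h3A, by simp [hn3]⟩
    · apply ap_rem_kind'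
      rw [h.inv d2 h2A, h3p.1]
      simp
    · apply ap_rem_kind'
      rw [h.inv d3 h3A, h3p.2.1]
      simp
  · have keep : ∀ d : Dart V, d.1 ∈ I.A → (I.th d).1 ≠ (I.th a).1 →
        ((I.rem {(I.th a).1}).join (I.th d2) (I.th d3) .N 0).th d = I.th d := by
      intro d hdA hdn
      rw [ap_join_th, ap_rem_th (by simp [hdn])]
      · intro e1
        apply hdn
        rw [e1, h.inv d2 h2A, h3p.1]
      · intro e1
        apply hdn
        rw [e1, h.inv d3 h3A, h3p.2.1]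
    refine ⟨fun v => if v = a.1 then 0 else if v = e.1 then 1 else r v + 2, fun v hv => ?_⟩
    have hv' : v ∈ I.A ∧ v ∉ ({(I.th a).1} : Finset V) := ap_rem_mem.1 hv
    rw [Finset.mem_singleton] at hv'
    obtain ⟨hvA, hv0⟩ := hv'
    by_cases hu : v = a.1
    · left
      left
      refine ⟨a.2, ?_⟩
      rw [hu]
      show ((I.rem {(I.th a).1}).join (I.th d2) (I.th d3) .N 0).kind a = .F
      rw [ap_join_kind, ap_rem_kind' (by simp)]
      · intro e1
        exact h21 (by rw [← e1])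
      · intro e1
        exact h3p.2.2.2.1 (ap_flip h h3A e1.symm)
    right
    by_cases hw : v = e.1
    · refine ⟨(I.th b).2, ?_⟩
      have e1 : ((v, (I.th b).2) : Dart V) = I.th b := by rw [hw, ← h3'.1]
      rw [e1, keep _ (h.mem b hbA) (by rw [h.inv b hbA, h3.1]; exact hp1.symm), h.inv b hbA, h3.1]
      simp only [if_true, if_neg hu, if_pos hw]
      omega
    rcases hr v hvA hu hw with e1 | ⟨i, e1, e2, e3⟩
    · refine ⟨(I.th e).2, ?_⟩
      have e2 : ((v, (I.th e).2) : Dart V) = I.th e := by rw [e1]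
      rw [e2, keep _ (h.mem e heA) (by rw [h.inv e heA]; exact hp2.symm), h.inv e heA]
      simp only [if_true, if_neg hu, if_neg hw, if_neg hz]
      omega
    · refine ⟨i, ?_⟩
      by_cases e4 : (I.th (v, i)).1 = (I.th a).1
      · rcases h3p.cases _ e4 with e5 | e5 | e5
        · exact absurd (congrArg Prod.fst (h.th_inj (a := (v, i)) hvA ha e5)) hu
        · have e6 := ap_flip h (a := (v, i)) hvA e5
          rw [e6] at h23
          rw [e4] at e3
          exact absurd (h23.trans e3) (lt_irrefl _)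
        · have e6 := ap_flip h (a := (v, i)) hvA e5
          rw [← e6, ap_join_thq hne23.symm]
          rw [e4] at e3
          simp only [if_neg hu, if_neg hw, if_neg h21, if_neg h22]
          omega
      · rw [keep (v, i) hvA e4]
        simp only [if_neg hu, if_neg hw, if_neg e1, if_neg e2]
        omega

theorem ap_supp {I : Inst V} (h : I.WF) (hl : I.LoopsOK) (hZ : I.NoK .Z) {a b c e d2 d3 : Dart V}
    (hd : I.Dig a b c e) (hk : I.kind a = .N) (hke : I.kind e = .N) (hg : I.g b ≠ I.g c)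
    (hae : I.th a ≠ e) (heA : e.1 ∈ I.A) (hp1 : (I.th a).1 ≠ a.1) (hp2 : (I.th a).1 ≠ e.1)
    (hq1 : (I.th e).1 ≠ a.1) (hq2 : (I.th e).1 ≠ e.1) (hpq : (I.th a).1 ≠ (I.th e).1)
    (h3p : Three (I.th a) d2 d3) (hk2 : I.kind d2 = .R) (hk3 : I.kind d3 = .R) {r : V → ℕ}
    (hr : ∀ v ∈ I.A, v ≠ a.1 → v ≠ e.1 → v = (I.th e).1 ∨
      ∃ i, (I.th (v, i)).1 ≠ a.1 ∧ (I.th (v, i)).1 ≠ e.1 ∧ r (I.th (v, i)).1 < r v)
    (h21 : (I.th d2).1 ≠ a.1) (h22 : (I.th d2).1 ≠ e.1) (h23 : r (I.th d2).1 < r (I.th a).1)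
    (hno : ¬ ∃ e', I.Dig (I.th a) d2 d3 e' ∧ I.g d2 + I.g d3 = I.g b + I.g c) :
    I.Solv := by
  have ha := hd.1
  have hpA := h.mem a ha
  have h2A : d2.1 ∈ I.A := by rw [h3p.1]; exact hpA
  have h3A : d3.1 ∈ I.A := by rw [h3p.2.1]; exact hpA
  have hn2 : (I.th d2).1 ≠ (I.th a).1 := fun e1 => by rw [e1] at h23; omega
  have h2X : (I.th d2).1 ∉ ({a.1, e.1} : Finset V) := by simp [h21, h22]
  have h3X : (I.th d3).1 ∉ ({a.1, e.1} : Finset V) := by
    intro e1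
    rw [Finset.mem_insert, Finset.mem_singleton] at e1
    rcases leave h ha hd.2.1 hd.2.2.2.2.2 h3A (by rw [h3p.2.1]; exact hp1)
      (by rw [h3p.2.1]; exact hp2) e1 with e2 | e2
    · exact h3p.2.2.2.1 e2.symm
    · exact hpq (by rw [← e2, h3p.2.1])
  have w0 := wf_rem h {a.1, e.1}
  have hp0 : (I.th a).1 ∈ (I.rem {a.1, e.1}).A := ap_rem_mem.2 ⟨hpA, by simp [hp1, hp2]⟩
  have hpF : (I.rem {a.1, e.1}).kind (I.th a) = .F := by
    apply ap_rem_kind'
    rw [h.inv a ha]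
    simp
  have hA := supp_A (I.rem {a.1, e.1}) d2 d3 (I.g b + I.g c)
  have hsol : ((I.rem {a.1, e.1}).supp d2 d3 (I.g b + I.g c)).Solv := by
    refine CL _ (wf_supp w0 hp0 h3p hpF _) (loops_supp w0 (loops_rem hl _) hp0 h3p hpF ?_) ?_ ?_
    · rw [ap_rem_th h2X, ap_rem_th h3X]
      intro _ e1 e2
      obtain ⟨e', he'⟩ := Three.third e1 (fun e3 => h3p.2.2.2.2 (h.th_inj h2A h3A e3))
      exact hno ⟨e', ⟨hpA, h3p, hk2, hk3, by rw [← he'.1]; exact hn2, he'⟩, e2.symm⟩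
    · intro d hdA
      rw [hA, Finset.mem_sdiff, Finset.mem_singleton, h3p.1] at hdA
      by_cases e1 : ((I.rem {a.1, e.1}).th d).1 = (I.th a).1
      · rcases supp_near w0 hp0 h3p hpF (I.g b + I.g c) hdA.1 hdA.2 e1 with e2 | e2 | e2 | e2 <;>
          rw [e2.2.2.1] <;> decide
      · rw [(supp_far w0 hp0 h3p _ hdA.1 hdA.2 e1).2.1]
        exact ap_noZ_rem hZ _ d hdA.1
    · refine ⟨r, fun v hv => ?_⟩
      rw [hA, Finset.mem_sdiff, Finset.mem_singleton, h3p.1] at hv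
      obtain ⟨hv0, hvc⟩ := hv
      have hv1 := ap_rem_mem.1 hv0
      rw [Finset.mem_insert, Finset.mem_singleton, not_or] at hv1
      rcases hr v hv1.1 hv1.2.1 hv1.2.2 with e1 | ⟨i, e1, e2, e3⟩
      · left
        left
        refine ⟨(I.th e).2, ?_⟩
        have e2 : (I.th (v, (I.th e).2)).1 ∈ ({a.1, e.1} : Finset V) := by
          rw [e1]
          show (I.th (I.th e)).1 ∈ _
          rw [h.inv e heA]
          simp
        rw [(supp_far w0 hp0 h3p _ (d := (v, (I.th e).2)) hv0 hvc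
          (by rw [ap_rem_th' e2]; exact hvc)).2.1, ap_rem_kind' e2]
      · have e4 : (I.rem {a.1, e.1}).th (v, i) = I.th (v, i) := ap_rem_th (by simp [e1, e2])
        by_cases e5 : ((I.rem {a.1, e.1}).th (v, i)).1 = (I.th a).1
        · rcases supp_near w0 hp0 h3p hpF (I.g b + I.g c) (d := (v, i)) hv0 hvc e5 with
            e6 | e6 | e6 | e6
          · exact Or.inl (Or.inl ⟨i, e6.2.2.1⟩)
          · exact Or.inl (Or.inl ⟨i, e6.2.2.1⟩)
          · rw [e4] at e5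
            rw [e5] at e3
            have e7 := e6.1
            rw [ap_rem_th h2X] at e7
            rw [← e7] at h23
            exact absurd (h23.trans e3) (lt_irrefl _)
          · rw [e4] at e5
            rw [e5] at e3
            refine Or.inr ⟨i, ?_⟩
            rw [e6.2.2.2.1, ap_rem_th h2X]
            exact h23.trans e3
        · refine Or.inr ⟨i, ?_⟩
          rw [(supp_far w0 hp0 h3p _ (d := (v, i)) hv0 hvc e5).1, e4]
          exact e3
  obtain ⟨x, hx⟩ := hsol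
  obtain ⟨y, hy, hlab, -⟩ := sol_of_supp w0 hp0 h3p hpF (by rw [ap_rem_kind h2X, hk2])
    (by rw [ap_rem_kind h3X, hk3]) (ap_sum_ne _ _ hg)
    (by
      rw [ap_rem_th h2X]
      intro e1
      exact absurd (by rw [e1, h3p.2.1]) hn2) hx
  exact lift_APd h hd hk hke hae hg hy (fun _ => hlab)

theorem ap_chain {I : Inst V} (h : I.WF) (hl : I.LoopsOK) (hZ : I.NoK .Z)
    (hro : ∀ v ∈ I.A, ¬ I.Root v) {a b c e d2 d3 e' : Dart V}
    (hd : I.Dig a b c e) (hk : I.kind a = .N) (hg : I.g b ≠ I.g c)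
    (hae : I.th a ≠ e) (heA : e.1 ∈ I.A) (hp1 : (I.th a).1 ≠ a.1) (hp2 : (I.th a).1 ≠ e.1)
    (hpq : (I.th a).1 ≠ (I.th e).1) {r : V → ℕ}
    (hr : ∀ v ∈ I.A, v ≠ a.1 → v ≠ e.1 → v = (I.th e).1 ∨
      ∃ i, (I.th (v, i)).1 ≠ a.1 ∧ (I.th (v, i)).1 ≠ e.1 ∧ r (I.th (v, i)).1 < r v)
    (h21 : (I.th d2).1 ≠ a.1) (h22 : (I.th d2).1 ≠ e.1) (h23 : r (I.th d2).1 < r (I.th a).1)
    (hd' : I.Dig (I.th a) d2 d3 e') (hg' : I.g d2 + I.g d3 = I.g b + I.g c)
    (ih : ∀ J : Inst V, J.A.card < I.A.card → J.WF → J.LoopsOK → J.NoK .Z →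
      (∀ v ∈ J.A, ¬ J.Root v) → J.Dig a b c e → J.g b ≠ J.g c →
      (∃ r : V → ℕ, ∀ v ∈ J.A, v ≠ a.1 → v ≠ e.1 → v = (J.th e).1 ∨
        ∃ i, (J.th (v, i)).1 ≠ a.1 ∧ (J.th (v, i)).1 ≠ e.1 ∧ r (J.th (v, i)).1 < r v) → J.Solv) :
    I.Solv := by
  have ha := hd.1
  have h3 := hd.2.1
  have h3' := hd.2.2.2.2.2
  obtain ⟨hpA, h3p, hk2, hk3, hw0, h3w⟩ := id hd'
  have h2A : d2.1 ∈ I.A := by rw [h3p.1]; exact hpA
  have h3A : d3.1 ∈ I.A := by rw [h3p.2.1]; exact hpA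
  have hbA : b.1 ∈ I.A := by rw [h3.1]; exact ha
  have hcA : c.1 ∈ I.A := by rw [h3.2.1]; exact ha
  have hw1 : e'.1 ≠ a.1 := by rw [← h3w.1]; exact h21
  have hw2 : e'.1 ≠ e.1 := by rw [← h3w.1]; exact h22
  have hwA : e'.1 ∈ I.A := by rw [← h3w.1]; exact h.mem d2 h2A
  have hke' : I.kind e' = .N := ap_N_of_RR hZ hro hwA h3w (by rw [h.kind_th d2 h2A, hk2])
    (by rw [h.kind_th d3 h3A, hk3])
  have hep : I.th e' ≠ I.th a := fun e1 => hw1 (by rw [h.th_inj hwA ha e1])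
  obtain ⟨-, s3, -, -, sz, s3'⟩ := Dig.symm h hd'
  obtain ⟨ht1, ht2⟩ := outer_out h hwA s3 sz s3' (ap_noF hro hwA) hep
  have hat : a ≠ I.th e' := fun e1 => hw0 (by rw [← ap_flip h hwA e1.symm])
  refine lift_APchain h hd hk hae hg hd' hke' hg' ?_
  have hout : ∀ d : Dart V, d.1 ∈ (I.rem {(I.th a).1, e'.1}).A → d ≠ a → d ≠ I.th e' →
      (I.th d).1 ∉ ({(I.th a).1, e'.1} : Finset V) := by
    intro d hdA e1 e2 e3
    rw [ap_rem_mem, Finset.mem_insert, Finset.mem_singleton, not_or] at hdA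
    rw [Finset.mem_insert, Finset.mem_singleton] at e3
    rcases leave h hpA h3p h3w hdA.1 hdA.2.1 hdA.2.2 e3 with e4 | e4
    · exact e1 (by rw [e4, h.inv a ha])
    · exact e2 e4
  have hkind : ∀ d : Dart V, d.1 ∈ (I.rem {(I.th a).1, e'.1}).A →
      ((I.rem {(I.th a).1, e'.1}).join a (I.th e') .N 0).kind d = I.kind d := by
    intro d hdA
    by_cases e1 : d = a ∨ d = I.th e'
    · rw [ap_join_kind' e1]
      rcases e1 with e1 | e1
      · rw [e1, hk]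
      · rw [e1, h.kind_th e' hwA, hke']
    · rw [not_or] at e1
      rw [ap_join_kind e1.1 e1.2, ap_rem_kind (hout d hdA e1.1 e1.2)]
  have hth : ∀ d : Dart V, d.1 ∈ (I.rem {(I.th a).1, e'.1}).A → d ≠ a → d ≠ I.th e' →
      ((I.rem {(I.th a).1, e'.1}).join a (I.th e') .N 0).th d = I.th d := by
    intro d hdA e1 e2
    rw [ap_join_th e1 e2, ap_rem_th (hout d hdA e1 e2)]
  have haJ : a.1 ∈ (I.rem {(I.th a).1, e'.1}).A :=
    ap_rem_mem.2 ⟨ha, by simp [hp1.symm, hw1.symm]⟩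
  have heJ : e.1 ∈ (I.rem {(I.th a).1, e'.1}).A :=
    ap_rem_mem.2 ⟨heA, by simp [hp2.symm, hw2.symm]⟩
  have hbJ : b.1 ∈ (I.rem {(I.th a).1, e'.1}).A := by rw [h3.1]; exact haJ
  have hcJ : c.1 ∈ (I.rem {(I.th a).1, e'.1}).A := by rw [h3.2.1]; exact haJ
  have hbt : b ≠ I.th e' := fun e1 => hw2 (by rw [← ap_flip h hwA e1.symm, h3'.1])
  have hct : c ≠ I.th e' := fun e1 => hw2 (by rw [← ap_flip h hwA e1.symm, h3'.2.1])
  have hba : b ≠ a := h3.2.2.1.symm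
  have hca : c ≠ a := h3.2.2.2.1.symm
  have hea : e ≠ a := fun e1 => hd.2.2.2.2.1 (by rw [e1])
  refine ih _ ?_ ?_ (loops_join (loops_rem hl _) (Or.inl rfl))
    (ap_noZ_join (ap_noZ_rem hZ _) _ _ _) ?_ ?_ ?_ ⟨r, ?_⟩
  · refine Finset.card_lt_card ⟨Finset.sdiff_subset, fun e1 => ?_⟩
    exact (ap_rem_mem.1 (e1 hpA)).2 (by simp)
  · refine wf_join (wf_rem h _) haJ ?_ hat (ap_rem_kind' (by simp)) ?_ (Or.inr rfl) 0
    · exact ap_rem_mem.2 ⟨h.mem e' hwA, by simp [ht1, ht2]⟩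
    · apply ap_rem_kind'
      rw [h.inv e' hwA]
      simp
  · intro v hv hrt
    refine hro v (ap_rem_mem.1 hv).1 ?_
    rcases hrt with ⟨i, e1⟩ | e1
    · exact Or.inl ⟨i, by rw [← hkind (v, i) hv, e1]⟩
    · right
      have e2 : ((I.rem {(I.th a).1, e'.1}).join a (I.th e') .N 0).jZN v = I.jZN v := by
        unfold jZN
        refine congrArg Finset.card (Finset.filter_congr fun i _ => ?_)
        rw [hkind (v, i) hv]
      rwa [e2] at e1
  · refine ⟨haJ, h3, ?_, ?_, hd.2.2.2.2.1, ?_⟩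
    · rw [hkind b hbJ, hd.2.2.1]
    · rw [hkind c hcJ, hd.2.2.2.1]
    · rw [hth b hbJ hba hbt, hth c hcJ hca hct]
      exact h3'
  · rw [ap_join_g hba hbt, ap_join_g hca hct]
    exact hg
  · intro v hv hu hw
    have hv1 := ap_rem_mem.1 hv
    rw [Finset.mem_insert, Finset.mem_singleton, not_or] at hv1
    rcases hr v hv1.1 hu hw with e1 | ⟨i, e1, e2, e3⟩
    · left
      rw [hth e heJ hea, e1]
      intro e2
      exact hv1.2.2 (by rw [e1, ap_flip h hwA e2.symm])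
    · right
      refine ⟨i, ?_⟩
      rw [hth (v, i) hv (fun e4 => hu (congrArg Prod.fst e4))]
      · exact ⟨e1, e2, e3⟩
      · intro e4
        have e5 : I.th (v, i) = e' := ap_flip h hwA e4.symm
        rw [e5] at e3
        rw [h3w.1] at h23
        rcases hr e'.1 hwA hw1 hw2 with e6 | ⟨j, -, -, e6⟩
        · rcases h3w.cases _ e6.symm with e7 | e7 | e7
          · have e8 := ap_flip h heA e7
            rw [← e4] at e8
            exact hw (congrArg Prod.fst e8)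
          · exact hp2 (by rw [h.th_inj heA h2A e7, h3p.1])
          · exact hp2 (by rw [h.th_inj heA h3A e7, h3p.2.1])
        · rcases h3w.cases (e'.1, j) rfl with e7 | e7 | e7
          · rw [e7, ← e4] at e6
            exact absurd (e6.trans e3) (lt_irrefl _)
          · rw [e7, h.inv d2 h2A, h3p.1] at e6
            omega
          · rw [e7, h.inv d3 h3A, h3p.2.1] at e6
            omega

theorem ap_ind (n : ℕ) : ∀ (I : Inst V), I.A.card = n → I.WF → I.LoopsOK → I.NoK .Z →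
    (∀ v ∈ I.A, ¬ I.Root v) → ∀ a b c e : Dart V, I.Dig a b c e → I.g b ≠ I.g c →
    (∃ r : V → ℕ, ∀ v ∈ I.A, v ≠ a.1 → v ≠ e.1 → v = (I.th e).1 ∨
      ∃ i, (I.th (v, i)).1 ≠ a.1 ∧ (I.th (v, i)).1 ≠ e.1 ∧ r (I.th (v, i)).1 < r v) → I.Solv := by
  induction n using Nat.strong_induction_on with
  | _ n ih =>
    intro I hn h hl hZ hro a b c e hd hg hrk
    obtain ⟨ha, h3, hb, hc, hz, h3'⟩ := id hd
    obtain ⟨heA, s3, sb, sc, sz, s3'⟩ := Dig.symm h hd
    have hk := ap_N_of_RR hZ hro ha h3 hb hc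
    have hke := ap_N_of_RR hZ hro heA s3 sb sc
    by_cases hae : I.th a = e
    · exact ap_theta h hl hd hk hg hae hrk
    obtain ⟨hp1, hp2⟩ := outer_out h ha h3 hz h3' (ap_noF hro ha) hae
    obtain ⟨hq2, hq1⟩ := outer_out h heA s3 sz s3' (ap_noF hro heA)
      (fun e1 => hae (ap_flip h heA e1))
    by_cases hpq : (I.th a).1 = (I.th e).1
    · exact ap_same h hl hZ hd hk hke hg hae heA hp1 hp2 hpq hrk
    obtain ⟨r, hr⟩ := hrk
    have hpA := h.mem a ha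
    obtain ⟨i, h21, h22, h23⟩ := (hr _ hpA hp1 hp2).resolve_left hpq
    have hne : (((I.th a).1, i) : Dart V) ≠ I.th a := by
      intro e1
      rw [e1, h.inv a ha] at h21
      exact h21 rfl
    obtain ⟨d3, t3⟩ := Three.third (b := ((I.th a).1, i)) (c := I.th a) rfl hne
    have h3p : Three (I.th a) ((I.th a).1, i) d3 :=
      ⟨rfl, t3.2.1.symm, hne.symm, t3.2.2.2.1.symm, t3.2.2.1.symm⟩
    have h3A : d3.1 ∈ I.A := by rw [h3p.2.1]; exact hpA
    rcases ap_cases hZ hro hpA h3p (by rw [h.kind_th a ha, hk]) with ⟨hk2, hk3⟩ | ⟨hk2, hk3⟩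
    · refine ap_nnn h hl hZ hd hk heA hp1 hp2 h3p hk2 hk3 (fun e1 => ?_) hr h21 h22 h23
      rcases h3p.cases _ e1 with e2 | e2 | e2
      · exact hp1 (by rw [← h3p.2.1, h.th_inj h3A ha e2])
      · rw [ap_flip h h3A e2, h3p.2.1] at h23
        omega
      · exact ap_noF hro h3A ((h.free d3 h3A).2 e2)
    · by_cases hch : ∃ e', I.Dig (I.th a) ((I.th a).1, i) d3 e' ∧
          I.g ((I.th a).1, i) + I.g d3 = I.g b + I.g c
      · obtain ⟨e', hd', hg'⟩ := hch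
        exact ap_chain h hl hZ hro hd hk hg hae heA hp1 hp2 hpq hr h21 h22 h23 hd' hg'
          (fun J hJ w1 w2 w3 w4 w5 w6 w7 => ih _ (hn ▸ hJ) J rfl w1 w2 w3 w4 a b c e w5 w6 w7)
      · exact ap_supp h hl hZ hd hk hke hg hae heA hp1 hp2 hq1 hq2 hpq h3p hk2 hk3 hr h21 h22 h23 hch

theorem AP (I : Inst V) (h : I.WF) (hl : I.LoopsOK) (hZ : I.NoK .Z)
    (hr : ∀ v ∈ I.A, ¬ I.Root v) {a b c e : Dart V} (hd : I.Dig a b c e) (hg : I.g b ≠ I.g c)
    (hrk : ∃ r : V → ℕ, ∀ v ∈ I.A, v ≠ a.1 → v ≠ e.1 → v = (I.th e).1 ∨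
      ∃ i, (I.th (v, i)).1 ≠ a.1 ∧ (I.th (v, i)).1 ≠ e.1 ∧ r (I.th (v, i)).1 < r v) :
    I.Solv := by
  exact ap_ind _ I rfl h hl hZ hr a b c e hd hg hrk

theorem ap_setN_kind {I : Inst V} {a d : Dart V} {k : Kind} (hk : k ≠ .N)
    (e : (I.setN a).kind d = k) : I.kind d = k := by
  by_cases e1 : d = a ∨ d = I.th a
  · have e2 : (I.setN a).kind d = .N := if_pos e1
    exact absurd (e.symm.trans e2) hk
  · have e2 : (I.setN a).kind d = I.kind d := if_neg e1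
    exact e2.symm.trans e

theorem ap_setN_dig {I : Inst V} (h : I.WF) {a0 : Dart V} (h0 : a0.1 ∈ I.A) (hk : I.kind a0 = .Z)
    {a b c e : Dart V} (hd : I.Dig a b c e) : (I.setN a0).Dig a b c e := by
  have key : ∀ d : Dart V, I.kind d = .R → (I.setN a0).kind d = .R := by
    intro d e1
    have e2 : ¬ (d = a0 ∨ d = I.th a0) := by
      rintro (e3 | e3)
      · rw [e3, hk] at e1
        exact absurd e1 (by decide)
      · rw [e3, h.kind_th a0 h0, hk] at e1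
        exact absurd e1 (by decide)
    exact (if_neg e2).trans e1
  exact ⟨hd.1, hd.2.1, key b hd.2.2.1, key c hd.2.2.2.1, hd.2.2.2.2.1, hd.2.2.2.2.2⟩

theorem ap_allN (n : ℕ) : ∀ (I : Inst V), I.nZ = n → I.WF →
    (∀ a : Dart V, a.1 ∈ I.A → I.kind a = .Z → I.Bridge a ∨
      (∃ b c e, I.Dig a b c e ∧ I.th a ≠ e ∧ I.g b ≠ I.g c) ∨
      ∃ b c e, I.Dig (I.th a) b c e ∧ a ≠ e ∧ I.g b ≠ I.g c) → I.allN.Solv → I.Solv := by
  induction n using Nat.strong_induction_on with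
  | _ n ih =>
    intro I hn h hi hs
    have step : ∀ a : Dart V, a.1 ∈ I.A → I.kind a = .Z → (I.setN a).Solv := by
      intro a ha hk
      refine ih _ (hn ▸ nZ_setN ha hk) _ rfl (wf_setN h ha (by rw [hk]; decide)) ?_ ?_
      · intro a2 h2 hk2
        rcases hi a2 h2 (ap_setN_kind (by decide) hk2) with ⟨S, s1, s2, s3⟩ |
          ⟨b, c, e, s1, s2⟩ | ⟨b, c, e, s1, s2⟩
        · refine Or.inl ⟨S, s1, s2, fun d hd e1 => s3 d hd ?_⟩
          exact e1.imp (ap_setN_kind (by decide)) (ap_setN_kind (by decide))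
        · exact Or.inr (Or.inl ⟨b, c, e, ap_setN_dig h ha hk s1, s2⟩)
        · exact Or.inr (Or.inr ⟨b, c, e, ap_setN_dig h ha hk s1, s2⟩)
      · have e1 : (I.setN a).allN.kind = I.allN.kind := by
          funext d
          show (if (I.setN a).kind d = .Z then Kind.N else (I.setN a).kind d) =
            if I.kind d = .Z then Kind.N else I.kind d
          by_cases e2 : d = a ∨ d = I.th a
          · have e3 : (I.setN a).kind d = .N := if_pos e2
            have e4 : I.kind d = .Z := by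
              rcases e2 with e2 | e2
              · rw [e2, hk]
              · rw [e2, h.kind_th a ha, hk]
            rw [e3, if_pos e4, ite_self]
          · have e3 : (I.setN a).kind d = I.kind d := if_neg e2
            rw [e3]
        obtain ⟨x, hx1, hx2⟩ := hs
        refine ⟨x, hx1, fun d hd => ?_⟩
        have e2 := hx2 d hd
        unfold Ok at e2 ⊢
        rw [e1]
        exact e2
    by_cases hex : ∃ a : Dart V, a.1 ∈ I.A ∧ I.kind a = .Z
    · obtain ⟨a, ha, hk⟩ := hex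
      rcases hi a ha hk with s1 | ⟨b, c, e, s1, s2, s3⟩ | ⟨b, c, e, s1, s2, s3⟩
      · exact lift_B h ha hk s1 (step a ha hk)
      · exact lift_D1 h s1 hk s2 s3 (step a ha hk)
      · have hk' : I.kind (I.th a) = .Z := by rw [h.kind_th a ha, hk]
        exact lift_D1 h s1 hk' (by rw [h.inv a ha]; exact s2) s3 (step _ (h.mem a ha) hk')
    · obtain ⟨x, hx1, hx2⟩ := hs
      refine ⟨x, hx1, fun d hd => ?_⟩
      have e1 : I.allN.kind d = I.kind d := if_neg (fun e => hex ⟨d, hd, e⟩)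
      have e2 := hx2 d hd
      unfold Ok at e2 ⊢
      rw [e1] at e2
      exact e2

theorem lift_allN (I : Inst V) (h : I.WF)
    (hi : ∀ a : Dart V, a.1 ∈ I.A → I.kind a = .Z → I.Bridge a ∨
      (∃ b c e, I.Dig a b c e ∧ I.th a ≠ e ∧ I.g b ≠ I.g c) ∨
      ∃ b c e, I.Dig (I.th a) b c e ∧ a ≠ e ∧ I.g b ≠ I.g c)
    (hs : I.allN.Solv) : I.Solv := by
  exact ap_allN _ I rfl h hi hs

end Inst

end Pool.Agent.P.MP_0ad50f_co.SC
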