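import Pool.Agent.P.MP_0ad50f_co.SC.Basic

namespace Pool.Agent.P.MP_0ad50f_co.SC

variable {V : Type} [DecidableEq V]

namespace Inst

/-- Vertices that reach `T` in at most `n` steps outside `X`. -/
def reach_L (I : Inst V) (T X : Set V) : ℕ → Set V
  | 0 => T
  | n + 1 => reach_L I T X n ∪
      {v | v ∈ I.A ∧ ∃ i, (I.th (v, i)).1 ∉ X ∧ (I.th (v, i)).1 ∈ reach_L I T X n}

theorem reach_compl {I : Inst V} (h : I.WF) {a : Dart V} (ha : a.1 ∈ I.A) {S : Set V}
    (h1 : a.1 ∈ S) (h2 : (I.th a).1 ∉ S)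
    (h3 : ∀ d, d.1 ∈ I.A → I.kind d = .R ∨ I.kind d = .Z → d ≠ a → d.1 ∈ S → (I.th d).1 ∈ S) :
    (I.th a).1 ∈ Sᶜ ∧ (I.th (I.th a)).1 ∉ Sᶜ ∧
      ∀ d, d.1 ∈ I.A → I.kind d = .R ∨ I.kind d = .Z → d ≠ I.th a → d.1 ∈ Sᶜ →
        (I.th d).1 ∈ Sᶜ := by
  refine ⟨h2, ?_, ?_⟩
  · rw [h.inv a ha]
    exact fun hh => hh h1
  · intro d hd hk hda hdS hth
    apply hdS
    have := h3 (I.th d) (h.mem d hd) (by rw [h.kind_th d hd]; exact hk)
      (fun hh => hda (by rw [← hh, h.inv d hd])) hth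
    rwa [h.inv d hd] at this

theorem reach_nonroot {I : Inst V} (hN : I.NoK .N) {v : V} (hv : v ∈ I.A) (hr : ¬ I.Root v) :
    ∃ i, I.kind (v, i) = .Z := by
  by_contra hno
  apply hr
  right
  have : I.jZN v = 0 := by
    unfold jZN
    rw [Finset.card_eq_zero, Finset.filter_eq_empty_iff]
    rintro i _ (hh | hh)
    · exact hno ⟨i, hh⟩
    · exact hN (v, i) hv hh
  rw [this]
  exact Even.zero

theorem reach_theta {I : Inst V} {a b c e : Dart V} (hd : I.Dig a b c e) (he : I.th a = e)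
    (hk : I.kind a = .Z ∨ I.kind a = .N) {r : V → ℕ}
    (hr : ∀ v ∈ I.A, I.Root v ∨ ∃ i, r (I.th (v, i)).1 < r v) : r e.1 < r a.1 := by
  obtain ⟨ha, h3, kb, kc, _, h3'⟩ := hd
  rcases hr a.1 ha with (⟨i, hi⟩ | hev) | ⟨i, hi⟩
  · exfalso
    rcases h3.cases (a.1, i) rfl with h2 | h2 | h2 <;> rw [h2] at hi
    · rcases hk with hk | hk <;> rw [hk] at hi <;> cases hi
    · rw [kb] at hi; cases hi
    · rw [kc] at hi; cases hi
  · exfalso
    rw [h3.jZN_eq I, if_pos hk, kb, kc] at hev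
    revert hev
    decide
  · rcases h3.cases (a.1, i) rfl with h2 | h2 | h2 <;> rw [h2] at hi
    · rwa [he] at hi
    · rwa [h3'.1] at hi
    · rwa [h3'.2.1] at hi

/-- A rank function towards a set of targets, from the cut form of reachability. -/
theorem rank_of_cut {I : Inst V} (h : I.WF) (T : Set V) (X : Set V)
    (hT : ∀ S : Set V, (∀ d : Dart V, d.1 ∈ I.A → d.1 ∈ S → (I.th d).1 ∉ X → (I.th d).1 ∈ S) →
      ∀ v ∈ I.A, v ∉ X → v ∈ S → ∃ t ∈ T, t ∈ S) :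
    ∃ r : V → ℕ, ∀ v ∈ I.A, v ∉ X → v ∈ T ∨
      ∃ i, (I.th (v, i)).1 ∉ X ∧ r (I.th (v, i)).1 < r v := by
  classical
  have hall : ∀ v ∈ I.A, v ∉ X → ∃ n, v ∈ reach_L I T X n := by
    intro v hv hvX
    by_contra hno
    have hcl : ∀ d : Dart V, d.1 ∈ I.A → d.1 ∈ {w | ¬ ∃ n, w ∈ reach_L I T X n} →
        (I.th d).1 ∉ X → (I.th d).1 ∈ {w | ¬ ∃ n, w ∈ reach_L I T X n} := by
      intro d hd hdS hX hex
      obtain ⟨n, hn⟩ := hex
      exact hdS ⟨n + 1, Or.inr ⟨hd, d.2, hX, hn⟩⟩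
    obtain ⟨t, ht, htS⟩ := hT _ hcl v hv hvX hno
    exact htS ⟨0, ht⟩
  refine ⟨fun v => if hv : ∃ n, v ∈ reach_L I T X n then Nat.find hv else 0, ?_⟩
  intro v hv hvX
  have hex := hall v hv hvX
  have hspec := Nat.find_spec hex
  rcases hn : Nat.find hex with _ | m
  · rw [hn] at hspec
    exact Or.inl hspec
  · rw [hn] at hspec
    have hm : v ∉ reach_L I T X m := Nat.find_min hex (by omega)
    rcases hspec with h1 | ⟨_, i, hX, hi⟩
    · exact absurd h1 hm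
    · refine Or.inr ⟨i, hX, ?_⟩
      have hex' : ∃ n, (I.th (v, i)).1 ∈ reach_L I T X n := ⟨m, hi⟩
      have hle : Nat.find hex' ≤ m := Nat.find_min' hex' hi
      simp only [dif_pos hex, dif_pos hex']
      omega

theorem rooted_of_RF {I : Inst V} (h : I.WF) (hr : I.RF) : I.Rooted := by
  obtain ⟨r, hr'⟩ := rank_of_cut h {v | ∃ i, I.kind (v, i) = .F} ∅ (by
    intro S hS v hv _ hvS
    obtain ⟨d, _, hdS, hdF⟩ := hr S (fun d hd hdS => hS d hd hdS (Set.notMem_empty _)) ⟨v, hv, hvS⟩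
    exact ⟨d.1, ⟨d.2, hdF⟩, hdS⟩)
  refine ⟨r, fun v hv => ?_⟩
  rcases hr' v hv (Set.notMem_empty _) with h1 | ⟨i, _, hi⟩
  · exact Or.inl (Or.inl h1)
  · exact Or.inr ⟨i, hi⟩

theorem rootedP_of_conn {I : Inst V} (h : I.WF) (hc : I.Conn) {c : V} (hcA : c ∈ I.A) :
    I.RootedP c := by
  obtain ⟨r, hr'⟩ := rank_of_cut h {c} ∅ (by
    intro S hS v hv _ hvS
    exact ⟨c, rfl,
      hc S (fun d hd hdS => hS d hd hdS (Set.notMem_empty _)) ⟨v, hv, hvS⟩ c hcA⟩)
  refine ⟨r, fun v hv => ?_⟩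
  rcases hr' v hv (Set.notMem_empty _) with h1 | ⟨i, _, hi⟩
  · exact Or.inl h1
  · exact Or.inr (Or.inr ⟨i, hi⟩)

theorem bridge_th {I : Inst V} (h : I.WF) {a : Dart V} (ha : a.1 ∈ I.A) (hb : I.Bridge a) :
    I.Bridge (I.th a) := by
  obtain ⟨S, h1, h2, h3⟩ := hb
  obtain ⟨g1, g2, g3⟩ := reach_compl h ha h1 h2 h3
  exact ⟨Sᶜ, g1, g2, g3⟩

/-- An edge with a parallel real or short edge is not a bridge. -/
theorem not_bridge_par {I : Inst V} {a b : Dart V} (ha : a.1 ∈ I.A) (hb : b.1 = a.1)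
    (hne : b ≠ a) (hk : I.kind b = .R ∨ I.kind b = .Z) (hp : (I.th b).1 = (I.th a).1) :
    ¬ I.Bridge a := by
  rintro ⟨S, h1, h2, h3⟩
  exact h2 (hp ▸ h3 b (hb ▸ ha) hk hne (hb ▸ h1))

/-- Only the outer darts leave a digon. -/
theorem leave {I : Inst V} (h : I.WF) {a b c e : Dart V} (ha : a.1 ∈ I.A) (h3 : Three a b c)
    (h3' : Three e (I.th b) (I.th c)) {d : Dart V} (hd : d.1 ∈ I.A)
    (hdu : d.1 ≠ a.1) (hdz : d.1 ≠ e.1) (hth : (I.th d).1 = a.1 ∨ (I.th d).1 = e.1) :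
    d = I.th a ∨ d = I.th e := by
  have hb : b.1 ∈ I.A := h3.1 ▸ ha
  have hc : c.1 ∈ I.A := h3.2.1 ▸ ha
  have hdd := h.inv d hd
  rcases hth with h1 | h1
  · rcases h3.cases _ h1 with h2 | h2 | h2
    · exact Or.inl (by rw [← h2, hdd])
    · exact absurd (by rw [← hdd, h2]; exact h3'.1) hdz
    · exact absurd (by rw [← hdd, h2]; exact h3'.2.1) hdz
  · rcases h3'.cases _ h1 with h2 | h2 | h2
    · exact Or.inr (by rw [← h2, hdd])
    · exact absurd (by rw [h.th_inj hd hb h2]; exact h3.1) hdu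
    · exact absurd (by rw [h.th_inj hd hc h2]; exact h3.2.1) hdu

theorem Dig.symm {I : Inst V} (h : I.WF) {a b c e : Dart V} (hd : I.Dig a b c e) :
    I.Dig e (I.th b) (I.th c) a := by
  obtain ⟨ha, h3, kb, kc, hz, h3'⟩ := hd
  have hb : b.1 ∈ I.A := h3.1 ▸ ha
  have hc : c.1 ∈ I.A := h3.2.1 ▸ ha
  refine ⟨h3'.1 ▸ h.mem b hb, h3', ?_, ?_, hz.symm, ?_⟩
  · rw [h.kind_th b hb, kb]
  · rw [h.kind_th c hc, kc]
  · rw [h.inv b hb, h.inv c hc]
    exact h3

/-- The partner of an outer dart lies outside the digon unless the graph is a theta. -/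
theorem outer_out {I : Inst V} (h : I.WF) {a b c e : Dart V} (ha : a.1 ∈ I.A) (h3 : Three a b c)
    (hz : e.1 ≠ a.1) (h3' : Three e (I.th b) (I.th c)) (hF : I.kind a ≠ .F) (hne : I.th a ≠ e) :
    (I.th a).1 ≠ a.1 ∧ (I.th a).1 ≠ e.1 := by
  have hb : b.1 ∈ I.A := h3.1 ▸ ha
  have hc : c.1 ∈ I.A := h3.2.1 ▸ ha
  have haa := h.inv a ha
  constructor
  · intro h1
    rcases h3.cases _ h1 with h2 | h2 | h2
    · exact hF ((h.free a ha).2 h2)
    · exact hz (by rw [← h3'.1, ← h2, haa])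
    · exact hz (by rw [← h3'.2.1, ← h2, haa])
  · intro h1
    rcases h3'.cases _ h1 with h2 | h2 | h2
    · exact hne h2
    · exact h3.2.2.1 (h.th_inj ha hb h2)
    · exact h3.2.2.2.1 (h.th_inj ha hc h2)

theorem dig_kind {I : Inst V} (h : I.WF) {a b c e : Dart V} (hd : I.Dig a b c e)
    (hk : I.kind a = .Z) (hb : ¬ I.Bridge a) : I.kind e = .R ∨ I.kind e = .Z := by
  obtain ⟨ha, h3, kb, kc, hz, h3'⟩ := hd
  have hbA : b.1 ∈ I.A := h3.1 ▸ ha
  have hcA : c.1 ∈ I.A := h3.2.1 ▸ ha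
  by_cases hne : I.th a = e
  · right
    rw [← hne, h.kind_th a ha, hk]
  by_contra hno
  apply hb
  have hout := outer_out h ha h3 hz h3' (by rw [hk]; decide) hne
  refine ⟨{a.1, e.1}, Or.inl rfl, ?_, ?_⟩
  · rintro (h1 | h1)
    · exact hout.1 h1
    · exact hout.2 h1
  · intro d _ hdk hda hdS
    rcases hdS with h1 | h1
    · rcases h3.cases d h1 with h2 | h2 | h2
      · exact absurd h2 hda
      · exact Or.inr (by rw [h2]; exact h3'.1)
      · exact Or.inr (by rw [h2]; exact h3'.2.1)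
    · rcases h3'.cases d h1 with h2 | h2 | h2
      · exact absurd (h2 ▸ hdk) hno
      · exact Or.inl (by rw [h2, h.inv b hbA]; exact h3.1)
      · exact Or.inl (by rw [h2, h.inv c hcA]; exact h3.2.1)

theorem theta_not_rooted {I : Inst V} (h : I.WF) {a b c : Dart V} (hd : I.Dig a b c (I.th a))
    (hk : I.kind a = .Z ∨ I.kind a = .N) : ¬ I.Rooted := by
  rintro ⟨r, hr⟩
  have ha := hd.1
  have h1 := reach_theta hd rfl hk hr
  have h2 := reach_theta (hd.symm h) (h.inv a ha) (by rw [h.kind_th a ha]; exact hk) hr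
  omega

/-- In a connected loopless instance without roots some short edge is not a bridge. -/
theorem exists_nonbridge {I : Inst V} (h : I.WF) (hl : I.NoLoop) (hN : I.NoK .N) (hc : I.Conn)
    (hne : I.A.Nonempty) (hr : ∀ v ∈ I.A, ¬ I.Root v) :
    ∃ a : Dart V, a.1 ∈ I.A ∧ I.kind a = .Z ∧ ¬ I.Bridge a := by
  classical
  by_contra hno
  have hall : ∀ a : Dart V, a.1 ∈ I.A → I.kind a = .Z → I.Bridge a := by
    intro a ha hk
    by_contra hb
    exact hno ⟨a, ha, hk, hb⟩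
  have key : ∀ n : ℕ, ∀ (a : Dart V) (S : Set V), a.1 ∈ I.A → I.kind a = .Z → a.1 ∈ S →
      (I.th a).1 ∉ S →
      (∀ d, d.1 ∈ I.A → I.kind d = .R ∨ I.kind d = .Z → d ≠ a → d.1 ∈ S → (I.th d).1 ∈ S) →
      (I.A.filter fun v => v ∈ S).card = n → False := by
    intro n
    induction n using Nat.strong_induction_on with
    | _ n ih =>
      intro a S ha hk h1 h2 h3 hn
      have step : ∀ (d : Dart V) (S' : Set V), d.1 ∈ I.A → I.kind d = .Z → d ≠ a → d.1 ∈ S →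
          (I.th d).1 ∈ S → d.1 ∈ S' → (I.th d).1 ∉ S' →
          (∀ f, f.1 ∈ I.A → I.kind f = .R ∨ I.kind f = .Z → f ≠ d → f.1 ∈ S' →
            (I.th f).1 ∈ S') → (I.th a).1 ∉ S' → False := by
        intro d S' hd hdk hda hdS htS g1 g2 g3 g4
        refine ih _ ?_ d (S' ∩ S) hd hdk ⟨g1, hdS⟩ (fun hh => g2 hh.1) ?_ rfl
        · rw [← hn]
          apply Finset.card_lt_card
          rw [Finset.ssubset_iff_of_subset]
          · refine ⟨(I.th d).1, Finset.mem_filter.2 ⟨h.mem d hd, htS⟩, ?_⟩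
            intro hh
            simp only [Finset.mem_filter, Set.mem_inter_iff] at hh
            exact g2 hh.2.1
          · intro v hv
            simp only [Finset.mem_filter, Set.mem_inter_iff] at hv ⊢
            exact ⟨hv.1, hv.2.2⟩
        · intro f hf hfk hfd hfS
          have hS' := g3 f hf hfk hfd hfS.1
          by_cases hfa : f = a
          · exact absurd (hfa ▸ hS') g4
          · exact ⟨hS', h3 f hf hfk hfa hfS.2⟩
      have only : ∀ d : Dart V, d.1 ∈ I.A → I.kind d = .Z → d.1 ∈ S → d = a := by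
        intro d hd hdk hdS
        by_contra hda
        have htS : (I.th d).1 ∈ S := h3 d hd (Or.inr hdk) hda hdS
        obtain ⟨S', g1, g2, g3⟩ := hall d hd hdk
        by_cases g4 : (I.th a).1 ∈ S'
        · obtain ⟨k1, k2, k3⟩ := reach_compl h hd g1 g2 g3
          refine step (I.th d) S'ᶜ (h.mem d hd) (by rw [h.kind_th d hd, hdk]) ?_ htS
            (by rw [h.inv d hd]; exact hdS) k1 k2 k3 (fun hh => hh g4)
          intro hh
          apply h2
          rw [← hh, h.inv d hd]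
          exact hdS
        · exact step d S' hd hdk hda hdS htS g1 g2 g3 g4
      obtain ⟨b, c, hthree⟩ := three_exists a
      have hb : b.1 ∈ I.A := hthree.1 ▸ ha
      have hbS : b.1 ∈ S := hthree.1 ▸ h1
      have hbF : I.kind b ≠ .F := fun hh => hr b.1 hb (Or.inl ⟨b.2, hh⟩)
      have hbN : I.kind b ≠ .N := hN b hb
      have hbZ : I.kind b ≠ .Z := fun hh => hthree.2.2.1 (only b hb hh hbS).symm
      have hbR : I.kind b = .R := by
        cases hh : I.kind b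
        · rfl
        · exact absurd hh hbZ
        · exact absurd hh hbN
        · exact absurd hh hbF
      have ht : (I.th b).1 ∈ S := h3 b hb (Or.inl hbR) hthree.2.2.1.symm hbS
      obtain ⟨i, hi⟩ := reach_nonroot hN (h.mem b hb) (hr _ (h.mem b hb))
      have he := only ((I.th b).1, i) (h.mem b hb) hi ht
      apply hl b hb hbF
      rw [hthree.1, ← he]
  obtain ⟨v, hv⟩ := hne
  obtain ⟨i, hi⟩ := reach_nonroot hN hv (hr v hv)
  obtain ⟨S, h1, h2, h3⟩ := hall (v, i) hv hi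
  exact key _ (v, i) S hv hi h1 h2 h3 rfl

/-- Outside a digon whose outer edge is not a bridge, everything reaches the far partner. -/
theorem rank_outside {I : Inst V} (h : I.WF) (hN : I.NoK .N) (hF : I.NoK .F) (hc : I.Conn)
    {a b c e : Dart V} (hd : I.Dig a b c e) (hb : ¬ I.Bridge a) (hne : I.th a ≠ e) :
    ∃ r : V → ℕ, ∀ v ∈ I.A, v ≠ a.1 → v ≠ e.1 → v = (I.th e).1 ∨
      ∃ i, (I.th (v, i)).1 ≠ a.1 ∧ (I.th (v, i)).1 ≠ e.1 ∧ r (I.th (v, i)).1 < r v := by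
  obtain ⟨ha, h3, kb, kc, hz, h3'⟩ := hd
  obtain ⟨r, hr⟩ := rank_of_cut h {(I.th e).1} {a.1, e.1} (by
    intro S hS v hv hvX hvS
    refine ⟨(I.th e).1, rfl, ?_⟩
    by_contra hq
    have hstep : ∀ d : Dart V, d.1 ∈ I.A → d ≠ I.th a → d.1 ∈ S \ {a.1, e.1} →
        (I.th d).1 ∈ S \ {a.1, e.1} := by
      intro d hdA hdp hdS
      have hX : (I.th d).1 ∉ ({a.1, e.1} : Set V) := by
        intro hh
        rcases leave h ha h3 h3' hdA (fun h1 => hdS.2 (Or.inl h1)) (fun h1 => hdS.2 (Or.inr h1))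
          hh with h1 | h1
        · exact hdp h1
        · exact hq (h1 ▸ hdS.1)
      exact ⟨hS d hdA hdS.1 hX, hX⟩
    by_cases hp : (I.th a).1 ∈ S \ {a.1, e.1}
    · apply hb
      have hbr : I.Bridge (I.th a) := by
        refine ⟨S \ {a.1, e.1}, hp, ?_, fun d hdA _ hdp hdS => hstep d hdA hdp hdS⟩
        rw [h.inv a ha]
        exact fun hh => hh.2 (Or.inl rfl)
      have := bridge_th h (h.mem a ha) hbr
      rwa [h.inv a ha] at this
    · have hcl : I.Closed (S \ {a.1, e.1}) := by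
        intro d hdA hdS
        exact hstep d hdA (fun hh => hp (hh ▸ hdS)) hdS
      exact (hc _ hcl ⟨v, hv, hvS, hvX⟩ a.1 ha).2 (Or.inl rfl))
  refine ⟨r, fun v hv h1 h2 => ?_⟩
  rcases hr v hv (by rintro (hh | hh); exacts [h1 hh, h2 hh]) with g | ⟨i, g1, g2⟩
  · exact Or.inl g
  · exact Or.inr ⟨i, fun hh => g1 (Or.inl hh), fun hh => g1 (Or.inr hh), g2⟩

end Inst

end Pool.Agent.P.MP_0ad50f_co.SC
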