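import Pool.Agent.P.MP_0ad50f_co.SC.Supp
import Pool.Agent.P.MP_0ad50f_co.SC.Reach

namespace Pool.Agent.P.MP_0ad50f_co.SC

variable {V : Type} [DecidableEq V]

namespace Inst

theorem add_cut_th {I : Inst V} {a d : Dart V} (h1 : d ≠ a) (h2 : d ≠ I.th a) :
    (I.cut a).th d = I.th d := by
  simp [cut, h1, h2]

theorem add_cut_kind {I : Inst V} {a d : Dart V} (h1 : d ≠ a) (h2 : d ≠ I.th a) :
    (I.cut a).kind d = I.kind d := by
  simp [cut, h1, h2]

theorem add_cut_kind_a (I : Inst V) (a : Dart V) : (I.cut a).kind a = .F := by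
  simp [cut]

theorem add_cut_kind_th (I : Inst V) (a : Dart V) : (I.cut a).kind (I.th a) = .F := by
  simp [cut]

theorem add_cut_th_th (I : Inst V) (a : Dart V) : (I.cut a).th (I.th a) = I.th a := by
  simp [cut]

theorem add_mem_supp {I : Inst V} {a b c : Dart V} (h3 : Three a b c) (l : K) {v : V} :
    v ∈ (I.supp b c l).A ↔ v ∈ I.A ∧ v ≠ a.1 := by
  rw [supp_A, h3.1]
  simp

/-- After the first suppression the partner of `a` is still an active free dart. -/
theorem add_mid {I : Inst V} (h : I.WF) {a b c : Dart V} (ha : a.1 ∈ I.A)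
    (hne : (I.th a).1 ≠ a.1) (h3 : Three a b c) (l : K) :
    ((I.cut a).supp b c l).WF ∧ (I.th a).1 ∈ ((I.cut a).supp b c l).A ∧
      ((I.cut a).supp b c l).kind (I.th a) = .F := by
  have h0 := wf_cut h ha
  refine ⟨wf_supp h0 (a := a) ha h3 (add_cut_kind_a I a) l,
    (add_mem_supp h3 l).2 ⟨h.mem a ha, hne⟩, ?_⟩
  have := supp_far h0 (a := a) ha h3 l (d := I.th a) (h.mem a ha) hne
    (by rw [add_cut_th_th]; exact hne)
  rw [this.2.1, add_cut_kind_th]

theorem add_supp_RF {I : Inst V} (h : I.WF) {a b c : Dart V} (ha : a.1 ∈ I.A) (h3 : Three a b c)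
    (hF : I.kind a = .F) (l : K) {d : Dart V} (hd : d.1 ∈ I.A) (hdu : d.1 ≠ a.1)
    (hth : (I.th d).1 = a.1) : (I.supp b c l).kind d = .R ∨ (I.supp b c l).kind d = .F := by
  rcases supp_near h ha h3 hF l hd hdu hth with k | k | k | k
  · exact Or.inr k.2.2.1
  · exact Or.inr k.2.2.1
  · exact Or.inl k.2.2.1
  · exact Or.inl k.2.2.1

theorem add_supp_F {I : Inst V} (h : I.WF) {a b c : Dart V} (ha : a.1 ∈ I.A) (h3 : Three a b c)
    (hF : I.kind a = .F) (l : K) {d : Dart V} (hd : d.1 ∈ I.A) (hdu : d.1 ≠ a.1)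
    (hk : (I.supp b c l).kind d = .F) : I.kind d = .F ∨ I.kind b = .F ∨ I.kind c = .F := by
  by_cases hth : (I.th d).1 = a.1
  · rcases supp_near h ha h3 hF l hd hdu hth with k | k | k | k
    · exact Or.inr (Or.inr k.2.1)
    · exact Or.inr (Or.inl k.2.1)
    · rw [k.2.2.1] at hk
      exact absurd hk (by decide)
    · rw [k.2.2.1] at hk
      exact absurd hk (by decide)
  · rw [(supp_far h ha h3 l hd hdu hth).2.1] at hk
    exact Or.inl hk

theorem add_supp_noN {I : Inst V} (h : I.WF) (hN : I.NoK .N) {a b c : Dart V} (ha : a.1 ∈ I.A)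
    (h3 : Three a b c) (hF : I.kind a = .F) (l : K) : (I.supp b c l).NoK .N := by
  intro d hd
  obtain ⟨hd, hdu⟩ := (add_mem_supp h3 l).1 hd
  by_cases hth : (I.th d).1 = a.1
  · rcases add_supp_RF h ha h3 hF l hd hdu hth with k | k <;> rw [k] <;> decide
  · rw [(supp_far h ha h3 l hd hdu hth).2.1]
    exact hN d hd

theorem add_cut_noN {I : Inst V} (hN : I.NoK .N) (a : Dart V) : (I.cut a).NoK .N := by
  intro d hd
  by_cases h1 : d = a
  · rw [h1, add_cut_kind_a]
    decide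
  by_cases h2 : d = I.th a
  · rw [h2, add_cut_kind_th]
    decide
  rw [add_cut_kind h1 h2]
  exact hN d hd

/-- A closed set of the suppressed instance extends to a closed set of the instance. -/
theorem add_step {I : Inst V} (h : I.WF) {a b c : Dart V} (ha : a.1 ∈ I.A) (h3 : Three a b c)
    (hF : I.kind a = .F) (l : K) {S : Set V} (hS : (I.supp b c l).Closed S) :
    ∃ T : Set V, I.Closed T ∧ (∀ v, v ≠ a.1 → (v ∈ T ↔ v ∈ S)) ∧
      ∀ f : Dart V, f.1 ∈ I.A → f.1 ∈ T → I.kind f = .F → f ≠ a →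
        ∃ d : Dart V, d.1 ∈ (I.supp b c l).A ∧ d.1 ∈ S ∧ (I.supp b c l).kind d = .F ∧
          (d = f ∨ I.kind d ≠ .F) := by
  have hbA : b.1 ∈ I.A := h3.1 ▸ ha
  have hcA : c.1 ∈ I.A := h3.2.1 ▸ ha
  have hbc : I.th b ≠ I.th c := fun e => h3.2.2.2.2 (h.th_inj hbA hcA e)
  have haa : I.th a = a := (h.free a ha).1 hF
  have nb : (I.th b).1 ≠ a.1 →
      (I.kind c = .F ∧ (I.supp b c l).kind (I.th b) = .F) ∨
        (I.kind c ≠ .F ∧ (I.supp b c l).th (I.th b) = I.th c) := by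
    intro hb
    rcases supp_near h ha h3 hF l (h.mem b hbA) hb (by rw [h.inv b hbA]; exact h3.1) with
      k | k | k | k
    · exact Or.inl ⟨k.2.1, k.2.2.1⟩
    · exact absurd k.1 hbc
    · exact Or.inr ⟨k.2.1, k.2.2.2.1⟩
    · exact absurd k.1 hbc
  have nc : (I.th c).1 ≠ a.1 →
      (I.kind b = .F ∧ (I.supp b c l).kind (I.th c) = .F) ∨
        (I.kind b ≠ .F ∧ (I.supp b c l).th (I.th c) = I.th b) := by
    intro hc
    rcases supp_near h ha h3 hF l (h.mem c hcA) hc (by rw [h.inv c hcA]; exact h3.2.1) with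
      k | k | k | k
    · exact absurd k.1.symm hbc
    · exact Or.inl ⟨k.2.1, k.2.2.1⟩
    · exact absurd k.1.symm hbc
    · exact Or.inr ⟨k.2.1, k.2.2.2.1⟩
  have fb : (I.th b).1 ≠ a.1 → I.kind b ≠ .F := fun hb k =>
    hb (by rw [(h.free b hbA).1 k]; exact h3.1)
  have fc : (I.th c).1 ≠ a.1 → I.kind c ≠ .F := fun hc k =>
    hc (by rw [(h.free c hcA).1 k]; exact h3.2.1)
  refine ⟨{v | (v ≠ a.1 ∧ v ∈ S) ∨ (v = a.1 ∧ (((I.th b).1 ≠ a.1 ∧ (I.th b).1 ∈ S) ∨
    ((I.th c).1 ≠ a.1 ∧ (I.th c).1 ∈ S)))}, ?_, ?_, ?_⟩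
  · intro d hd hdT
    rcases hdT with ⟨hdu, hdS⟩ | ⟨hdu, hP⟩
    · by_cases hth : (I.th d).1 = a.1
      · refine Or.inr ⟨hth, ?_⟩
        have hi := h.inv d hd
        rcases h3.cases (I.th d) hth with e | e | e
        · rw [e, haa] at hi
          exact absurd (congrArg Prod.fst hi).symm hdu
        · rw [e] at hi
          exact Or.inl (by rw [hi]; exact ⟨hdu, hdS⟩)
        · rw [e] at hi
          exact Or.inr (by rw [hi]; exact ⟨hdu, hdS⟩)
      · refine Or.inl ⟨hth, ?_⟩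
        have := hS d ((add_mem_supp h3 l).2 ⟨hd, hdu⟩) hdS
        rwa [(supp_far h ha h3 l hd hdu hth).1] at this
    · by_cases hth : (I.th d).1 = a.1
      · exact Or.inr ⟨hth, hP⟩
      refine Or.inl ⟨hth, ?_⟩
      rcases h3.cases d hdu with e | e | e
      · rw [e, haa] at hth
        exact absurd rfl hth
      · rw [e] at hth ⊢
        rcases hP with hP | hP
        · exact hP.2
        · rcases nc hP.1 with k | k
          · exact absurd k.1 (fb hth)
          · have := hS (I.th c) ((add_mem_supp h3 l).2 ⟨h.mem c hcA, hP.1⟩) hP.2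
            rwa [k.2] at this
      · rw [e] at hth ⊢
        rcases hP with hP | hP
        · rcases nb hP.1 with k | k
          · exact absurd k.1 (fc hth)
          · have := hS (I.th b) ((add_mem_supp h3 l).2 ⟨h.mem b hbA, hP.1⟩) hP.2
            rwa [k.2] at this
        · exact hP.2
  · intro v hv
    constructor
    · rintro (k | k)
      · exact k.2
      · exact absurd k.1 hv
    · exact fun k => Or.inl ⟨hv, k⟩
  · intro f hf hfT hfF hfa
    rcases hfT with ⟨hfu, hfS⟩ | ⟨hfu, hP⟩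
    · refine ⟨f, (add_mem_supp h3 l).2 ⟨hf, hfu⟩, hfS, ?_, Or.inl rfl⟩
      rw [(supp_far h ha h3 l hf hfu (by rw [(h.free f hf).1 hfF]; exact hfu)).2.1, hfF]
    · rcases h3.cases f hfu with e | e | e
      · exact absurd e hfa
      · rw [e] at hfF
        rcases hP with hP | hP
        · exact absurd hfF (fb hP.1)
        · rcases nc hP.1 with k | k
          · refine ⟨I.th c, (add_mem_supp h3 l).2 ⟨h.mem c hcA, hP.1⟩, hP.2, k.2, Or.inr ?_⟩
            rw [h.kind_th c hcA]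
            exact fc hP.1
          · exact absurd hfF k.1
      · rw [e] at hfF
        rcases hP with hP | hP
        · rcases nb hP.1 with k | k
          · refine ⟨I.th b, (add_mem_supp h3 l).2 ⟨h.mem b hbA, hP.1⟩, hP.2, k.2, Or.inr ?_⟩
            rw [h.kind_th b hbA]
            exact fb hP.1
          · exact absurd hfF k.1
        · exact absurd hfF (fc hP.1)

/-- Cutting an edge that is not a bridge does not create closed sets. -/
theorem add_closed_of_cut {I : Inst V} (h : I.WF) {a : Dart V} (ha : a.1 ∈ I.A)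
    (hb : ¬ I.Bridge a) {T : Set V} (hT : (I.cut a).Closed T) : I.Closed T := by
  have key : ∀ d : Dart V, d.1 ∈ I.A → d ≠ a → d ≠ I.th a → d.1 ∈ T → (I.th d).1 ∈ T := by
    intro d hd h1 h2 hdT
    have := hT d hd hdT
    rwa [add_cut_th h1 h2] at this
  intro d hd hdT
  by_cases h1 : d = a
  · rw [h1] at hdT ⊢
    by_contra hn
    exact hb ⟨T, hdT, hn, fun e he _ hea heT => key e he hea (fun k => hn (k ▸ heT)) heT⟩
  by_cases h2 : d = I.th a
  · rw [h2] at hdT ⊢
    rw [h.inv a ha]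
    by_contra hn
    have hb' : I.Bridge (I.th a) :=
      ⟨T, hdT, by rw [h.inv a ha]; exact hn,
        fun e he _ hea heT => key e he (fun k => hn (k ▸ heT)) hea heT⟩
    have := bridge_th h (h.mem a ha) hb'
    rw [h.inv a ha] at this
    exact hb this
  exact key d hd h1 h2 hdT

theorem add_two {I : Inst V} (h : I.WF) {a b c b' c' : Dart V}
    (ha : a.1 ∈ I.A) (hne : (I.th a).1 ≠ a.1) (h3 : Three a b c) (h3' : Three (I.th a) b' c')
    (hb : ¬ I.Bridge a) (l l' : K) {S : Set V} (hS : (I.add a b c b' c' l l').Closed S) :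
    ∃ T : Set V, I.Closed T ∧ (∀ v, v ≠ a.1 → v ≠ (I.th a).1 → (v ∈ T ↔ v ∈ S)) ∧
      ∀ f : Dart V, f.1 ∈ I.A → f.1 ∈ T → I.kind f = .F →
        ∃ d : Dart V, d.1 ∈ (I.add a b c b' c' l l').A ∧ d.1 ∈ S ∧
          (I.add a b c b' c' l l').kind d = .F := by
  obtain ⟨w1, m1, f1⟩ := add_mid h ha hne h3 l
  obtain ⟨T1, c1, e1, g1⟩ := add_step w1 m1 h3' f1 l' hS
  obtain ⟨T0, c0, e0, g0⟩ := add_step (wf_cut h ha) (a := a) ha h3 (add_cut_kind_a I a) l c1
  refine ⟨T0, add_closed_of_cut h ha hb c0, fun v k1 k2 => (e0 v k1).trans (e1 v k2), ?_⟩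
  intro f hf hfT hfF
  have hka : I.kind a ≠ .F := fun k => hne (by rw [(h.free a ha).1 k])
  have h1 : f ≠ a := fun k => hka (k ▸ hfF)
  have h2 : f ≠ I.th a := fun k => hka (by rw [← h.kind_th a ha, ← k]; exact hfF)
  obtain ⟨d, hd, hdT, hdF, hor⟩ := g0 f hf hfT (by rw [add_cut_kind h1 h2]; exact hfF) h1
  have hda : d ≠ I.th a := by
    intro k
    rcases hor with k' | k'
    · exact h2 (k'.symm.trans k)
    · exact k' (by rw [k]; exact add_cut_kind_th I a)
  obtain ⟨d', k1, k2, k3, _⟩ := g1 d hd hdT hdF hda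
  exact ⟨d', k1, k2, k3⟩

theorem add_supp_rcl {I : Inst V} (h : I.WF) {a b c : Dart V} (ha : a.1 ∈ I.A)
    (h3 : Three a b c) (hF : I.kind a = .F) (l : K) {S : Set V} (hS : I.RCl S)
    (hbc : (I.th b).1 ∈ S ↔ (I.th c).1 ∈ S) : (I.supp b c l).RCl S := by
  intro d hd hk hdS
  obtain ⟨hd, hdu⟩ := (add_mem_supp h3 l).1 hd
  by_cases hth : (I.th d).1 = a.1
  · rcases supp_near h ha h3 hF l hd hdu hth with k | k | k | k
    · rw [k.2.2.2]
      exact hdS
    · rw [k.2.2.2]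
      exact hdS
    · rw [k.2.2.2.1]
      exact hbc.1 (k.1 ▸ hdS)
    · rw [k.2.2.2.1]
      exact hbc.2 (k.1 ▸ hdS)
  · obtain ⟨k1, k2, _⟩ := supp_far h ha h3 l hd hdu hth
    rw [k1]
    exact hS d hd (k2 ▸ hk) hdS

omit [DecidableEq V] in
theorem add_no_pair {I : Inst V} (h : I.WF) (hl : I.NoLoop) {a b c : Dart V} (ha : a.1 ∈ I.A)
    (h3 : Three a b c) : I.th b ≠ c := by
  intro e
  have hbA : b.1 ∈ I.A := h3.1 ▸ ha
  have hk : I.kind b ≠ .F := fun k => h3.2.2.2.2 (((h.free b hbA).1 k).symm.trans e)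
  exact hl b hbA hk (by rw [e, h3.1, h3.2.1])

end Inst

end Pool.Agent.P.MP_0ad50f_co.SC
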