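import Pool.Agent.P.MP_0ad50f_co.SC.Supp
import Pool.Agent.P.MP_0ad50f_co.SC.Reach
import Pool.Agent.P.MP_0ad50f_co.SC.AddH

namespace Pool.Agent.P.MP_0ad50f_co.SC

variable {V : Type} [DecidableEq V]

namespace Inst

theorem add_A {I : Inst V} {a b c b' c' : Dart V} (h3 : Three a b c)
    (h3' : Three (I.th a) b' c') (l l' : K) :
    (I.add a b c b' c' l l').A = I.A \ {a.1, (I.th a).1} := by
  ext v
  unfold add
  rw [add_mem_supp h3' l', add_mem_supp h3 l]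
  simp [cut, and_assoc]

theorem wf_add {I : Inst V} (h : I.WF) {a b c b' c' : Dart V} (ha : a.1 ∈ I.A)
    (hne : (I.th a).1 ≠ a.1) (h3 : Three a b c) (h3' : Three (I.th a) b' c') (l l' : K) :
    (I.add a b c b' c' l l').WF := by
  obtain ⟨w1, m1, f1⟩ := add_mid h ha hne h3 l
  exact wf_supp w1 m1 h3' f1 l'

theorem add_far {I : Inst V} (h : I.WF) {a b c b' c' : Dart V} (ha : a.1 ∈ I.A)
    (hne : (I.th a).1 ≠ a.1) (h3 : Three a b c) (h3' : Three (I.th a) b' c') (l l' : K)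
    {d : Dart V} (hd : d.1 ∈ I.A) (h1 : d.1 ≠ a.1) (h2 : d.1 ≠ (I.th a).1)
    (h4 : (I.th d).1 ≠ a.1) (h5 : (I.th d).1 ≠ (I.th a).1) :
    (I.add a b c b' c' l l').th d = I.th d ∧ (I.add a b c b' c' l l').kind d = I.kind d ∧
      (I.add a b c b' c' l l').g d = I.g d := by
  obtain ⟨w1, m1, f1⟩ := add_mid h ha hne h3 l
  have n1 : d ≠ a := fun k => h1 (by rw [k])
  have n2 : d ≠ I.th a := fun k => h2 (by rw [k])
  obtain ⟨k1, k2, k3⟩ := supp_far (wf_cut h ha) (a := a) ha h3 l (d := d) hd h1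
    (by rw [add_cut_th n1 n2]; exact h4)
  rw [add_cut_th n1 n2] at k1
  rw [add_cut_kind n1 n2] at k2
  obtain ⟨j1, j2, j3⟩ := supp_far w1 m1 h3' l' (d := d) ((add_mem_supp h3 l).2 ⟨hd, h1⟩) h2
    (by rw [k1]; exact h5)
  exact ⟨j1.trans k1, j2.trans k2, j3.trans k3⟩

theorem add_near {I : Inst V} (h : I.WF) {a b c b' c' : Dart V} (ha : a.1 ∈ I.A)
    (hne : (I.th a).1 ≠ a.1) (h3 : Three a b c) (h3' : Three (I.th a) b' c') (l l' : K)
    {d : Dart V} (hd : d.1 ∈ I.A) (h1 : d.1 ≠ a.1) (h2 : d.1 ≠ (I.th a).1)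
    (h4 : (I.th d).1 = a.1 ∨ (I.th d).1 = (I.th a).1) :
    (I.add a b c b' c' l l').kind d = .R ∨ (I.add a b c b' c' l l').kind d = .F := by
  obtain ⟨w1, m1, f1⟩ := add_mid h ha hne h3 l
  have n1 : d ≠ a := fun k => h1 (by rw [k])
  have n2 : d ≠ I.th a := fun k => h2 (by rw [k])
  have hd1 : d.1 ∈ ((I.cut a).supp b c l).A := (add_mem_supp h3 l).2 ⟨hd, h1⟩
  by_cases hth : (((I.cut a).supp b c l).th d).1 = (I.th a).1
  · exact add_supp_RF w1 m1 h3' f1 l' hd1 h2 hth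
  · unfold add
    rw [(supp_far w1 m1 h3' l' hd1 h2 hth).2.1]
    by_cases h0 : ((I.cut a).th d).1 = a.1
    · exact add_supp_RF (wf_cut h ha) (a := a) ha h3 (add_cut_kind_a I a) l hd h1 h0
    · rw [(supp_far (wf_cut h ha) (a := a) ha h3 l (d := d) hd h1 h0).1] at hth
      rw [add_cut_th n1 n2] at h0 hth
      exact absurd h4 (not_or.2 ⟨h0, hth⟩)

theorem noF_add {I : Inst V} (h : I.WF) (hF : I.NoK .F) {a b c b' c' : Dart V} (ha : a.1 ∈ I.A)
    (hne : (I.th a).1 ≠ a.1) (h3 : Three a b c) (h3' : Three (I.th a) b' c') (l l' : K) :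
    (I.add a b c b' c' l l').NoK .F := by
  obtain ⟨w1, m1, f1⟩ := add_mid h ha hne h3 l
  have k0 : ∀ e : Dart V, e.1 ∈ I.A → e ≠ a → e ≠ I.th a → (I.cut a).kind e ≠ .F := by
    intro e he n1 n2
    rw [add_cut_kind n1 n2]
    exact hF e he
  have k1 : ∀ e : Dart V, e.1 ∈ ((I.cut a).supp b c l).A → e ≠ I.th a →
      ((I.cut a).supp b c l).kind e ≠ .F := by
    intro e he n2 hk
    obtain ⟨he, heu⟩ := (add_mem_supp h3 l).1 he
    rcases add_supp_F (wf_cut h ha) (a := a) ha h3 (add_cut_kind_a I a) l he heu hk with k | k | k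
    · exact k0 e he (fun j => heu (by rw [j])) n2 k
    · exact k0 b (h3.1 ▸ ha) h3.2.2.1.symm (fun j => hne (by rw [← j]; exact h3.1)) k
    · exact k0 c (h3.2.1 ▸ ha) h3.2.2.2.1.symm (fun j => hne (by rw [← j]; exact h3.2.1)) k
  intro d hd hk
  obtain ⟨hd, hdu⟩ := (add_mem_supp h3' l').1 hd
  rcases add_supp_F w1 m1 h3' f1 l' hd hdu hk with k | k | k
  · exact k1 d hd (fun j => hdu (by rw [j])) k
  · exact k1 b' (h3'.1 ▸ m1) h3'.2.2.1.symm k
  · exact k1 c' (h3'.2.1 ▸ m1) h3'.2.2.2.1.symm k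

theorem conn_add {I : Inst V} (h : I.WF) (hN : I.NoK .N) (hc : I.Conn) {a b c b' c' : Dart V}
    (ha : a.1 ∈ I.A) (hne : (I.th a).1 ≠ a.1) (h3 : Three a b c) (h3' : Three (I.th a) b' c')
    (hb : ¬ I.Bridge a) (l l' : K) : (I.add a b c b' c' l l').Conn := by
  have _ := hN
  intro S hS hv w hw
  obtain ⟨v, hv, hvS⟩ := hv
  obtain ⟨T, cT, eT, _⟩ := add_two h ha hne h3 h3' hb l l' hS
  rw [add_A h3 h3'] at hv hw
  simp only [Finset.mem_sdiff, Finset.mem_insert, Finset.mem_singleton, not_or] at hv hw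
  exact (eT w hw.2.1 hw.2.2).1 (hc T cT ⟨v, hv.1, (eT v hv.2.1 hv.2.2).2 hvS⟩ w hw.1)

theorem rf_add {I : Inst V} (h : I.WF) (hN : I.NoK .N) (hc : I.RF) {a b c b' c' : Dart V}
    (ha : a.1 ∈ I.A) (hne : (I.th a).1 ≠ a.1) (h3 : Three a b c) (h3' : Three (I.th a) b' c')
    (hb : ¬ I.Bridge a) (l l' : K) : (I.add a b c b' c' l l').RF := by
  have _ := hN
  intro S hS hv
  obtain ⟨v, hv, hvS⟩ := hv
  obtain ⟨T, cT, eT, gT⟩ := add_two h ha hne h3 h3' hb l l' hS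
  rw [add_A h3 h3'] at hv
  simp only [Finset.mem_sdiff, Finset.mem_insert, Finset.mem_singleton, not_or] at hv
  obtain ⟨f, hf, hfT, hfF⟩ := hc T cT ⟨v, hv.1, (eT v hv.2.1 hv.2.2).2 hvS⟩
  exact gT f hf hfT hfF

theorem rcl_add {I : Inst V} (h : I.WF) {a b c b' c' : Dart V} (ha : a.1 ∈ I.A)
    (hne : (I.th a).1 ≠ a.1) (h3 : Three a b c) (h3' : Three (I.th a) b' c') (l l' : K)
    {S : Set V} (hS : I.RCl S) (hb : a.1 ∈ S ↔ (I.th b).1 ∈ S) (hc : a.1 ∈ S ↔ (I.th c).1 ∈ S)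
    (hb' : (I.th a).1 ∈ S ↔ (I.th b').1 ∈ S) (hc' : (I.th a).1 ∈ S ↔ (I.th c').1 ∈ S) :
    (I.add a b c b' c' l l').RCl S := by
  obtain ⟨w1, m1, f1⟩ := add_mid h ha hne h3 l
  have tb : (I.cut a).th b = I.th b :=
    add_cut_th h3.2.2.1.symm (fun j => hne (by rw [← j]; exact h3.1))
  have tc : (I.cut a).th c = I.th c :=
    add_cut_th h3.2.2.2.1.symm (fun j => hne (by rw [← j]; exact h3.2.1))
  have r0 : (I.cut a).RCl S := by
    intro d hd hk hdS
    have n1 : d ≠ a := by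
      intro j
      rw [j, add_cut_kind_a] at hk
      exact absurd hk (by decide)
    have n2 : d ≠ I.th a := by
      intro j
      rw [j, add_cut_kind_th] at hk
      exact absurd hk (by decide)
    rw [add_cut_kind n1 n2] at hk
    rw [add_cut_th n1 n2]
    exact hS d hd hk hdS
  have r1 : ((I.cut a).supp b c l).RCl S :=
    add_supp_rcl (wf_cut h ha) (a := a) ha h3 (add_cut_kind_a I a) l r0
      (by rw [tb, tc]; exact hb.symm.trans hc)
  have key : ∀ e : Dart V, e.1 = (I.th a).1 → e ≠ I.th a → ((I.th a).1 ∈ S ↔ (I.th e).1 ∈ S) →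
      ((((I.cut a).supp b c l).th e).1 ∈ S ↔ (I.th a).1 ∈ S) := by
    intro e he n2 hi
    have heA : e.1 ∈ I.A := he ▸ h.mem a ha
    have heu : e.1 ≠ a.1 := he ▸ hne
    have te : (I.cut a).th e = I.th e := add_cut_th (fun j => heu (by rw [j])) n2
    by_cases h0 : ((I.cut a).th e).1 = a.1
    · have hu : (I.th a).1 ∈ S ↔ a.1 ∈ S := by
        rw [te] at h0
        rw [hi, h0]
      rcases supp_near (wf_cut h ha) (a := a) ha h3 (add_cut_kind_a I a) l (d := e) heA heu h0 with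
        k | k | k | k
      · rw [k.2.2.2, he]
      · rw [k.2.2.2, he]
      · rw [k.2.2.2.1, tc]
        exact hc.symm.trans hu.symm
      · rw [k.2.2.2.1, tb]
        exact hb.symm.trans hu.symm
    · rw [(supp_far (wf_cut h ha) (a := a) ha h3 l (d := e) heA heu h0).1, te]
      exact hi.symm
  exact add_supp_rcl w1 m1 h3' f1 l' r1
    ((key b' h3'.1 h3'.2.2.1.symm hb').trans (key c' h3'.2.1 h3'.2.2.2.1.symm hc').symm)

theorem lin_of_add {I : Inst V} (h : I.WF) (hN : I.NoK .N) (hl : I.NoLoop)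
    {a b c b' c' : Dart V} (ha : a.1 ∈ I.A) (hk : I.kind a = .Z) (h3 : Three a b c)
    (h3' : Three (I.th a) b' c')
    (ht : ¬ ((I.th b).1 = (I.th a).1 ∧ (I.th c).1 = (I.th a).1)) (l l' : K) {x : Dart V → K}
    (hx : (I.add a b c b' c' l l').Lin x) :
    ∃ y, I.Lin y ∧ y b + y c = l ∧ y b' + y c' = l' ∧
      ∀ d : Dart V, d.1 ≠ a.1 → d.1 ≠ (I.th a).1 → y d = x d := by
  have hne : (I.th a).1 ≠ a.1 := hl a ha (by rw [hk]; decide)
  obtain ⟨w1, m1, f1⟩ := add_mid h ha hne h3 l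
  have w0 := wf_cut h ha
  have tb : (I.cut a).th b = I.th b :=
    add_cut_th h3.2.2.1.symm (fun j => hne (by rw [← j]; exact h3.1))
  have tc : (I.cut a).th c = I.th c :=
    add_cut_th h3.2.2.2.1.symm (fun j => hne (by rw [← j]; exact h3.2.1))
  have N0 := add_cut_noN hN a
  have N1 := add_supp_noN w0 N0 (a := a) ha h3 (add_cut_kind_a I a) l
  have hb'A : b'.1 ∈ I.A := h3'.1 ▸ h.mem a ha
  have hb'u : b'.1 ≠ a.1 := h3'.1 ▸ hne
  have hc'u : c'.1 ≠ a.1 := h3'.2.1 ▸ hne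
  have np : ((I.cut a).supp b c l).th b' ≠ c' := by
    intro e
    by_cases h0 : ((I.cut a).th b').1 = a.1
    · rcases supp_near w0 (a := a) ha h3 (add_cut_kind_a I a) l (d := b') hb'A hb'u h0 with
        k | k | k | k
      · exact h3'.2.2.2.2 (k.2.2.2.symm.trans e)
      · exact h3'.2.2.2.2 (k.2.2.2.symm.trans e)
      · rw [k.2.2.2.1, tc] at e
        exact ht ⟨by rw [← tb, ← k.1]; exact h3'.1, by rw [e]; exact h3'.2.1⟩
      · rw [k.2.2.2.1, tb] at e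
        exact ht ⟨by rw [e]; exact h3'.2.1, by rw [← tc, ← k.1]; exact h3'.1⟩
    · rw [(supp_far w0 (a := a) ha h3 l (d := b') hb'A hb'u h0).1,
        add_cut_th (fun j => hb'u (by rw [j])) h3'.2.2.1.symm] at e
      exact add_no_pair h hl (h.mem a ha) h3' e
  obtain ⟨y1, L1, -, s1, e1⟩ := lin_of_supp w1 m1 h3' f1 (N1 b' (h3'.1 ▸ m1))
    (N1 c' (h3'.2.1 ▸ m1)) (l := l') (fun e => absurd e np) hx 0
  obtain ⟨y, L0, t0, s0, e0⟩ := lin_of_supp w0 (a := a) ha h3 (add_cut_kind_a I a)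
    (N0 b (h3.1 ▸ ha)) (N0 c (h3.2.1 ▸ ha)) (l := l)
    (fun e => absurd (tb.symm.trans e) (add_no_pair h hl ha h3)) L1 (y1 (I.th a))
  have hg : I.g a = 0 := h.gZ a ha hk
  have hy : y (I.th a) = y a := by rw [t0, e0 _ hne]
  refine ⟨y, ?_, s0, by rw [e0 _ hb'u, e0 _ hc'u]; exact s1,
    fun d k1 k2 => (e0 d k1).trans (e1 d k2)⟩
  intro d hd hdk
  by_cases n1 : d = a
  · rw [n1, hy, hg, add_zero]
  by_cases n2 : d = I.th a
  · rw [n2, h.inv a ha, h.g_th a ha, hy, hg, add_zero]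
  have := L0 d hd (by rw [add_cut_kind n1 n2]; exact hdk)
  rw [add_cut_th n1 n2] at this
  exact this

end Inst

end Pool.Agent.P.MP_0ad50f_co.SC
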