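import Pool.Agent.P.MP_0ad50f_co.SC.Basic

namespace Pool.Agent.P.MP_0ad50f_co.SC

variable {V : Type} [DecidableEq V] [Fintype V] {G : SimpleGraph V} [DecidableRel G.Adj]

def asm_phi (x : K) : ℕ := if x = 0 then 1 else if x = kA then 5 else if x = kB then 4 else 2

theorem asm_phi_rng : ∀ x : K, 1 ≤ asm_phi x ∧ asm_phi x ≤ 5 ∧ asm_phi x ≠ 3 ∧
    asm_phi x % 3 ≠ 0 := by decide

theorem asm_phi_inj : ∀ x y : K, asm_phi x = asm_phi y → x = y := by decide

theorem asm_phi3 : ∀ a b c : K, a ≠ b → a ≠ c → b ≠ c →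
    asm_phi a + asm_phi b + asm_phi c + asm_phi (a + b + c) = 12 := by decide

theorem asm_phi2 : ∀ a b : K,
    (a + b = kA → asm_phi a + asm_phi b = 6) ∧
    (a + b = kB → asm_phi a + asm_phi b = 5 ∨ asm_phi a + asm_phi b = 7) ∧
    (a + b = kC → asm_phi a + asm_phi b = 3 ∨ asm_phi a + asm_phi b = 9) := by decide

theorem asm_miss : ∀ a b c d : K, a + b ≠ 0 → c + d ≠ 0 → a + b ≠ c + d →
    ∃ x, a ≠ x ∧ b ≠ x ∧ c ≠ x ∧ d ≠ x := by decide

theorem asm_ne : ∀ a b : K, a + b ≠ 0 → a ≠ b := by decide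

theorem asm_k0 : kA ≠ 0 ∧ kB ≠ 0 ∧ kC ≠ 0 := by decide

theorem asm_self : ∀ x : K, x + x = 0 := by decide

theorem asm_eq_of_add : ∀ x y : K, x + y = 0 → x = y := by decide

theorem asm_lbl_ne (cls : V → Fin 4) (v : V) : lbl G cls v ≠ 0 := by
  unfold lbl
  split_ifs
  · exact asm_k0.2.1
  · exact asm_k0.1
  · exact asm_k0.2.2

/-- A vertex that is not active and has degree at least two has two unmatched edges. -/
theorem asm_pair (h3 : Sub3 G) {M : V → V} (hM : Mat G M) {v : V}
    (hv : ¬ (G.degree v = 3 ∧ M v = v)) (h2 : 2 ≤ G.degree v) :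
    ∃ a b, a ≠ b ∧ (G.neighborFinset v).erase (M v) = {a, b} := by
  rw [← Finset.card_eq_two]
  by_cases hm : M v = v
  · have hd : G.degree v = 2 := by
      have := h3 v
      by_contra hne
      exact hv ⟨by omega, hm⟩
    rw [hm, Finset.erase_eq_of_notMem (by simp), G.card_neighborFinset_eq_degree, hd]
  · obtain ⟨ha, hd⟩ := hM.2 v hm
    rw [Finset.card_erase_of_mem (by simpa using ha), G.card_neighborFinset_eq_degree, hd]

theorem asm_edge {M : V → V} (hM : Mat G M) {v w u : V} (h : s(v, w) = s(u, M u)) :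
    w = M v ∧ (v = u ∨ v = M u) := by
  rcases Sym2.eq_iff.1 h with ⟨h1, h2⟩ | ⟨h1, h2⟩
  · exact ⟨by rw [h1, h2], Or.inl h1⟩
  · exact ⟨by rw [h1, h2, hM.1], Or.inr h1⟩

theorem asm_l_ne {M : V → V} {cls : V → Fin 4}
    (hc : Cls G M cls) {l : V → K} (hl : GoodL G M cls l) {v : V}
    (hv : ¬ (G.degree v = 3 ∧ M v = v)) (h2 : 2 ≤ G.degree v) : l v ≠ 0 := by
  by_cases h0 : cls v = 0
  · have hm : M v ≠ v := fun hm => hv ⟨hc.cub v h2 h0, hm⟩
    exact (hl.2 v hm h0).1
  · rw [hl.1 v h2 h0]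
    exact asm_lbl_ne cls v

/-- The element missing at both ends of a special matched edge. -/
theorem asm_exists_m (h3 : Sub3 G) {M : V → V} (hM : Mat G M) {cls : V → Fin 4}
    (hc : Cls G M cls) {l : V → K} (hl : GoodL G M cls l) (k : Sym2 V → K)
    (hsum : ∀ v, ¬ (G.degree v = 3 ∧ M v = v) → 2 ≤ G.degree v →
      ∑ w ∈ (G.neighborFinset v).erase (M v), k s(v, w) = l v) (e : Sym2 V) :
    ∃ x : K, ∀ v w, e = s(v, M v) → M v ≠ v → cls v = 0 → G.Adj v w → w ≠ M v →
      k s(v, w) ≠ x := by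
  by_cases h : ∃ u, e = s(u, M u) ∧ M u ≠ u ∧ cls u = 0
  · obtain ⟨u, he, hu, h0⟩ := h
    have hu' : M (M u) ≠ M u := by rw [hM.1]; exact hu.symm
    have hdu : G.degree u = 3 := (hM.2 u hu).2
    have hdu' : G.degree (M u) = 3 := (hM.2 _ hu').2
    have hn : ¬ (G.degree u = 3 ∧ M u = u) := fun h => hu h.2
    have hn' : ¬ (G.degree (M u) = 3 ∧ M (M u) = M u) := fun h => hu' h.2
    obtain ⟨a, b, hab, hE⟩ := asm_pair h3 hM hn (by omega)
    obtain ⟨c, d, hcd, hE'⟩ := asm_pair h3 hM hn' (by omega)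
    have s1 := hsum u hn (by omega)
    have s2 := hsum (M u) hn' (by omega)
    rw [hE, Finset.sum_pair hab] at s1
    rw [hE', Finset.sum_pair hcd] at s2
    obtain ⟨x, x1, x2, x3, x4⟩ := asm_miss (k s(u, a)) (k s(u, b)) (k s(M u, c)) (k s(M u, d))
      (by rw [s1]; exact (hl.2 u hu h0).1)
      (by rw [s2]; exact (hl.2 _ hu' (hc.par u hu h0)).1)
      (by rw [s1, s2]; exact (hl.2 u hu h0).2)
    refine ⟨x, fun v w hv _ _ hadj hw => ?_⟩
    have hmem : w ∈ (G.neighborFinset v).erase (M v) := by simp [hw, hadj]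
    rcases (asm_edge hM (hv.symm.trans he)).2 with rfl | rfl
    · rw [hE] at hmem
      rcases Finset.mem_insert.1 hmem with rfl | h1
      · exact x1
      · rw [Finset.mem_singleton.1 h1]; exact x2
    · rw [hE'] at hmem
      rcases Finset.mem_insert.1 hmem with rfl | h1
      · exact x3
      · rw [Finset.mem_singleton.1 h1]; exact x4
  · exact ⟨0, fun v w hv hm h0 _ _ => (h ⟨v, hv, hm, h0⟩).elim⟩

/-- Assembly of the colouring from classes and a Klein colouring of the edges. -/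
theorem asm (h3 : Sub3 G) (hT : T1only G) {M : V → V} (hM : Mat G M) {cls : V → Fin 4}
    (hc : Cls G M cls) {l : V → K} (hl : GoodL G M cls l) (k : Sym2 V → K)
    (hinj : ∀ v w w', G.degree v = 3 → M v = v → G.Adj v w → G.Adj v w' → w ≠ w' →
      k s(v, w) ≠ k s(v, w'))
    (htot : ∀ u v, G.Adj u v → G.degree u = 3 → M u = u → G.degree v = 3 → M v = v →
      ∑ w ∈ G.neighborFinset u, k s(u, w) ≠ ∑ w ∈ G.neighborFinset v, k s(v, w))
    (hsum : ∀ v, ¬ (G.degree v = 3 ∧ M v = v) → 2 ≤ G.degree v →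
      ∑ w ∈ (G.neighborFinset v).erase (M v), k s(v, w) = l v) : Goal G := by
  classical
  choose m hm using asm_exists_m h3 hM hc hl k hsum
  obtain ⟨c, hcdef⟩ : ∃ c : Sym2 V → ℕ, ∀ e, c e =
      if (∃ u, e = s(u, M u) ∧ M u ≠ u) then
        (if (∃ u, e = s(u, M u) ∧ cls u ≠ 0) then 3 else asm_phi (m e)) else asm_phi (k e) :=
    ⟨_, fun _ => rfl⟩
  have cU : ∀ v w, w ≠ M v → c s(v, w) = asm_phi (k s(v, w)) := by
    intro v w hw
    rw [hcdef, if_neg]
    rintro ⟨u, hu, -⟩
    exact hw (asm_edge hM hu).1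
  have c3 : ∀ v, M v ≠ v → cls v ≠ 0 → c s(v, M v) = 3 := by
    intro v hv h0
    rw [hcdef, if_pos ⟨v, rfl, hv⟩, if_pos ⟨v, rfl, h0⟩]
  have c0 : ∀ v, M v ≠ v → cls v = 0 → c s(v, M v) = asm_phi (m s(v, M v)) := by
    intro v hv h0
    rw [hcdef, if_pos ⟨v, rfl, hv⟩, if_neg]
    rintro ⟨u, hu, hu0⟩
    rcases (asm_edge hM hu).2 with rfl | rfl
    · exact hu0 h0
    · have := hc.par _ hv h0
      rw [hM.1] at this
      exact hu0 this
  have crng : ∀ e, 1 ≤ c e ∧ c e ≤ 5 := by
    intro e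
    rw [hcdef]
    split_ifs
    · omega
    · exact ⟨(asm_phi_rng _).1, (asm_phi_rng _).2.1⟩
    · exact ⟨(asm_phi_rng _).1, (asm_phi_rng _).2.1⟩
  -- unmatched edges at one vertex have different Klein colours
  have kne : ∀ v w w', G.Adj v w → G.Adj v w' → w ≠ w' → w ≠ M v → w' ≠ M v →
      k s(v, w) ≠ k s(v, w') := by
    intro v w w' hw hw' hne h1 h2
    by_cases hv : G.degree v = 3 ∧ M v = v
    · exact hinj v w w' hv.1 hv.2 hw hw' hne
    · have hd : 2 ≤ G.degree v := by
        rw [← G.card_neighborFinset_eq_degree, ← Finset.card_pair hne]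
        apply Finset.card_le_card
        intro y hy
        rcases Finset.mem_insert.1 hy with rfl | hy
        · simpa using hw
        · rw [Finset.mem_singleton.1 hy]; simpa using hw'
      obtain ⟨a, b, hab, hE⟩ := asm_pair h3 hM hv hd
      have s1 := hsum v hv hd
      rw [hE, Finset.sum_pair hab] at s1
      have hk := asm_ne _ _ (by rw [s1]; exact asm_l_ne hc hl hv hd)
      have m1 : w ∈ (G.neighborFinset v).erase (M v) := by simp [h1, hw]
      have m2 : w' ∈ (G.neighborFinset v).erase (M v) := by simp [h2, hw']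
      rw [hE, Finset.mem_insert, Finset.mem_singleton] at m1 m2
      rcases m1 with rfl | rfl <;> rcases m2 with rfl | rfl
      · exact (hne rfl).elim
      · exact hk
      · exact hk.symm
      · exact (hne rfl).elim
  have mne : ∀ v w, M v ≠ v → G.Adj v w → w ≠ M v → c s(v, M v) ≠ c s(v, w) := by
    intro v w hv hw h1
    rw [cU v w h1]
    by_cases h0 : cls v = 0
    · rw [c0 v hv h0]
      exact fun h => hm _ v w rfl hv h0 hw h1 (asm_phi_inj _ _ h).symm
    · rw [c3 v hv h0]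
      exact (asm_phi_rng _).2.2.1.symm
  -- sums at active vertices
  have sA : ∀ v, G.degree v = 3 → M v = v → ∑ w ∈ G.neighborFinset v, c s(v, w) +
      asm_phi (∑ w ∈ G.neighborFinset v, k s(v, w)) = 12 := by
    intro v hd hv
    obtain ⟨a, b, d, hab, had, hbd, hE⟩ := Finset.card_eq_three.1
      ((G.card_neighborFinset_eq_degree v).trans hd)
    have ha : G.Adj v a := by rw [← SimpleGraph.mem_neighborFinset, hE]; simp
    have hb : G.Adj v b := by rw [← SimpleGraph.mem_neighborFinset, hE]; simp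
    have hd' : G.Adj v d := by rw [← SimpleGraph.mem_neighborFinset, hE]; simp
    rw [hE, Finset.sum_insert (by simp [hab, had]), Finset.sum_pair hbd,
      Finset.sum_insert (by simp [hab, had]), Finset.sum_pair hbd,
      cU v a (by rw [hv]; exact ha.ne'), cU v b (by rw [hv]; exact hb.ne'),
      cU v d (by rw [hv]; exact hd'.ne'), ← add_assoc, ← add_assoc]
    exact asm_phi3 _ _ _ (hinj v a b hd hv ha hb hab) (hinj v a d hd hv ha hd' had)
      (hinj v b d hd hv hb hd' hbd)
  -- sums at the other vertices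
  have sN : ∀ v, ¬ (G.degree v = 3 ∧ M v = v) → 2 ≤ G.degree v → ∃ x y : K, x + y = l v ∧
      (M v ≠ v → cls v = 0 → x ≠ m s(v, M v) ∧ y ≠ m s(v, M v)) ∧
      ∑ w ∈ G.neighborFinset v, c s(v, w) =
        (if M v = v then 0 else c s(v, M v)) + (asm_phi x + asm_phi y) := by
    intro v hv hd
    obtain ⟨a, b, hab, hE⟩ := asm_pair h3 hM hv hd
    have s1 := hsum v hv hd
    rw [hE, Finset.sum_pair hab] at s1
    have ha : a ∈ (G.neighborFinset v).erase (M v) := by rw [hE]; simp
    have hb : b ∈ (G.neighborFinset v).erase (M v) := by rw [hE]; simp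
    rw [Finset.mem_erase, SimpleGraph.mem_neighborFinset] at ha hb
    refine ⟨_, _, s1, fun h1 h0 => ⟨hm _ v a rfl h1 h0 ha.2 ha.1, hm _ v b rfl h1 h0 hb.2 hb.1⟩, ?_⟩
    have s2 : ∑ w ∈ (G.neighborFinset v).erase (M v), c s(v, w) =
        asm_phi (k s(v, a)) + asm_phi (k s(v, b)) := by
      rw [hE, Finset.sum_pair hab, cU v a ha.1, cU v b hb.1]
    rw [← s2]
    split_ifs with h1
    · rw [h1, Finset.erase_eq_of_notMem (by simp), zero_add]
    · exact (Finset.add_sum_erase _ (fun w => c s(v, w)) (by simpa using (hM.2 v h1).1)).symm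
  have sS : ∀ v, M v ≠ v → cls v = 0 → ∑ w ∈ G.neighborFinset v, c s(v, w) +
      asm_phi (m s(v, M v) + l v) = 12 := by
    intro v hv h0
    have hd := (hM.2 v hv).2
    obtain ⟨x, y, hxy, hne, hs⟩ := sN v (fun h => hv h.2) (by omega)
    rw [hs, if_neg hv, c0 v hv h0, ← hxy, ← add_assoc, ← add_assoc]
    exact asm_phi3 _ _ _ (hne hv h0).1.symm (hne hv h0).2.symm
      (asm_ne _ _ (by rw [hxy]; exact (hl.2 v hv h0).1))
  have s0 : ∀ v, 2 ≤ G.degree v → cls v = 0 → (∑ w ∈ G.neighborFinset v, c s(v, w)) % 3 ≠ 0 := by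
    intro v hd h0
    by_cases hv : M v = v
    · have h1 := sA v (hc.cub v hd h0) hv
      have h2 := (asm_phi_rng (∑ w ∈ G.neighborFinset v, k s(v, w))).2.2.2
      omega
    · have h1 := sS v hv h0
      have h2 := (asm_phi_rng (m s(v, M v) + l v)).2.2.2
      omega
  have s1 : ∀ v, 2 ≤ G.degree v → cls v ≠ 0 →
      (cls v = 1 → (∑ w ∈ G.neighborFinset v, c s(v, w)) % 3 ≠ 0) ∧
      (cls v = 2 → (∑ w ∈ G.neighborFinset v, c s(v, w)) % 6 = 3) ∧
      (cls v = 3 → (∑ w ∈ G.neighborFinset v, c s(v, w)) % 6 = 0) := by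
    intro v hd h0
    have hv : ¬ (G.degree v = 3 ∧ M v = v) := fun h => h0 (hc.act v h.1 h.2)
    obtain ⟨x, y, hxy, -, hs⟩ := sN v hv hd
    rw [hl.1 v hd h0] at hxy
    obtain ⟨pA, pB, pC⟩ := asm_phi2 x y
    unfold lbl at hxy
    by_cases h1 : M v = v
    · have hd3 : G.degree v ≠ 3 := fun h => hv ⟨h, h1⟩
      rw [if_pos h1] at hs
      refine ⟨fun h => ?_, fun h => ?_, fun h => ?_⟩
      · rw [if_pos h] at hxy
        have := pB hxy
        omega
      · rw [if_neg (by rw [h]; decide), if_neg (by simp [h, hd3])] at hxy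
        have := pC hxy
        omega
      · rw [if_neg (by rw [h]; decide), if_pos (by simp [h, hd3])] at hxy
        have := pA hxy
        omega
    · have hd3 : G.degree v = 3 := (hM.2 v h1).2
      rw [if_neg h1, c3 v h1 h0] at hs
      refine ⟨fun h => ?_, fun h => ?_, fun h => ?_⟩
      · rw [if_pos h] at hxy
        have := pB hxy
        omega
      · rw [if_neg (by rw [h]; decide), if_pos (by simp [h, hd3])] at hxy
        have := pA hxy
        omega
      · rw [if_neg (by rw [h]; decide), if_neg (by simp [h, hd3])] at hxy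
        have := pC hxy
        omega
  -- an edge to a leaf
  have leaf : ∀ u v, G.Adj u v → 2 ≤ G.degree u → G.degree v < 2 →
      ∑ w ∈ G.neighborFinset v, c s(v, w) < ∑ w ∈ G.neighborFinset u, c s(u, w) := by
    intro u v huv hu hv
    have hNv : G.neighborFinset v = {u} := by
      symm
      apply Finset.eq_of_subset_of_card_le
      · simpa using huv.symm
      · rw [G.card_neighborFinset_eq_degree, Finset.card_singleton]; omega
    have hmem : v ∈ G.neighborFinset u := by simpa using huv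
    rw [hNv, Finset.sum_singleton, ← Finset.add_sum_erase _ (fun w => c s(u, w)) hmem,
      Sym2.eq_swap (a := v)]
    have hpos : 0 < ∑ w ∈ (G.neighborFinset u).erase v, c s(u, w) := by
      apply Finset.sum_pos (fun w _ => (crng _).1)
      rw [← Finset.card_pos, Finset.card_erase_of_mem hmem, G.card_neighborFinset_eq_degree]
      omega
    exact Nat.lt_add_of_pos_right hpos
  have spair : ∀ u v, G.Adj u v → 2 ≤ G.degree v → cls u = 0 → cls v = 0 → M u ≠ u →
      ∑ w ∈ G.neighborFinset u, c s(u, w) ≠ ∑ w ∈ G.neighborFinset v, c s(v, w) := by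
    intro u v huv hv hu0 hv0 hmu heq
    have hvu : v = M u := by
      by_contra hne
      exact hc.spec u v hmu hu0 huv hne hv hv0
    subst hvu
    have hu' : M (M u) ≠ M u := by rw [hM.1]; exact hmu.symm
    have h1 := sS u hmu hu0
    have h2 := sS (M u) hu' hv0
    rw [hM.1, Sym2.eq_swap (a := M u)] at h2
    have h4 := asm_phi_inj (m s(u, M u) + l u) (m s(u, M u) + l (M u)) (by omega)
    exact (hl.2 u hmu hu0).2 (add_left_cancel h4)
  refine ⟨c, fun e _ => crng e, fun v w w' hw hw' hne => ?_, fun u v huv hdeg => ?_⟩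
  · by_cases h1 : w = M v
    · subst h1
      exact mne v w' hw.ne' hw' hne.symm
    · by_cases h2 : w' = M v
      · subst h2
        exact (mne v w hw'.ne' hw hne).symm
      · rw [cU v w h1, cU v w' h2]
        exact fun h => kne v w w' hw hw' hne h1 h2 (asm_phi_inj _ _ h)
  · by_cases hu : 2 ≤ G.degree u
    swap
    · exact (leaf v u huv.symm (by omega) (by omega)).ne
    by_cases hv : 2 ≤ G.degree v
    swap
    · exact (leaf u v huv hu (by omega)).ne'
    by_cases hu0 : cls u = 0 <;> by_cases hv0 : cls v = 0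
    · by_cases hmu : M u = u
      · by_cases hmv : M v = v
        · intro heq
          have h1 := sA u (hc.cub u hu hu0) hmu
          have h2 := sA v (hc.cub v hv hv0) hmv
          exact htot u v huv (hc.cub u hu hu0) hmu (hc.cub v hv hv0) hmv
            (asm_phi_inj _ _ (by omega))
        · exact (spair v u huv.symm hu hv0 hu0 hmv).symm
      · exact spair u v huv hv hu0 hv0 hmu
    · have h1 := s0 u hu hu0
      have h2 := s1 v hv hv0
      have h4 := hc.red u v huv hu hv hu0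
      have h5 : cls v = 2 ∨ cls v = 3 := by omega
      rcases h5 with h5 | h5
      · have := h2.2.1 h5; omega
      · have := h2.2.2 h5; omega
    · have h1 := s0 v hv hv0
      have h2 := s1 u hu hu0
      have h4 := hc.red v u huv.symm hv hu hv0
      have h5 : cls u = 2 ∨ cls u = 3 := by omega
      rcases h5 with h5 | h5
      · have := h2.2.1 h5; omega
      · have := h2.2.2 h5; omega
    · have h1 := s1 u hu hu0
      have h2 := s1 v hv hv0
      have h4 : cls u ≠ cls v := fun h => hu0 (hc.ind u v huv hu hv h)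
      have h5 : cls u = 1 ∨ cls u = 2 ∨ cls u = 3 := by omega
      have h6 : cls v = 1 ∨ cls v = 2 ∨ cls v = 3 := by omega
      rcases h5 with h5 | h5 | h5 <;> rcases h6 with h6 | h6 | h6
      · exact (h4 (h5.trans h6.symm)).elim
      · have := h1.1 h5; have := h2.2.1 h6; omega
      · have := h1.1 h5; have := h2.2.2 h6; omega
      · have := h1.2.1 h5; have := h2.1 h6; omega
      · exact (h4 (h5.trans h6.symm)).elim
      · have := h1.2.1 h5; have := h2.2.2 h6; omega
      · have := h1.2.2 h5; have := h2.1 h6; omega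
      · have := h1.2.2 h5; have := h2.2.1 h6; omega
      · exact (h4 (h5.trans h6.symm)).elim

omit [DecidableEq V] in
theorem asm_sum_nb {nb : V → Fin 3 → V} (hnb : IsNb G nb) {v : V} (hd : G.degree v = 3)
    (f : V → K) : ∑ w ∈ G.neighborFinset v, f w = f (nb v 0) + f (nb v 1) + f (nb v 2) := by
  rw [← Fin.sum_univ_three (fun i => f (nb v i))]
  symm
  apply Finset.sum_bij (fun i _ => nb v i)
  · intro i _
    rw [SimpleGraph.mem_neighborFinset]
    exact ((hnb v hd).2 _).2 ⟨i, rfl⟩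
  · intro i _ j _ h
    exact (hnb v hd).1 h
  · intro w hw
    rw [SimpleGraph.mem_neighborFinset] at hw
    obtain ⟨i, hi⟩ := ((hnb v hd).2 _).1 hw
    exact ⟨i, Finset.mem_univ _, hi⟩
  · intro _ _
    rfl

theorem asm_sum_tot {nb : V → Fin 3 → V} (hnb : IsNb G nb) {I : Inst V} {x : Dart V → K}
    {k : Sym2 V → K} (hk : ∀ d : Dart V, d.1 ∈ I.A → k s(d.1, nb d.1 d.2) = x d) {v : V}
    (hv : v ∈ I.A) (hd : G.degree v = 3) : ∑ w ∈ G.neighborFinset v, k s(v, w) = tot x v := by
  rw [asm_sum_nb hnb hd (fun w => k s(v, w)), hk (v, 0) hv, hk (v, 1) hv, hk (v, 2) hv]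
  rfl

theorem fin (h3 : Sub3 G) (hT : T1only G) {nb : V → Fin 3 → V} (hnb : IsNb G nb) {I : Inst V}
    {M : V → V} (hM : Mat G M) (h0 : St0 G nb I M) {cls : V → Fin 4} (hc : Cls G M cls)
    {l : V → K} (hl : GoodL G M cls l) (hL : Lc G nb I M l) (hs : I.Solv) : Goal G := by
  obtain ⟨x, hx⟩ := hs
  obtain ⟨k, hk, hsum⟩ := hL x (fun a ha => (hx.2 a ha).1)
  refine asm h3 hT hM hc hl k ?_ ?_ ?_
  · intro v w w' hd hv hw hw' hne heq
    have hA : v ∈ I.A := (h0.act v).2 ⟨hd, hv⟩
    obtain ⟨i, rfl⟩ := ((hnb v hd).2 _).1 hw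
    obtain ⟨j, rfl⟩ := ((hnb v hd).2 _).1 hw'
    rw [hk (v, i) hA, hk (v, j) hA] at heq
    exact hne (congrArg (nb v) (hx.1 v hA heq))
  · intro u v huv hdu hu hdv hv heq
    have hA : u ∈ I.A := (h0.act u).2 ⟨hdu, hu⟩
    have hA' : v ∈ I.A := (h0.act v).2 ⟨hdv, hv⟩
    rw [asm_sum_tot hnb hk hA hdu, asm_sum_tot hnb hk hA' hdv] at heq
    obtain ⟨i, hi⟩ := ((hnb u hdu).2 _).1 huv
    have hZ : I.kind (u, i) = .Z := (h0.kz (u, i) hA).2 (by rw [show nb u i = v from hi]; exact hA')
    obtain ⟨t1, t2⟩ := h0.thz (u, i) hA hZ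
    have t3 : (I.th (u, i)).1 = v := t1.trans hi
    have e1 := hk (u, i) hA
    have e2 := hk (I.th (u, i)) (by rw [t3]; exact hA')
    rw [t2, t1, Sym2.eq_swap] at e2
    apply (hx.2 (u, i) hA).2 (Or.inl hZ)
    unfold lab
    rw [t3, ← e1, ← e2]
    exact congrArg (· + _) heq
  · intro v hv hd
    exact hsum v (fun h => hv ((h0.act v).1 h)) hd

/-- Every unmatched edge is counted twice. -/
theorem asm_double {M : V → V} (hM : Mat G M) (k : Sym2 V → K) :
    ∑ v, ∑ w ∈ (G.neighborFinset v).erase (M v), k s(v, w) = 0 := by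
  have h1 : ∀ v, ∑ w ∈ (G.neighborFinset v).erase (M v), k s(v, w) =
      ∑ w, if G.Adj v w ∧ w ≠ M v then k s(v, w) else 0 := by
    intro v
    rw [← Finset.sum_filter]
    apply Finset.sum_congr _ (fun _ _ => rfl)
    ext w
    simp [and_comm]
  rw [Finset.sum_congr rfl (fun v _ => h1 v), ← Finset.sum_product']
  apply Finset.sum_involution (fun p _ => p.swap)
  · rintro ⟨v, w⟩ _
    have hiff : (G.Adj w v ∧ v ≠ M w) ↔ (G.Adj v w ∧ w ≠ M v) := by
      constructor
      · rintro ⟨h, h'⟩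
        exact ⟨h.symm, fun e => h' (by rw [e, hM.1])⟩
      · rintro ⟨h, h'⟩
        exact ⟨h.symm, fun e => h' (by rw [e, hM.1])⟩
    simp only [Prod.fst_swap, Prod.snd_swap, hiff, Sym2.eq_swap (a := w)]
    exact asm_self _
  · rintro ⟨v, w⟩ _ hne heq
    apply hne
    have : w = v := congrArg Prod.fst heq
    subst this
    simp
  · intro p _
    simp
  · intro p _
    simp

/-- In a theta with a chord the gain of the cycle is the sum of all labels. -/
theorem theta_sum {nb : V → Fin 3 → V} (hnb : IsNb G nb) (hn : NoLeaf G) {I : Inst V}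
    {M : V → V} (hM : Mat G M) (h0 : St0 G nb I M) (h : I.WF) {l : V → K}
    (hL : Lc G nb I M l) {a b c : Dart V} (hd : I.Dig a b c (I.th a)) (hk : I.kind a = .Z)
    (hA : I.A = {a.1, (I.th a).1}) :
    I.g b + I.g c = ∑ v ∈ Finset.univ.filter (fun v => v ∉ I.A ∧ 2 ≤ G.degree v), l v := by
  obtain ⟨ha, t1, kb, kc, hne, t2⟩ := hd
  have hb : b.1 ∈ I.A := by rw [t1.1]; exact ha
  have hc : c.1 ∈ I.A := by rw [t1.2.1]; exact ha
  have hz : (I.th a).1 ∈ I.A := h.mem a ha
  obtain ⟨x, hxdef⟩ : ∃ x : Dart V → K, ∀ d, x d =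
      if d = I.th b then I.g b else if d = I.th c then I.g c else 0 := ⟨_, fun _ => rfl⟩
  have xu : ∀ d : Dart V, d.1 = a.1 → x d = 0 := by
    intro d hd
    rw [hxdef, if_neg, if_neg]
    · rintro rfl
      exact hne (t2.2.1.symm.trans hd)
    · rintro rfl
      exact hne (t2.1.symm.trans hd)
  have xa : x (I.th a) = 0 := by rw [hxdef, if_neg t2.2.2.1, if_neg t2.2.2.2.1]
  have xb : x (I.th b) = I.g b := by rw [hxdef, if_pos rfl]
  have xc : x (I.th c) = I.g c := by rw [hxdef, if_neg t2.2.2.2.2.symm, if_pos rfl]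
  have ga : I.g a = 0 := h.gZ a ha hk
  have hlin : I.Lin x := by
    intro d hdA _
    rw [hA, Finset.mem_insert, Finset.mem_singleton] at hdA
    rcases hdA with h1 | h1
    · rcases t1.cases d h1 with rfl | rfl | rfl
      · rw [xa, xu d rfl, ga, add_zero]
      · rw [xb, xu d h1, zero_add]
      · rw [xc, xu d h1, zero_add]
    · rcases t2.cases d h1 with rfl | rfl | rfl
      · rw [h.inv a ha, h.g_th a ha, xa, xu a rfl, ga, add_zero]
      · rw [h.inv b hb, h.g_th b hb, xb, xu b t1.1, asm_self]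
      · rw [h.inv c hc, h.g_th c hc, xc, xu c t1.2.1, asm_self]
  obtain ⟨k, hk1, hsum⟩ := hL x hlin
  have hdbl := asm_double hM k
  rw [← Finset.sum_filter_add_sum_filter_not Finset.univ (fun v => v ∈ I.A)] at hdbl
  have hin : ∀ v ∈ I.A, ∑ w ∈ (G.neighborFinset v).erase (M v), k s(v, w) = tot x v := by
    intro v hv
    obtain ⟨h1, h2⟩ := (h0.act v).1 hv
    rw [h2, Finset.erase_eq_of_notMem (by simp), asm_sum_tot hnb hk1 hv h1]
  have e1 : ∑ v ∈ Finset.univ.filter (fun v => v ∈ I.A),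
      ∑ w ∈ (G.neighborFinset v).erase (M v), k s(v, w) = I.g b + I.g c := by
    rw [Finset.filter_mem_eq_inter, Finset.univ_inter, Finset.sum_congr rfl hin, hA,
      Finset.sum_pair hne.symm, t1.tot_eq, t2.tot_eq, xu a rfl, xu b t1.1, xu c t1.2.1, xa, xb, xc]
    simp
  have e2 : ∑ v ∈ Finset.univ.filter (fun v => v ∉ I.A),
      ∑ w ∈ (G.neighborFinset v).erase (M v), k s(v, w) =
      ∑ v ∈ Finset.univ.filter (fun v => v ∉ I.A ∧ 2 ≤ G.degree v), l v := by
    rw [← Finset.filter_filter, Finset.sum_filter (s := Finset.univ.filter (fun v => v ∉ I.A))]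
    apply Finset.sum_congr rfl
    intro v hv
    rw [Finset.mem_filter] at hv
    split_ifs with h2
    · exact hsum v hv.2 h2
    · have h1 := hn v
      have h4 : G.neighborFinset v = ∅ := by
        rw [← Finset.card_eq_zero, G.card_neighborFinset_eq_degree]; omega
      rw [h4]
      simp
  rw [e1, e2] at hdbl
  exact asm_eq_of_add _ _ hdbl

end Pool.Agent.P.MP_0ad50f_co.SC
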