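import Pool.Agent.P.MP_0ad50f_co.SC.Basic0

namespace Pool.Agent.P.MP_0ad50f_co.SC

variable {V : Type} [DecidableEq V]

namespace Inst

theorem bs_rem_A (I : Inst V) (X : Finset V) : (I.rem X).A = I.A \ X := rfl

theorem bs_rem_th (I : Inst V) (X : Finset V) (a : Dart V) :
    (I.rem X).th a = if (I.th a).1 ∈ X then a else I.th a := rfl

theorem bs_rem_kind (I : Inst V) (X : Finset V) (a : Dart V) :
    (I.rem X).kind a = if (I.th a).1 ∈ X then .F else I.kind a := rfl

theorem bs_rem_g (I : Inst V) (X : Finset V) : (I.rem X).g = I.g := rfl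

theorem bs_join_th (I : Inst V) (p q : Dart V) (k : Kind) (t : K) (a : Dart V) :
    (I.join p q k t).th a = if a = p then q else if a = q then p else I.th a := rfl

theorem bs_join_kind (I : Inst V) (p q : Dart V) (k : Kind) (t : K) (a : Dart V) :
    (I.join p q k t).kind a = if a = p ∨ a = q then k else I.kind a := rfl

theorem bs_join_g (I : Inst V) (p q : Dart V) (k : Kind) (t : K) (a : Dart V) :
    (I.join p q k t).g a = if a = p ∨ a = q then t else I.g a := rfl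

theorem bs_cut_th (I : Inst V) (a d : Dart V) :
    (I.cut a).th d = if d = a ∨ d = I.th a then d else I.th d := rfl

theorem bs_cut_kind (I : Inst V) (a d : Dart V) :
    (I.cut a).kind d = if d = a ∨ d = I.th a then .F else I.kind d := rfl

theorem bs_setN_kind (I : Inst V) (a d : Dart V) :
    (I.setN a).kind d = if d = a ∨ d = I.th a then .N else I.kind d := rfl

theorem bs_allN_kind (I : Inst V) (d : Dart V) :
    I.allN.kind d = if I.kind d = .Z then .N else I.kind d := rfl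

theorem wf_rem {I : Inst V} (h : I.WF) (X : Finset V) : (I.rem X).WF := by
  have hm : ∀ a : Dart V, a.1 ∈ (I.rem X).A → a.1 ∈ I.A ∧ a.1 ∉ X := fun a ha =>
    Finset.mem_sdiff.1 ha
  refine ⟨fun a ha => ?_, fun a ha => ?_, fun a ha => ?_, fun a ha => ?_, fun a ha => ?_,
    fun a ha => ?_⟩
  · rw [bs_rem_th]
    by_cases hx : (I.th a).1 ∈ X
    · rw [if_pos hx]
      exact ha
    · rw [if_neg hx]
      exact Finset.mem_sdiff.2 ⟨h.mem a (hm a ha).1, hx⟩
  · by_cases hx : (I.th a).1 ∈ X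
    · have e : (I.rem X).th a = a := by rw [bs_rem_th, if_pos hx]
      rw [e, e]
    · have e : (I.rem X).th a = I.th a := by rw [bs_rem_th, if_neg hx]
      rw [e, bs_rem_th, h.inv a (hm a ha).1, if_neg (hm a ha).2]
  · by_cases hx : (I.th a).1 ∈ X
    · have e : (I.rem X).th a = a := by rw [bs_rem_th, if_pos hx]
      rw [e]
    · have e : (I.rem X).th a = I.th a := by rw [bs_rem_th, if_neg hx]
      rw [e, bs_rem_kind, bs_rem_kind, h.inv a (hm a ha).1, if_neg (hm a ha).2, if_neg hx,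
        h.kind_th a (hm a ha).1]
  · rw [bs_rem_g, bs_rem_th]
    by_cases hx : (I.th a).1 ∈ X
    · rw [if_pos hx]
    · rw [if_neg hx, h.g_th a (hm a ha).1]
  · rw [bs_rem_kind, bs_rem_th]
    by_cases hx : (I.th a).1 ∈ X
    · rw [if_pos hx, if_pos hx]
      exact ⟨fun _ => rfl, fun _ => rfl⟩
    · rw [if_neg hx, if_neg hx]
      exact h.free a (hm a ha).1
  · rw [bs_rem_kind, bs_rem_g]
    by_cases hx : (I.th a).1 ∈ X
    · rw [if_pos hx]
      intro hk
      cases hk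
    · rw [if_neg hx]
      exact h.gZ a (hm a ha).1

theorem wf_join {I : Inst V} (h : I.WF) {p q : Dart V} (hp : p.1 ∈ I.A) (hq : q.1 ∈ I.A)
    (hpq : p ≠ q) (hpF : I.kind p = .F) (hqF : I.kind q = .F) {k : Kind}
    (hk : k = .R ∨ k = .N) (t : K) : (I.join p q k t).WF := by
  have hpp : I.th p = p := (h.free p hp).1 hpF
  have hqq : I.th q = q := (h.free q hq).1 hqF
  have e1 : (I.join p q k t).th p = q := by rw [bs_join_th, if_pos rfl]
  have e2 : (I.join p q k t).th q = p := by rw [bs_join_th, if_neg hpq.symm, if_pos rfl]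
  have e3 : ∀ a, a ≠ p → a ≠ q → (I.join p q k t).th a = I.th a := fun a h1 h2 => by
    rw [bs_join_th, if_neg h1, if_neg h2]
  have k1 : (I.join p q k t).kind p = k := by rw [bs_join_kind, if_pos (Or.inl rfl)]
  have k2 : (I.join p q k t).kind q = k := by rw [bs_join_kind, if_pos (Or.inr rfl)]
  have k3 : ∀ a, a ≠ p → a ≠ q → (I.join p q k t).kind a = I.kind a := fun a h1 h2 => by
    rw [bs_join_kind, if_neg (not_or.2 ⟨h1, h2⟩)]
  have g1 : (I.join p q k t).g p = t := by rw [bs_join_g, if_pos (Or.inl rfl)]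
  have g2 : (I.join p q k t).g q = t := by rw [bs_join_g, if_pos (Or.inr rfl)]
  have g3 : ∀ a, a ≠ p → a ≠ q → (I.join p q k t).g a = I.g a := fun a h1 h2 => by
    rw [bs_join_g, if_neg (not_or.2 ⟨h1, h2⟩)]
  have n1 : ∀ a : Dart V, a.1 ∈ I.A → a ≠ p → I.th a ≠ p := fun a ha h1 he =>
    h1 (by rw [← h.inv a ha, he, hpp])
  have n2 : ∀ a : Dart V, a.1 ∈ I.A → a ≠ q → I.th a ≠ q := fun a ha h1 he =>
    h1 (by rw [← h.inv a ha, he, hqq])
  have hkF : k ≠ .F := by
    rcases hk with rfl | rfl <;> intro he <;> cases he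
  have hkZ : k ≠ .Z := by
    rcases hk with rfl | rfl <;> intro he <;> cases he
  have cs : ∀ a : Dart V, a = p ∨ a = q ∨ (a ≠ p ∧ a ≠ q) := fun a => by
    by_cases h1 : a = p
    · exact Or.inl h1
    · by_cases h2 : a = q
      · exact Or.inr (Or.inl h2)
      · exact Or.inr (Or.inr ⟨h1, h2⟩)
  refine ⟨fun a ha => ?_, fun a ha => ?_, fun a ha => ?_, fun a ha => ?_, fun a ha => ?_,
    fun a ha => ?_⟩
  · rcases cs a with h1 | h1 | ⟨h1, h2⟩
    · rw [h1, e1]
      exact hq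
    · rw [h1, e2]
      exact hp
    · rw [e3 a h1 h2]
      exact h.mem a ha
  · rcases cs a with h1 | h1 | ⟨h1, h2⟩
    · rw [h1, e1, e2]
    · rw [h1, e2, e1]
    · rw [e3 a h1 h2, e3 _ (n1 a ha h1) (n2 a ha h2), h.inv a ha]
  · rcases cs a with h1 | h1 | ⟨h1, h2⟩
    · rw [h1, e1, k1, k2]
    · rw [h1, e2, k1, k2]
    · rw [e3 a h1 h2, k3 _ (n1 a ha h1) (n2 a ha h2), k3 a h1 h2, h.kind_th a ha]
  · rcases cs a with h1 | h1 | ⟨h1, h2⟩
    · rw [h1, e1, g1, g2]
    · rw [h1, e2, g1, g2]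
    · rw [e3 a h1 h2, g3 _ (n1 a ha h1) (n2 a ha h2), g3 a h1 h2, h.g_th a ha]
  · rcases cs a with h1 | h1 | ⟨h1, h2⟩
    · rw [h1, e1, k1]
      exact ⟨fun he => absurd he hkF, fun he => absurd he.symm hpq⟩
    · rw [h1, e2, k2]
      exact ⟨fun he => absurd he hkF, fun he => absurd he hpq⟩
    · rw [e3 a h1 h2, k3 a h1 h2]
      exact h.free a ha
  · rcases cs a with h1 | h1 | ⟨h1, h2⟩
    · rw [h1, k1]
      exact fun he => absurd he hkZ
    · rw [h1, k2]
      exact fun he => absurd he hkZ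
    · rw [k3 a h1 h2, g3 a h1 h2]
      exact h.gZ a ha

/-- The edge of `a` is stable under the pairing. -/
theorem bs_edge {I : Inst V} (h : I.WF) {a d : Dart V} (ha : a.1 ∈ I.A) (hd : d.1 ∈ I.A) :
    (I.th d = a ∨ I.th d = I.th a) ↔ (d = a ∨ d = I.th a) := by
  constructor
  · rintro (he | he)
    · exact Or.inr (by rw [← he, h.inv d hd])
    · exact Or.inl (by rw [← h.inv d hd, he, h.inv a ha])
  · rintro (he | he)
    · exact Or.inr (by rw [he])
    · exact Or.inl (by rw [he, h.inv a ha])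

theorem wf_cut {I : Inst V} (h : I.WF) {a : Dart V} (ha : a.1 ∈ I.A) : (I.cut a).WF := by
  have e1 : ∀ d, (d = a ∨ d = I.th a) → (I.cut a).th d = d := fun d hd => by
    rw [bs_cut_th, if_pos hd]
  have e2 : ∀ d, ¬ (d = a ∨ d = I.th a) → (I.cut a).th d = I.th d := fun d hd => by
    rw [bs_cut_th, if_neg hd]
  have k1 : ∀ d, (d = a ∨ d = I.th a) → (I.cut a).kind d = .F := fun d hd => by
    rw [bs_cut_kind, if_pos hd]
  have k2 : ∀ d, ¬ (d = a ∨ d = I.th a) → (I.cut a).kind d = I.kind d := fun d hd => by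
    rw [bs_cut_kind, if_neg hd]
  refine ⟨fun d hd => ?_, fun d hd => ?_, fun d hd => ?_, fun d hd => ?_, fun d hd => ?_,
    fun d hd => ?_⟩
  · by_cases hc : d = a ∨ d = I.th a
    · rw [e1 d hc]
      exact hd
    · rw [e2 d hc]
      exact h.mem d hd
  · by_cases hc : d = a ∨ d = I.th a
    · rw [e1 d hc, e1 d hc]
    · rw [e2 d hc, e2 _ (fun he => hc ((bs_edge h ha hd).1 he)), h.inv d hd]
  · by_cases hc : d = a ∨ d = I.th a
    · rw [e1 d hc]
    · rw [e2 d hc, k2 _ (fun he => hc ((bs_edge h ha hd).1 he)), k2 d hc, h.kind_th d hd]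
  · by_cases hc : d = a ∨ d = I.th a
    · rw [e1 d hc]
    · rw [e2 d hc]
      exact h.g_th d hd
  · by_cases hc : d = a ∨ d = I.th a
    · rw [e1 d hc, k1 d hc]
      exact ⟨fun _ => rfl, fun _ => rfl⟩
    · rw [e2 d hc, k2 d hc]
      exact h.free d hd
  · by_cases hc : d = a ∨ d = I.th a
    · rw [k1 d hc]
      intro he
      cases he
    · rw [k2 d hc]
      exact h.gZ d hd

theorem wf_setN {I : Inst V} (h : I.WF) {a : Dart V} (ha : a.1 ∈ I.A) (hk : I.kind a ≠ .F) :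
    (I.setN a).WF := by
  have k1 : ∀ d, (d = a ∨ d = I.th a) → (I.setN a).kind d = .N := fun d hd => by
    rw [bs_setN_kind, if_pos hd]
  have k2 : ∀ d, ¬ (d = a ∨ d = I.th a) → (I.setN a).kind d = I.kind d := fun d hd => by
    rw [bs_setN_kind, if_neg hd]
  refine ⟨h.mem, h.inv, fun d hd => ?_, h.g_th, fun d hd => ?_, fun d hd => ?_⟩
  · show (I.setN a).kind (I.th d) = (I.setN a).kind d
    by_cases hc : d = a ∨ d = I.th a
    · rw [k1 d hc, k1 _ ((bs_edge h ha hd).2 hc)]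
    · rw [k2 d hc, k2 _ (fun he => hc ((bs_edge h ha hd).1 he)), h.kind_th d hd]
  · show (I.setN a).kind d = .F ↔ I.th d = d
    by_cases hc : d = a ∨ d = I.th a
    · rw [k1 d hc]
      constructor
      · intro he
        cases he
      · intro he
        have hF : I.kind d = .F := (h.free d hd).2 he
        rcases hc with h1 | h1
        · rw [h1] at hF
          exact absurd hF hk
        · rw [h1, h.kind_th a ha] at hF
          exact absurd hF hk
    · rw [k2 d hc]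
      exact h.free d hd
  · by_cases hc : d = a ∨ d = I.th a
    · rw [k1 d hc]
      intro he
      cases he
    · rw [k2 d hc]
      exact h.gZ d hd

theorem wf_allN {I : Inst V} (h : I.WF) : I.allN.WF := by
  refine ⟨h.mem, h.inv, fun d hd => ?_, h.g_th, fun d hd => ?_, fun d hd => ?_⟩
  · show I.allN.kind (I.th d) = I.allN.kind d
    rw [bs_allN_kind, bs_allN_kind, h.kind_th d hd]
  · show I.allN.kind d = .F ↔ I.th d = d
    rw [bs_allN_kind, ← h.free d hd]
    by_cases hc : I.kind d = .Z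
    · rw [if_pos hc, hc]
      constructor <;> intro he <;> cases he
    · rw [if_neg hc]
  · rw [bs_allN_kind]
    by_cases hc : I.kind d = .Z
    · rw [if_pos hc]
      intro he
      cases he
    · rw [if_neg hc]
      exact fun he => absurd he hc

theorem loops_rem {I : Inst V} (h : I.LoopsOK) (X : Finset V) : (I.rem X).LoopsOK := by
  intro a ha
  rw [bs_rem_th, bs_rem_kind, bs_rem_g]
  by_cases hx : (I.th a).1 ∈ X
  · rw [if_pos hx, if_pos hx]
    intro _
    constructor <;> intro he <;> cases he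
  · rw [if_neg hx, if_neg hx]
    exact h a (Finset.mem_sdiff.1 ha).1

theorem loops_cut {I : Inst V} (h : I.LoopsOK) (a : Dart V) : (I.cut a).LoopsOK := by
  intro d hd
  rw [bs_cut_th, bs_cut_kind]
  by_cases hc : d = a ∨ d = I.th a
  · rw [if_pos hc, if_pos hc]
    intro _
    constructor <;> intro he <;> cases he
  · rw [if_neg hc, if_neg hc]
    exact h d hd

theorem loops_setN {I : Inst V} (h : I.LoopsOK) (a : Dart V) : (I.setN a).LoopsOK := by
  intro d hd
  rw [bs_setN_kind]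
  by_cases hc : d = a ∨ d = I.th a
  · rw [if_pos hc]
    intro _
    constructor <;> intro he <;> cases he
  · rw [if_neg hc]
    exact h d hd

theorem loops_join {I : Inst V} (h : I.LoopsOK) {p q : Dart V} {k : Kind} {t : K}
    (hk : k = .N ∨ (k = .R ∧ (p.1 = q.1 → t ≠ 0))) : (I.join p q k t).LoopsOK := by
  have key : p.1 = q.1 → (k = .R → t ≠ 0) ∧ k ≠ .Z := by
    intro he
    rcases hk with h1 | ⟨h1, h2⟩
    · rw [h1]
      constructor <;> intro he <;> cases he
    · refine ⟨fun _ => h2 he, ?_⟩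
      rw [h1]
      intro he
      cases he
  intro a ha
  rw [bs_join_th, bs_join_kind, bs_join_g]
  by_cases h1 : a = p
  · rw [if_pos h1, if_pos (Or.inl h1), if_pos (Or.inl h1)]
    intro he
    exact key (by rw [he, h1])
  · by_cases h2 : a = q
    · rw [if_neg h1, if_pos h2, if_pos (Or.inr h2), if_pos (Or.inr h2)]
      intro he
      exact key (by rw [he, h2])
    · rw [if_neg h1, if_neg h2, if_neg (not_or.2 ⟨h1, h2⟩), if_neg (not_or.2 ⟨h1, h2⟩)]
      exact h a ha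

theorem NoLoop.loopsOK {I : Inst V} (h : I.NoLoop) : I.LoopsOK := by
  intro a ha he
  have hF : I.kind a = .F := by
    by_contra hn
    exact h a ha hn he
  rw [hF]
  constructor <;> intro h1 <;> cases h1

theorem bs_root_congr {I J : Inst V} {v : V} (h : ∀ i, J.kind (v, i) = I.kind (v, i))
    (hr : I.Root v) : J.Root v := by
  rcases hr with ⟨i, hi⟩ | hr
  · exact Or.inl ⟨i, by rw [h i, hi]⟩
  · refine Or.inr ?_
    have : J.jZN v = I.jZN v := by
      unfold jZN
      simp only [h]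
    rwa [this]

theorem bs_rem_step {I : Inst V} (X : Finset V) (r : V → ℕ) (v : V)
    (h : (∃ i, (I.th (v, i)).1 ∈ X) ∨ I.Root v ∨ ∃ i, r (I.th (v, i)).1 < r v) :
    (I.rem X).Root v ∨ ∃ i, r ((I.rem X).th (v, i)).1 < r v := by
  by_cases hx : ∃ i, (I.th (v, i)).1 ∈ X
  · obtain ⟨i, hi⟩ := hx
    exact Or.inl (Or.inl ⟨i, by rw [bs_rem_kind, if_pos hi]⟩)
  · have hn : ∀ i, (I.th (v, i)).1 ∉ X := fun i hi => hx ⟨i, hi⟩
    rcases h with h | h | ⟨i, hi⟩
    · exact absurd h hx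
    · exact Or.inl (bs_root_congr (fun i => by rw [bs_rem_kind, if_neg (hn i)]) h)
    · exact Or.inr ⟨i, by rw [bs_rem_th, if_neg (hn i)]; exact hi⟩

theorem rooted_rem {I : Inst V} (h : I.Rooted) (X : Finset V) : (I.rem X).Rooted := by
  obtain ⟨r, hr⟩ := h
  exact ⟨r, fun v hv => bs_rem_step X r v (Or.inr (hr v (Finset.mem_sdiff.1 hv).1))⟩

theorem rootedP_rem {I : Inst V} {c : V} (h : I.RootedP c) (X : Finset V)
    (hc : c ∈ X ∨ ∃ i, (I.th (c, i)).1 ∈ X) : (I.rem X).Rooted := by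
  obtain ⟨r, hr⟩ := h
  refine ⟨r, fun v hv => bs_rem_step X r v ?_⟩
  obtain ⟨hv1, hv2⟩ := Finset.mem_sdiff.1 hv
  rcases hr v hv1 with h1 | h1
  · rcases hc with hc | hc
    · exact absurd (h1 ▸ hc) hv2
    · exact Or.inl (h1 ▸ hc)
  · exact Or.inr h1

theorem Rooted.rootedP {I : Inst V} (h : I.Rooted) (c : V) : I.RootedP c := by
  obtain ⟨r, hr⟩ := h
  exact ⟨r, fun v hv => Or.inr (hr v hv)⟩

theorem RootedP.rooted {I : Inst V} {c : V} (h : I.RootedP c) (hc : I.Root c) : I.Rooted := by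
  obtain ⟨r, hr⟩ := h
  refine ⟨r, fun v hv => ?_⟩
  rcases hr v hv with h1 | h1
  · exact Or.inl (h1 ▸ hc)
  · exact h1

theorem rooted_of_all {I : Inst V} (h : ∀ v ∈ I.A, I.Root v) : I.Rooted := by
  exact ⟨fun _ => 0, fun v hv => Or.inl (h v hv)⟩

theorem rooted_setN {I : Inst V} (h : I.Rooted) {a : Dart V} (hw : I.WF) (ha : a.1 ∈ I.A)
    (hk : I.kind a = .Z) : (I.setN a).Rooted := by
  obtain ⟨r, hr⟩ := h
  have hZ : ∀ d, (d = a ∨ d = I.th a) → I.kind d = .Z := by
    rintro d (h1 | h1)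
    · rw [h1, hk]
    · rw [h1, hw.kind_th a ha, hk]
  refine ⟨r, fun v hv => ?_⟩
  rcases hr v hv with (⟨i, hi⟩ | h1) | h1
  · refine Or.inl (Or.inl ⟨i, ?_⟩)
    rw [bs_setN_kind, if_neg, hi]
    intro hc
    rw [hZ _ hc] at hi
    cases hi
  · refine Or.inl (Or.inr ?_)
    have : (I.setN a).jZN v = I.jZN v := by
      unfold jZN
      congr 1
      refine Finset.filter_congr (fun i _ => ?_)
      rw [bs_setN_kind]
      by_cases hc : (v, i) = a ∨ (v, i) = I.th a
      · rw [if_pos hc]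
        exact ⟨fun _ => Or.inl (hZ _ hc), fun _ => Or.inr rfl⟩
      · rw [if_neg hc]
    rwa [this]
  · exact Or.inr h1

theorem bs_mem_Z {I : Inst V} {d : Dart V} :
    d ∈ (I.A ×ˢ Finset.univ).filter (fun d : Dart V => I.kind d = .Z) ↔
      d.1 ∈ I.A ∧ I.kind d = .Z := by
  rw [Finset.mem_filter, Finset.mem_product]
  exact ⟨fun h => ⟨h.1.1, h.2⟩, fun h => ⟨⟨h.1, Finset.mem_univ _⟩, h.2⟩⟩

theorem bs_nZ_le {I J : Inst V}
    (h : ∀ d : Dart V, d.1 ∈ J.A → J.kind d = .Z → d.1 ∈ I.A ∧ I.kind d = .Z) : J.nZ ≤ I.nZ :=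
  Finset.card_le_card (fun d hd => bs_mem_Z.2 (h d (bs_mem_Z.1 hd).1 (bs_mem_Z.1 hd).2))

theorem bs_nZ_lt {I J : Inst V}
    (h : ∀ d : Dart V, d.1 ∈ J.A → J.kind d = .Z → d.1 ∈ I.A ∧ I.kind d = .Z) {a : Dart V}
    (ha : a.1 ∈ I.A) (hk : I.kind a = .Z) (hn : ¬ (a.1 ∈ J.A ∧ J.kind a = .Z)) : J.nZ < I.nZ := by
  refine Finset.card_lt_card ((Finset.ssubset_iff_of_subset
    (fun d hd => bs_mem_Z.2 (h d (bs_mem_Z.1 hd).1 (bs_mem_Z.1 hd).2))).2 ?_)
  exact ⟨a, bs_mem_Z.2 ⟨ha, hk⟩, fun hm => hn (bs_mem_Z.1 hm)⟩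

theorem nZ_setN {I : Inst V} {a : Dart V} (ha : a.1 ∈ I.A) (hk : I.kind a = .Z) :
    (I.setN a).nZ < I.nZ := by
  refine bs_nZ_lt (fun d hd hZ => ⟨hd, ?_⟩) ha hk (fun hm => ?_)
  · rw [bs_setN_kind] at hZ
    by_cases hc : d = a ∨ d = I.th a
    · rw [if_pos hc] at hZ
      cases hZ
    · rwa [if_neg hc] at hZ
  · have h2 := hm.2
    rw [bs_setN_kind, if_pos (Or.inl rfl)] at h2
    cases h2

theorem nZ_rem {I : Inst V} {X : Finset V} {a : Dart V} (ha : a.1 ∈ I.A) (hX : a.1 ∈ X)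
    (hk : I.kind a = .Z) : (I.rem X).nZ < I.nZ := by
  refine bs_nZ_lt (fun d hd hZ => ⟨(Finset.mem_sdiff.1 hd).1, ?_⟩) ha hk
    (fun hm => (Finset.mem_sdiff.1 hm.1).2 hX)
  rw [bs_rem_kind] at hZ
  by_cases hc : (I.th d).1 ∈ X
  · rw [if_pos hc] at hZ
    cases hZ
  · rwa [if_neg hc] at hZ

theorem nZ_join {I : Inst V} {p q : Dart V} {k : Kind} (hk : k ≠ .Z) (t : K) :
    (I.join p q k t).nZ ≤ I.nZ := by
  refine bs_nZ_le (fun d hd hZ => ⟨hd, ?_⟩)
  rw [bs_join_kind] at hZ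
  by_cases hc : d = p ∨ d = q
  · rw [if_pos hc] at hZ
    exact absurd hZ hk
  · rwa [if_neg hc] at hZ

theorem noZ_of_nZ {I : Inst V} (h : I.nZ = 0) : I.NoK .Z := by
  intro a ha hk
  have hm := bs_mem_Z.2 ⟨ha, hk⟩
  rw [Finset.card_eq_zero.1 h] at hm
  exact absurd hm (Finset.notMem_empty a)

end Inst

end Pool.Agent.P.MP_0ad50f_co.SC
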