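import Pool.Agent.P.MP_0ad50f_co.SC.Defs

namespace Pool.Agent.P.MP_0ad50f_co.SC

variable {V : Type} [DecidableEq V]

theorem K_add_self (x : K) : x + x = 0 := by
  revert x
  decide

theorem b0_ex : ∀ i : Fin 3, ∃ j k, i ≠ j ∧ i ≠ k ∧ j ≠ k := by decide

theorem b0_third : ∀ j k : Fin 3, ∃ i, i ≠ j ∧ i ≠ k := by decide

theorem b0_cases : ∀ i j k l : Fin 3, i ≠ j → i ≠ k → j ≠ k → l = i ∨ l = j ∨ l = k := by decide

theorem b0_sum {M : Type} [AddCommMonoid M] (f : Fin 3 → M) {i j k : Fin 3} (h1 : i ≠ j)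
    (h2 : i ≠ k) (h3 : j ≠ k) : ∑ l, f l = f i + f j + f k := by
  have e : (Finset.univ : Finset (Fin 3)) = {i, j, k} := by
    ext l
    simpa using b0_cases i j k l h1 h2 h3
  rw [e, Finset.sum_insert (by simp [h1, h2]), Finset.sum_pair h3, add_assoc]

omit [DecidableEq V] in
theorem b0_mk (v : V) {i j k : Fin 3} (h1 : i ≠ j) (h2 : i ≠ k) (h3 : j ≠ k) :
    Three (v, i) (v, j) (v, k) :=
  ⟨rfl, rfl, fun e => h1 (Prod.ext_iff.1 e).2, fun e => h2 (Prod.ext_iff.1 e).2,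
    fun e => h3 (Prod.ext_iff.1 e).2⟩

omit [DecidableEq V] in
theorem b0_norm {a b c : Dart V} (h : Three a b c) :
    ∃ (v : V) (i j k : Fin 3), a = (v, i) ∧ b = (v, j) ∧ c = (v, k) ∧ i ≠ j ∧ i ≠ k ∧ j ≠ k := by
  obtain ⟨v, i⟩ := a
  obtain ⟨w, j⟩ := b
  obtain ⟨z, k⟩ := c
  obtain ⟨h1, h2, h3, h4, h5⟩ := h
  obtain rfl : w = v := h1
  obtain rfl : z = w := h2
  exact ⟨_, i, j, k, rfl, rfl, rfl, fun e => h3 (by rw [e]), fun e => h4 (by rw [e]),
    fun e => h5 (by rw [e])⟩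

theorem three_exists (a : Dart V) : ∃ b c, Three a b c := by
  obtain ⟨v, i⟩ := a
  obtain ⟨j, k, h1, h2, h3⟩ := b0_ex i
  exact ⟨(v, j), (v, k), b0_mk v h1 h2 h3⟩

theorem Three.cases {a b c : Dart V} (h : Three a b c) (d : Dart V) (hd : d.1 = a.1) :
    d = a ∨ d = b ∨ d = c := by
  obtain ⟨v, i, j, k, rfl, rfl, rfl, h1, h2, h3⟩ := b0_norm h
  obtain ⟨w, l⟩ := d
  obtain rfl : w = v := hd
  rcases b0_cases i j k l h1 h2 h3 with rfl | rfl | rfl
  · exact Or.inl rfl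
  · exact Or.inr (Or.inl rfl)
  · exact Or.inr (Or.inr rfl)

theorem Three.swap {a b c : Dart V} (h : Three a b c) : Three a c b := by
  exact ⟨h.2.1, h.1, h.2.2.2.1, h.2.2.1, h.2.2.2.2.symm⟩

theorem Three.rot {a b c : Dart V} (h : Three a b c) : Three b a c := by
  exact ⟨h.1.symm, h.2.1.trans h.1.symm, h.2.2.1.symm, h.2.2.2.2, h.2.2.2.1⟩

theorem Three.third {b c : Dart V} (h : b.1 = c.1) (hne : b ≠ c) : ∃ a, Three a b c := by
  obtain ⟨v, j⟩ := b
  obtain ⟨w, k⟩ := c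
  obtain rfl : v = w := h
  obtain ⟨i, h1, h2⟩ := b0_third j k
  exact ⟨(v, i), b0_mk v h1 h2 fun e => hne (by rw [e])⟩

theorem Three.tot_eq {a b c : Dart V} (h : Three a b c) (x : Dart V → K) :
    tot x a.1 = x a + x b + x c := by
  obtain ⟨v, i, j, k, rfl, rfl, rfl, h1, h2, h3⟩ := b0_norm h
  have := b0_sum (fun i => x (v, i)) h1 h2 h3
  rw [Fin.sum_univ_three] at this
  exact this

theorem Three.lab_eq {a b c : Dart V} (h : Three a b c) (x : Dart V → K) :
    lab x a = x b + x c := by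
  unfold lab
  rw [h.tot_eq x, add_assoc (x a), add_comm (x a), add_assoc _ (x a), K_add_self, add_zero]

theorem Three.inj_iff {a b c : Dart V} (h : Three a b c) (x : Dart V → K) :
    (Function.Injective fun i => x (a.1, i)) ↔ x a ≠ x b ∧ x a ≠ x c ∧ x b ≠ x c := by
  obtain ⟨v, i, j, k, rfl, rfl, rfl, h1, h2, h3⟩ := b0_norm h
  refine ⟨fun g => ⟨fun e => h1 (g e), fun e => h2 (g e), fun e => h3 (g e)⟩, ?_⟩
  rintro ⟨g1, g2, g3⟩ l n e
  rcases b0_cases i j k l h1 h2 h3 with rfl | rfl | rfl <;>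
    rcases b0_cases _ _ _ n h1 h2 h3 with rfl | rfl | rfl
  exacts [rfl, (g1 e).elim, (g2 e).elim, (g1 e.symm).elim, rfl, (g3 e).elim, (g2 e.symm).elim,
    (g3 e.symm).elim, rfl]

theorem Three.jZN_eq {a b c : Dart V} (h : Three a b c) (I : Inst V) :
    I.jZN a.1 = (if I.kind a = .Z ∨ I.kind a = .N then 1 else 0) +
      (if I.kind b = .Z ∨ I.kind b = .N then 1 else 0) +
      (if I.kind c = .Z ∨ I.kind c = .N then 1 else 0) := by
  obtain ⟨v, i, j, k, rfl, rfl, rfl, h1, h2, h3⟩ := b0_norm h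
  unfold Inst.jZN
  rw [Finset.card_filter]
  exact b0_sum (fun i => if I.kind (v, i) = .Z ∨ I.kind (v, i) = .N then 1 else 0) h1 h2 h3

theorem lab_congr {x y : Dart V → K} {a : Dart V} (h : ∀ d : Dart V, d.1 = a.1 → y d = x d) :
    lab y a = lab x a := by
  unfold lab tot
  rw [h (a.1, 0) rfl, h (a.1, 1) rfl, h (a.1, 2) rfl, h a rfl]

/-- Two different darts at one vertex have different labels, and labels are nonzero. -/
theorem lab_ne {x : Dart V → K} {a b : Dart V} (h : Function.Injective fun i => x (a.1, i))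
    (hab : b.1 = a.1) (hne : a ≠ b) : lab x a ≠ lab x b := by
  intro e
  unfold lab at e
  rw [hab] at e
  obtain ⟨v, i⟩ := a
  obtain ⟨w, j⟩ := b
  obtain rfl : w = v := hab
  exact hne (by rw [h (add_left_cancel e)])

theorem lab_ne_zero {x : Dart V → K} {a : Dart V} (h : Function.Injective fun i => x (a.1, i)) :
    lab x a ≠ 0 := by
  obtain ⟨b, c, ht⟩ := three_exists a
  rw [ht.lab_eq x]
  intro e
  refine ((ht.inj_iff x).1 h).2.2 ?_
  rw [← zero_add (x c), ← e, add_assoc, K_add_self, add_zero]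

namespace Inst

omit [DecidableEq V] in
theorem b0_ok_free {I : Inst V} (x : Dart V → K) {a : Dart V} (h : I.kind a = .F) : I.Ok x a := by
  unfold Ok
  rw [h]
  simp

theorem b0_ok_rem {I : Inst V} {X : Finset V} (x : Dart V → K) {a : Dart V}
    (h : (I.th a).1 ∉ X) : (I.rem X).Ok x a ↔ I.Ok x a := by
  simp only [Ok, rem, h, if_false]

theorem WF.th_inj {I : Inst V} (h : I.WF) {a b : Dart V} (ha : a.1 ∈ I.A) (hb : b.1 ∈ I.A)
    (hab : I.th a = I.th b) : a = b := by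
  rw [← h.inv a ha, hab, h.inv b hb]

theorem ok_th {I : Inst V} (h : I.WF) {x : Dart V → K} {a : Dart V} (ha : a.1 ∈ I.A)
    (hok : I.Ok x a) : I.Ok x (I.th a) := by
  unfold Ok
  rw [h.kind_th a ha, h.g_th a ha, h.inv a ha]
  refine ⟨fun hk => ?_, fun hk => (hok.2 hk).symm⟩
  rw [hok.1 hk, add_assoc, K_add_self, add_zero]

theorem Sol.lin {I : Inst V} {x : Dart V → K} (h : I.Sol x) : I.Lin x := by
  exact fun a ha => (h.2 a ha).1

theorem sol_rem {I : Inst V} (X : Finset V) {x : Dart V → K} (hx : I.Sol x) :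
    (I.rem X).Sol x := by
  refine ⟨fun v hv => hx.1 v (Finset.mem_sdiff.1 hv).1, fun a ha => ?_⟩
  by_cases e : (I.th a).1 ∈ X
  · exact b0_ok_free x (if_pos e)
  · exact (b0_ok_rem x e).2 (hx.2 a (Finset.mem_sdiff.1 ha).1)

theorem sol_rem_mono {I : Inst V} {X Y : Finset V} (hXY : X ⊆ Y) {x : Dart V → K}
    (hx : (I.rem X).Sol x) : (I.rem Y).Sol x := by
  have hm : ∀ v ∈ (I.rem Y).A, v ∈ (I.rem X).A := fun v hv =>
    Finset.mem_sdiff.2 ⟨(Finset.mem_sdiff.1 hv).1, fun e => (Finset.mem_sdiff.1 hv).2 (hXY e)⟩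
  refine ⟨fun v hv => hx.1 v (hm v hv), fun a ha => ?_⟩
  by_cases e : (I.th a).1 ∈ Y
  · exact b0_ok_free x (if_pos e)
  · exact (b0_ok_rem x e).2 ((b0_ok_rem x fun e' => e (hXY e')).1 (hx.2 a (hm _ ha)))

/-- The lifting lemma: recolour the darts at the vertices of `X`. -/
theorem sol_of_rem {I : Inst V} (h : I.WF) (X : Finset V) {x y : Dart V → K}
    (hx : (I.rem X).Sol x) (hy : ∀ d : Dart V, d.1 ∉ X → y d = x d)
    (hinj : ∀ v ∈ X, v ∈ I.A → Function.Injective fun i => y (v, i))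
    (hok : ∀ a : Dart V, a.1 ∈ X → a.1 ∈ I.A → I.Ok y a) : I.Sol y := by
  refine ⟨fun v hv => ?_, fun a ha => ?_⟩
  · by_cases e : v ∈ X
    · exact hinj v e hv
    · have : (fun i => y (v, i)) = fun i => x (v, i) := funext fun i => hy (v, i) e
      rw [this]
      exact hx.1 v (Finset.mem_sdiff.2 ⟨hv, e⟩)
  · by_cases e : a.1 ∈ X
    · exact hok a e ha
    · by_cases e' : (I.th a).1 ∈ X
      · have := ok_th h (h.mem a ha) (hok _ e' (h.mem a ha))
        rwa [h.inv a ha] at this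
      · have := (b0_ok_rem x e').1 (hx.2 a (Finset.mem_sdiff.2 ⟨ha, e⟩))
        unfold Ok at this ⊢
        rw [hy a e, hy _ e', lab_congr (x := x) fun d hd => hy d (hd ▸ e),
          lab_congr (x := x) (y := y) (a := I.th a) fun d hd => hy d (hd ▸ e')]
        exact this

theorem sol_of_join {I : Inst V} {p q : Dart V} {k : Kind} {t : K} (hp : I.kind p = .F)
    (hq : I.kind q = .F) {x : Dart V → K} (hx : (I.join p q k t).Sol x) : I.Sol x := by
  refine ⟨hx.1, fun a ha => ?_⟩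
  by_cases e1 : a = p
  · exact b0_ok_free x (e1 ▸ hp)
  · by_cases e2 : a = q
    · exact b0_ok_free x (e2 ▸ hq)
    · have := hx.2 a ha
      simpa only [Ok, join, e1, e2, if_false, or_self] using this

theorem sol_join_R {I : Inst V} {p q : Dart V} {t : K} (hp : p.1 ∈ I.A) {x : Dart V → K}
    (hx : (I.join p q .R t).Sol x) : x q = x p + t := by
  have := (hx.2 p hp).1
  simp only [join, if_true, true_or] at this
  exact this trivial

theorem sol_join_N {I : Inst V} {p q : Dart V} {t : K} (hp : p.1 ∈ I.A) {x : Dart V → K}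
    (hx : (I.join p q .N t).Sol x) : lab x p ≠ lab x q := by
  have := (hx.2 p hp).2
  simp only [join, if_true, true_or, or_true] at this
  exact this trivial

theorem sol_of_cut {I : Inst V} (h : I.WF) {a : Dart V} (ha : a.1 ∈ I.A) {x : Dart V → K}
    (hx : (I.cut a).Sol x) (hok : I.Ok x a) : I.Sol x := by
  refine ⟨hx.1, fun d hd => ?_⟩
  by_cases e1 : d = a
  · exact e1 ▸ hok
  · by_cases e2 : d = I.th a
    · exact e2 ▸ ok_th h ha hok
    · have := hx.2 d hd
      simpa only [Ok, cut, e1, e2, if_false, or_self] using this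

end Inst

end Pool.Agent.P.MP_0ad50f_co.SC
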