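import Pool.Agent.P.MP_0ad50f_co.SC.Reach

namespace Pool.Agent.P.MP_0ad50f_co.SC

variable {V : Type} [DecidableEq V]

set_option synthInstance.maxSize 4096 in
theorem la_kP : ∀ p q p' q' g : K, p ≠ q → p' ≠ q' → p + q ≠ p' + q' →
    ∃ s : K, s ≠ p ∧ s ≠ q ∧ s + g ≠ p' ∧ s + g ≠ q' := by
  decide +kernel

theorem la_kL : ∀ s g : K, g ≠ 0 → ∃ m : K, s ≠ m ∧ s ≠ m + g ∧ m ≠ m + g := by
  decide +kernel

set_option synthInstance.maxSize 4096 in
theorem la_kS : ∀ m fa fb fc : K, ¬ (fa = fb ∧ fb = fc ∧ fa ≠ 0) →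
    ∃ p q : K, m ≠ p ∧ m ≠ q ∧ p ≠ q ∧ p + q ≠ fa ∧ m + q ≠ fb ∧ m + p ≠ fc ∧
      p + q ≠ 0 ∧ m + q ≠ 0 ∧ m + p ≠ 0 := by
  decide +kernel

set_option synthInstance.maxSize 4096 in
theorem la_kD : ∀ xp xe mu gb gc : K, mu ≠ 0 → gb ≠ gc → mu + gb + gc ≠ 0 →
    ∃ s : K, xp ≠ s ∧ xp ≠ s + mu ∧ s ≠ s + mu ∧ xe ≠ s + gb ∧ xe ≠ s + mu + gc ∧
      s + gb ≠ s + mu + gc ∧ s + (s + mu) = mu ∧ s + gb + (s + mu + gc) = mu + gb + gc := by
  decide +kernel

theorem la_k1 : ∀ a b c d t : K, a + t + (b + t) + (c + t) + (d + t) = a + b + c + d := by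
  decide +kernel

theorem la_k2 : ∀ a b : K, a + (a + b) = b := by
  decide +kernel

theorem la_k3 : ∀ a b : K, a + b + b = a := by
  decide +kernel

theorem la_k4 : ∀ a b c d : K, a + c + (b + d) = a + b + c + d := by
  decide +kernel

theorem la_k5 : ∀ a b : K, a ≠ b → a + b ≠ 0 := by
  decide +kernel

theorem la_kT : ∀ g : K, (0 : K) ≠ kA ∧ (0 : K) ≠ kB ∧ kA ≠ kB ∧ 0 + g ≠ kA + g ∧
    0 + g ≠ kB + g ∧ kA + g ≠ kB + g := by
  decide +kernel

namespace Inst

theorem la_ok_setN {I : Inst V} {a d : Dart V} {x : Dart V → K} (h1 : d ≠ a)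
    (h2 : d ≠ I.th a) (h : (I.setN a).Ok x d) : I.Ok x d := by
  have hk : (I.setN a).kind d = I.kind d := by
    simp [setN, h1, h2]
  unfold Ok at h ⊢
  rw [hk] at h
  exact h

theorem la_lab_setN {I : Inst V} {a d : Dart V} {x : Dart V → K} (h : (I.setN a).Ok x d)
    (hk : I.kind d = .Z ∨ I.kind d = .N ∨ d = a) : lab x d ≠ lab x (I.th d) := by
  apply h.2
  by_cases hd : d = a ∨ d = I.th a
  · right
    simp [setN, hd]
  · have : (I.setN a).kind d = I.kind d := by
      simp only [setN, if_neg hd]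
    rw [this]
    rcases hk with hk | hk | hk
    · exact Or.inl hk
    · exact Or.inr hk
    · exact absurd (Or.inl hk) hd

theorem la_rem_setN {I : Inst V} (h : I.WF) {a : Dart V} (ha : a.1 ∈ I.A) {X : Finset V}
    (hX : a.1 ∈ X) {x : Dart V → K} (hx : (I.setN a).Sol x) : (I.rem X).Sol x := by
  refine ⟨fun v hv => hx.1 v (Finset.mem_sdiff.1 hv).1, fun d hd => ?_⟩
  obtain ⟨hdA, hdX⟩ := Finset.mem_sdiff.1 hd
  by_cases ht : (I.th d).1 ∈ X
  · have hk : (I.rem X).kind d = .F := by simp [rem, ht]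
    refine ⟨fun hh => ?_, fun hh => ?_⟩ <;> rw [hk] at hh <;> rcases hh with hh | hh <;> cases hh
  · have hk : (I.rem X).kind d = I.kind d := by simp [rem, ht]
    have hth : (I.rem X).th d = I.th d := by simp [rem, ht]
    have h1 : d ≠ a := fun e => hdX (e ▸ hX)
    have h2 : d ≠ I.th a := fun e => ht (by rw [e, h.inv a ha]; exact hX)
    have := la_ok_setN h1 h2 (hx.2 d hdA)
    unfold Ok at this ⊢
    rw [hk, hth]
    exact this

omit [DecidableEq V] in
theorem la_ok_R {I : Inst V} {x : Dart V → K} {d : Dart V} (hk : I.kind d = .R)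
    (h : x (I.th d) = x d + I.g d) : I.Ok x d := by
  refine ⟨fun _ => h, fun hh => ?_⟩
  rw [hk] at hh
  rcases hh with hh | hh <;> cases hh

omit [DecidableEq V] in
theorem la_ok_F {I : Inst V} {x : Dart V → K} {d : Dart V} (hk : I.kind d = .F) : I.Ok x d := by
  refine ⟨fun hh => ?_, fun hh => ?_⟩ <;> rw [hk] at hh <;> rcases hh with hh | hh <;> cases hh

theorem lift_B {I : Inst V} (h : I.WF) {a : Dart V} (ha : a.1 ∈ I.A) (hk : I.kind a = .Z)
    (hb : I.Bridge a) (hs : (I.setN a).Solv) : I.Solv := by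
  classical
  obtain ⟨x, hx⟩ := hs
  obtain ⟨S, haS, htS, hS⟩ := hb
  have hg : I.g a = 0 := h.gZ a ha hk
  let t := x a + x (I.th a)
  let y : Dart V → K := fun d => if d.1 ∈ S then x d + t else x d
  have hlab : ∀ d : Dart V, lab y d = lab x d := by
    intro d
    by_cases hd : d.1 ∈ S
    · simp only [lab, tot, y, hd, if_true]
      exact la_k1 _ _ _ _ _
    · simp only [lab, tot, y, hd, if_false]
  have hya : y (I.th a) = y a + I.g a := by
    simp only [y, haS, htS, if_true, if_false, hg, add_zero, t]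
    exact (la_k2 _ _).symm
  have hoka : I.Ok y a := by
    refine ⟨fun _ => hya, fun _ => ?_⟩
    rw [hlab, hlab]
    exact la_lab_setN (hx.2 a ha) (Or.inl hk)
  refine ⟨y, fun v hv => ?_, fun d hd => ?_⟩
  · intro i j hij
    apply hx.1 v hv
    by_cases hd : v ∈ S
    · simp only [y, hd, if_true] at hij
      exact add_right_cancel hij
    · simp only [y, hd, if_false] at hij
      exact hij
  · by_cases h1 : d = a
    · rw [h1]; exact hoka
    by_cases h2 : d = I.th a
    · rw [h2]; exact ok_th h ha hoka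
    have hok := la_ok_setN h1 h2 (hx.2 d hd)
    refine ⟨fun hh => ?_, fun hh => ?_⟩
    · have e := hok.1 hh
      by_cases hdS : d.1 ∈ S
      · have ht := hS d hd hh h1 hdS
        simp only [y, hdS, ht, if_true, e]
        exact add_right_comm _ _ _
      · have ht : (I.th d).1 ∉ S := by
          intro ht
          have h3 : I.th d ≠ a := fun e' => h2 (by rw [← e', h.inv d hd])
          have := hS (I.th d) (h.mem d hd) (by rw [h.kind_th d hd]; exact hh) h3 ht
          rw [h.inv d hd] at this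
          exact hdS this
        simp only [y, hdS, ht, if_false, e]
    · rw [hlab, hlab]
      exact hok.2 hh

theorem lift_P {I : Inst V} (h : I.WF) {a b c b' c' : Dart V} (ha : a.1 ∈ I.A)
    (hk : I.kind a = .R ∨ I.kind a = .Z) (hne : (I.th a).1 ≠ a.1) (h3 : Three a b c)
    (h3' : Three (I.th a) b' c') (hb : I.kind b = .R) (hc : I.kind c = .R)
    (hb' : I.kind b' = .R) (hc' : I.kind c' = .R) (hs : (I.setN a).Solv) : I.Solv := by
  obtain ⟨x, hx⟩ := hs
  have hp := h.mem a ha
  have hl := la_lab_setN (hx.2 a ha) (Or.inr (Or.inr rfl))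
  have hl0 := hl
  rw [h3.lab_eq, h3'.lab_eq] at hl
  have i1 := (h3.inj_iff x).1 (hx.1 _ ha)
  have i2 := (h3'.inj_iff x).1 (hx.1 _ hp)
  obtain ⟨s, s1, s2, s3, s4⟩ := la_kP (x b) (x c) (x b') (x c') (I.g a) i1.2.2 i2.2.2 hl
  let y : Dart V → K := fun d => if d = a then s else if d = I.th a then s + I.g a else x d
  have hpa : I.th a ≠ a := fun e => hne (by rw [e])
  have ya : y a = s := by simp [y]
  have yp : y (I.th a) = s + I.g a := by simp [y, hpa]
  have yo : ∀ d : Dart V, d ≠ a → d ≠ I.th a → y d = x d := by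
    intro d h1 h2
    simp [y, h1, h2]
  have nb : b ≠ a ∧ b ≠ I.th a := ⟨h3.2.2.1.symm, fun e => hne (by rw [← e]; exact h3.1)⟩
  have nc : c ≠ a ∧ c ≠ I.th a := ⟨h3.2.2.2.1.symm, fun e => hne (by rw [← e]; exact h3.2.1)⟩
  have nb' : b' ≠ a ∧ b' ≠ I.th a :=
    ⟨fun e => hne (by rw [← h3'.1, e]), h3'.2.2.1.symm⟩
  have nc' : c' ≠ a ∧ c' ≠ I.th a :=
    ⟨fun e => hne (by rw [← h3'.2.1, e]), h3'.2.2.2.1.symm⟩
  have hreal : ∀ d : Dart V, d.1 ∈ I.A → I.kind d = .R → d ≠ a ∧ d ≠ I.th a → I.Ok y d := by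
    intro d hd hkd hn
    apply la_ok_R hkd
    have t1 : I.th d ≠ a := fun e => hn.2 (by rw [← e, h.inv d hd])
    have t2 : I.th d ≠ I.th a := fun e => hn.1 (h.th_inj hd ha e)
    rw [yo _ t1 t2, yo _ hn.1 hn.2]
    exact (la_ok_setN hn.1 hn.2 (hx.2 d hd)).1 (Or.inl hkd)
  have hoka : I.Ok y a := by
    refine ⟨fun _ => by rw [yp, ya], fun _ => ?_⟩
    rw [h3.lab_eq, h3'.lab_eq, yo _ nb.1 nb.2, yo _ nc.1 nc.2, yo _ nb'.1 nb'.2,
      yo _ nc'.1 nc'.2]
    exact hl
  refine ⟨y, sol_of_rem h {a.1, (I.th a).1} (x := x) (la_rem_setN h ha (by simp) hx) ?_ ?_ ?_⟩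
  · intro d hd
    simp only [Finset.mem_insert, Finset.mem_singleton, not_or] at hd
    exact yo d (fun e => hd.1 (by rw [e])) (fun e => hd.2 (by rw [e]))
  · intro v hv _
    simp only [Finset.mem_insert, Finset.mem_singleton] at hv
    rcases hv with rfl | rfl
    · rw [h3.inj_iff, ya, yo _ nb.1 nb.2, yo _ nc.1 nc.2]
      exact ⟨s1, s2, i1.2.2⟩
    · rw [h3'.inj_iff, yp, yo _ nb'.1 nb'.2, yo _ nc'.1 nc'.2]
      exact ⟨s3, s4, i2.2.2⟩
  · intro d hd hdA
    simp only [Finset.mem_insert, Finset.mem_singleton] at hd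
    rcases hd with hd | hd
    · rcases h3.cases d hd with rfl | rfl | rfl
      · exact hoka
      · exact hreal _ hdA hb nb
      · exact hreal _ hdA hc nc
    · rcases h3'.cases d hd with rfl | rfl | rfl
      · exact ok_th h ha hoka
      · exact hreal _ hdA hb' nb'
      · exact hreal _ hdA hc' nc'

/-- The value forbidden for the label of `d` at the vertex `v`. -/
def laF (I : Inst V) (x : Dart V → K) (v : V) (d : Dart V) : K :=
  if I.kind d = .N ∧ (I.th d).1 ≠ v then lab x (I.th d) else 0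

theorem la_star {I : Inst V} (h : I.WF) {a b c : Dart V} (ha : a.1 ∈ I.A) (h3 : Three a b c)
    (hZa : I.kind a ≠ .Z) (hb : I.kind b = .N ∨ I.kind b = .F)
    (hc : I.kind c = .N ∨ I.kind c = .F) {x : Dart V → K} (hx : (I.rem {a.1}).Sol x)
    (hf : ¬ (laF I x a.1 a = laF I x a.1 b ∧ laF I x a.1 b = laF I x a.1 c ∧
      laF I x a.1 a ≠ 0)) : I.Solv := by
  obtain ⟨p, q, s1, s2, s3, s4, s5, s6, -, -, -⟩ := la_kS (x (I.th a) + I.g a) _ _ _ hf
  let y : Dart V → K := fun d =>
    if d = a then x (I.th a) + I.g a else if d = b then p else if d = c then q else x d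
  have ya : y a = x (I.th a) + I.g a := by simp [y]
  have yb : y b = p := by simp [y, h3.2.2.1.symm]
  have yc : y c = q := by simp [y, h3.2.2.2.1.symm, h3.2.2.2.2.symm]
  have yo : ∀ d : Dart V, d.1 ≠ a.1 → y d = x d := by
    intro d hd
    have h1 : d ≠ a := fun e => hd (by rw [e])
    have h2 : d ≠ b := fun e => hd (by rw [e]; exact h3.1)
    have h4 : d ≠ c := fun e => hd (by rw [e]; exact h3.2.1)
    simp [y, h1, h2, h4]
  have hinj : Function.Injective fun i => y (a.1, i) := by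
    rw [h3.inj_iff, ya, yb, yc]
    exact ⟨s1, s2, s3⟩
  have hN : ∀ d : Dart V, d.1 = a.1 → I.kind d = .N → lab y d ≠ laF I x a.1 d → I.Ok y d := by
    intro d hd hkd hl
    have hdA : d.1 ∈ I.A := by rw [hd]; exact ha
    refine ⟨fun hh => ?_, fun _ => ?_⟩
    · rw [hkd] at hh
      rcases hh with hh | hh <;> cases hh
    · by_cases ht : (I.th d).1 = a.1
      · have hne : d ≠ I.th d := by
          intro e
          have := (h.free d hdA).2 e.symm
          rw [hkd] at this
          cases this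
        exact lab_ne (by rw [hd]; exact hinj) (by rw [ht, hd]) hne
      · have e1 : lab y (I.th d) = lab x (I.th d) :=
          lab_congr fun d' hd' => yo d' (by rw [hd']; exact ht)
        rw [e1]
        have e2 : laF I x a.1 d = lab x (I.th d) := by
          simp [laF, hkd, ht]
        rw [← e2]
        exact hl
  refine ⟨y, sol_of_rem h {a.1} (x := x) hx ?_ ?_ ?_⟩
  · intro d hd
    exact yo d (by simpa using hd)
  · intro v hv _
    rw [Finset.mem_singleton.1 hv]
    exact hinj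
  · intro d hd _
    have hd' := Finset.mem_singleton.1 hd
    rcases h3.cases d hd' with e | e | e
    · rw [e]
      rcases hka : I.kind a with _ | _ | _ | _
      · apply la_ok_R hka
        have ht : (I.th a).1 ≠ a.1 := by
          intro ht
          have hkt := h.kind_th a ha
          rcases h3.cases _ ht with e' | e' | e'
          · have := (h.free a ha).2 e'
            rw [hka] at this
            cases this
          · rw [e', hka] at hkt
            rw [hkt] at hb
            rcases hb with hb | hb <;> cases hb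
          · rw [e', hka] at hkt
            rw [hkt] at hc
            rcases hc with hc | hc <;> cases hc
        rw [yo _ ht, ya, la_k3]
      · exact absurd hka hZa
      · apply hN a rfl hka
        rw [h3.lab_eq, yb, yc]
        exact s4
      · exact la_ok_F hka
    · rw [e]
      rcases hb with hb | hb
      · apply hN b h3.1 hb
        rw [h3.rot.lab_eq, ya, yc]
        exact s5
      · exact la_ok_F hb
    · rw [e]
      rcases hc with hc | hc
      · apply hN c h3.2.1 hc
        rw [h3.swap.rot.lab_eq, ya, yb]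
        exact s6
      · exact la_ok_F hc

theorem lift_RV {I : Inst V} (h : I.WF) (hl : I.LoopsOK) (hZ : I.NoK .Z) {v : V} (hv : v ∈ I.A)
    (hr : I.RVable v) (hs : (I.rem {v}).Solv) : I.Solv := by
  obtain ⟨x, hx⟩ := hs
  obtain ⟨a, b, c, rfl, h3, hr⟩ := hr
  have hbA : b.1 ∈ I.A := by rw [h3.1]; exact hv
  have hcA : c.1 ∈ I.A := by rw [h3.2.1]; exact hv
  have hNF : ∀ d : Dart V, d.1 ∈ I.A → I.kind d ≠ .R → I.kind d = .N ∨ I.kind d = .F := by
    intro d hd hR
    have := hZ d hd
    rcases hkd : I.kind d with _ | _ | _ | _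
    · exact absurd hkd hR
    · exact absurd hkd this
    · exact Or.inl rfl
    · exact Or.inr rfl
  rcases hr with ⟨hb, hc, hor⟩ | ⟨hb, hbc, hka⟩
  · apply la_star h hv h3 (hZ a hv) (hNF b hbA hb) (hNF c hcA hc) hx
    rintro ⟨e1, e2, e3⟩
    rcases hor with ho | ho | ho | ho
    · exact e3 (by simp [laF, ho])
    · exact e3 (by rw [e1]; simp [laF, ho])
    · exact e3 (by rw [e1, e2]; simp [laF, ho])
    · exact e3 (by rw [e1]; simp [laF, ho, h3.2.1])
  · have hg : I.g b ≠ 0 := (hl b hbA (by rw [hbc, h3.1, h3.2.1])).1 hb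
    obtain ⟨m, s1, s2, s3⟩ := la_kL (x (I.th a) + I.g a) (I.g b) hg
    let y : Dart V → K := fun d =>
      if d = a then x (I.th a) + I.g a else if d = b then m else if d = c then m + I.g b else x d
    have ya : y a = x (I.th a) + I.g a := by simp [y]
    have yb : y b = m := by simp [y, h3.2.2.1.symm]
    have yc : y c = m + I.g b := by simp [y, h3.2.2.2.1.symm, h3.2.2.2.2.symm]
    have yo : ∀ d : Dart V, d.1 ≠ a.1 → y d = x d := by
      intro d hd
      have h1 : d ≠ a := fun e => hd (by rw [e])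
      have h2 : d ≠ b := fun e => hd (by rw [e]; exact h3.1)
      have h4 : d ≠ c := fun e => hd (by rw [e]; exact h3.2.1)
      simp [y, h1, h2, h4]
    have hokb : I.Ok y b := la_ok_R hb (by rw [hbc, yc, yb])
    refine ⟨y, sol_of_rem h {a.1} (x := x) hx ?_ ?_ ?_⟩
    · intro d hd
      exact yo d (by simpa using hd)
    · intro v hv _
      rw [Finset.mem_singleton.1 hv, h3.inj_iff, ya, yb, yc]
      exact ⟨s1, s2, s3⟩
    · intro d hd _
      have hd' := Finset.mem_singleton.1 hd
      rcases h3.cases d hd' with e | e | e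
      · rw [e]
        by_cases hR : I.kind a = .R
        · apply la_ok_R hR
          have ht : (I.th a).1 ≠ a.1 := by
            intro ht
            rcases h3.cases _ ht with e' | e' | e'
            · have := (h.free a hv).2 e'
              rw [hR] at this
              cases this
            · apply h3.2.2.2.1
              rw [← hbc, ← e', h.inv a hv]
            · apply h3.2.2.1
              exact h.th_inj hv hbA (by rw [e', hbc])
          rw [yo _ ht, ya, la_k3]
        · rcases hNF a hv hR with hh | hh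
          · exact absurd hh hka
          · exact la_ok_F hh
      · rw [e]; exact hokb
      · rw [e, ← hbc]; exact ok_th h hbA hokb

theorem lift_C3 {I : Inst V} (h : I.WF) {a b c : Dart V} (ha : a.1 ∈ I.A) (h3 : Three a b c)
    (hka : I.kind a = .N) (hkb : I.kind b = .N) (hkc : I.kind c = .N)
    (hna : (I.th a).1 ≠ a.1) (hnb : (I.th b).1 ≠ a.1) (hnc : (I.th c).1 ≠ a.1)
    (hs : ((I.rem {a.1}).join (I.th a) (I.th b) .N 0).Solv) : I.Solv := by
  obtain ⟨x, hx⟩ := hs
  have hbA : b.1 ∈ I.A := by rw [h3.1]; exact ha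
  have f1 : (I.rem {a.1}).kind (I.th a) = .F := by simp [rem, h.inv a ha]
  have f2 : (I.rem {a.1}).kind (I.th b) = .F := by simp [rem, h.inv b hbA, h3.1]
  have hp : (I.th a).1 ∈ (I.rem {a.1}).A :=
    Finset.mem_sdiff.2 ⟨h.mem a ha, by simpa using hna⟩
  have hl := sol_join_N hp hx
  apply la_star h ha h3 (by rw [hka]; decide) (Or.inl hkb) (Or.inl hkc) (sol_of_join f1 f2 hx)
  rintro ⟨e1, -, -⟩
  apply hl
  simpa [laF, hka, hkb, hna, hnb] using e1

theorem lift_TH0 {I : Inst V} (h : I.WF) {a b c : Dart V} (hd : I.Dig a b c (I.th a))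
    (hk : I.kind a = .R) (h1 : I.g a = I.g b) (h2 : I.g b = I.g c)
    (hs : (I.rem {a.1, (I.th a).1}).Solv) : I.Solv := by
  obtain ⟨x, hx⟩ := hs
  obtain ⟨ha, h3, hb, hc, hne, h3'⟩ := hd
  have hbA : b.1 ∈ I.A := by rw [h3.1]; exact ha
  have hcA : c.1 ∈ I.A := by rw [h3.2.1]; exact ha
  let w : Dart V → K := fun d => if d = a then 0 else if d = b then kA else kB
  have wa : w a = 0 := by simp [w]
  have wb : w b = kA := by simp [w, h3.2.2.1.symm]
  have wc : w c = kB := by simp [w, h3.2.2.2.1.symm, h3.2.2.2.2.symm]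
  let y : Dart V → K := fun d =>
    if d.1 = a.1 then w d else if d.1 = (I.th a).1 then w (I.th d) + I.g d else x d
  have y1 : ∀ d : Dart V, d.1 = a.1 → y d = w d := by
    intro d hd
    simp [y, hd]
  have y2 : ∀ d : Dart V, d.1 = a.1 → (I.th d).1 = (I.th a).1 → y (I.th d) = w d + I.g d := by
    intro d hd ht
    have hdA : d.1 ∈ I.A := by rw [hd]; exact ha
    simp only [y, ht, if_neg hne, if_true, h.inv d hdA, h.g_th d hdA]
  have oa : I.Ok y a := la_ok_R hk (by rw [y2 a rfl rfl, y1 a rfl])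
  have ob : I.Ok y b := la_ok_R hb (by rw [y2 b h3.1 h3'.1, y1 b h3.1])
  have oc : I.Ok y c := la_ok_R hc (by rw [y2 c h3.2.1 h3'.2.1, y1 c h3.2.1])
  have hT := la_kT (I.g c)
  refine ⟨y, sol_of_rem h {a.1, (I.th a).1} (x := x) hx ?_ ?_ ?_⟩
  · intro d hd
    simp only [Finset.mem_insert, Finset.mem_singleton, not_or] at hd
    simp [y, hd.1, hd.2]
  · intro v hv _
    simp only [Finset.mem_insert, Finset.mem_singleton] at hv
    rcases hv with rfl | rfl
    · rw [h3.inj_iff, y1 a rfl, y1 b h3.1, y1 c h3.2.1, wa, wb, wc]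
      exact ⟨hT.1, hT.2.1, hT.2.2.1⟩
    · rw [h3'.inj_iff, y2 a rfl rfl, y2 b h3.1 h3'.1, y2 c h3.2.1 h3'.2.1, wa, wb, wc, h1, h2]
      exact hT.2.2.2
  · intro d hd _
    simp only [Finset.mem_insert, Finset.mem_singleton] at hd
    rcases hd with hd | hd
    · rcases h3.cases d hd with e | e | e <;> rw [e] <;> assumption
    · rcases h3'.cases d hd with e | e | e <;> rw [e]
      · exact ok_th h ha oa
      · exact ok_th h hbA ob
      · exact ok_th h hcA oc

theorem lift_D1 {I : Inst V} (h : I.WF) {a b c e : Dart V} (hd : I.Dig a b c e)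
    (hk : I.kind a = .Z) (hne : I.th a ≠ e) (hg : I.g b ≠ I.g c) (hs : (I.setN a).Solv) :
    I.Solv := by
  obtain ⟨x, hx⟩ := hs
  have hd' := hd.symm h
  obtain ⟨ha, h3, hb, hc, hz, h3'⟩ := hd
  have hbA : b.1 ∈ I.A := by rw [h3.1]; exact ha
  have hcA : c.1 ∈ I.A := by rw [h3.2.1]; exact ha
  have heA : e.1 ∈ I.A := hd'.1
  have hout := outer_out h ha h3 hz h3' (by rw [hk]; decide) hne
  have nb : b ≠ I.th a := fun e' => hout.1 (by rw [← e']; exact h3.1)
  have nc : c ≠ I.th a := fun e' => hout.1 (by rw [← e']; exact h3.2.1)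
  have xb := (la_ok_setN h3.2.2.1.symm nb (hx.2 b hbA)).1 (Or.inl hb)
  have xc := (la_ok_setN h3.2.2.2.1.symm nc (hx.2 c hcA)).1 (Or.inl hc)
  have i1 := (h3.inj_iff x).1 (hx.1 _ ha)
  have i2 := (h3'.inj_iff x).1 (hx.1 _ heA)
  have hle : x (I.th b) + x (I.th c) = x b + x c + I.g b + I.g c := by
    rw [xb, xc, la_k4]
  obtain ⟨s, s1, s2, s3, s4, s5, s6, s7, s8⟩ := la_kD (x (I.th a)) (x e) (x b + x c) (I.g b)
    (I.g c) (la_k5 _ _ i1.2.2) hg (by rw [← hle]; exact la_k5 _ _ i2.2.2)
  have ub : (I.th b).1 ≠ a.1 := by rw [h3'.1]; exact hz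
  have uc : (I.th c).1 ≠ a.1 := by rw [h3'.2.1]; exact hz
  let y : Dart V → K := fun d =>
    if d.1 = a.1 then (if d = a then x (I.th a) else if d = b then s else s + (x b + x c))
    else if d = I.th b then s + I.g b else if d = I.th c then s + (x b + x c) + I.g c else x d
  have ya : y a = x (I.th a) := by simp only [y, if_true]
  have yb : y b = s := by simp only [y, h3.1, if_true, if_neg h3.2.2.1.symm]
  have yc : y c = s + (x b + x c) := by
    simp only [y, h3.2.1, if_true, if_neg h3.2.2.2.1.symm, if_neg h3.2.2.2.2.symm]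
  have ytb : y (I.th b) = s + I.g b := by simp only [y, if_neg ub, if_true]
  have ytc : y (I.th c) = s + (x b + x c) + I.g c := by
    simp only [y, if_neg uc, if_neg h3'.2.2.2.2.symm, if_true]
  have ye : y e = x e := by simp only [y, if_neg hz, if_neg h3'.2.2.1, if_neg h3'.2.2.2.1]
  have yo : ∀ d : Dart V, d.1 ≠ a.1 → d.1 ≠ e.1 → y d = x d := by
    intro d d1 d2
    have t1 : d ≠ I.th b := fun e' => d2 (by rw [e']; exact h3'.1)
    have t2 : d ≠ I.th c := fun e' => d2 (by rw [e']; exact h3'.2.1)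
    simp only [y, if_neg d1, if_neg t1, if_neg t2]
  have lo : ∀ d : Dart V, d.1 ≠ a.1 → d.1 ≠ e.1 → lab y d = lab x d := fun d d1 d2 =>
    lab_congr fun d' hd'' => yo d' (by rw [hd'']; exact d1) (by rw [hd'']; exact d2)
  have oa : I.Ok y a := by
    refine ⟨fun _ => ?_, fun _ => ?_⟩
    · rw [yo _ hout.1 hout.2, ya, h.gZ a ha hk, add_zero]
    · rw [lo _ hout.1 hout.2, h3.lab_eq, yb, yc, s7, ← h3.lab_eq]
      exact la_lab_setN (hx.2 a ha) (Or.inl hk)
  have ob : I.Ok y b := la_ok_R hb (by rw [ytb, yb])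
  have oc : I.Ok y c := la_ok_R hc (by rw [ytc, yc])
  have oe : I.Ok y e := by
    by_cases hF : I.kind e = .F
    · exact la_ok_F hF
    have hea : I.th e ≠ a := fun e' => hne (by rw [← e', h.inv e heA])
    have hout' := outer_out h heA h3' hz.symm hd'.2.2.2.2.2 hF hea
    have hok := la_ok_setN (fun e' => hz (by rw [e'])) hne.symm (hx.2 e heA)
    refine ⟨fun hh => ?_, fun hh => ?_⟩
    · rw [yo _ hout'.2 hout'.1, ye]
      exact hok.1 hh
    · rw [lo _ hout'.2 hout'.1, h3'.lab_eq, ytb, ytc, s8, ← hle, ← h3'.lab_eq]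
      exact hok.2 hh
  refine ⟨y, sol_of_rem h {a.1, e.1} (x := x) (la_rem_setN h ha (by simp) hx) ?_ ?_ ?_⟩
  · intro d hd
    simp only [Finset.mem_insert, Finset.mem_singleton, not_or] at hd
    exact yo d hd.1 hd.2
  · intro v hv _
    simp only [Finset.mem_insert, Finset.mem_singleton] at hv
    rcases hv with rfl | rfl
    · rw [h3.inj_iff, ya, yb, yc]
      exact ⟨s1, s2, s3⟩
    · rw [h3'.inj_iff, ye, ytb, ytc]
      exact ⟨s4, s5, s6⟩
  · intro d hd _
    simp only [Finset.mem_insert, Finset.mem_singleton] at hd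
    rcases hd with hd | hd
    · rcases h3.cases d hd with e' | e' | e' <;> rw [e'] <;> assumption
    · rcases h3'.cases d hd with e' | e' | e' <;> rw [e']
      · exact oe
      · exact ok_th h hbA ob
      · exact ok_th h hcA oc

end Inst

end Pool.Agent.P.MP_0ad50f_co.SC
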