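import Pool.Agent.P.MP_0ad50f_co.SC.Supp
import Pool.Agent.P.MP_0ad50f_co.SC.LiftA

namespace Pool.Agent.P.MP_0ad50f_co.SC

variable {V : Type} [DecidableEq V]

namespace Inst

theorem cl_noK_rem {I : Inst V} {k : Kind} (hk : k ≠ .F) (hZ : I.NoK k) (X : Finset V) :
    (I.rem X).NoK k := by
  intro a ha
  have ha' : a.1 ∈ I.A := (Finset.mem_sdiff.1 ha).1
  show (if (I.th a).1 ∈ X then Kind.F else I.kind a) ≠ k
  split_ifs
  · exact hk.symm
  · exact hZ a ha'

omit [DecidableEq V] in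
theorem cl_root_congr {I J : Inst V} {v : V} (hk : ∀ i, J.kind (v, i) = I.kind (v, i))
    (hr : I.Root v) : J.Root v := by
  unfold Root jZN at *
  simp only [hk]
  exact hr

omit [DecidableEq V] in
theorem cl_exists_N {I : Inst V} (hZ : I.NoK .Z) {v : V} (hv : v ∈ I.A) (hr : ¬ I.Root v) :
    ∃ i, I.kind (v, i) = .N := by
  by_contra hcon
  push Not at hcon
  apply hr
  right
  have : I.jZN v = 0 := by
    unfold jZN
    rw [Finset.card_eq_zero, Finset.filter_eq_empty_iff]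
    intro i _ hi
    rcases hi with hi | hi
    · exact hZ (v, i) hv hi
    · exact hcon i hi
  rw [this]
  exact Even.zero

theorem cl_rooted_of_noZN {I : Inst V} (hZ : I.NoK .Z) (hN : I.NoK .N) : I.Rooted := by
  apply rooted_of_all
  intro v hv
  by_contra hr
  obtain ⟨i, hi⟩ := cl_exists_N hZ hv hr
  exact hN (v, i) hv hi

theorem cl_not_root {I : Inst V} {a b c : Dart V} (h3 : Three a b c) (ha : I.kind a = .N)
    (hbc : (I.kind b = .N ∧ I.kind c = .N) ∨ (I.kind b = .R ∧ I.kind c = .R)) :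
    ¬ I.Root a.1 := by
  rintro (⟨i, hi⟩ | hev)
  · rcases h3.cases (a.1, i) rfl with h | h | h <;> rw [h] at hi <;>
      rcases hbc with ⟨h1, h2⟩ | ⟨h1, h2⟩ <;> simp_all
  · rw [h3.jZN_eq I] at hev
    rcases hbc with ⟨h1, h2⟩ | ⟨h1, h2⟩ <;> simp [ha, h1, h2] at hev <;> revert hev <;> decide

omit [DecidableEq V] in
theorem cl_rv1 {I : Inst V} (hrv : ∀ v ∈ I.A, ¬ I.RVable v) {a b c : Dart V} (ha : a.1 ∈ I.A)
    (h3 : Three a b c) (hb : I.kind b ≠ .R) (hc : I.kind c ≠ .R) :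
    I.kind a = .N ∧ I.kind b = .N ∧ I.kind c = .N ∧ I.th b ≠ c := by
  by_contra hcon
  apply hrv a.1 ha
  refine ⟨a, b, c, rfl, h3, Or.inl ⟨hb, hc, ?_⟩⟩
  tauto

omit [DecidableEq V] in
theorem cl_rv2 {I : Inst V} (hrv : ∀ v ∈ I.A, ¬ I.RVable v) {a b c : Dart V} (ha : a.1 ∈ I.A)
    (h3 : Three a b c) (hb : I.kind b = .R) (hk : I.kind a ≠ .N) : I.th b ≠ c := by
  intro hbc
  exact hrv a.1 ha ⟨a, b, c, rfl, h3, Or.inr ⟨hb, hbc, hk⟩⟩

theorem cl_card_sdiff {A X : Finset V} {u : V} (hu : u ∈ A) (hX : u ∈ X) :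
    (A \ X).card < A.card := by
  apply Finset.card_lt_card
  refine ⟨Finset.sdiff_subset, fun hsub => ?_⟩
  exact (Finset.mem_sdiff.1 (hsub hu)).2 hX

/-- A dart from another vertex that points to the vertex of `a`. -/
theorem cl_near {I : Inst V} (h : I.WF) {a b c d : Dart V} (h3 : Three a b c) (hd : d.1 ∈ I.A)
    (hth : (I.th d).1 = a.1) : d = I.th a ∨ d = I.th b ∨ d = I.th c := by
  have e := h.inv d hd
  rcases h3.cases (I.th d) hth with h1 | h1 | h1 <;> rw [h1] at e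
  · exact Or.inl e.symm
  · exact Or.inr (Or.inl e.symm)
  · exact Or.inr (Or.inr e.symm)

theorem cl_case2 {I : Inst V} (h : I.WF) (hl : I.LoopsOK) (hZ : I.NoK .Z) (hr : I.Rooted)
    (ih : ∀ J : Inst V, J.A.card < I.A.card → J.WF → J.LoopsOK → J.NoK .Z → J.Rooted → J.Solv)
    (hrv : ∀ v ∈ I.A, ¬ I.RVable v) {u : V} (hu : u ∈ I.A) (hN : ∀ i, I.kind (u, i) = .N) :
    I.Solv := by
  obtain ⟨r, hr⟩ := hr
  have hN' : ∀ d : Dart V, d.1 = u → I.kind d = .N := by
    rintro ⟨w, i⟩ hd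
    cases hd
    exact hN i
  obtain ⟨i, hi⟩ : ∃ i, r (I.th (u, i)).1 < r u := by
    rcases hr u hu with h1 | h1
    · obtain ⟨b, c, h3⟩ := three_exists ((u, 0) : Dart V)
      exact absurd h1 (cl_not_root h3 (hN 0) (Or.inl ⟨hN' b h3.1, hN' c h3.2.1⟩))
    · exact h1
  have hout : ∀ d : Dart V, d.1 = u → (I.th d).1 ≠ u := by
    intro d hd hth
    have hdA : d.1 ∈ I.A := hd ▸ hu
    have hne : d ≠ I.th d := by
      intro e
      have := (h.free d hdA).2 e.symm
      rw [hN' d hd] at this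
      cases this
    obtain ⟨e, h3⟩ := Three.third (hd.trans hth.symm) hne
    have heA : e.1 ∈ I.A := h3.1 ▸ hdA
    refine (cl_rv1 hrv heA h3 ?_ ?_).2.2.2 rfl
    · rw [hN' d hd]; decide
    · rw [hN' _ hth]; decide
  set a : Dart V := (u, i) with ha_def
  have hau : a.1 = u := rfl
  obtain ⟨b, c, h3⟩ := three_exists a
  have haA : a.1 ∈ I.A := hu
  have hbA : b.1 ∈ I.A := h3.1 ▸ haA
  have hcA : c.1 ∈ I.A := h3.2.1 ▸ haA
  have hna := hout a hau
  have hnb := hout b h3.1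
  have hnc := hout c h3.2.1
  have hab : I.th a ≠ I.th b := fun e => h3.2.2.1 (h.th_inj haA hbA e)
  have hac : I.th a ≠ I.th c := fun e => h3.2.2.2.1 (h.th_inj haA hcA e)
  have hbc : I.th b ≠ I.th c := fun e => h3.2.2.2.2 (h.th_inj hbA hcA e)
  have hmem : ∀ d : Dart V, d.1 = u → (I.th d).1 ∈ (I.rem {u}).A := by
    intro d hd
    exact Finset.mem_sdiff.2 ⟨h.mem d (hd ▸ hu), by simpa using hout d hd⟩
  have hfree : ∀ d : Dart V, d.1 = u → (I.rem {u}).kind (I.th d) = .F := by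
    intro d hd
    show (if (I.th (I.th d)).1 ∈ ({u} : Finset V) then Kind.F else _) = _
    rw [h.inv d (hd ▸ hu), if_pos (by simpa using hd)]
  apply lift_C3 h haA h3 (hN' a hau) (hN' b h3.1) (hN' c h3.2.1) hna hnb hnc
  apply ih
  · exact cl_card_sdiff hu (Finset.mem_singleton_self u)
  · exact wf_join (wf_rem h _) (hmem a hau) (hmem b h3.1) hab (hfree a hau) (hfree b h3.1)
      (Or.inr rfl) 0
  · exact loops_join (loops_rem hl _) (Or.inl rfl)
  · intro d hd
    show (if d = I.th a ∨ d = I.th b then Kind.N else (I.rem {u}).kind d) ≠ _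
    split_ifs
    · decide
    · exact cl_noK_rem (by decide) hZ _ d hd
  · refine ⟨r, fun v hv => ?_⟩
    have hvA : v ∈ I.A := (Finset.mem_sdiff.1 hv).1
    by_cases hvc : v = (I.th c).1
    · left
      left
      refine ⟨(I.th c).2, ?_⟩
      have e : ((v, (I.th c).2) : Dart V) = I.th c := by rw [hvc]
      rw [e]
      show (if I.th c = I.th a ∨ I.th c = I.th b then Kind.N else (I.rem {u}).kind (I.th c)) = _
      rw [if_neg (by rintro (e | e); exacts [hac e.symm, hbc e.symm])]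
      exact hfree c h3.2.1
    have hfar : ∀ d : Dart V, d.1 = v → d ≠ I.th a → d ≠ I.th b → (I.th d).1 ∉ ({u} : Finset V) := by
      intro d hd h1 h2 hth
      rcases cl_near h h3 (hd ▸ hvA) (by simpa using hth) with e | e | e
      · exact h1 e
      · exact h2 e
      · exact hvc (by rw [← hd, e])
    rcases hr v hvA with h1 | ⟨j, hj⟩
    · left
      refine cl_root_congr (fun j => ?_) h1
      show (if (v, j) = I.th a ∨ (v, j) = I.th b then Kind.N else
        if (I.th (v, j)).1 ∈ ({u} : Finset V) then Kind.F else I.kind (v, j)) = _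
      by_cases e1 : (v, j) = I.th a
      · rw [if_pos (Or.inl e1), e1, h.kind_th a haA, hN' a hau]
      by_cases e2 : (v, j) = I.th b
      · rw [if_pos (Or.inr e2), e2, h.kind_th b hbA, hN' b h3.1]
      rw [if_neg (by tauto), if_neg (hfar (v, j) rfl e1 e2)]
    · right
      refine ⟨j, ?_⟩
      show r (if (v, j) = I.th a then I.th b else if (v, j) = I.th b then I.th a else
        if (I.th (v, j)).1 ∈ ({u} : Finset V) then (v, j) else I.th (v, j)).1 < r v
      by_cases e1 : (v, j) = I.th a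
      · exfalso
        have e3 : v = (I.th a).1 := by rw [← e1]
        rw [e1, h.inv a haA, hau, e3] at hj
        omega
      rw [if_neg e1]
      by_cases e2 : (v, j) = I.th b
      · rw [if_pos e2]
        rw [e2, h.inv b hbA, h3.1, hau] at hj
        omega
      rw [if_neg e2, if_neg (hfar (v, j) rfl e1 e2)]
      exact hj

/-- Three darts that all point to one vertex. -/
theorem cl_three_th {I : Inst V} (h : I.WF) {a b c : Dart V} (ha : a.1 ∈ I.A) (h3 : Three a b c)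
    (hb : (I.th b).1 = (I.th a).1) (hc : (I.th c).1 = (I.th a).1) :
    Three (I.th a) (I.th b) (I.th c) := by
  have hbA : b.1 ∈ I.A := h3.1 ▸ ha
  have hcA : c.1 ∈ I.A := h3.2.1 ▸ ha
  exact ⟨hb, hc, fun e => h3.2.2.1 (h.th_inj ha hbA e), fun e => h3.2.2.2.1 (h.th_inj ha hcA e),
    fun e => h3.2.2.2.2 (h.th_inj hbA hcA e)⟩

theorem cl_case3 {I : Inst V} (h : I.WF) (hl : I.LoopsOK) (hZ : I.NoK .Z) (hr : I.Rooted)
    (ih : ∀ J : Inst V, J.A.card < I.A.card → J.WF → J.LoopsOK → J.NoK .Z → J.Rooted → J.Solv)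
    (hrv : ∀ v ∈ I.A, ¬ I.RVable v) (hno : ∀ u ∈ I.A, ¬ ∀ i, I.kind (u, i) = .N)
    (hex : ∃ a : Dart V, a.1 ∈ I.A ∧ I.kind a = .N) : I.Solv := by
  have hr0 := hr
  obtain ⟨r, hr⟩ := hr
  have hRR : ∀ a b c : Dart V, a.1 ∈ I.A → Three a b c → I.kind a = .N → I.kind b = .R := by
    intro a b c ha h3 hk
    by_contra hb
    have hcA : c.1 ∈ I.A := h3.2.1 ▸ ha
    obtain ⟨h1, h2, h4, -⟩ := cl_rv1 hrv hcA h3.swap.rot (by rw [hk]; decide) hb
    apply hno a.1 ha
    intro i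
    rcases h3.cases (a.1, i) rfl with e | e | e <;> rw [e] <;> assumption
  obtain ⟨a, haS, hmax⟩ := Finset.exists_max_image
    ((I.A ×ˢ (Finset.univ : Finset (Fin 3))).filter fun d : Dart V => I.kind d = .N)
    (fun d => r d.1) (by
      obtain ⟨a, ha, hk⟩ := hex
      exact ⟨a, by simp [ha, hk]⟩)
  have ha : a.1 ∈ I.A := by
    have := haS
    simp only [Finset.mem_filter, Finset.mem_product] at this
    exact this.1.1
  have hk : I.kind a = .N := (Finset.mem_filter.1 haS).2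
  have hmax' : ∀ d : Dart V, d.1 ∈ I.A → I.kind d = .N → r d.1 ≤ r a.1 := by
    intro d hd hkd
    exact hmax d (by simp [hd, hkd])
  obtain ⟨b, c, h3⟩ := three_exists a
  obtain ⟨b', c', h3'⟩ := three_exists (I.th a)
  have ha' : (I.th a).1 ∈ I.A := h.mem a ha
  have hk' : I.kind (I.th a) = .N := (h.kind_th a ha).trans hk
  have hb := hRR a b c ha h3 hk
  have hc := hRR a c b ha h3.swap hk
  have hb' := hRR _ b' c' ha' h3' hk'
  have hc' := hRR _ c' b' ha' h3'.swap hk'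
  have hne : (I.th a).1 ≠ a.1 := by
    intro e
    rcases h3.cases _ e with e1 | e1 | e1
    · have := (h.free a ha).2 e1
      rw [hk] at this
      cases this
    · rw [e1, hb] at hk'
      cases hk'
    · rw [e1, hc] at hk'
      cases hk'
  have hvu : r (I.th a).1 ≤ r a.1 := hmax' _ ha' hk'
  obtain ⟨j', hj'⟩ : ∃ i, r (I.th ((I.th a).1, i)).1 < r (I.th a).1 :=
    (hr _ ha').resolve_left (cl_not_root h3' hk' (Or.inr ⟨hb', hc'⟩))
  have hd : ¬ (I.th b = c ∧ I.th b' = c' ∧ I.g b = I.g b') := by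
    rintro ⟨-, e2, -⟩
    have hb'A : b'.1 ∈ I.A := h3'.1 ▸ ha'
    rcases h3'.cases ((I.th a).1, j') rfl with e | e | e <;> rw [e] at hj'
    · rw [h.inv a ha] at hj'
      omega
    · rw [e2, h3'.2.1] at hj'
      omega
    · rw [← e2, h.inv b' hb'A, h3'.1] at hj'
      omega
  have ht : ¬ ((I.th b).1 = (I.th a).1 ∧ (I.th c).1 = (I.th a).1 ∧ I.g b = I.g c) := by
    rintro ⟨e1, e2, -⟩
    exact theta_not_rooted h ⟨ha, h3, hb, hc, hne, cl_three_th h ha h3 e1 e2⟩ (Or.inr hk) hr0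
  obtain ⟨J, hJw, hJl, hJs, hJA, hJk, hJfar, hJnear⟩ :=
    ne_core h hl ha hk hne h3 h3' hb hc hb' hc' hd ht
  have hsub : ∀ v ∈ J.A, v ∈ I.A := by
    intro v hv
    rw [hJA] at hv
    exact (Finset.mem_sdiff.1 hv).1
  apply hJs
  apply ih J _ hJw hJl
  · intro d hdJ
    rw [hJk d hdJ]
    exact hZ d (hsub _ hdJ)
  · refine ⟨r, fun w hw => ?_⟩
    have hwA := hsub w hw
    by_cases hroot : I.Root w
    · exact Or.inl (cl_root_congr (fun i => hJk (w, i) hw) hroot)
    right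
    obtain ⟨j, hj⟩ := (hr w hwA).resolve_left hroot
    obtain ⟨i0, hi0⟩ := cl_exists_N hZ hwA hroot
    have hwu : r w ≤ r a.1 := hmax' (w, i0) hwA hi0
    refine ⟨j, ?_⟩
    have h1 : (I.th (w, j)).1 ≠ a.1 := by
      intro e
      rw [e] at hj
      omega
    by_cases h2 : (I.th (w, j)).1 = (I.th a).1
    · rw [h2] at hj
      rw [hJnear (w, j) ((I.th a).1, j') hw h2 rfl]
      · omega
      · intro e
        rw [e, h.inv a ha] at hj'
        omega
      · intro e
        rw [e, h.inv (w, j) hwA] at hj'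
        change r w < _ at hj'
        omega
      · intro e
        rw [e] at hj'
        omega
    · rw [hJfar (w, j) hw h1 h2]
      exact hj
  · rw [hJA]
    exact cl_card_sdiff ha (by simp)

theorem cl_K (s : K) : ∃ l : K, l ≠ 0 ∧ l ≠ s := by
  revert s
  decide

theorem cl_case4 {I : Inst V} (h : I.WF) (hl : I.LoopsOK) (hZ : I.NoK .Z) (hN : I.NoK .N)
    (ih : ∀ J : Inst V, J.A.card < I.A.card → J.WF → J.LoopsOK → J.NoK .Z → J.Rooted → J.Solv)
    (hrv : ∀ v ∈ I.A, ¬ I.RVable v) {a : Dart V} (ha : a.1 ∈ I.A) (hF : I.kind a = .F) :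
    I.Solv := by
  have hRR : ∀ b c : Dart V, Three a b c → I.kind b = .R := by
    intro b c h3
    by_contra hb
    have hcA : c.1 ∈ I.A := h3.2.1 ▸ ha
    exact hN a ha (cl_rv1 hrv hcA h3.swap.rot (by rw [hF]; decide) hb).2.1
  obtain ⟨b, c, h3⟩ := three_exists a
  have hb := hRR b c h3
  have hc := hRR c b h3.swap
  have hbc : I.th b ≠ c := cl_rv2 hrv ha h3 hb (hN a ha)
  obtain ⟨l, hl0, hls⟩ := cl_K (I.g b + I.g c)
  have hk : ∀ k : Kind, k ≠ .F → k ≠ .R → I.NoK k → (I.supp b c l).NoK k := by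
    intro k hkF hkR hno d hd
    rw [supp_A] at hd
    have hdA : d.1 ∈ I.A := (Finset.mem_sdiff.1 hd).1
    have hdu : d.1 ≠ a.1 := by
      have := (Finset.mem_sdiff.1 hd).2
      rw [h3.1] at this
      simpa using this
    by_cases hth : (I.th d).1 = a.1
    · rcases supp_near h ha h3 hF l hdA hdu hth with e | e | e | e <;> rw [e.2.2.1]
      exacts [hkF.symm, hkF.symm, hkR.symm, hkR.symm]
    · rw [(supp_far h ha h3 l hdA hdu hth).2.1]
      exact hno d hdA
  have hZ' := hk .Z (by decide) (by decide) hZ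
  have hN' := hk .N (by decide) (by decide) hN
  obtain ⟨x, hx⟩ := ih (I.supp b c l)
    (by rw [supp_A]; exact cl_card_sdiff ha (by simp [h3.1])) (wf_supp h ha h3 hF l)
    (loops_supp h hl ha h3 hF fun _ _ => hls) hZ' (cl_rooted_of_noZN hZ' hN')
  obtain ⟨y, hy, -⟩ := sol_of_supp h ha h3 hF hb hc hl0 (fun e => absurd e hbc) hx
  exact ⟨y, hy⟩

theorem cl_case5 {I : Inst V} (h : I.WF) (hl : I.LoopsOK) (hR : ∀ d : Dart V, d.1 ∈ I.A → I.kind d = .R)
    (ih : ∀ J : Inst V, J.A.card < I.A.card → J.WF → J.LoopsOK → J.NoK .Z → J.Rooted → J.Solv)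
    (hrv : ∀ v ∈ I.A, ¬ I.RVable v) {u : V} (hu : u ∈ I.A) : I.Solv := by
  have hZ : I.NoK .Z := fun d hd => by rw [hR d hd]; decide
  have hN : I.NoK .N := fun d hd => by rw [hR d hd]; decide
  have hout : ∀ d : Dart V, d.1 ∈ I.A → (I.th d).1 ≠ d.1 := by
    intro d hd hth
    have hne : d ≠ I.th d := by
      intro e
      have := (h.free d hd).2 e.symm
      rw [hR d hd] at this
      cases this
    obtain ⟨e, h3⟩ := Three.third hth.symm hne
    have heA : e.1 ∈ I.A := h3.1 ▸ hd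
    exact cl_rv2 hrv heA h3 (hR d hd) (hN e heA) rfl
  by_cases hall : ∀ a b c : Dart V, a.1 = u → Three a b c →
      (I.th b).1 = (I.th a).1 ∧ (I.th c).1 = (I.th a).1 ∧ I.g b = I.g c
  · obtain ⟨b, c, h3⟩ := three_exists ((u, 0) : Dart V)
    have hbA : b.1 ∈ I.A := h3.1 ▸ hu
    have hcA : c.1 ∈ I.A := h3.2.1 ▸ hu
    obtain ⟨e1, e2, e3⟩ := hall (u, 0) b c rfl h3
    obtain ⟨-, -, e4⟩ := hall c (u, 0) b h3.2.1 h3.swap.rot
    refine lift_TH0 h ⟨hu, h3, hR b hbA, hR c hcA, hout (u, 0) hu, cl_three_th h hu h3 e1 e2⟩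
      (hR (u, 0) hu) e4 e3 ?_
    have hZ' := cl_noK_rem (by decide) hZ {u, (I.th (u, 0)).1}
    exact ih _ (cl_card_sdiff hu (by simp)) (wf_rem h _) (loops_rem hl _) hZ'
      (cl_rooted_of_noZN hZ' (cl_noK_rem (by decide) hN _))
  · push Not at hall
    obtain ⟨a, b, c, hau, h3, ht⟩ := hall
    have ha : a.1 ∈ I.A := hau ▸ hu
    have ha' : (I.th a).1 ∈ I.A := h.mem a ha
    have hne := hout a ha
    obtain ⟨b', c', h3'⟩ := three_exists (I.th a)
    have hbA : b.1 ∈ I.A := h3.1 ▸ ha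
    have hcA : c.1 ∈ I.A := h3.2.1 ▸ ha
    have hb'A : b'.1 ∈ I.A := h3'.1 ▸ ha'
    have hc'A : c'.1 ∈ I.A := h3'.2.1 ▸ ha'
    have hkeep : ∀ d : Dart V, d.1 ∈ I.A → d ≠ a → d ≠ I.th a → (I.setN a).kind d = .R := by
      intro d hd h1 h2
      show (if d = a ∨ d = I.th a then Kind.N else I.kind d) = _
      rw [if_neg (by tauto), hR d hd]
    refine lift_P h ha (Or.inl (hR a ha)) hne h3 h3' (hR b hbA) (hR c hcA) (hR b' hb'A)
      (hR c' hc'A) ?_
    obtain ⟨J, hJw, hJl, hJs, hJA, hJk, -, -⟩ :=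
      ne_core (I := I.setN a) (wf_setN h ha (by rw [hR a ha]; decide)) (loops_setN hl a)
        (a := a) (b := b) (c := c) (b' := b') (c' := c') ha
        (show (if a = a ∨ a = I.th a then Kind.N else I.kind a) = _ from if_pos (Or.inl rfl))
        hne h3 h3'
        (hkeep b hbA h3.2.2.1.symm fun e => hne (by rw [← e, h3.1]))
        (hkeep c hcA h3.2.2.2.1.symm fun e => hne (by rw [← e, h3.2.1]))
        (hkeep b' hb'A (fun e => hne (by rw [← h3'.1, e])) h3'.2.2.1.symm)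
        (hkeep c' hc'A (fun e => hne (by rw [← h3'.2.1, e])) h3'.2.2.2.1.symm)
        (fun e => hout b hbA (by
          have e1 : I.th b = c := e.1
          rw [e1, h3.1, h3.2.1]))
        (fun e => ht e.1 e.2.1 e.2.2)
    have hJR : ∀ d : Dart V, d.1 ∈ J.A → J.kind d = .R := by
      intro d hd
      rw [hJk d hd]
      rw [hJA] at hd
      have h1 := (Finset.mem_sdiff.1 hd).2
      refine hkeep d (Finset.mem_sdiff.1 hd).1 (fun e => h1 ?_) (fun e => h1 ?_)
      · rw [e]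
        exact Finset.mem_insert_self _ _
      · rw [e]
        exact Finset.mem_insert_of_mem (Finset.mem_singleton_self _)
    have hZ' : J.NoK .Z := fun d hd => by rw [hJR d hd]; decide
    have hN' : J.NoK .N := fun d hd => by rw [hJR d hd]; decide
    apply hJs
    refine ih J ?_ hJw hJl hZ' (cl_rooted_of_noZN hZ' hN')
    rw [hJA]
    exact cl_card_sdiff ha (Finset.mem_insert_self _ _)

/-- Rooted instances without short edges are solvable. -/
theorem CL (I : Inst V) (h : I.WF) (hl : I.LoopsOK) (hZ : I.NoK .Z) (hr : I.Rooted) :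
    I.Solv := by
  induction hn : I.A.card using Nat.strong_induction_on generalizing I with
  | _ n ihn =>
    have ih : ∀ J : Inst V, J.A.card < I.A.card → J.WF → J.LoopsOK → J.NoK .Z → J.Rooted →
        J.Solv := fun J hJ h1 h2 h3 h4 => ihn J.A.card (hn ▸ hJ) J h1 h2 h3 h4 rfl
    by_cases hrv : ∃ v ∈ I.A, I.RVable v
    · obtain ⟨v, hv, hrv⟩ := hrv
      exact lift_RV h hl hZ hv hrv (ih _ (cl_card_sdiff hv (Finset.mem_singleton_self v))
        (wf_rem h _) (loops_rem hl _) (cl_noK_rem (by decide) hZ _) (rooted_rem hr _))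
    push Not at hrv
    by_cases hno : ∃ u ∈ I.A, ∀ i, I.kind (u, i) = .N
    · obtain ⟨u, hu, hN⟩ := hno
      exact cl_case2 h hl hZ hr ih hrv hu hN
    by_cases hex : ∃ a : Dart V, a.1 ∈ I.A ∧ I.kind a = .N
    · exact cl_case3 h hl hZ hr ih hrv (fun u hu hN => hno ⟨u, hu, hN⟩) hex
    have hN : I.NoK .N := fun a ha hk => hex ⟨a, ha, hk⟩
    by_cases hF : ∃ a : Dart V, a.1 ∈ I.A ∧ I.kind a = .F
    · obtain ⟨a, ha, hk⟩ := hF
      exact cl_case4 h hl hZ hN ih hrv ha hk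
    rcases I.A.eq_empty_or_nonempty with he | ⟨u, hu⟩
    · refine ⟨fun _ => 0, fun v hv => ?_, fun a ha => ?_⟩
      · rw [he] at hv
        exact absurd hv (Finset.notMem_empty _)
      · rw [he] at ha
        exact absurd ha (Finset.notMem_empty _)
    refine cl_case5 h hl (fun d hd => ?_) ih hrv hu
    have h1 := hZ d hd
    have h2 := hN d hd
    have h3 : I.kind d ≠ .F := fun e => hF ⟨d, hd, e⟩
    revert h1 h2 h3
    cases I.kind d <;> simp

end Inst

end Pool.Agent.P.MP_0ad50f_co.SC
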