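import Pool.Agent.P.MP_0ad50f_co.SC.Defs

namespace Pool.Agent.P.MP_0ad50f_co.SC

variable {V : Type} [DecidableEq V] [Fintype V] {G : SimpleGraph V} [DecidableRel G.Adj]

theorem ham_nx {n i : ℕ} (h : i < n) :
    ((i + 1) % n = i + 1 ∧ i + 1 < n) ∨ ((i + 1) % n = 0 ∧ i + 1 = n) := by
  rcases Nat.lt_or_ge (i + 1) n with h1 | h1
  · exact Or.inl ⟨Nat.mod_eq_of_lt h1, h1⟩
  · have : i + 1 = n := by omega
    exact Or.inr ⟨by rw [this, Nat.mod_self], this⟩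

theorem ham_pv {n i : ℕ} (h : i < n) :
    ((i + n - 1) % n = n - 1 ∧ i = 0) ∨ ((i + n - 1) % n = i - 1 ∧ 1 ≤ i) := by
  rcases Nat.eq_zero_or_pos i with h1 | h1
  · subst h1
    exact Or.inl ⟨by rw [Nat.zero_add]; exact Nat.mod_eq_of_lt (by omega), rfl⟩
  · refine Or.inr ⟨?_, h1⟩
    have : i + n - 1 = (i - 1) + n := by omega
    rw [this, Nat.add_mod_right]
    exact Nat.mod_eq_of_lt (by omega)

theorem ham_deg (hn : NoLeaf G) {v w : V} (h : G.Adj v w) : 2 ≤ G.degree v := by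
  have h1 : 0 < G.degree v := (G.degree_pos_iff_exists_adj v).2 ⟨w, h⟩
  have h2 := hn v
  omega

/-- The enlarged matching covers exactly the cubic vertices. -/
theorem ham_mat {M : V → V} (hM : Mat G M) {u z : V}
    (huz : G.Adj u z) (hA : ∀ v, (G.degree v = 3 ∧ M v = v) ↔ v = u ∨ v = z) :
    Mat G (mAdd M u z) ∧ (∀ v, G.degree v = 3 → mAdd M u z v ≠ v) ∧ mAdd M u z u = z ∧
      mAdd M u z z = u ∧ ∀ v, v ≠ u → v ≠ z → mAdd M u z v = M v := by
  have hne : u ≠ z := huz.ne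
  obtain ⟨hu3, hu⟩ := (hA u).2 (Or.inl rfl)
  obtain ⟨hz3, hz⟩ := (hA z).2 (Or.inr rfl)
  have e1 : mAdd M u z u = z := by simp [mAdd]
  have e2 : mAdd M u z z = u := by simp [mAdd, hne.symm]
  have e3 : ∀ v, v ≠ u → v ≠ z → mAdd M u z v = M v := fun v h1 h2 => by simp [mAdd, h1, h2]
  refine ⟨⟨fun v => ?_, fun v hv => ?_⟩, fun v hv => ?_, e1, e2, e3⟩
  · by_cases h1 : v = u
    · rw [h1, e1, e2]
    by_cases h2 : v = z
    · rw [h2, e2, e1]
    have h3 : M v ≠ u := fun h => h1 (by rw [← hM.1 v, h, hu])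
    have h4 : M v ≠ z := fun h => h2 (by rw [← hM.1 v, h, hz])
    rw [e3 v h1 h2, e3 _ h3 h4, hM.1]
  · by_cases h1 : v = u
    · rw [h1, e1]; exact ⟨huz, hu3⟩
    by_cases h2 : v = z
    · rw [h2, e2]; exact ⟨huz.symm, hz3⟩
    rw [e3 v h1 h2] at hv ⊢
    exact hM.2 v hv
  · by_cases h1 : v = u
    · rw [h1, e1]; exact hne.symm
    by_cases h2 : v = z
    · rw [h2, e2]; exact hne
    rw [e3 v h1 h2]
    intro h
    rcases (hA v).1 ⟨hv, h⟩ with h | h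
    · exact h1 h
    · exact h2 h

theorem ham_card (h3 : Sub3 G) {N : V → V} (hN : Mat G N) (hc : ∀ v, G.degree v = 3 → N v ≠ v)
    {v : V} (hv : 2 ≤ G.degree v) : ((G.neighborFinset v).erase (N v)).card = 2 := by
  have h := h3 v
  by_cases h1 : N v = v
  · have h2 : G.degree v ≠ 3 := fun h => hc v h h1
    rw [Finset.erase_eq_of_notMem (by simp [h1]), G.card_neighborFinset_eq_degree]
    omega
  · obtain ⟨h2, h4⟩ := hN.2 v h1
    rw [Finset.card_erase_of_mem (by simpa using h2), G.card_neighborFinset_eq_degree, h4]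

theorem ham_oth (h3 : Sub3 G) (hn : NoLeaf G) {N : V → V} (hN : Mat G N)
    (hc : ∀ v, G.degree v = 3 → N v ≠ v) (v w : V) :
    ∃ y, G.Adj v w → w ≠ N v → G.Adj v y ∧ y ≠ N v ∧ y ≠ w ∧
      ∀ t, G.Adj v t → t ≠ N v → t = w ∨ t = y := by
  by_cases h : G.Adj v w ∧ w ≠ N v
  · obtain ⟨a, b, hab, hs⟩ := Finset.card_eq_two.1 (ham_card h3 hN hc (ham_deg hn h.1))
    have key : ∀ t, (G.Adj v t ∧ t ≠ N v) ↔ t = a ∨ t = b := fun t => by
      have : t ∈ (G.neighborFinset v).erase (N v) ↔ t ∈ ({a, b} : Finset V) := by rw [hs]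
      simpa [and_comm] using this
    rcases (key w).1 h with rfl | rfl
    · have hb := (key b).2 (Or.inr rfl)
      exact ⟨b, fun _ _ => ⟨hb.1, hb.2, hab.symm, fun t h1 h2 => (key t).1 ⟨h1, h2⟩⟩⟩
    · have ha := (key a).2 (Or.inl rfl)
      exact ⟨a, fun _ _ => ⟨ha.1, ha.2, hab, fun t h1 h2 => ((key t).1 ⟨h1, h2⟩).symm⟩⟩
  · exact ⟨v, fun h1 h2 => (h ⟨h1, h2⟩).elim⟩

theorem ham_walk (h3 : Sub3 G) (hn : NoLeaf G) {N : V → V} (hN : Mat G N)
    (hc : ∀ v, G.degree v = 3 → N v ≠ v) {u : V} (hu : 2 ≤ G.degree u) :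
    ∃ v : ℕ → V, v 0 = u ∧ (∀ i, G.Adj (v i) (v (i + 1)) ∧ v (i + 1) ≠ N (v i)) ∧
      (∀ i, v (i + 2) ≠ v i) ∧
      ∀ i t, G.Adj (v (i + 1)) t → t ≠ N (v (i + 1)) → t = v i ∨ t = v (i + 2) := by
  choose f hf using ham_oth h3 hn hN hc
  obtain ⟨w, hw⟩ : ((G.neighborFinset u).erase (N u)).Nonempty :=
    Finset.card_pos.1 (by rw [ham_card h3 hN hc hu]; norm_num)
  have hw1 : G.Adj u w := by simpa using (Finset.mem_erase.1 hw).2
  have hw2 : w ≠ N u := (Finset.mem_erase.1 hw).1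
  let s : ℕ → V × V := fun i => Nat.rec (u, w) (fun _ q => (q.2, f q.2 q.1)) i
  have hs : ∀ i, G.Adj (s i).1 (s i).2 ∧ (s i).2 ≠ N (s i).1 := by
    intro i
    induction i with
    | zero => exact ⟨hw1, hw2⟩
    | succ i ih =>
      have h := hf (s i).2 (s i).1 ih.1.symm (fun h => ih.2 (by rw [h, hN.1]))
      exact ⟨h.1, h.2.1⟩
  have hs' : ∀ i, G.Adj (s i).2 (f (s i).2 (s i).1) ∧ f (s i).2 (s i).1 ≠ N (s i).2 ∧
      f (s i).2 (s i).1 ≠ (s i).1 ∧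
      ∀ t, G.Adj (s i).2 t → t ≠ N (s i).2 → t = (s i).1 ∨ t = f (s i).2 (s i).1 := fun i =>
    hf (s i).2 (s i).1 (hs i).1.symm (fun h => (hs i).2 (by rw [h, hN.1]))
  exact ⟨fun i => (s i).1, rfl, fun i => hs i, fun i => (hs' i).2.2.1, fun i => (hs' i).2.2.2⟩

theorem ham_cyc (h3 : Sub3 G) (hn : NoLeaf G) {N : V → V} (hN : Mat G N)
    (hc : ∀ v, G.degree v = 3 → N v ≠ v) {u : V} (hu : 2 ≤ G.degree u) :
    ∃ (n : ℕ) (v : ℕ → V), 3 ≤ n ∧ v 0 = u ∧ (∀ i < n, ∀ j < n, v i = v j → i = j) ∧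
      (∀ i < n, G.Adj (v i) (v ((i + 1) % n)) ∧ v ((i + 1) % n) ≠ N (v i)) ∧
      ∀ i < n, ∀ t, G.Adj (v i) t → t ≠ N (v i) →
        t = v ((i + 1) % n) ∨ t = v ((i + n - 1) % n) := by
  obtain ⟨v, h0, ha, hb, hd⟩ := ham_walk h3 hn hN hc hu
  have hex : ∃ j, ∃ i < j, v i = v j := by
    obtain ⟨i, j, hij, h⟩ := Finite.exists_ne_map_eq_of_infinite v
    rcases lt_or_gt_of_ne hij with h1 | h1
    · exact ⟨j, i, h1, h⟩
    · exact ⟨i, j, h1, h.symm⟩
  classical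
  obtain ⟨i0, hi0, he⟩ := Nat.find_spec hex
  have hmin : ∀ j < Nat.find hex, ∀ i < j, v i ≠ v j := fun j hj i hi h =>
    Nat.find_min hex hj ⟨i, hi, h⟩
  generalize Nat.find hex = n at hi0 he hmin
  have hinj : ∀ i < n, ∀ j < n, v i = v j → i = j := by
    intro i hi j hj h
    rcases lt_trichotomy i j with h1 | h1 | h1
    · exact (hmin j hj i h1 h).elim
    · exact h1
    · exact (hmin i hi j h1 h.symm).elim
  obtain ⟨m, rfl⟩ : ∃ m, n = m + 1 := ⟨n - 1, by omega⟩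
  have hback : G.Adj (v (m + 1)) (v m) ∧ v m ≠ N (v (m + 1)) :=
    ⟨(ha m).1.symm, fun h => (ha m).2 (by rw [h, hN.1])⟩
  have hz : i0 = 0 := by
    by_contra hne
    obtain ⟨i, rfl⟩ : ∃ i, i0 = i + 1 := ⟨i0 - 1, by omega⟩
    rw [← he] at hback
    rcases hd i (v m) hback.1 hback.2 with h | h
    · have := hinj m (by omega) i (by omega) h
      omega
    · rcases Nat.lt_or_ge (i + 2) (m + 1) with h1 | h1
      · have h2 := hinj m (by omega) (i + 2) h1 h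
        subst h2
        exact hb (i + 1) he.symm
      · have h2 : m = i + 1 := by omega
        subst h2
        exact (ha (i + 1)).1.ne he
  subst hz
  have hm : 2 ≤ m := by
    by_contra hlt
    have : m = 0 ∨ m = 1 := by omega
    rcases this with rfl | rfl
    · exact (ha 0).1.ne he
    · exact hb 0 he.symm
  have h1 : v 1 = v (m + 2) := by
    have h := hd m (v 1) (by rw [← he]; exact (ha 0).1) (by rw [← he]; exact (ha 0).2)
    rcases h with h | h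
    · have := hinj 1 (by omega) m (by omega) h
      omega
    · exact h
  have hnx : ∀ i < m + 1, v ((i + 1) % (m + 1)) = v (i + 1) := by
    intro i hi
    rcases ham_nx hi with ⟨h, _⟩ | ⟨h, h'⟩
    · rw [h]
    · rw [h, h', he]
  refine ⟨m + 1, v, by omega, h0, hinj, fun i hi => ?_, fun i hi t h1' h2 => ?_⟩
  · rw [hnx i hi]; exact ha i
  · rw [hnx i hi]
    rcases ham_pv hi with ⟨h, h'⟩ | ⟨h, h'⟩
    · subst h'
      rw [h]
      rw [he] at h1' h2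
      rcases hd m t h1' h2 with h4 | h4
      · exact Or.inr h4
      · exact Or.inl (h4.trans h1.symm)
    · obtain ⟨j, rfl⟩ : ∃ j, i = j + 1 := ⟨i - 1, by omega⟩
      rw [h]
      exact (hd j t h1' h2).symm

theorem ham_pn {n i : ℕ} (h : i < n) : ((i + n - 1) % n + 1) % n = i := by
  have h1 : (i + n - 1) % n < n := Nat.mod_lt _ (by omega)
  rcases ham_pv h with ⟨h2, h3⟩ | ⟨h2, h3⟩ <;> rcases ham_nx h1 with ⟨h4, h5⟩ | ⟨h4, h5⟩ <;> omega

end Pool.Agent.P.MP_0ad50f_co.SC
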