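import Pool.Agent.P.MP_0ad50f_co.SC.Tab
import Pool.Agent.P.MP_0ad50f_co.SC.HamH

namespace Pool.Agent.P.MP_0ad50f_co.SC

variable {V : Type} [DecidableEq V] [Fintype V] {G : SimpleGraph V} [DecidableRel G.Adj]

/-- Positions along the cycle that remains after deleting the matching and the edge `u z`. -/
theorem ham_seq (h3 : Sub3 G) (hn : NoLeaf G) {M : V → V} (hM : Mat G M) {u z : V}
    (huz : G.Adj u z) (hA : ∀ v, (G.degree v = 3 ∧ M v = v) ↔ v = u ∨ v = z)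
    (hc : ∀ S : Set V, DCl G M {u, z} S → ∀ v ∈ S, 2 ≤ G.degree v →
      ∀ w, 2 ≤ G.degree w → w ∈ S) :
    ∃ (n : ℕ) (v : ℕ → V), 3 ≤ n ∧ v 0 = u ∧ (∀ i < n, ∀ j < n, v i = v j → i = j) ∧
      (∀ w, 2 ≤ G.degree w ↔ ∃ i < n, v i = w) ∧
      (∀ i < n, v ((i + 1) % n) ≠ mAdd M u z (v i)) ∧
      ∀ i < n, ∀ w, G.Adj (v i) w ↔ w = v ((i + 1) % n) ∨ w = v ((i + n - 1) % n) ∨
        (mAdd M u z (v i) ≠ v i ∧ w = mAdd M u z (v i)) := by
  obtain ⟨hN, hc3, e1, e2, e3⟩ := ham_mat hM huz hA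
  have hu : 2 ≤ G.degree u := ham_deg hn huz
  obtain ⟨n, v, hn3, h0, hinj, ha, hd⟩ := ham_cyc h3 hn hN hc3 hu
  refine ⟨n, v, hn3, h0, hinj, fun w => ⟨fun hw => ?_, ?_⟩, fun i hi => (ha i hi).2,
    fun i hi w => ⟨fun h => ?_, ?_⟩⟩
  · refine hc {x | ∃ i < n, v i = x} ?_ u ⟨0, by omega, h0⟩ hu w hw
    rintro x y hxy h1 h2 ⟨i, hi, rfl⟩
    have h4 : y ≠ mAdd M u z (v i) := by
      by_cases h5 : v i = u
      · rw [h5, e1]
        intro h; exact h2 ⟨by simp [h5], by simp [h]⟩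
      by_cases h6 : v i = z
      · rw [h6, e2]
        intro h; exact h2 ⟨by simp [h6], by simp [h]⟩
      rw [e3 _ h5 h6]; exact h1
    rcases hd i hi y hxy h4 with h | h
    · exact ⟨_, Nat.mod_lt _ (by omega), h.symm⟩
    · exact ⟨_, Nat.mod_lt _ (by omega), h.symm⟩
  · rintro ⟨i, hi, rfl⟩
    exact ham_deg hn (ha i hi).1
  · by_cases h1 : w = mAdd M u z (v i)
    · exact Or.inr (Or.inr ⟨fun h2 => h.ne (by rw [h1, h2]), h1⟩)
    · rcases hd i hi w h h1 with h2 | h2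
      · exact Or.inl h2
      · exact Or.inr (Or.inl h2)
  · rintro (h | h | ⟨h1, h⟩)
    · rw [h]; exact (ha i hi).1
    · have h2 := (ha ((i + n - 1) % n) (Nat.mod_lt _ (by omega))).1
      rw [ham_pn hi] at h2
      rw [h]; exact h2.symm
    · rw [h]; exact (hN.2 _ h1).1

theorem ham_col {n : ℕ} (hn3 : 3 ≤ n) (v : ℕ → V) (hinj : ∀ i < n, ∀ j < n, v i = v j → i = j)
    (p cy ch : ℕ → ℕ) (hlt : ∀ i < n, p i < n) (hinv : ∀ i < n, p (p i) = i)
    (hadj : ∀ i < n, p i ≠ (i + 1) % n) (hch : ∀ i < n, ch (p i) = ch i)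
    (hb : ∀ i < n, 1 ≤ cy i ∧ cy i ≤ 5 ∧ 1 ≤ ch i ∧ ch i ≤ 5) :
    ∃ c : Sym2 V → ℕ, (∀ e, 1 ≤ c e ∧ c e ≤ 5) ∧ (∀ i < n, c s(v i, v ((i + 1) % n)) = cy i) ∧
      ∀ i < n, c s(v i, v (p i)) = ch i ∨ p i = i := by
  classical
  have hm : ∀ i, (i + 1) % n < n := fun i => Nat.mod_lt _ (by omega)
  refine ⟨fun e => if h : ∃ i < n, e = s(v i, v ((i + 1) % n)) then cy h.choose
    else if h : ∃ i < n, e = s(v i, v (p i)) then ch h.choose else 1, fun e => ?_,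
    fun i hi => ?_, fun i hi => ?_⟩
  · beta_reduce
    split_ifs with h1 h2
    · have := hb _ h1.choose_spec.1
      omega
    · have := hb _ h2.choose_spec.1
      omega
    · omega
  · have h : ∃ j < n, s(v i, v ((i + 1) % n)) = s(v j, v ((j + 1) % n)) := ⟨i, hi, rfl⟩
    beta_reduce
    rw [dif_pos h]
    obtain ⟨h1, h2⟩ := h.choose_spec
    generalize h.choose = j at h1 h2
    rcases Sym2.eq_iff.1 h2 with ⟨h4, _⟩ | ⟨h4, h5⟩
    · rw [hinj i hi j h1 h4]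
    · have h6 := hinj _ hi _ (hm j) h4
      have h7 := hinj _ (hm i) _ h1 h5
      rcases ham_nx hi with ⟨_, _⟩ | ⟨_, _⟩ <;> rcases ham_nx h1 with ⟨_, _⟩ | ⟨_, _⟩ <;> omega
  · left
    have h' : ¬ ∃ j < n, s(v i, v (p i)) = s(v j, v ((j + 1) % n)) := by
      rintro ⟨j, hj, h2⟩
      rcases Sym2.eq_iff.1 h2 with ⟨h4, h5⟩ | ⟨h4, h5⟩
      · have h6 := hinj _ hi _ hj h4
        have h7 := hinj _ (hlt i hi) _ (hm j) h5
        exact hadj i hi (by rw [h7, h6])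
      · have h6 := hinj _ hi _ (hm j) h4
        have h7 := hinj _ (hlt i hi) _ hj h5
        exact hadj j hj (by rw [← h6, ← h7, hinv i hi])
    have h : ∃ j < n, s(v i, v (p i)) = s(v j, v (p j)) := ⟨i, hi, rfl⟩
    beta_reduce
    rw [dif_neg h', dif_pos h]
    obtain ⟨h1, h2⟩ := h.choose_spec
    generalize h.choose = j at h1 h2
    rcases Sym2.eq_iff.1 h2 with ⟨h4, _⟩ | ⟨h4, _⟩
    · rw [hinj i hi j h1 h4]
    · rw [hinj _ hi _ (hlt j h1) h4, hch j h1]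

theorem ham (h3 : Sub3 G) (hT : T1only G) (hn : NoLeaf G) {M : V → V} (hM : Mat G M) {u z : V}
    (huz : G.Adj u z) (hA : ∀ v, (G.degree v = 3 ∧ M v = v) ↔ v = u ∨ v = z)
    (hc : ∀ S : Set V, DCl G M {u, z} S → ∀ v ∈ S, 2 ≤ G.degree v →
      ∀ w, 2 ≤ G.degree w → w ∈ S)
    (hcov : ∀ v, M v ≠ v → ∃ w, (G.Adj v w ∨ G.Adj (M v) w) ∧ (w = u ∨ w = z)) : Goal G := by
  obtain ⟨hN, hc3, e1, e2, e3⟩ := ham_mat hM huz hA
  obtain ⟨n, v, hn3, h0, hinj, hall, hnx, hadjv⟩ := ham_seq h3 hn hM huz hA hc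
  have hm : ∀ i, (i + 1) % n < n := fun i => Nat.mod_lt _ (by omega)
  have hm' : ∀ i, (i + n - 1) % n < n := fun i => Nat.mod_lt _ (by omega)
  have hp : ∀ i, ∃ j, i < n → j < n ∧ v j = mAdd M u z (v i) := by
    intro i
    by_cases hi : i < n
    · by_cases h : mAdd M u z (v i) = v i
      · exact ⟨i, fun _ => ⟨hi, h.symm⟩⟩
      · obtain ⟨j, hj, h1⟩ := (hall _).1 (ham_deg hn (hN.2 _ h).1.symm)
        exact ⟨j, fun _ => ⟨hj, h1⟩⟩
    · exact ⟨0, fun h => (hi h).elim⟩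
  choose p hp using hp
  have hlt : ∀ i < n, p i < n := fun i hi => (hp i hi).1
  have hpv : ∀ i < n, v (p i) = mAdd M u z (v i) := fun i hi => (hp i hi).2
  have hinv : ∀ i < n, p (p i) = i := fun i hi =>
    hinj _ (hlt _ (hlt i hi)) _ hi (by rw [hpv _ (hlt i hi), hpv i hi, hN.1])
  have hadj : ∀ i < n, p i ≠ (i + 1) % n := fun i hi h => hnx i hi (by rw [← h, hpv i hi])
  have hfx : ∀ i < n, (mAdd M u z (v i) ≠ v i ↔ p i ≠ i) := fun i hi =>
    ⟨fun h h1 => h (by rw [← hpv i hi, h1]),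
      fun h h1 => h (hinj _ (hlt i hi) _ hi (by rw [hpv i hi, h1]))⟩
  have hA' : ∀ i < n, ∀ w, G.Adj (v i) w ↔ w = v ((i + 1) % n) ∨ w = v ((i + n - 1) % n) ∨
      (p i ≠ i ∧ w = v (p i)) := fun i hi w => by
    rw [hadjv i hi w, hfx i hi, hpv i hi]
  have hz : v (p 0) = z := by rw [hpv 0 (by omega), h0, e1]
  have hp0 : p 0 ≠ 0 := fun h => huz.ne (by rw [← hz, h, h0])
  have hp1 : p 0 ≠ 1 := by
    have := hadj 0 (by omega)
    rcases ham_nx (show 0 < n by omega) with ⟨_, _⟩ | ⟨_, _⟩ <;> omega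
  have hp2 : p 0 ≠ n - 1 := by
    intro h
    have h1 := hadj (n - 1) (by omega)
    have h2 := hinv 0 (by omega)
    rw [h] at h2
    rcases ham_nx (show n - 1 < n by omega) with ⟨_, _⟩ | ⟨_, _⟩ <;> omega
  have hp3 := hlt 0 (by omega)
  obtain ⟨k, hk⟩ : ∃ k, p 0 = k + 1 := ⟨p 0 - 1, by omega⟩
  have hk0 : p (k + 1) = 0 := by rw [← hk, hinv 0 (by omega)]
  have hAu : ∀ j < n, G.Adj (v j) u → j = 1 ∨ j = n - 1 ∨ j = k + 1 := by
    intro j hj h
    rw [← h0] at h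
    rcases (hA' 0 (by omega) _).1 h.symm with h1 | h1 | ⟨_, h1⟩
    · have := hinj _ hj _ (hm 0) h1
      rcases ham_nx (show 0 < n by omega) with ⟨_, _⟩ | ⟨_, _⟩ <;> omega
    · have := hinj _ hj _ (hm' 0) h1
      rcases ham_pv (show 0 < n by omega) with ⟨_, _⟩ | ⟨_, _⟩ <;> omega
    · have := hinj _ hj _ hp3 h1
      omega
  have hAz : ∀ j < n, G.Adj (v j) z → j = k ∨ j = k + 2 ∨ j = 0 := by
    intro j hj h
    rw [← hz, hk] at h
    rcases (hA' (k + 1) (by omega) _).1 h.symm with h1 | h1 | ⟨_, h1⟩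
    · have := hinj _ hj _ (hm (k + 1)) h1
      rcases ham_nx (show k + 1 < n by omega) with ⟨_, _⟩ | ⟨_, _⟩ <;> omega
    · have := hinj _ hj _ (hm' (k + 1)) h1
      rcases ham_pv (show k + 1 < n by omega) with ⟨_, _⟩ | ⟨_, _⟩ <;> omega
    · have := hinj _ hj _ (hlt (k + 1) (by omega)) h1
      omega
  obtain ⟨cy, ch, hT'⟩ := tab n k p (by omega) (by omega) hk hlt hinv hadj
    (fun i hi h => by
      have h1 : 2 ≤ G.degree (v i) := (hall _).2 ⟨i, hi, rfl⟩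
      have h2 : G.degree (v i) ≠ 3 := fun h2 => (hfx i hi).1 (hc3 _ h2) h
      have h4 := h3 (v i)
      exact (hfx _ (hm i)).1 (hc3 _ (hT (v i) _ (by omega) ((hA' i hi _).2 (Or.inl rfl)))))
    (fun i hi h => by
      by_cases h1 : v i = u
      · exact Or.inl (hinj _ hi _ (by omega) (h1.trans h0.symm))
      by_cases h2 : v i = z
      · exact Or.inr (Or.inl (hinj _ hi _ (by omega) (by rw [h2, ← hk, hz])))
      have h4 := (hfx i hi).2 h
      have h5 := hpv i hi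
      rw [e3 _ h1 h2] at h4 h5
      have h6 := hinv i hi
      have h7 : p i = k + 1 → i = 0 := fun h => by rw [← h6, h, hk0]
      have h8 : p i = 0 → i = k + 1 := fun h => by rw [← h6, h, hk]
      obtain ⟨w, hw, hw'⟩ := hcov _ h4
      rw [← h5] at hw
      rcases hw' with rfl | rfl <;> rcases hw with hw | hw
      · have := hAu _ hi hw; omega
      · have := hAu _ (hlt i hi) hw; omega
      · have := hAz _ hi hw; omega
      · have := hAz _ (hlt i hi) hw; omega)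
  obtain ⟨c, hc0, hc1, hc2⟩ := ham_col hn3 v hinj p cy ch hlt hinv hadj
    (fun i hi => (hT' i hi).2.2.2.2.1)
    (fun i hi => ⟨(hT' i hi).1, (hT' i hi).2.1, (hT' i hi).2.2.1, (hT' i hi).2.2.2.1⟩)
  have hc1' : ∀ i < n, c s(v i, v ((i + n - 1) % n)) = cy ((i + n - 1) % n) := by
    intro i hi
    have h := hc1 _ (hm' i)
    rw [ham_pn hi, Sym2.eq_swap] at h
    exact h
  have hc2' : ∀ i < n, p i ≠ i → c s(v i, v (p i)) = ch i := fun i hi h =>
    (hc2 i hi).resolve_right h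
  have hne1 : ∀ i < n, v ((i + 1) % n) ≠ v ((i + n - 1) % n) := by
    intro i hi h
    have := hinj _ (hm i) _ (hm' i) h
    rcases ham_nx hi with ⟨_, _⟩ | ⟨_, _⟩ <;> rcases ham_pv hi with ⟨_, _⟩ | ⟨_, _⟩ <;> omega
  have hne2 : ∀ i < n, v ((i + 1) % n) ≠ v (p i) := fun i hi h =>
    hadj i hi (hinj _ (hm i) _ (hlt i hi) h).symm
  have hne3 : ∀ i < n, v ((i + n - 1) % n) ≠ v (p i) := by
    intro i hi h
    have h1 := hinj _ (hm' i) _ (hlt i hi) h
    have h2 := hadj _ (hm' i)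
    rw [ham_pn hi, h1, hinv i hi] at h2
    exact h2 rfl
  have hsum : ∀ i < n, ∑ w ∈ G.neighborFinset (v i), c s(v i, w) = csum n p cy ch i := by
    intro i hi
    unfold csum
    by_cases h : p i = i
    · have : G.neighborFinset (v i) = {v ((i + 1) % n), v ((i + n - 1) % n)} := by
        ext w
        rw [G.mem_neighborFinset, hA' i hi w]
        simp [h]
      rw [this, Finset.sum_pair (hne1 i hi), hc1 i hi, hc1' i hi, if_pos h, Nat.add_zero]
    · have : G.neighborFinset (v i) = {v ((i + 1) % n), v ((i + n - 1) % n), v (p i)} := by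
        ext w
        rw [G.mem_neighborFinset, hA' i hi w]
        simp [h]
      rw [this, Finset.sum_insert (by simp [hne1 i hi, hne2 i hi]), Finset.sum_pair (hne3 i hi),
        hc1 i hi, hc1' i hi, hc2' i hi h, if_neg h, Nat.add_assoc]
  refine ⟨c, fun e _ => hc0 e, fun x w w' hw hw' hne => ?_, fun x w hw _ => ?_⟩
  · obtain ⟨i, hi, rfl⟩ := (hall x).1 (ham_deg hn hw)
    have g1 : cy ((i + n - 1) % n) ≠ cy i := by
      have := (hT' _ (hm' i)).2.2.2.2.2.1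
      rwa [ham_pn hi] at this
    have g2 := (hT' i hi).2.2.2.2.2.2.1
    rcases (hA' i hi w).1 hw with rfl | rfl | ⟨h1, rfl⟩ <;>
      rcases (hA' i hi w').1 hw' with rfl | rfl | ⟨h2, rfl⟩
    · exact (hne rfl).elim
    · rw [hc1 i hi, hc1' i hi]; exact g1.symm
    · rw [hc1 i hi, hc2' i hi h2]; exact (g2 h2).1.symm
    · rw [hc1 i hi, hc1' i hi]; exact g1
    · exact (hne rfl).elim
    · rw [hc1' i hi, hc2' i hi h2]; exact (g2 h2).2.symm
    · rw [hc1 i hi, hc2' i hi h1]; exact (g2 h1).1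
    · rw [hc1' i hi, hc2' i hi h1]; exact (g2 h1).2
    · exact (hne rfl).elim
  · obtain ⟨i, hi, rfl⟩ := (hall x).1 (ham_deg hn hw)
    rcases (hA' i hi w).1 hw with rfl | rfl | ⟨h1, rfl⟩
    · rw [hsum i hi, hsum _ (hm i)]; exact (hT' i hi).2.2.2.2.2.2.2.1
    · rw [hsum i hi, hsum _ (hm' i)]
      have := (hT' _ (hm' i)).2.2.2.2.2.2.2.1
      rw [ham_pn hi] at this
      exact this.symm
    · rw [hsum i hi, hsum _ (hlt i hi)]; exact (hT' i hi).2.2.2.2.2.2.2.2 h1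

end Pool.Agent.P.MP_0ad50f_co.SC
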