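import Pool.Agent.P.MP_0ad50f_co.SC.Defs

namespace Pool.Agent.P.MP_0ad50f_co.SC

variable {V : Type} [DecidableEq V]

theorem lab_fix (B : Finset V) (p q : V → V) (hp : ∀ v ∈ B, p v ∈ B ∧ p (p v) = v)
    (hq : ∀ v ∈ B, q v ∈ B ∧ q (q v) = v)
    (ih : ∀ (B' : Finset V) (p' q' : V → V), B'.card < B.card →
      (∀ v ∈ B', p' v ∈ B' ∧ p' (p' v) = v) → (∀ v ∈ B', q' v ∈ B' ∧ q' (q' v) = v) →
      ∃ f : V → Bool, ∀ v ∈ B', (p' v ≠ v → f (p' v) ≠ f v) ∧ (q' v ≠ v → f (q' v) ≠ f v))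
    {v : V} (hv : v ∈ B) (hpv : p v = v) :
    ∃ f : V → Bool, ∀ v ∈ B, (p v ≠ v → f (p v) ≠ f v) ∧ (q v ≠ v → f (q v) ≠ f v) := by
  have hpn : ∀ w ∈ B, w ≠ v → p w ≠ v := fun w hw hwv h => by
    have := (hp w hw).2
    rw [h, hpv] at this
    exact hwv this.symm
  have hqn : ∀ w ∈ B, w ≠ q v → q w ≠ v := fun w hw hwv h => by
    have := (hq w hw).2
    rw [h] at this
    exact hwv this.symm
  have hqi : ∀ w ∈ B, w ≠ v → q w ≠ q v := fun w hw hwv h => by
    have h1 := (hq w hw).2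
    rw [h, (hq v hv).2] at h1
    exact hwv h1.symm
  obtain ⟨f, hf⟩ := ih (B.erase v) p (fun w => if w = q v then w else q w)
    (Finset.card_erase_lt_of_mem hv)
    (fun w hw => by
      rw [Finset.mem_erase] at hw ⊢
      exact ⟨⟨hpn w hw.2 hw.1, (hp w hw.2).1⟩, (hp w hw.2).2⟩)
    (fun w hw => by
      have hw' := Finset.mem_erase.1 hw
      by_cases h : w = q v
      · simp only [if_pos h]
        exact ⟨hw, trivial⟩
      · simp only [if_neg h, if_neg (hqi w hw'.2 hw'.1)]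
        exact ⟨Finset.mem_erase.2 ⟨hqn w hw'.2 h, (hq w hw'.2).1⟩, (hq w hw'.2).2⟩)
  refine ⟨fun w => if w = v then !f (q v) else f w, fun w hw => ?_⟩
  by_cases hwv : w = v
  · subst hwv
    refine ⟨fun h => absurd hpv h, fun h => ?_⟩
    simp only [if_neg h, if_true]
    cases f (q w) <;> simp
  · have hw' : w ∈ B.erase v := Finset.mem_erase.2 ⟨hwv, hw⟩
    refine ⟨fun h => ?_, fun h => ?_⟩
    · simp only [if_neg hwv, if_neg (hpn w hw hwv)]
      exact (hf w hw').1 h
    · by_cases h2 : w = q v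
      · have h3 : q w = v := by rw [h2]; exact (hq v hv).2
        simp only [if_neg hwv, if_pos h3, ← h2]
        cases f w <;> simp
      · have h4 := (hf w hw').2
        simp only [if_neg h2] at h4
        simp only [if_neg hwv, if_neg (hqn w hw h2)]
        exact h4 h

theorem lab_nofix (B : Finset V) (p q : V → V) (hp : ∀ v ∈ B, p v ∈ B ∧ p (p v) = v)
    (hq : ∀ v ∈ B, q v ∈ B ∧ q (q v) = v)
    (ih : ∀ (B' : Finset V) (p' q' : V → V), B'.card < B.card →
      (∀ v ∈ B', p' v ∈ B' ∧ p' (p' v) = v) → (∀ v ∈ B', q' v ∈ B' ∧ q' (q' v) = v) →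
      ∃ f : V → Bool, ∀ v ∈ B', (p' v ≠ v → f (p' v) ≠ f v) ∧ (q' v ≠ v → f (q' v) ≠ f v))
    {v : V} (hv : v ∈ B) (hpf : ∀ w ∈ B, p w ≠ w) (hqf : ∀ w ∈ B, q w ≠ w) :
    ∃ f : V → Bool, ∀ v ∈ B, (p v ≠ v → f (p v) ≠ f v) ∧ (q v ≠ v → f (q v) ≠ f v) := by
  have pinj : ∀ a ∈ B, ∀ b ∈ B, p a = p b → a = b := fun a ha b hb h => by
    rw [← (hp a ha).2, h, (hp b hb).2]
  have qinj : ∀ a ∈ B, ∀ b ∈ B, q a = q b → a = b := fun a ha b hb h => by
    rw [← (hq a ha).2, h, (hq b hb).2]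
  obtain ⟨u, hu⟩ : ∃ u, u = p v := ⟨_, rfl⟩
  have huB : u ∈ B := hu ▸ (hp v hv).1
  have huv : u ≠ v := hu ▸ hpf v hv
  have hpu : p u = v := hu ▸ (hp v hv).2
  have hmem : ∀ w, w ∈ (B.erase v).erase u ↔ w ≠ u ∧ w ≠ v ∧ w ∈ B := fun w => by
    simp only [Finset.mem_erase]
  have hcard : ((B.erase v).erase u).card < B.card :=
    lt_of_le_of_lt Finset.card_erase_le (Finset.card_erase_lt_of_mem hv)
  have hp1 : ∀ w ∈ B, w ≠ u → p w ≠ v := fun w hw h1 h =>
    h1 (pinj w hw u huB (h.trans hpu.symm))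
  have hp2 : ∀ w ∈ B, w ≠ v → p w ≠ u := fun w hw h1 h =>
    h1 (pinj w hw v hv (h.trans hu))
  have hp' : ∀ w ∈ (B.erase v).erase u, p w ∈ (B.erase v).erase u ∧ p (p w) = w := fun w hw => by
    rw [hmem] at hw ⊢
    exact ⟨⟨hp2 w hw.2.2 hw.2.1, hp1 w hw.2.2 hw.1, (hp w hw.2.2).1⟩, (hp w hw.2.2).2⟩
  have hq1 : ∀ w ∈ B, w ≠ q v → q w ≠ v := fun w hw h1 h =>
    h1 (by rw [← h, (hq w hw).2])
  have hq2 : ∀ w ∈ B, w ≠ q u → q w ≠ u := fun w hw h1 h =>
    h1 (by rw [← h, (hq w hw).2])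
  by_cases hc : q v = u
  · have hqu : q u = v := by rw [← hc]; exact (hq v hv).2
    obtain ⟨f, hf⟩ := ih _ p q hcard hp' (fun w hw => by
      rw [hmem] at hw ⊢
      exact ⟨⟨hq2 w hw.2.2 (hqu ▸ hw.2.1), hq1 w hw.2.2 (hc ▸ hw.1), (hq w hw.2.2).1⟩,
        (hq w hw.2.2).2⟩)
    refine ⟨fun w => if w = v then true else if w = u then false else f w, fun w hw => ?_⟩
    by_cases h1 : w = v
    · subst h1
      simp [← hu, hc, huv]
    · by_cases h2 : w = u
      · subst h2
        simp [hpu, hqu, huv]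
      · have hw' := (hmem w).2 ⟨h2, h1, hw⟩
        simp only [if_neg h1, if_neg h2, if_neg (hp1 w hw h2), if_neg (hp2 w hw h1),
          if_neg (hq1 w hw (hc ▸ h2)), if_neg (hq2 w hw (hqu ▸ h1))]
        exact hf w hw'
  · have hav : q v ≠ v := hqf v hv
    have hbu : q u ≠ u := hqf u huB
    have hbv : q u ≠ v := fun h => hc (by rw [← h, (hq u huB).2])
    have hab : q u ≠ q v := fun h => huv (qinj u huB v hv h)
    have haB := (hmem (q v)).2 ⟨hc, hav, (hq v hv).1⟩
    have hbB := (hmem (q u)).2 ⟨hbu, hbv, (hq u huB).1⟩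
    obtain ⟨f, hf⟩ := ih _ p (fun w => if w = q v then q u else if w = q u then q v else q w)
      hcard hp' (fun w hw => by
        by_cases h1 : w = q v
        · simp only [if_pos h1, if_neg hab, if_true]
          exact ⟨hbB, h1.symm⟩
        · by_cases h2 : w = q u
          · simp only [if_neg h1, if_pos h2, if_true]
            exact ⟨haB, h2.symm⟩
          · have hw' := (hmem w).1 hw
            have h3 : q w ≠ q v := fun h => hw'.2.1 (qinj w hw'.2.2 v hv h)
            have h4 : q w ≠ q u := fun h => hw'.1 (qinj w hw'.2.2 u huB h)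
            simp only [if_neg h1, if_neg h2, if_neg h3, if_neg h4]
            exact ⟨(hmem _).2 ⟨hq2 w hw'.2.2 h2, hq1 w hw'.2.2 h1, (hq w hw'.2.2).1⟩,
              (hq w hw'.2.2).2⟩)
    have hfab : f (q u) ≠ f (q v) := by
      have := (hf (q v) haB).2
      simp only [if_true] at this
      exact this hab
    refine ⟨fun w => if w = v then f (q u) else if w = u then f (q v) else f w, fun w hw => ?_⟩
    by_cases h1 : w = v
    · subst h1
      simp only [← hu, if_neg huv, if_true, if_neg hav, if_neg hc]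
      exact ⟨fun _ => hfab.symm, fun _ => hfab.symm⟩
    · by_cases h2 : w = u
      · subst h2
        simp only [hpu, if_neg huv, if_true, if_neg hbv, if_neg hbu]
        exact ⟨fun _ => hfab, fun _ => hfab⟩
      · have hw' := (hmem w).2 ⟨h2, h1, hw⟩
        refine ⟨fun h => ?_, fun h => ?_⟩
        · simp only [if_neg h1, if_neg h2, if_neg (hp1 w hw h2), if_neg (hp2 w hw h1)]
          exact (hf w hw').1 h
        · by_cases h3 : w = q v
          · have h5 : q w = v := by rw [h3]; exact (hq v hv).2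
            simp only [if_neg h1, if_neg h2, if_pos h5]
            rw [h3]
            exact hfab
          · by_cases h4 : w = q u
            · have h5 : q w = u := by rw [h4]; exact (hq u huB).2
              simp only [if_neg h1, if_neg h2, h5, if_neg huv, if_true]
              rw [h4]
              exact hfab.symm
            · have h6 := (hf w hw').2
              simp only [if_neg h3, if_neg h4] at h6
              simp only [if_neg h1, if_neg h2, if_neg (hq1 w hw h3), if_neg (hq2 w hw h4)]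
              exact h6 h

theorem lab_two (n : ℕ) : ∀ (B : Finset V) (p q : V → V), B.card < n →
    (∀ v ∈ B, p v ∈ B ∧ p (p v) = v) → (∀ v ∈ B, q v ∈ B ∧ q (q v) = v) →
    ∃ f : V → Bool, ∀ v ∈ B, (p v ≠ v → f (p v) ≠ f v) ∧ (q v ≠ v → f (q v) ≠ f v) := by
  induction n with
  | zero => intro B p q h; omega
  | succ n ih =>
    intro B p q hB hp hq
    have ih' := fun (B' : Finset V) (p' q' : V → V) (h : B'.card < B.card) =>
      ih B' p' q' (by omega)
    by_cases h1 : ∃ v ∈ B, p v = v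
    · obtain ⟨v, hv, h⟩ := h1
      exact lab_fix B p q hp hq ih' hv h
    · by_cases h2 : ∃ v ∈ B, q v = v
      · obtain ⟨v, hv, h⟩ := h2
        obtain ⟨f, hf⟩ := lab_fix B q p hq hp ih' hv h
        exact ⟨f, fun v hv => (hf v hv).symm⟩
      · rcases B.eq_empty_or_nonempty with h | ⟨v, hv⟩
        · exact ⟨fun _ => true, fun v hv => by simp [h] at hv⟩
        · exact lab_nofix B p q hp hq ih' hv (fun w hw h => h1 ⟨w, hw, h⟩)
            (fun w hw h => h2 ⟨w, hw, h⟩)

end Pool.Agent.P.MP_0ad50f_co.SC
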