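import Pool.Agent.P.MP_0ad50f_co.SC.Defs
import Pool.Agent.P.MP_0ad50f_co.SC.LabH

namespace Pool.Agent.P.MP_0ad50f_co.SC

variable {V : Type} [DecidableEq V] [Fintype V] {G : SimpleGraph V} [DecidableRel G.Adj]

/-- A union of two matchings is bipartite. -/
theorem two_matchings (B : Finset V) (p q : V → V) (hp : ∀ v ∈ B, p v ∈ B ∧ p (p v) = v)
    (hq : ∀ v ∈ B, q v ∈ B ∧ q (q v) = v) :
    ∃ f : V → Bool, ∀ v ∈ B, (p v ≠ v → f (p v) ≠ f v) ∧ (q v ≠ v → f (q v) ≠ f v) :=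
  lab_two (B.card + 1) B p q (Nat.lt_succ_self _) hp hq

omit [DecidableEq V] in
theorem lab_max (P : Finset V → Prop) (h0 : P ∅) :
    ∃ S, P S ∧ ∀ T, P T → S ⊆ T → T ⊆ S := by
  classical
  obtain ⟨S, hS, hmax⟩ := Finset.exists_max_image (Finset.univ.filter P) Finset.card
    ⟨∅, by simp [h0]⟩
  refine ⟨S, (Finset.mem_filter.1 hS).2, fun T hT hST => ?_⟩
  have := Finset.eq_of_subset_of_card_le hST (hmax T (by simp [hT]))
  exact this ▸ Finset.Subset.refl _

theorem lab_deg3 {v a b c : V} (ha : G.Adj v a) (hb : G.Adj v b) (hc : G.Adj v c)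
    (hab : a ≠ b) (hac : a ≠ c) (hbc : b ≠ c) : 3 ≤ G.degree v := by
  have h : ({a, b, c} : Finset V) ⊆ G.neighborFinset v := by
    intro x hx
    simp only [Finset.mem_insert, Finset.mem_singleton] at hx
    rw [SimpleGraph.mem_neighborFinset]
    rcases hx with rfl | rfl | rfl <;> assumption
  have h2 := Finset.card_le_card h
  rw [Finset.card_eq_three.2 ⟨a, b, c, hab, hac, hbc, rfl⟩] at h2
  exact h2

theorem lab_deg4 {v a b c d : V} (ha : G.Adj v a) (hb : G.Adj v b) (hc : G.Adj v c)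
    (hd : G.Adj v d) (hab : a ≠ b) (hac : a ≠ c) (hbc : b ≠ c) (had : a ≠ d) (hbd : b ≠ d)
    (hcd : c ≠ d) : 4 ≤ G.degree v := by
  have h : insert d ({a, b, c} : Finset V) ⊆ G.neighborFinset v := by
    intro x hx
    simp only [Finset.mem_insert, Finset.mem_singleton] at hx
    rw [SimpleGraph.mem_neighborFinset]
    rcases hx with rfl | rfl | rfl | rfl <;> assumption
  have h2 := Finset.card_le_card h
  rw [Finset.card_insert_of_notMem (by simp [had.symm, hbd.symm, hcd.symm]),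
    Finset.card_eq_three.2 ⟨a, b, c, hab, hac, hbc, rfl⟩] at h2
  exact h2

/-- The set of vertices of class zero. -/
theorem lab_U {M : V → V} (hM : Mat G M) :
    ∃ U : Finset V, (∀ v, G.degree v = 3 → M v = v → v ∈ U) ∧ (∀ v ∈ U, G.degree v = 3) ∧
      (∀ v ∈ U, M v ∈ U) ∧ (∀ v ∈ U, M v ≠ v → ∀ w, G.Adj v w → w ≠ M v → w ∉ U) ∧
      ∀ v, M v ≠ v → v ∉ U → ∃ w ∈ U, G.Adj v w ∨ G.Adj (M v) w := by
  obtain ⟨S, hS, hmax⟩ := lab_max (fun S : Finset V => ∀ v ∈ S, M v ≠ v ∧ M v ∈ S ∧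
    ∀ w, G.Adj v w → w ≠ M v → ¬ ((G.degree w = 3 ∧ M w = w) ∨ w ∈ S)) (by simp)
  have hmem : ∀ v, v ∈ (Finset.univ.filter fun v => G.degree v = 3 ∧ M v = v) ∪ S ↔
      (G.degree v = 3 ∧ M v = v) ∨ v ∈ S := fun v => by simp
  refine ⟨(Finset.univ.filter fun v => G.degree v = 3 ∧ M v = v) ∪ S, ?_, ?_, ?_, ?_, ?_⟩
  · intro v h1 h2
    exact (hmem v).2 (Or.inl ⟨h1, h2⟩)
  · intro v hv
    rcases (hmem v).1 hv with h | h
    · exact h.1
    · exact (hM.2 v (hS v h).1).2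
  · intro v hv
    rcases (hmem v).1 hv with h | h
    · rw [h.2]; exact hv
    · exact (hmem _).2 (Or.inr (hS v h).2.1)
  · intro v hv hMv w hw hw2 hwU
    rcases (hmem v).1 hv with h | h
    · exact hMv h.2
    · exact (hS v h).2.2 w hw hw2 ((hmem w).1 hwU)
  · intro v hMv hvU
    by_contra hno
    have hno' : ∀ w, (G.degree w = 3 ∧ M w = w) ∨ w ∈ S → ¬ G.Adj v w ∧ ¬ G.Adj (M v) w :=
      fun w hw => ⟨fun h => hno ⟨w, (hmem w).2 hw, Or.inl h⟩,
        fun h => hno ⟨w, (hmem w).2 hw, Or.inr h⟩⟩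
    have hT := hmax (insert v (insert (M v) S)) (fun x hx => by
      simp only [Finset.mem_insert] at hx ⊢
      rcases hx with rfl | rfl | hx
      · refine ⟨hMv, Or.inr (Or.inl rfl), fun w hw hw2 h => ?_⟩
        rcases h with h | rfl | rfl | h
        · exact (hno' w (Or.inl h)).1 hw
        · exact G.irrefl hw
        · exact hw2 rfl
        · exact (hno' w (Or.inr h)).1 hw
      · rw [hM.1 v]
        refine ⟨hMv.symm, Or.inl rfl, fun w hw hw2 h => ?_⟩
        rcases h with h | rfl | rfl | h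
        · exact (hno' w (Or.inl h)).2 hw
        · exact hw2 rfl
        · exact G.irrefl hw
        · exact (hno' w (Or.inr h)).2 hw
      · refine ⟨(hS x hx).1, Or.inr (Or.inr (hS x hx).2.1), fun w hw hw2 h => ?_⟩
        rcases h with h | rfl | rfl | h
        · exact (hS x hx).2.2 w hw hw2 (Or.inl h)
        · exact (hno' x (Or.inr hx)).1 hw.symm
        · exact (hno' x (Or.inr hx)).2 hw.symm
        · exact (hS x hx).2.2 w hw hw2 (Or.inr h))
      (fun x hx => Finset.mem_insert_of_mem (Finset.mem_insert_of_mem hx))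
    exact hvU ((hmem v).2 (Or.inr (hT (Finset.mem_insert_self _ _))))

/-- The set of vertices of class one. -/
theorem lab_W (U : Finset V) :
    ∃ W : Finset V, (∀ v ∈ W, ∀ w, G.Adj v w → w ∉ U ∧ w ∉ W) ∧
      ∀ v, v ∉ W → ∃ w, G.Adj v w ∧ (w ∈ U ∨ w ∈ W) := by
  obtain ⟨W, hW, hmax⟩ := lab_max (fun W : Finset V => ∀ v ∈ W, ∀ w, G.Adj v w → w ∉ U ∧ w ∉ W)
    (by simp)
  refine ⟨W, hW, fun v hv => ?_⟩
  by_contra hno
  have hno' : ∀ w, G.Adj v w → w ∉ U ∧ w ∉ W := fun w hw =>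
    ⟨fun h => hno ⟨w, hw, Or.inl h⟩, fun h => hno ⟨w, hw, Or.inr h⟩⟩
  have hT := hmax (insert v W) (fun x hx w hw => by
    simp only [Finset.mem_insert] at hx ⊢
    rcases hx with rfl | hx
    · refine ⟨(hno' w hw).1, ?_⟩
      rintro (rfl | h)
      · exact G.irrefl hw
      · exact (hno' w hw).2 h
    · refine ⟨(hW x hx w hw).1, ?_⟩
      rintro (rfl | h)
      · exact (hno' x hw.symm).2 hx
      · exact (hW x hx w hw).2 h) (Finset.subset_insert _ _)
  exact hv (hT (Finset.mem_insert_self _ _))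

theorem exists_cls (h3 : Sub3 G) {M : V → V} (hM : Mat G M) :
    ∃ cls : V → Fin 4, Cls G M cls ∧
      ∀ v, M v ≠ v → cls v = 0 ∨
        ∃ w, (G.Adj v w ∨ G.Adj (M v) w) ∧ 2 ≤ G.degree w ∧ cls w = 0 := by
  classical
  obtain ⟨U, hU1, hU2, hU3, hU4, hU5⟩ := lab_U hM
  obtain ⟨W, hW1, hW2⟩ := lab_W (G := G) U
  obtain ⟨B, hB⟩ : ∃ B : Finset V, ∀ v, v ∈ B ↔ v ∉ U ∧ v ∉ W :=
    ⟨Finset.univ.filter fun v => v ∉ U ∧ v ∉ W, fun v => by simp⟩
  have hB1 : ∀ v ∈ B, ∃ w, G.Adj v w ∧ w ≠ M v ∧ w ∉ B := by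
    intro v hv
    obtain ⟨hvU, hvW⟩ := (hB v).1 hv
    obtain ⟨w, hw, hw2⟩ := hW2 v hvW
    have hwB : w ∉ B := fun h => by
      rcases hw2 with h' | h'
      · exact ((hB w).1 h).1 h'
      · exact ((hB w).1 h).2 h'
    by_cases hwM : w = M v
    · have hMv : M v ≠ v := fun h => G.irrefl (by rw [hwM, h] at hw; exact hw)
      have hMU : M v ∉ U := fun h => hvU (by have := hU3 _ h; rwa [hM.1 v] at this)
      obtain ⟨x, hxU, hx⟩ := hU5 v hMv hvU
      rcases hx with hx | hx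
      · exact ⟨x, hx, fun h => hMU (h ▸ hxU), fun h => ((hB x).1 h).1 hxU⟩
      · rcases hw2 with h' | h'
        · exact absurd (hwM ▸ h') hMU
        · exact absurd hxU (hW1 (M v) (hwM ▸ h') x hx).1
    · exact ⟨w, hw, hwM, hwB⟩
  have hB2 : ∀ v ∈ B, ∀ x y, x ∈ B → G.Adj v x → x ≠ M v → y ∈ B → G.Adj v y → y ≠ M v →
      x = y := by
    intro v hv x y hx hvx hxM hy hvy hyM
    by_contra hxy
    obtain ⟨w, hw, hwM, hwB⟩ := hB1 v hv
    have hxw : x ≠ w := fun h => hwB (h ▸ hx)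
    have hyw : y ≠ w := fun h => hwB (h ▸ hy)
    by_cases hMv : M v = v
    · have h1 := lab_deg3 hvx hvy hw hxy hxw hyw
      exact ((hB v).1 hv).1 (hU1 v (le_antisymm (h3 v) h1) hMv)
    · have h1 := lab_deg4 hvx hvy hw (hM.2 v hMv).1 hxy hxw hyw hxM hyM hwM
      have := h3 v
      omega
  obtain ⟨q, hq1, hq2⟩ : ∃ q : V → V, (∀ v ∈ B, ∀ x, x ∈ B → G.Adj v x → x ≠ M v → q v = x) ∧
      ∀ v, q v = v ∨ (q v ∈ B ∧ G.Adj v (q v) ∧ q v ≠ M v) := by
    refine ⟨fun v => if h : ∃ x, x ∈ B ∧ G.Adj v x ∧ x ≠ M v then h.choose else v, ?_, ?_⟩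
    · intro v hv x hx hvx hxM
      have h : ∃ x, x ∈ B ∧ G.Adj v x ∧ x ≠ M v := ⟨x, hx, hvx, hxM⟩
      simp only [dif_pos h]
      exact hB2 v hv _ x h.choose_spec.1 h.choose_spec.2.1 h.choose_spec.2.2 hx hvx hxM
    · intro v
      by_cases h : ∃ x, x ∈ B ∧ G.Adj v x ∧ x ≠ M v
      · simp only [dif_pos h]
        exact Or.inr h.choose_spec
      · simp only [dif_neg h]
        exact Or.inl trivial
  obtain ⟨f, hf⟩ := two_matchings B (fun v => if M v ∈ B then M v else v) q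
    (fun v hv => by
      by_cases h : M v ∈ B
      · simp only [if_pos h, hM.1 v, if_pos hv]
        exact ⟨h, trivial⟩
      · simp only [if_neg h]
        exact ⟨hv, trivial⟩)
    (fun v hv => by
      rcases hq2 v with h | ⟨h1, h2, h4⟩
      · rw [h, h]; exact ⟨hv, rfl⟩
      · exact ⟨h1, hq1 _ h1 v hv h2.symm (fun h => h4 (by rw [h, hM.1, ← h]))⟩)
  have hfB : ∀ u ∈ B, ∀ w ∈ B, G.Adj u w → f w ≠ f u := by
    intro u hu w hw huw
    by_cases h : w = M u
    · have h1 := (hf u hu).1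
      simp only [← h, if_pos hw] at h1
      exact h1 huw.ne.symm
    · have h1 := (hf u hu).2
      rw [hq1 u hu w hw huw h] at h1
      exact h1 huw.ne.symm
  obtain ⟨cls, hc0, hc1, hc2⟩ : ∃ cls : V → Fin 4, (∀ v, cls v = 0 ↔ v ∈ U) ∧
      (∀ v, cls v = 1 ↔ v ∉ U ∧ v ∈ W) ∧ ∀ u ∈ B, ∀ w ∈ B, cls u = cls w → f w = f u := by
    refine ⟨fun v => if v ∈ U then 0 else if v ∈ W then 1 else if f v then 2 else 3, ?_, ?_, ?_⟩
    · intro v
      by_cases h1 : v ∈ U <;> by_cases h2 : v ∈ W <;> cases h4 : f v <;> simp [h1, h2, h4]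
    · intro v
      by_cases h1 : v ∈ U <;> by_cases h2 : v ∈ W <;> cases h4 : f v <;> simp [h1, h2, h4]
    · intro u hu w hw
      simp only [if_neg ((hB u).1 hu).1, if_neg ((hB u).1 hu).2, if_neg ((hB w).1 hw).1,
        if_neg ((hB w).1 hw).2]
      cases f u <;> cases f w <;> simp
  refine ⟨cls, ⟨?_, ?_, ?_, ?_, ?_, ?_⟩, ?_⟩
  · intro v h1 h2
    exact (hc0 v).2 (hU1 v h1 h2)
  · intro v _ h
    exact hU2 v ((hc0 v).1 h)
  · intro v _ h
    exact (hc0 _).2 (hU3 v ((hc0 v).1 h))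
  · intro v w hMv h hvw hw _ h'
    exact hU4 v ((hc0 v).1 h) hMv w hvw hw ((hc0 w).1 h')
  · intro u w huw _ _ h
    by_contra h0
    have huU : u ∉ U := fun h' => h0 ((hc0 u).2 h')
    have hwU : w ∉ U := fun h' => h0 (h ▸ (hc0 w).2 h')
    by_cases huW : u ∈ W
    · have h1 := (hc1 u).2 ⟨huU, huW⟩
      exact (hW1 u huW w huw).2 ((hc1 w).1 (h ▸ h1)).2
    · have hwW : w ∉ W := fun h' => huW ((hc1 u).1 (h ▸ (hc1 w).2 ⟨hwU, h'⟩)).2
      have hu := (hB u).2 ⟨huU, huW⟩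
      have hw := (hB w).2 ⟨hwU, hwW⟩
      exact hfB u hu w hw huw (hc2 u hu w hw h)
  · intro u w huw _ _ h h'
    exact (hW1 w ((hc1 w).1 h').2 u huw.symm).1 ((hc0 u).1 h)
  · intro v hMv
    by_cases h : v ∈ U
    · exact Or.inl ((hc0 v).2 h)
    · obtain ⟨w, hw, hw2⟩ := hU5 v hMv h
      exact Or.inr ⟨w, hw2, by rw [hU2 w hw]; omega, (hc0 w).2 hw⟩

theorem lab_AB : kA ≠ 0 ∧ kB ≠ 0 ∧ kA ≠ kB := by decide

theorem lab_third : ∀ a b : K, ∃ t : K, t ≠ 0 ∧ t ≠ a ∧ t ≠ b := by decide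

theorem exists_goodL {M : V → V} (hM : Mat G M) {cls : V → Fin 4} (hc : Cls G M cls) :
    ∃ l, GoodL G M cls l := by
  obtain ⟨e, he⟩ : ∃ e : V → ℕ, Function.Injective e :=
    ⟨fun v => (Fintype.equivFin V v : ℕ), fun a b h => (Fintype.equivFin V).injective (Fin.ext h)⟩
  refine ⟨fun v => if cls v = 0 then (if e v < e (M v) then kA else kB) else lbl G cls v, ?_, ?_⟩
  · intro v _ h
    simp only [if_neg h]
  · intro v hv h
    have h1 : e (M v) ≠ e v := fun h' => hv (he h')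
    simp only [if_pos h, if_pos (hc.par v hv h), hM.1 v]
    by_cases h2 : e v < e (M v)
    · rw [if_pos h2, if_neg (by omega)]
      exact ⟨lab_AB.1, lab_AB.2.2⟩
    · rw [if_neg h2, if_pos (by omega)]
      exact ⟨lab_AB.2.1, lab_AB.2.2.symm⟩

/-- Changing the label at one end of a special pair. -/
theorem goodL_change {M : V → V} (hM : Mat G M) {cls : V → Fin 4} (hc : Cls G M cls)
    {l : V → K} (hl : GoodL G M cls l) {v : V} (hv : M v ≠ v) (h0 : cls v = 0) :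
    ∃ l2, GoodL G M cls l2 ∧ l2 v ≠ l v ∧ ∀ w, w ≠ v → l2 w = l w := by
  obtain ⟨t, ht0, ht1, ht2⟩ := lab_third (l v) (l (M v))
  refine ⟨fun w => if w = v then t else l w, ⟨?_, ?_⟩, ?_, ?_⟩
  · intro w h1 h2
    have : w ≠ v := fun h => h2 (h ▸ h0)
    simp only [if_neg this]
    exact hl.1 w h1 h2
  · intro w h1 h2
    by_cases hw : w = v
    · subst hw
      simp only [if_true, if_neg hv]
      exact ⟨ht0, ht2⟩
    · simp only [if_neg hw]
      refine ⟨(hl.2 w h1 h2).1, ?_⟩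
      by_cases hw2 : M w = v
      · have : w = M v := by rw [← hw2, hM.1]
        rw [if_pos hw2, this]
        exact ht2.symm
      · rw [if_neg hw2]
        exact (hl.2 w h1 h2).2
  · simp only [if_true]
    exact ht1
  · intro w hw
    simp only [if_neg hw]

theorem cls_E2 {M : V → V} (hM : Mat G M) {cls : V → Fin 4} (hc : Cls G M cls) {l : V → K}
    (hl : GoodL G M cls l) {u c : V} (huc : G.Adj u c) (hu : G.degree u = 3 ∧ M u = u)
    (hcc : G.degree c = 3 ∧ M c = c)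
    (h1 : ∀ w, G.Adj u w → w ≠ c → ¬ (G.degree w = 3 ∧ M w = w))
    (h2 : ∀ w, G.Adj c w → G.degree w = 3 ∧ M w = w) :
    ∃ cls2 l2, Cls G (mAdd M u c) cls2 ∧ GoodL G (mAdd M u c) cls2 l2 ∧ l2 u = kB ∧ l2 c = kA ∧
      ∀ w, w ≠ u → w ≠ c → l2 w = l w := by
  have hcu : c ≠ u := huc.ne.symm
  obtain ⟨cls2, cu, cc, co⟩ : ∃ cls2 : V → Fin 4, cls2 u = 1 ∧ cls2 c = 2 ∧
      ∀ w, w ≠ u → w ≠ c → cls2 w = cls w :=
    ⟨fun w => if w = u then 1 else if w = c then 2 else cls w, by simp, by simp [hcu],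
      fun w a b => by simp [a, b]⟩
  obtain ⟨l2, lu, lc, lo⟩ : ∃ l2 : V → K, l2 u = kB ∧ l2 c = kA ∧
      ∀ w, w ≠ u → w ≠ c → l2 w = l w :=
    ⟨fun w => if w = u then kB else if w = c then kA else l w, by simp, by simp [hcu],
      fun w a b => by simp [a, b]⟩
  have mo : ∀ w, w ≠ u → w ≠ c → mAdd M u c w = M w := fun w a b => by simp [mAdd, a, b]
  have mu : mAdd M u c u = c := by simp [mAdd]
  have mc : mAdd M u c c = u := by simp [mAdd, hcu]
  have z : ∀ v, cls2 v = 0 → v ≠ u ∧ v ≠ c := fun v h =>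
    ⟨fun h' => by rw [h', cu] at h; exact absurd h (by decide),
      fun h' => by rw [h', cc] at h; exact absurd h (by decide)⟩
  have mm : ∀ v, v ≠ u → v ≠ c → M v ≠ u ∧ M v ≠ c := fun v a b =>
    ⟨fun h => a (by rw [← hM.1 v, h, hu.2]), fun h => b (by rw [← hM.1 v, h, hcc.2])⟩
  have cu0 := hc.act u hu.1 hu.2
  have key : ∀ x y, G.Adj x y → 2 ≤ G.degree y → x = u ∨ x = c → cls2 x ≠ cls2 y := by
    intro x y hxy hy hx h
    rcases hx with rfl | rfl
    · by_cases hyc : y = c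
      · rw [hyc, cu, cc] at h
        exact absurd h (by decide)
      · rw [cu, co y hxy.ne.symm hyc] at h
        exact hc.red x y hxy (by omega) hy cu0 h.symm
    · by_cases hyu : y = u
      · rw [hyu, cu, cc] at h
        exact absurd h (by decide)
      · rw [cc, co y hyu hxy.ne.symm, hc.act y (h2 y hxy).1 (h2 y hxy).2] at h
        exact absurd h (by decide)
  refine ⟨cls2, l2, ⟨?_, ?_, ?_, ?_, ?_, ?_⟩, ⟨?_, ?_⟩, lu, lc, lo⟩
  · intro v hd hv
    have a : v ≠ u := fun h => hcu (by rw [h, mu] at hv; exact hv)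
    have b : v ≠ c := fun h => hcu (by rw [h, mc] at hv; exact hv.symm)
    rw [mo v a b] at hv
    rw [co v a b]
    exact hc.act v hd hv
  · intro v hd h
    obtain ⟨a, b⟩ := z v h
    exact hc.cub v hd (co v a b ▸ h)
  · intro v hv h
    obtain ⟨a, b⟩ := z v h
    rw [mo v a b] at hv ⊢
    rw [co _ (mm v a b).1 (mm v a b).2]
    exact hc.par v hv (co v a b ▸ h)
  · intro v w hv h hvw hw hd h'
    obtain ⟨a, b⟩ := z v h
    obtain ⟨a', b'⟩ := z w h'
    rw [mo v a b] at hv hw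
    exact hc.spec v w hv (co v a b ▸ h) hvw hw hd (co w a' b' ▸ h')
  · intro x y hxy hx hy h
    by_cases a : x = u ∨ x = c
    · exact absurd h (key x y hxy hy a)
    · by_cases b : y = u ∨ y = c
      · exact absurd h.symm (key y x hxy.symm hx b)
      · rw [not_or] at a b
        rw [co x a.1 a.2] at h ⊢
        rw [co y b.1 b.2] at h
        exact hc.ind x y hxy hx hy h
  · intro x y hxy hx hy h h'
    obtain ⟨a, b⟩ := z x h
    rw [co x a b] at h
    by_cases hyu : y = u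
    · subst hyu
      have hMx : M x ≠ x := fun e => h1 x hxy.symm b ⟨hc.cub x hx h, e⟩
      exact hc.spec x y hMx h hxy (mm x a b).1.symm hy cu0
    · by_cases hyc : y = c
      · rw [hyc, cc] at h'
        exact absurd h' (by decide)
      · rw [co y hyu hyc] at h'
        exact hc.red x y hxy hx hy h h'
  · intro v hd h
    by_cases a : v = u
    · rw [a, lu, lbl, if_pos cu]
    · by_cases b : v = c
      · rw [b, lc, lbl, if_neg (by rw [cc]; decide), if_pos ⟨fun _ => hcc.1, fun _ => cc⟩]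
      · rw [co v a b] at h
        rw [lo v a b, hl.1 v hd h, lbl, lbl, co v a b]
  · intro v hv h
    obtain ⟨a, b⟩ := z v h
    rw [mo v a b] at hv ⊢
    rw [lo v a b, lo _ (mm v a b).1 (mm v a b).2]
    exact hl.2 v hv (co v a b ▸ h)

end Pool.Agent.P.MP_0ad50f_co.SC
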