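import Pool.Agent.P.MP_0ad50f_co.SC.Add

namespace Pool.Agent.P.MP_0ad50f_co.SC

variable {V : Type} [DecidableEq V]

namespace Inst

theorem mi_cut_th (I : Inst V) {a d : Dart V} (h1 : d ≠ a) (h2 : d ≠ I.th a) :
    (I.cut a).th d = I.th d := by
  simp [cut, h1, h2]

theorem mi_cut_kind (I : Inst V) {a d : Dart V} (h1 : d ≠ a) (h2 : d ≠ I.th a) :
    (I.cut a).kind d = I.kind d := by
  simp [cut, h1, h2]

theorem mi_nf {I : Inst V} (h : I.WF) {d : Dart V} (hd : d.1 ∈ I.A) (hne : (I.th d).1 ≠ d.1) :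
    I.kind d ≠ .F := by
  intro hk
  exact hne (by rw [(h.free d hd).1 hk])

theorem mi_RZ {I : Inst V} (hN : I.NoK .N) {d : Dart V} (hd : d.1 ∈ I.A)
    (hF : I.kind d ≠ .F) : I.kind d = .R ∨ I.kind d = .Z := by
  have := hN d hd
  revert this hF
  cases I.kind d <;> simp

/-- Where a loop of the added instance comes from. -/
theorem mi_loop {I : Inst V} (h : I.WF) (hl : I.NoLoop) {a b c b' c' : Dart V}
    (ha : a.1 ∈ I.A) (hne : (I.th a).1 ≠ a.1) (h3 : Three a b c) (h3' : Three (I.th a) b' c')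
    (hL : ¬ (I.add a b c b' c' 0 0).NoLoop) :
    ((I.th b).1 = (I.th c).1 ∧ (I.th b).1 ≠ a.1 ∧ (I.th b).1 ≠ (I.th a).1) ∨
    ((((I.cut a).supp b c 0).th b').1 = (((I.cut a).supp b c 0).th c').1 ∧
      (((I.cut a).supp b c 0).th b').1 ≠ (I.th a).1) := by
  obtain ⟨hb1, hc1, hab, hac, hbc⟩ := h3
  have h3 : Three a b c := ⟨hb1, hc1, hab, hac, hbc⟩
  have hva : (I.th a).1 ∈ I.A := h.mem a ha
  have h0 : (I.cut a).WF := wf_cut h ha
  have ha0 : a.1 ∈ (I.cut a).A := ha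
  have hF0 : (I.cut a).kind a = .F := by simp [cut]
  have h1 : ((I.cut a).supp b c 0).WF := wf_supp h0 ha0 h3 hF0 0
  have hA1 : ((I.cut a).supp b c 0).A = I.A \ {b.1} := supp_A _ _ _ _
  have hva1 : (I.th a).1 ∈ ((I.cut a).supp b c 0).A := by
    rw [hA1, Finset.mem_sdiff, Finset.mem_singleton, hb1]
    exact ⟨hva, hne⟩
  have hthth : (I.cut a).th (I.th a) = I.th a := by simp [cut]
  have hF1 : ((I.cut a).supp b c 0).kind (I.th a) = .F := by
    rw [(supp_far h0 ha0 h3 0 (d := I.th a) hva hne (by rw [hthth]; exact hne)).2.1]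
    simp [cut]
  have hbth : b ≠ I.th a := fun e => hne (by rw [← e, hb1])
  have hcth : c ≠ I.th a := fun e => hne (by rw [← e, hc1])
  have hb0 : (I.cut a).th b = I.th b := mi_cut_th I hab.symm hbth
  have hc0 : (I.cut a).th c = I.th c := mi_cut_th I hac.symm hcth
  unfold NoLoop at hL
  push Not at hL
  obtain ⟨d, hdA, hdk, hdl⟩ := hL
  have hdA' : d.1 ∈ I.A \ {a.1, (I.th a).1} := by
    rw [← add_A h3 h3' 0 0]; exact hdA
  rw [Finset.mem_sdiff, Finset.mem_insert, Finset.mem_singleton] at hdA'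
  obtain ⟨hdI, hdn⟩ := hdA'
  have hdu : d.1 ≠ a.1 := fun e => hdn (Or.inl e)
  have hdv : d.1 ≠ (I.th a).1 := fun e => hdn (Or.inr e)
  have hd1 : d.1 ∈ ((I.cut a).supp b c 0).A := by
    rw [hA1, Finset.mem_sdiff, Finset.mem_singleton, hb1]
    exact ⟨hdI, hdu⟩
  have hda : d ≠ a := fun e => hdu (by rw [e])
  have hdta : d ≠ I.th a := fun e => hdv (by rw [e])
  unfold add at hdk hdl
  by_cases hv : (((I.cut a).supp b c 0).th d).1 = (I.th a).1
  · right
    rcases supp_near h1 hva1 h3' hF1 0 hd1 hdv hv with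
      ⟨_, _, hk, _⟩ | ⟨_, _, hk, _⟩ | ⟨e, _, _, ht, _⟩ | ⟨e, _, _, ht, _⟩
    · exact absurd hk hdk
    · exact absurd hk hdk
    · rw [ht] at hdl
      rw [← e, hdl]
      exact ⟨rfl, hdv⟩
    · rw [ht] at hdl
      rw [← e, hdl]
      exact ⟨rfl, hdv⟩
  · left
    obtain ⟨e1, e2, _⟩ := supp_far h1 hva1 h3' 0 hd1 hdv hv
    rw [e1] at hdl
    rw [e2] at hdk
    by_cases hu : ((I.cut a).th d).1 = a.1
    · rcases supp_near h0 ha0 h3 hF0 0 (d := d) hdI hdu hu with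
        ⟨_, _, hk, _⟩ | ⟨_, _, hk, _⟩ | ⟨e, _, _, ht, _⟩ | ⟨e, _, _, ht, _⟩
      · exact absurd hk hdk
      · exact absurd hk hdk
      · rw [ht, hc0] at hdl
        rw [hb0] at e
        rw [← e, hdl]
        exact ⟨rfl, hdu, hdv⟩
      · rw [ht, hb0] at hdl
        rw [hc0] at e
        rw [← e, hdl]
        exact ⟨rfl, hdu, hdv⟩
    · obtain ⟨f1, f2, _⟩ := supp_far h0 ha0 h3 0 (d := d) hdI hdu hu
      rw [f1, mi_cut_th I hda hdta] at hdl
      rw [f2, mi_cut_kind I hda hdta] at hdk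
      exact absurd hdl (hl d hdI hdk)

/-- A dart at the far end of `a` that does not point back is unchanged by the first step. -/
theorem mi_far {I : Inst V} (h : I.WF) {a b c d : Dart V}
    (ha : a.1 ∈ I.A) (hne : (I.th a).1 ≠ a.1) (h3 : Three a b c) (hd : d.1 = (I.th a).1)
    (hdt : d ≠ I.th a) (hb : I.th b ≠ d) (hc : I.th c ≠ d) :
    ((I.cut a).supp b c 0).th d = I.th d := by
  have hva : (I.th a).1 ∈ I.A := h.mem a ha
  have hdA : d.1 ∈ I.A := hd ▸ hva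
  have hdu : d.1 ≠ a.1 := hd ▸ hne
  have hda : d ≠ a := fun e => hdu (by rw [e])
  have e0 : (I.cut a).th d = I.th d := mi_cut_th I hda hdt
  have hu : ((I.cut a).th d).1 ≠ a.1 := by
    rw [e0]
    intro hu
    rcases h3.cases _ hu with e | e | e
    · exact hdt (by rw [← e, h.inv d hdA])
    · exact hb (by rw [← e, h.inv d hdA])
    · exact hc (by rw [← e, h.inv d hdA])
  rw [(supp_far (wf_cut h ha) (I := I.cut a) ha h3 0 (d := d) hdA hdu hu).1, e0]

/-- A short edge that is no bridge, with exactly one parallel edge, is the short side of a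
gadget. -/
theorem mi_one {I : Inst V} (h : I.WF) (hN : I.NoK .N) (hl : I.NoLoop)
    (hpar : ∀ a b : Dart V, a.1 ∈ I.A → b.1 = a.1 → I.kind a = .Z → I.kind b = .Z →
      (I.th a).1 = (I.th b).1 → a = b)
    (hmax : ∀ a b c b' c', ¬ I.Addable a b c b' c') {a b c : Dart V} (ha : a.1 ∈ I.A)
    (hk : I.kind a = .Z) (hbr : ¬ I.Bridge a) (h3 : Three a b c)
    (hb : (I.th b).1 = (I.th a).1) (hc : (I.th c).1 ≠ (I.th a).1) :
    ∃ e, I.Gad c a b e := by
  obtain ⟨hb1, hc1, hab, hac, hbc⟩ := h3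
  have h3 : Three a b c := ⟨hb1, hc1, hab, hac, hbc⟩
  have hbA : b.1 ∈ I.A := hb1 ▸ ha
  have hcA : c.1 ∈ I.A := hc1 ▸ ha
  have hva : (I.th a).1 ∈ I.A := h.mem a ha
  have hne : (I.th a).1 ≠ a.1 := hl a ha (by rw [hk]; decide)
  have htab : I.th a ≠ I.th b := fun e => hab (h.th_inj ha hbA e)
  obtain ⟨e, he⟩ := Three.third hb.symm htab
  have h3' : Three (I.th a) (I.th b) e := he.rot.swap
  have he1 : e.1 = (I.th a).1 := h3'.2.1
  have heA : e.1 ∈ I.A := he1 ▸ hva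
  have hbF : I.kind b ≠ .F := mi_nf h hbA (by rw [hb, hb1]; exact hne)
  have hbR : I.kind b = .R := by
    rcases mi_RZ hN hbA hbF with hh | hh
    · exact hh
    · exact absurd (hpar a b ha hb1 hk hh hb.symm) hab
  have hL : ¬ (I.add a b c (I.th b) e 0 0).NoLoop := fun hL =>
    hmax a b c (I.th b) e ⟨ha, hk, h3, h3', hbr, fun hh => hc hh.2, hL⟩
  have hce : I.th c ≠ e := fun hh => hc (by rw [hh, he1])
  have hfe : ((I.cut a).supp b c 0).th e = I.th e :=
    mi_far h ha hne h3 he1 h3'.2.2.2.1.symm h3'.2.2.2.2 hce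
  rcases mi_loop h hl ha hne h3 h3' hL with ⟨_, _, hh⟩ | ⟨e1, e2⟩
  · exact absurd hb hh
  have hbth : b ≠ I.th a := fun e => hne (by rw [← e, hb1])
  have hcth : c ≠ I.th a := fun e => hne (by rw [← e, hc1])
  have hb0 : (I.cut a).th b = I.th b := mi_cut_th I hab.symm hbth
  have hc0 : (I.cut a).th c = I.th c := mi_cut_th I hac.symm hcth
  have htbu : (I.th b).1 ≠ a.1 := by rw [hb]; exact hne
  have htb0 : (I.cut a).th (I.th b) = b := by
    rw [mi_cut_th I (fun e => htbu (by rw [e])) htab.symm, h.inv b hbA]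
  have hF0 : (I.cut a).kind a = .F := by simp [cut]
  have htbc : I.th b ≠ I.th c := fun e => hbc (h.th_inj hbA hcA e)
  rcases supp_near (wf_cut h ha) (I := I.cut a) ha h3 hF0 0 (d := I.th b) (h.mem b hbA) htbu
      (by rw [htb0, hb1]) with
    ⟨_, _, _, ht⟩ | ⟨ht, _, _, _⟩ | ⟨_, hkc, _, ht, _⟩ | ⟨ht, _, _, _, _⟩
  · rw [ht] at e2
    exact absurd hb e2
  · rw [hc0] at ht
    exact absurd ht htbc
  · rw [ht, hc0, hfe] at e1
    rw [mi_cut_kind I hac.symm hcth] at hkc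
    refine ⟨e, hcA, h3.swap.rot, hk, hbR, ?_, he, mi_RZ hN hcA hkc, ?_, e1, hce⟩
    · rw [he1, hc1]; exact hne
    · refine mi_RZ hN heA (mi_nf h heA ?_)
      rw [← e1, he1]; exact hc
  · rw [hc0] at ht
    exact absurd ht htbc

/-- The two other darts at a short dart lead to one third vertex. -/
theorem mi_side {I : Inst V} (h : I.WF) (hN : I.NoK .N) (hl : I.NoLoop)
    (hpar : ∀ a b : Dart V, a.1 ∈ I.A → b.1 = a.1 → I.kind a = .Z → I.kind b = .Z →
      (I.th a).1 = (I.th b).1 → a = b)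
    (hmax : ∀ a b c b' c', ¬ I.Addable a b c b' c') {a b c : Dart V} (ha : a.1 ∈ I.A)
    (h3 : Three a b c) (hbc' : (I.th b).1 = (I.th c).1) (hu : (I.th b).1 ≠ a.1)
    (hv : (I.th b).1 ≠ (I.th a).1) :
    (∃ b c e, I.Dig a b c e) ∨ ∃ b c e, I.Gad a b c e := by
  obtain ⟨hb1, hc1, hab, hac, hbc⟩ := h3
  have h3 : Three a b c := ⟨hb1, hc1, hab, hac, hbc⟩
  have hbA : b.1 ∈ I.A := hb1 ▸ ha
  have hcA : c.1 ∈ I.A := hc1 ▸ ha
  have hbF : I.kind b ≠ .F := mi_nf h hbA (by rw [hb1]; exact hu)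
  have hcF : I.kind c ≠ .F := mi_nf h hcA (by rw [hc1, ← hbc']; exact hu)
  have htbc : I.th b ≠ I.th c := fun e => hbc (h.th_inj hbA hcA e)
  rcases mi_RZ hN hbA hbF with kb | kb <;> rcases mi_RZ hN hcA hcF with kc | kc
  · obtain ⟨e, he⟩ := Three.third hbc' htbc
    left
    refine ⟨b, c, e, ha, h3, kb, kc, ?_, he⟩
    rw [← he.1]; exact hu
  · right
    have hbr : ¬ I.Bridge c :=
      not_bridge_par hcA (by rw [hb1, hc1]) hbc (Or.inl kb) hbc'
    obtain ⟨e, he⟩ := mi_one h hN hl hpar hmax hcA kc hbr h3.swap.rot.swap hbc'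
      (by rw [← hbc']; exact hv.symm)
    exact ⟨c, b, e, he⟩
  · right
    have hbr : ¬ I.Bridge b :=
      not_bridge_par hbA (by rw [hb1, hc1]) hbc.symm (Or.inl kc) hbc'.symm
    obtain ⟨e, he⟩ := mi_one h hN hl hpar hmax hbA kb hbr h3.rot.swap hbc'.symm hv.symm
    exact ⟨b, c, e, he⟩
  · exact absurd (hpar b c hbA (by rw [hb1, hc1]) kb kc hbc') hbc

/-- Structure of a loopless instance in which no short edge is addable. -/
theorem inv_of_max {I : Inst V} (h : I.WF) (hN : I.NoK .N) (hl : I.NoLoop)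
    (hpar : ∀ a b : Dart V, a.1 ∈ I.A → b.1 = a.1 → I.kind a = .Z → I.kind b = .Z →
      (I.th a).1 = (I.th b).1 → a = b)
    (hmax : ∀ a b c b' c', ¬ I.Addable a b c b' c') : I.Inv := by
  intro a ha hk
  by_cases hbr : I.Bridge a
  · exact Or.inl hbr
  right
  obtain ⟨b, c, h3⟩ := three_exists a
  obtain ⟨hb1, hc1, hab, hac, hbc⟩ := h3
  have h3 : Three a b c := ⟨hb1, hc1, hab, hac, hbc⟩
  have hbA : b.1 ∈ I.A := hb1 ▸ ha
  have hcA : c.1 ∈ I.A := hc1 ▸ ha
  have hva : (I.th a).1 ∈ I.A := h.mem a ha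
  have hne : (I.th a).1 ≠ a.1 := hl a ha (by rw [hk]; decide)
  by_cases hb : (I.th b).1 = (I.th a).1 <;> by_cases hc : (I.th c).1 = (I.th a).1
  · left
    have hbR : I.kind b = .R := by
      rcases mi_RZ hN hbA (mi_nf h hbA (by rw [hb, hb1]; exact hne)) with hh | hh
      · exact hh
      · exact absurd (hpar a b ha hb1 hk hh hb.symm) hab
    have hcR : I.kind c = .R := by
      rcases mi_RZ hN hcA (mi_nf h hcA (by rw [hc, hc1]; exact hne)) with hh | hh
      · exact hh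
      · exact absurd (hpar a c ha hc1 hk hh hc.symm) hac
    exact ⟨b, c, I.th a, ha, h3, hbR, hcR, hne, hb, hc, fun e => hab (h.th_inj ha hbA e),
      fun e => hac (h.th_inj ha hcA e), fun e => hbc (h.th_inj hbA hcA e)⟩
  · obtain ⟨e, he⟩ := mi_one h hN hl hpar hmax ha hk hbr h3 hb hc
    exact Or.inr (Or.inr ⟨c, a, b, e, he, Or.inl hc1.symm⟩)
  · obtain ⟨e, he⟩ := mi_one h hN hl hpar hmax ha hk hbr h3.swap hc hb
    exact Or.inr (Or.inr ⟨b, a, c, e, he, Or.inl hb1.symm⟩)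
  · obtain ⟨b', c', h3'⟩ := three_exists (I.th a)
    have hL : ¬ (I.add a b c b' c' 0 0).NoLoop := fun hL =>
      hmax a b c b' c' ⟨ha, hk, h3, h3', hbr, fun hh => hc hh.2, hL⟩
    rcases mi_loop h hl ha hne h3 h3' hL with ⟨e1, e2, e3⟩ | ⟨e1, e2⟩
    · rcases mi_side h hN hl hpar hmax ha h3 e1 e2 e3 with hh | ⟨b0, c0, e, he⟩
      · exact Or.inl hh
      · exact Or.inr (Or.inr ⟨a, b0, c0, e, he, Or.inl rfl⟩)
    · have fb : ((I.cut a).supp b c 0).th b' = I.th b' :=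
        mi_far h ha hne h3 h3'.1 h3'.2.2.1.symm (fun e => hb (by rw [e, h3'.1]))
          (fun e => hc (by rw [e, h3'.1]))
      have fc : ((I.cut a).supp b c 0).th c' = I.th c' :=
        mi_far h ha hne h3 h3'.2.1 h3'.2.2.2.1.symm (fun e => hb (by rw [e, h3'.2.1]))
          (fun e => hc (by rw [e, h3'.2.1]))
      rw [fb, fc] at e1
      rw [fb] at e2
      have hb'A : b'.1 ∈ I.A := h3'.1 ▸ hva
      have e3 : (I.th b').1 ≠ (I.th (I.th a)).1 := by
        rw [h.inv a ha]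
        intro hu
        rcases h3.cases _ hu with e | e | e
        · exact h3'.2.2.1 (by rw [← e, h.inv b' hb'A])
        · exact hb (by rw [← e, h.inv b' hb'A, h3'.1])
        · exact hc (by rw [← e, h.inv b' hb'A, h3'.1])
      rcases mi_side h hN hl hpar hmax hva h3' e1 e2 e3 with hh | ⟨b0, c0, e, he⟩
      · exact Or.inr (Or.inl hh)
      · exact Or.inr (Or.inr ⟨I.th a, b0, c0, e, he, Or.inr (Or.inr (Or.inl rfl))⟩)

end Inst

end Pool.Agent.P.MP_0ad50f_co.SC
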