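import Pool.Agent.P.MP_0ad50f_co.SC.Add

namespace Pool.Agent.P.MP_0ad50f_co.SC

variable {V : Type} [DecidableEq V] [Fintype V] {G : SimpleGraph V} [DecidableRel G.Adj]

omit [Fintype V] in
theorem step_l (M : V → V) (u z : V) : mAdd M u z u = z := if_pos rfl

omit [Fintype V] in
theorem step_r (M : V → V) {u z : V} (h : z ≠ u) : mAdd M u z z = u :=
  (if_neg h).trans (if_pos rfl)

omit [Fintype V] in
theorem step_o (M : V → V) {u z w : V} (h1 : w ≠ u) (h2 : w ≠ z) : mAdd M u z w = M w :=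
  (if_neg h1).trans (if_neg h2)

theorem step_adj {nb : V → Fin 3 → V} (hnb : IsNb G nb) {I : Inst V} {M : V → V}
    (h0 : St0 G nb I M) {a : Dart V} (ha : a.1 ∈ I.A) (hk : I.kind a = .Z) :
    G.Adj a.1 (I.th a).1 :=
  ((hnb _ ((h0.act _).1 ha).1).2 _).2 ⟨a.2, (h0.thz a ha hk).1.symm⟩

omit [DecidableEq V] [Fintype V] in
theorem step_ne {a b : Dart V} (h : b.1 = a.1) (hne : a ≠ b) : a.2 ≠ b.2 :=
  fun e => hne (Prod.ext h.symm e)

theorem step_sum {nb : V → Fin 3 → V} (hnb : IsNb G nb) {a b c : Dart V} (h3 : Three a b c)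
    (hd : G.degree a.1 = 3) (f : V → K) :
    ∑ w ∈ (G.neighborFinset a.1).erase (nb a.1 a.2), f w = f (nb b.1 b.2) + f (nb c.1 c.2) := by
  obtain ⟨h1, h2⟩ := hnb _ hd
  have hab := h1.ne (step_ne h3.1 h3.2.2.1)
  have hac := h1.ne (step_ne h3.2.1 h3.2.2.2.1)
  have hbc := h1.ne (step_ne (h3.2.1.trans h3.1.symm) h3.2.2.2.2)
  rw [h3.1, h3.2.1, ← Finset.sum_pair hbc]
  refine Finset.sum_congr (Finset.ext fun w => ?_) fun _ _ => rfl
  rw [Finset.mem_erase, SimpleGraph.mem_neighborFinset, h2, Finset.mem_insert,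
    Finset.mem_singleton]
  constructor
  · rintro ⟨h4, i, rfl⟩
    rcases h3.cases (a.1, i) rfl with e | e | e
    · exact absurd (congrArg (fun d : Dart V => nb a.1 d.2) e) h4
    · exact Or.inl (congrArg (fun d : Dart V => nb a.1 d.2) e)
    · exact Or.inr (congrArg (fun d : Dart V => nb a.1 d.2) e)
  · rintro (rfl | rfl)
    · exact ⟨hab.symm, _, rfl⟩
    · exact ⟨hac.symm, _, rfl⟩

theorem mat_add {nb : V → Fin 3 → V} (hnb : IsNb G nb) {I : Inst V} {M : V → V} (hM : Mat G M)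
    (h0 : St0 G nb I M) (h : I.WF) {a : Dart V} (ha : a.1 ∈ I.A) (hk : I.kind a = .Z) :
    G.Adj a.1 (I.th a).1 ∧ Mat G (mAdd M a.1 (I.th a).1) := by
  have hadj := step_adj hnb h0 ha hk
  obtain ⟨hu1, hu2⟩ := (h0.act _).1 ha
  obtain ⟨hz1, hz2⟩ := (h0.act _).1 (h.mem a ha)
  refine ⟨hadj, fun v => ?_, fun v hv => ?_⟩
  · by_cases h1 : v = a.1
    · rw [h1, step_l, step_r M hadj.ne']
    by_cases h2 : v = (I.th a).1
    · rw [h2, step_r M hadj.ne', step_l]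
    rw [step_o M h1 h2, step_o M, hM.1]
    · exact fun e => h1 (by rw [← hM.1 v, e, hu2])
    · exact fun e => h2 (by rw [← hM.1 v, e, hz2])
  · by_cases h1 : v = a.1
    · rw [h1, step_l]
      exact ⟨hadj, hu1⟩
    by_cases h2 : v = (I.th a).1
    · rw [h2, step_r M hadj.ne']
      exact ⟨hadj.symm, hz1⟩
    rw [step_o M h1 h2] at hv ⊢
    exact hM.2 v hv

theorem st0_add {nb : V → Fin 3 → V} (hnb : IsNb G nb) {I : Inst V} {M : V → V} (hM : Mat G M)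
    (h0 : St0 G nb I M) (h : I.WF) {a b c b' c' : Dart V} (ha : a.1 ∈ I.A) (hk : I.kind a = .Z)
    (h3 : Three a b c) (h3' : Three (I.th a) b' c') (l l' : K) :
    St0 G nb (I.add a b c b' c' l l') (mAdd M a.1 (I.th a).1) := by
  have _h := hM
  have hne := (step_adj hnb h0 ha hk).ne'
  have hA : ∀ v, v ∈ (I.add a b c b' c' l l').A ↔ v ∈ I.A ∧ v ≠ a.1 ∧ v ≠ (I.th a).1 := by
    intro v
    rw [Inst.add_A h3 h3']
    simp
  have key : ∀ d : Dart V, d.1 ∈ (I.add a b c b' c' l l').A →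
      (((I.th d).1 = a.1 ∨ (I.th d).1 = (I.th a).1) ∧ ((I.add a b c b' c' l l').kind d = .R ∨
        (I.add a b c b' c' l l').kind d = .F)) ∨
      ((I.th d).1 ≠ a.1 ∧ (I.th d).1 ≠ (I.th a).1 ∧ (I.add a b c b' c' l l').th d = I.th d ∧
        (I.add a b c b' c' l l').kind d = I.kind d) := by
    intro d hd
    obtain ⟨h1, h2, h4⟩ := (hA _).1 hd
    by_cases h5 : (I.th d).1 = a.1 ∨ (I.th d).1 = (I.th a).1
    · exact Or.inl ⟨h5, Inst.add_near h ha hne h3 h3' l l' h1 h2 h4 h5⟩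
    · obtain ⟨h6, h7⟩ := not_or.1 h5
      have := Inst.add_far h ha hne h3 h3' l l' h1 h2 h4 h6 h7
      exact Or.inr ⟨h6, h7, this.1, this.2.1⟩
  refine ⟨fun v => ?_, fun d hd => ?_, fun d hd hz => ?_, fun d hd hz => ?_⟩
  · rw [hA]
    by_cases h1 : v = a.1
    · rw [h1, step_l]
      exact ⟨fun e => absurd rfl e.2.1, fun e => absurd e.2 hne⟩
    by_cases h2 : v = (I.th a).1
    · rw [h2, step_r M hne]
      exact ⟨fun e => absurd rfl e.2.2, fun e => absurd e.2 hne.symm⟩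
    rw [step_o M h1 h2, ← h0.act]
    exact ⟨fun e => e.1, fun e => ⟨e, h1, h2⟩⟩
  · have h1 := ((hA _).1 hd).1
    rw [hA, ← h0.kz d h1]
    rcases key d hd with ⟨h5, h6⟩ | ⟨h5, h6, -, h7⟩
    · constructor
      · intro e
        rw [e] at h6
        rcases h6 with h6 | h6 <;> cases h6
      · rintro ⟨e, h7, h8⟩
        rw [(h0.thz d h1 e).1] at h5
        exact (h5.elim h7 h8).elim
    · rw [h7]
      exact ⟨fun e => ⟨e, (h0.thz d h1 e).1 ▸ h5, (h0.thz d h1 e).1 ▸ h6⟩, fun e => e.1⟩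
  · rcases key d hd with ⟨-, h6⟩ | ⟨-, -, h6, h7⟩
    · rw [hz] at h6
      rcases h6 with h6 | h6 <;> cases h6
    · rw [h6]
      exact h0.thz d ((hA _).1 hd).1 (h7 ▸ hz)
  · rcases key d hd with ⟨-, h6⟩ | ⟨-, -, -, h7⟩
    · rw [hz] at h6
      rcases h6 with h6 | h6 <;> cases h6
    · exact h0.noN d ((hA _).1 hd).1 (h7 ▸ hz)

theorem lc_add {nb : V → Fin 3 → V} (hnb : IsNb G nb) {I : Inst V} {M : V → V} (hM : Mat G M)
    (h0 : St0 G nb I M) (h : I.WF) (hl : I.NoLoop) {l l2 : V → K} (hL : Lc G nb I M l)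
    {a b c b' c' : Dart V} (ha : a.1 ∈ I.A) (hk : I.kind a = .Z)
    (h3 : Three a b c) (h3' : Three (I.th a) b' c')
    (ht : ¬ ((I.th b).1 = (I.th a).1 ∧ (I.th c).1 = (I.th a).1))
    (hl2 : ∀ w, w ≠ a.1 → w ≠ (I.th a).1 → l2 w = l w) :
    Lc G nb (I.add a b c b' c' (l2 a.1) (l2 (I.th a).1)) (mAdd M a.1 (I.th a).1) l2 := by
  have _h := hM
  have hne := (step_adj hnb h0 ha hk).ne'
  have hz := h.mem a ha
  intro x hx
  obtain ⟨y, hy, y1, y2, y3⟩ := Inst.lin_of_add h h0.noN hl ha hk h3 h3' ht _ _ hx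
  obtain ⟨k, k1, k2⟩ := hL y hy
  rw [Inst.add_A h3 h3']
  refine ⟨k, fun d hd => ?_, fun v hv hdeg => ?_⟩
  · simp only [Finset.mem_sdiff, Finset.mem_insert, Finset.mem_singleton, not_or] at hd
    rw [k1 d hd.1, y3 d hd.2.1 hd.2.2]
  by_cases h1 : v = a.1
  · have e1 := k1 b (h3.1 ▸ ha)
    have e2 := k1 c (h3.2.1 ▸ ha)
    rw [h1, step_l, ← y1, ← e1, ← e2, (h0.thz a ha hk).1,
      step_sum hnb h3 ((h0.act _).1 ha).1 fun w => k s(a.1, w), h3.1, h3.2.1]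
  by_cases h2 : v = (I.th a).1
  · have e1 := k1 b' (h3'.1 ▸ hz)
    have e2 := k1 c' (h3'.2.1 ▸ hz)
    rw [h2, step_r M hne, ← y2, ← e1, ← e2, ← (h0.thz a ha hk).2,
      step_sum hnb h3' ((h0.act _).1 hz).1 fun w => k s((I.th a).1, w), h3'.1, h3'.2.1]
  rw [step_o M h1 h2, hl2 v h1 h2]
  exact k2 v (fun e => hv (by simp [e, h1, h2])) hdeg

theorem step_side {nb : V → Fin 3 → V} (hnb : IsNb G nb) {I : Inst V} {M M' : V → V}
    (h0 : St0 G nb I M) (h : I.WF) (hF : I.NoK .F) {A' : Finset V} {S : Set V}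
    (hS : DCl G M' A' S) (hR : I.RCl S) {e d : Dart V} (he : e.1 ∈ I.A) (hk : I.kind e = .Z)
    (hd : d.1 = e.1) (hne : e ≠ d) (h1 : M' e.1 = (I.th e).1) (h2 : e.1 ∉ A')
    (h3 : ∀ w, w ≠ e.1 → w ≠ (I.th e).1 → M' w = M w) : e.1 ∈ S ↔ (I.th d).1 ∈ S := by
  have hdA : d.1 ∈ I.A := hd ▸ he
  cases hkd : I.kind d with
  | R =>
    refine ⟨fun s => hR d hdA hkd (hd ▸ s), fun s => ?_⟩
    have := hR (I.th d) (h.mem d hdA) ((h.kind_th d hdA).trans hkd) s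
    rwa [h.inv d hdA, hd] at this
  | Z =>
    have hadj := step_adj hnb h0 hdA hkd
    rw [hd] at hadj
    have h4 : (I.th d).1 ≠ (I.th e).1 := by
      rw [(h0.thz d hdA hkd).1, (h0.thz e he hk).1, hd]
      exact (hnb _ ((h0.act _).1 he).1).1.ne (step_ne hd hne).symm
    refine ⟨hS _ _ hadj (h1 ▸ h4) fun s => h2 s.1, hS _ _ hadj.symm ?_ fun s => h2 s.2⟩
    rw [h3 _ hadj.ne' h4, ((h0.act _).1 (h.mem d hdA)).2]
    exact hadj.ne
  | N => exact absurd hkd (h0.noN d hdA)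
  | F => exact absurd hkd (hF d hdA)

theorem st1_add {nb : V → Fin 3 → V} (hnb : IsNb G nb) {I : Inst V} {M : V → V} (hM : Mat G M)
    (h0 : St0 G nb I M) (h1 : St1 G I M) (h : I.WF) {a b c b' c' : Dart V}
    (hadd : I.Addable a b c b' c') :
    St1 G (I.add a b c b' c' 0 0) (mAdd M a.1 (I.th a).1) := by
  have _h := hM
  obtain ⟨ha, hk, h3, h3', hb, ht, hnl⟩ := hadd
  have hne := (step_adj hnb h0 ha hk).ne'
  have hz := h.mem a ha
  have hA : ∀ v, v ∈ (I.add a b c b' c' 0 0).A ↔ v ∈ I.A ∧ v ≠ a.1 ∧ v ≠ (I.th a).1 := by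
    intro v
    rw [Inst.add_A h3 h3']
    simp
  have old : ∀ S, DCl G (mAdd M a.1 (I.th a).1) (I.add a b c b' c' 0 0).A S → DCl G M I.A S := by
    intro S hS v w hvw h4 h5
    refine hS v w hvw ?_ fun s => h5 ⟨((hA _).1 s.1).1, ((hA _).1 s.2).1⟩
    by_cases h6 : v = a.1
    · rw [h6, step_l]
      exact fun e => h5 ⟨h6 ▸ ha, e ▸ hz⟩
    by_cases h7 : v = (I.th a).1
    · rw [h7, step_r M hne]
      exact fun e => h5 ⟨h7 ▸ hz, e ▸ ha⟩
    rwa [step_o M h6 h7]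
  have s1 : NoLeaf G → ∀ S, DCl G (mAdd M a.1 (I.th a).1) (I.add a b c b' c' 0 0).A S →
      ∀ d : Dart V, d.1 = a.1 → a ≠ d → (a.1 ∈ S ↔ (I.th d).1 ∈ S) := fun hL S hS d hd hn =>
    step_side hnb h0 h (h1.noF hL) hS (h1.rcl hL S (old S hS)) ha hk hd hn (step_l _ _ _)
      (fun s => ((hA _).1 s).2.1 rfl) fun w => step_o M
  have s2 : NoLeaf G → ∀ S, DCl G (mAdd M a.1 (I.th a).1) (I.add a b c b' c' 0 0).A S →
      ∀ d : Dart V, d.1 = (I.th a).1 → I.th a ≠ d → ((I.th a).1 ∈ S ↔ (I.th d).1 ∈ S) :=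
    fun hL S hS d hd hn =>
    step_side hnb h0 h (h1.noF hL) hS (h1.rcl hL S (old S hS)) hz ((h.kind_th a ha).trans hk) hd hn
      (by rw [h.inv a ha, step_r M hne]) (fun s => ((hA _).1 s).2.2 rfl)
      fun w w1 w2 => step_o M (by rwa [h.inv a ha] at w2) w1
  refine ⟨hnl, fun hL => Inst.noF_add h (h1.noF hL) ha hne h3 h3' 0 0,
    fun hL => Inst.conn_add h h0.noN (h1.conn hL) ha hne h3 h3' hb 0 0,
    fun hL S hS => Inst.rcl_add h ha hne h3 h3' 0 0 (h1.rcl hL S (old S hS))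
      (s1 hL S hS b h3.1 h3.2.2.1) (s1 hL S hS c h3.2.1 h3.2.2.2.1)
      (s2 hL S hS b' h3'.1 h3'.2.2.1) (s2 hL S hS c' h3'.2.1 h3'.2.2.2.1),
    fun hL S hS v hv hdeg => ?_, fun hL => Inst.rf_add h h0.noN (h1.rf hL) ha hne h3 h3' hb 0 0⟩
  obtain ⟨w, hwA, hwS⟩ := h1.hit hL S (old S hS) v hv hdeg
  have nl : ∀ d : Dart V, d.1 ∈ I.A → (I.th d).1 ≠ d.1 := fun d hd =>
    h1.noLoop d hd (h1.noF hL d hd)
  have hbA : b.1 ∈ I.A := h3.1 ▸ ha
  have hcA : c.1 ∈ I.A := h3.2.1 ▸ ha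
  have hbA' : b'.1 ∈ I.A := h3'.1 ▸ hz
  have hcA' : c'.1 ∈ I.A := h3'.2.1 ▸ hz
  by_cases h4 : w = a.1
  · rcases not_and_or.1 ht with h5 | h5
    · exact ⟨_, (hA _).2 ⟨h.mem b hbA, h3.1 ▸ nl b hbA, h5⟩,
        (s1 hL S hS b h3.1 h3.2.2.1).1 (h4 ▸ hwS)⟩
    · exact ⟨_, (hA _).2 ⟨h.mem c hcA, h3.2.1 ▸ nl c hcA, h5⟩,
        (s1 hL S hS c h3.2.1 h3.2.2.2.1).1 (h4 ▸ hwS)⟩
  by_cases h5 : w = (I.th a).1
  · by_cases h6 : (I.th b').1 = a.1
    · by_cases h7 : (I.th c').1 = a.1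
      · exfalso
        have e1 := h.inv b' hbA'
        have e2 := h.inv c' hcA'
        rcases h3.cases _ h6 with e3 | e3 | e3 <;> rcases h3.cases _ h7 with e4 | e4 | e4 <;>
          rw [e3] at e1 <;> rw [e4] at e2
        · exact h3'.2.2.1 e1
        · exact h3'.2.2.1 e1
        · exact h3'.2.2.1 e1
        · exact h3'.2.2.2.1 e2
        · exact h3'.2.2.2.2 (e1.symm.trans e2)
        · exact ht ⟨e1 ▸ h3'.1, e2 ▸ h3'.2.1⟩
        · exact h3'.2.2.2.1 e2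
        · exact ht ⟨e2 ▸ h3'.2.1, e1 ▸ h3'.1⟩
        · exact h3'.2.2.2.2 (e1.symm.trans e2)
      · exact ⟨_, (hA _).2 ⟨h.mem c' hcA', h7, h3'.2.1 ▸ nl c' hcA'⟩,
          (s2 hL S hS c' h3'.2.1 h3'.2.2.2.1).1 (h5 ▸ hwS)⟩
    · exact ⟨_, (hA _).2 ⟨h.mem b' hbA', h6, h3'.1 ▸ nl b' hbA'⟩,
        (s2 hL S hS b' h3'.1 h3'.2.2.1).1 (h5 ▸ hwS)⟩
  exact ⟨w, (hA _).2 ⟨hwA, h4, h5⟩, hwS⟩

end Pool.Agent.P.MP_0ad50f_co.SC
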