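import Pool.Agent.P.MP_0ad50f_co.SC.Init
import Pool.Agent.P.MP_0ad50f_co.SC.Step
import Pool.Agent.P.MP_0ad50f_co.SC.MaxInv

namespace Pool.Agent.P.MP_0ad50f_co.SC

variable {V : Type} [DecidableEq V] [Fintype V] {G : SimpleGraph V} [DecidableRel G.Adj]

omit [DecidableEq V] in
theorem max_st0 {nb : V → Fin 3 → V} {I : Inst V} {M : V → V} (h0 : St0 G nb I M)
    (g : Dart V → K) : St0 G nb (I.withG g) M :=
  ⟨h0.act, h0.kz, h0.thz, h0.noN⟩

omit [DecidableEq V] in
theorem max_st1 {I : Inst V} {M : V → V} (h1 : St1 G I M) (g : Dart V → K) :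
    St1 G (I.withG g) M :=
  ⟨h1.noLoop, h1.noF, h1.conn, h1.rcl, h1.hit, h1.rf⟩

theorem max_all {nb : V → Fin 3 → V} (hnb : IsNb G nb) {I : Inst V} {M : V → V} (hM : Mat G M)
    (h0 : St0 G nb I M) (h1 : St1 G I M) (hA : All G nb I M) {a b c b' c' : Dart V}
    (hadd : I.Addable a b c b' c') :
    All G nb (I.add a b c b' c' 0 0) (mAdd M a.1 (I.th a).1) := by
  intro l
  obtain ⟨ha, hk, h3, h3', -, ht, -⟩ := hadd
  obtain ⟨g, hw, hL⟩ := hA l
  have hne : (I.th a).1 ≠ a.1 := h1.noLoop a ha (by rw [hk]; decide)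
  refine ⟨((I.withG g).add a b c b' c' (l a.1) (l (I.th a).1)).g, ?_⟩
  rw [← Inst.add_withG I g a b c b' c' (l a.1) (l (I.th a).1) 0 0]
  exact ⟨Inst.wf_add hw ha hne h3 h3' _ _,
    lc_add (I := I.withG g) hnb hM (max_st0 h0 g) hw h1.noLoop hL ha hk h3 h3' ht
      (fun _ _ _ => rfl)⟩

theorem max_ind {nb : V → Fin 3 → V} (hnb : IsNb G nb) (n : ℕ) :
    ∀ (I : Inst V) (M : V → V), I.A.card = n → Mat G M → St0 G nb I M → St1 G I M →
      All G nb I M →
      ∃ (I : Inst V) (M : V → V), Mat G M ∧ St0 G nb I M ∧ St1 G I M ∧ All G nb I M ∧ I.Inv := by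
  induction n using Nat.strong_induction_on with
  | _ n ih =>
    intro I1 M hn hM h0' h1' hA'
    obtain ⟨g0, hw, -⟩ := hA' fun _ => 0
    have h0 := max_st0 h0' g0
    have h1 := max_st1 h1' g0
    have hA : All G nb (I1.withG g0) M := hA'
    have hn' : (I1.withG g0).A.card = n := hn
    generalize I1.withG g0 = I at hw h0 h1 hA hn'
    by_cases hex : ∃ a b c b' c', I.Addable a b c b' c'
    · obtain ⟨a, b, c, b', c', hadd⟩ := hex
      have ha := hadd.1
      have hk := hadd.2.1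
      have h3 := hadd.2.2.1
      have h3' := hadd.2.2.2.1
      refine ih _ ?_ (I.add a b c b' c' 0 0) (mAdd M a.1 (I.th a).1) rfl
        (mat_add hnb hM h0 hw ha hk).2 (st0_add hnb hM h0 hw ha hk h3 h3' 0 0)
        (st1_add hnb hM h0 h1 hw hadd) (max_all hnb hM h0 h1 hA hadd)
      rw [Inst.add_A h3 h3', ← hn']
      refine Finset.card_lt_card ⟨Finset.sdiff_subset, fun hs => ?_⟩
      have := hs ha
      simp at this
    · refine ⟨I, M, hM, h0, h1, hA, Inst.inv_of_max hw h0.noN h1.noLoop ?_ ?_⟩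
      · intro a b ha hba hka hkb hth
        have hb : b.1 ∈ I.A := hba ▸ ha
        rw [(h0.thz a ha hka).1, (h0.thz b hb hkb).1, hba] at hth
        exact Prod.ext hba.symm ((hnb a.1 ((h0.act a.1).1 ha).1).1 hth)
      · intro a b c b' c' hadd
        exact hex ⟨a, b, c, b', c', hadd⟩

/-- The final skeleton. -/
theorem exists_max (h3 : Sub3 G) (hT : T1only G) (hc : CutConn G) {nb : V → Fin 3 → V}
    (hnb : IsNb G nb) :
    ∃ (I : Inst V) (M : V → V), Mat G M ∧ St0 G nb I M ∧ St1 G I M ∧ All G nb I M ∧ I.Inv := by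
  obtain ⟨I, h0, h1, hA⟩ := init h3 hT hc hnb
  exact max_ind hnb _ I id rfl ⟨fun _ => rfl, fun _ h => absurd rfl h⟩ h0 h1 hA

end Pool.Agent.P.MP_0ad50f_co.SC
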