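import Pool.Agent.P.MP_0ad50f_co.SC.Top
import Pool.Agent.P.MP_0ad50f_co.SC.Max
import Pool.Agent.P.MP_0ad50f_co.SC.Lab
import Pool.Agent.P.MP_0ad50f_co.SC.Asm
import Pool.Agent.P.MP_0ad50f_co.SC.Ham

namespace Pool.Agent.P.MP_0ad50f_co.SC

variable {V : Type} [DecidableEq V] [Fintype V] {G : SimpleGraph V} [DecidableRel G.Adj]

theorem core_st0 {nb : V → Fin 3 → V} {I : Inst V} {M : V → V} (h0 : St0 G nb I M)
    (g : Dart V → K) : St0 G nb (I.withG g) M :=
  ⟨h0.act, h0.kz, h0.thz, h0.noN⟩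

theorem core_st1 {I : Inst V} {M : V → V} (h1 : St1 G I M) (g : Dart V → K) :
    St1 G (I.withG g) M :=
  ⟨h1.noLoop, h1.noF, h1.conn, h1.rcl, h1.hit, h1.rf⟩

/-- With good labels we are done unless the skeleton is a theta of gain zero. -/
theorem core_step (h3 : Sub3 G) (hT : T1only G) {nb : V → Fin 3 → V} (hnb : IsNb G nb)
    {I : Inst V} {M : V → V} (hM : Mat G M) (h0 : St0 G nb I M) (h1 : St1 G I M) (hi : I.Inv)
    (h : I.WF) {cls : V → Fin 4} (hc : Cls G M cls) {l : V → K} (hl : GoodL G M cls l)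
    (hL : Lc G nb I M l) : Goal G ∨ (NoLeaf G ∧ ∃ a b c, I.Theta0 a b c) := by
  have hrc : I.RF ∨ I.Conn := by
    by_cases hn : NoLeaf G
    · exact Or.inr (h1.conn hn)
    · exact Or.inl (h1.rf hn)
  rcases Inst.TOP I h h1.noLoop h0.noN hi hrc with hs | ⟨hcn, hi3, a, b, c, e, hb, hz⟩ |
      ⟨hF, a, b, c, ht⟩
  · exact Or.inl (fin h3 hT hnb hM h0 hc hl hL hs)
  · left
    obtain ⟨hd, hka, hke, hce, hne, hg, hg0⟩ := id hb
    obtain ⟨ha, h3a, hkb, hkc, hez, h3e⟩ := id hd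
    obtain ⟨b', c', h3'⟩ := three_exists (I.th a)
    obtain ⟨hadj, hM'⟩ := mat_add hnb hM h0 h ha hka
    have hcA : (I.th a).1 ∈ I.A := h.mem a ha
    have hu := (h0.act _).1 ha
    have hcc := (h0.act _).1 hcA
    have hout := Inst.outer_out h ha h3a hez h3e (by rw [hka]; decide) hne
    obtain ⟨cls2, l2, hc2, hl2, hlu, hlc, hlw⟩ := cls_E2 hM hc hl hadj hu hcc
      (by
        intro w hw hwc hact
        obtain ⟨i, hi'⟩ := ((hnb a.1 hu.1).2 w).1 hw
        have hZ : I.kind (a.1, i) = .Z :=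
          (h0.kz (a.1, i) ha).2 (by rw [show nb (a.1, i).1 (a.1, i).2 = w from hi']
                                    exact (h0.act w).2 hact)
        rcases h3a.cases (a.1, i) rfl with hx | hx | hx
        · apply hwc
          rw [(h0.thz a ha hka).1, ← hi', ← hx]
        · rw [hx, hkb] at hZ; exact absurd hZ (by decide)
        · rw [hx, hkc] at hZ; exact absurd hZ (by decide))
      (by
        intro w hw
        obtain ⟨i, hi'⟩ := ((hnb _ hcc.1).2 w).1 hw
        have := (h0.kz ((I.th a).1, i) hcA).1 (hz _ rfl)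
        rw [show nb ((I.th a).1, i).1 ((I.th a).1, i).2 = w from hi'] at this
        exact (h0.act w).1 this)
    have hs := Inst.E2abs I h h1.noLoop h0.noN hi3 hcn hb hz h3'
    have hL2 := lc_add hnb hM h0 h h1.noLoop hL (l2 := l2) ha hka h3a h3'
      (fun hh => hout.2 (hh.1.symm.trans h3e.1)) hlw
    have h02 := st0_add hnb hM h0 h ha hka h3a h3' (l2 a.1) (l2 (I.th a).1)
    rw [← hlu, ← hlc] at hs
    exact fin h3 hT hnb hM' h02 hc2 hl2 hL2 hs
  · right
    refine ⟨?_, a, b, c, ht⟩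
    by_contra hn
    obtain ⟨d, hd, -, hk⟩ := h1.rf hn Set.univ (fun _ _ _ => trivial) ⟨a.1, ht.1.1, trivial⟩
    exact hF d hd hk

theorem core0 (h3 : Sub3 G) (hT : T1only G) (hc : CutConn G) : Goal G := by
  obtain ⟨nb, hnb⟩ := exists_nb G
  obtain ⟨I, M, hM, h0, h1, hall, hi⟩ := exists_max h3 hT hc hnb
  obtain ⟨cls, hcl, hmax⟩ := exists_cls h3 hM
  obtain ⟨l, hl⟩ := exists_goodL hM hcl
  obtain ⟨g, hw, hL⟩ := hall l
  rcases core_step h3 hT hnb hM (core_st0 h0 g) (core_st1 h1 g) hi hw hcl hl hL with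
    hG | ⟨hn, a, b, c, hd, hk, hg, hA⟩
  · exact hG
  have hsum := theta_sum hnb hn hM (core_st0 h0 g) hw hL hd hk hA
  rw [hg, K_add_self] at hsum
  by_cases hsp : ∃ v, M v ≠ v ∧ cls v = 0
  · obtain ⟨v, hv, hv0⟩ := hsp
    obtain ⟨l2, hl2, hne, hoth⟩ := goodL_change hM hcl hl hv hv0
    obtain ⟨g2, hw2, hL2⟩ := hall l2
    rcases core_step h3 hT hnb hM (core_st0 h0 g2) (core_st1 h1 g2) hi hw2 hcl hl2 hL2 with
      hG | ⟨-, a2, b2, c2, hd2, hk2, hg2, hA2⟩
    · exact hG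
    exfalso
    have hsum2 := theta_sum hnb hn hM (core_st0 h0 g2) hw2 hL2 hd2 hk2 hA2
    rw [hg2, K_add_self] at hsum2
    have hvm : v ∈ Finset.univ.filter (fun v => v ∉ I.A ∧ 2 ≤ G.degree v) := by
      rw [Finset.mem_filter]
      refine ⟨Finset.mem_univ _, fun hvA => hv ((h0.act v).1 hvA).2, ?_⟩
      rw [(hM.2 v hv).2]; decide
    have e1 : (0 : K) = ∑ w ∈ Finset.univ.filter (fun v => v ∉ I.A ∧ 2 ≤ G.degree v), l w := hsum
    have e2 : (0 : K) = ∑ w ∈ Finset.univ.filter (fun v => v ∉ I.A ∧ 2 ≤ G.degree v), l2 w :=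
      hsum2
    rw [← Finset.add_sum_erase _ _ hvm] at e1 e2
    rw [Finset.sum_congr rfl (fun w hw => hoth w (Finset.ne_of_mem_erase hw))] at e2
    exact hne (add_right_cancel (e2.symm.trans e1))
  · obtain ⟨ha, h3a, hkb, hkc, hez, h3e⟩ := id hd
    have hA' : I.A = {a.1, (I.th a).1} := hA
    have hadj : G.Adj a.1 (I.th a).1 := (mat_add hnb hM (core_st0 h0 g) hw ha hk).1
    have hmem : ∀ v, v ∈ I.A ↔ v = a.1 ∨ v = (I.th a).1 := by
      intro v; rw [hA']; simp
    refine ham h3 hT hn hM hadj (fun v => by rw [← h0.act, hmem]) ?_ ?_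
    · have key : ∀ S : Set V, DCl G M I.A S → ∀ v ∈ S, 2 ≤ G.degree v →
          a.1 ∈ S ∧ (I.th a).1 ∈ S := by
        intro S hS v hv hdv
        obtain ⟨w, hwA, hwS⟩ := h1.hit hn S hS v hv hdv
        have hr := h1.rcl hn S hS
        have hbA : b.1 ∈ I.A := by rw [h3a.1]; exact ha
        have e1 : (I.th b).1 = (I.th a).1 := h3e.1
        have f1 : a.1 ∈ S → (I.th a).1 ∈ S := fun hh => by
          rw [← e1]; exact hr b hbA hkb (by rw [h3a.1]; exact hh)
        have f2 : (I.th a).1 ∈ S → a.1 ∈ S := fun hh => by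
          have := hr (I.th b) (hw.mem b hbA) ((hw.kind_th b hbA).trans hkb) (by rw [e1]; exact hh)
          rw [show I.th (I.th b) = b from hw.inv b hbA, h3a.1] at this
          exact this
        rcases (hmem w).1 hwA with rfl | rfl
        · exact ⟨hwS, f1 hwS⟩
        · exact ⟨f2 hwS, hwS⟩
      intro S hS v hv hdv w hdw
      rw [← hA'] at hS
      by_contra hwS
      have hSc : DCl G M I.A Sᶜ := by
        intro x y hxy hy hn' hx hyS
        refine hx (hS y x hxy.symm ?_ (fun hh => hn' ⟨hh.2, hh.1⟩) hyS)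
        intro hh
        apply hy
        rw [hh, hM.1]
      exact (key _ hSc w hwS hdw).1 (key S hS v hv hdv).1
    · intro v hv
      rcases hmax v hv with h0v | ⟨w, hw1, hw2, hw0⟩
      · exact absurd ⟨v, hv, h0v⟩ hsp
      · refine ⟨w, hw1, (hmem w).1 ((h0.act w).2 ⟨hcl.cub w hw2 hw0, ?_⟩)⟩
        by_contra hh
        exact hsp ⟨w, hh, hw0⟩

end Pool.Agent.P.MP_0ad50f_co.SC
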