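import Mathlib

namespace Pool.Agent.P.MP_0ad50f_co.SC

/-- The Klein four group. -/
abbrev K := ZMod 2 × ZMod 2

def kA : K := (1, 0)
def kB : K := (0, 1)
def kC : K := (1, 1)

/-- Kinds of darts: real, short, label-only, free. -/
inductive Kind
  | R | Z | N | F
  deriving DecidableEq

abbrev Dart (V : Type) := V × Fin 3

structure Inst (V : Type) where
  A : Finset V
  th : Dart V → Dart V
  kind : Dart V → Kind
  g : Dart V → K

variable {V : Type} [DecidableEq V]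

def tot (x : Dart V → K) (v : V) : K := x (v, 0) + x (v, 1) + x (v, 2)

def lab (x : Dart V → K) (a : Dart V) : K := tot x a.1 + x a

/-- `a`, `b`, `c` are the three darts at one vertex. -/
def Three (a b c : Dart V) : Prop := b.1 = a.1 ∧ c.1 = a.1 ∧ a ≠ b ∧ a ≠ c ∧ b ≠ c

namespace Inst

structure WF (I : Inst V) : Prop where
  mem : ∀ a, a.1 ∈ I.A → (I.th a).1 ∈ I.A
  inv : ∀ a, a.1 ∈ I.A → I.th (I.th a) = a
  kind_th : ∀ a, a.1 ∈ I.A → I.kind (I.th a) = I.kind a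
  g_th : ∀ a, a.1 ∈ I.A → I.g (I.th a) = I.g a
  free : ∀ a, a.1 ∈ I.A → (I.kind a = .F ↔ I.th a = a)
  gZ : ∀ a, a.1 ∈ I.A → I.kind a = .Z → I.g a = 0

def Ok (I : Inst V) (x : Dart V → K) (a : Dart V) : Prop :=
  (I.kind a = .R ∨ I.kind a = .Z → x (I.th a) = x a + I.g a) ∧
  (I.kind a = .Z ∨ I.kind a = .N → lab x a ≠ lab x (I.th a))

def Lin (I : Inst V) (x : Dart V → K) : Prop :=
  ∀ a, a.1 ∈ I.A → I.kind a = .R ∨ I.kind a = .Z → x (I.th a) = x a + I.g a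

def Sol (I : Inst V) (x : Dart V → K) : Prop :=
  (∀ v ∈ I.A, Function.Injective fun i => x (v, i)) ∧ ∀ a, a.1 ∈ I.A → I.Ok x a

def Solv (I : Inst V) : Prop := ∃ x, I.Sol x

/-- Delete the vertices of `X` and free all partners of their darts. -/
def rem (I : Inst V) (X : Finset V) : Inst V where
  A := I.A \ X
  th a := if (I.th a).1 ∈ X then a else I.th a
  kind a := if (I.th a).1 ∈ X then .F else I.kind a
  g := I.g

/-- Pair two free darts. -/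
def join (I : Inst V) (p q : Dart V) (k : Kind) (t : K) : Inst V where
  A := I.A
  th a := if a = p then q else if a = q then p else I.th a
  kind a := if a = p ∨ a = q then k else I.kind a
  g a := if a = p ∨ a = q then t else I.g a

/-- Free both darts of an edge. -/
def cut (I : Inst V) (a : Dart V) : Inst V where
  A := I.A
  th d := if d = a ∨ d = I.th a then d else I.th d
  kind d := if d = a ∨ d = I.th a then .F else I.kind d
  g := I.g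

def setN (I : Inst V) (a : Dart V) : Inst V where
  A := I.A
  th := I.th
  kind d := if d = a ∨ d = I.th a then .N else I.kind d
  g := I.g

def allN (I : Inst V) : Inst V where
  A := I.A
  th := I.th
  kind d := if I.kind d = .Z then .N else I.kind d
  g := I.g

/-- Suppress the vertex of `b` and `c` (its third dart is free) with label `l`. -/
def supp (I : Inst V) (b c : Dart V) (l : K) : Inst V :=
  if I.kind b = .F ∨ I.kind c = .F ∨ I.th b = c then I.rem {b.1}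
  else (I.rem {b.1}).join (I.th b) (I.th c) .R (I.g b + I.g c + l)

/-- Delete the edge of `a` and suppress both ends. -/
def add (I : Inst V) (a b c b' c' : Dart V) (l l' : K) : Inst V :=
  ((I.cut a).supp b c l).supp b' c' l'

def withG (I : Inst V) (g : Dart V → K) : Inst V := { I with g := g }

def jZN (I : Inst V) (v : V) : ℕ :=
  (Finset.univ.filter fun i : Fin 3 => I.kind (v, i) = .Z ∨ I.kind (v, i) = .N).card

def Root (I : Inst V) (v : V) : Prop := (∃ i, I.kind (v, i) = .F) ∨ Even (I.jZN v)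

def Rooted (I : Inst V) : Prop :=
  ∃ r : V → ℕ, ∀ v ∈ I.A, I.Root v ∨ ∃ i, r (I.th (v, i)).1 < r v

def RootedP (I : Inst V) (c : V) : Prop :=
  ∃ r : V → ℕ, ∀ v ∈ I.A, v = c ∨ I.Root v ∨ ∃ i, r (I.th (v, i)).1 < r v

def LoopsOK (I : Inst V) : Prop :=
  ∀ a, a.1 ∈ I.A → (I.th a).1 = a.1 → (I.kind a = .R → I.g a ≠ 0) ∧ I.kind a ≠ .Z

def NoLoop (I : Inst V) : Prop := ∀ a, a.1 ∈ I.A → I.kind a ≠ .F → (I.th a).1 ≠ a.1

def NoK (I : Inst V) (k : Kind) : Prop := ∀ a, a.1 ∈ I.A → I.kind a ≠ k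

def Closed (I : Inst V) (S : Set V) : Prop := ∀ d, d.1 ∈ I.A → d.1 ∈ S → (I.th d).1 ∈ S

def RCl (I : Inst V) (S : Set V) : Prop :=
  ∀ d, d.1 ∈ I.A → I.kind d = .R → d.1 ∈ S → (I.th d).1 ∈ S

def Conn (I : Inst V) : Prop := ∀ S, I.Closed S → (∃ v ∈ I.A, v ∈ S) → ∀ v ∈ I.A, v ∈ S

def RF (I : Inst V) : Prop :=
  ∀ S, I.Closed S → (∃ v ∈ I.A, v ∈ S) → ∃ d, d.1 ∈ I.A ∧ d.1 ∈ S ∧ I.kind d = .F

def Bridge (I : Inst V) (a : Dart V) : Prop :=
  ∃ S : Set V, a.1 ∈ S ∧ (I.th a).1 ∉ S ∧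
    ∀ d, d.1 ∈ I.A → I.kind d = .R ∨ I.kind d = .Z → d ≠ a → d.1 ∈ S → (I.th d).1 ∈ S

/-- Digon with real sides `b`, `c`; `a` and `e` are the outer darts. -/
def Dig (I : Inst V) (a b c e : Dart V) : Prop :=
  a.1 ∈ I.A ∧ Three a b c ∧ I.kind b = .R ∧ I.kind c = .R ∧ e.1 ≠ a.1 ∧
    Three e (I.th b) (I.th c)

/-- End gadget whose side `b` is short. -/
def Gad (I : Inst V) (a b c e : Dart V) : Prop :=
  a.1 ∈ I.A ∧ Three a b c ∧ I.kind b = .Z ∧ I.kind c = .R ∧ e.1 ≠ a.1 ∧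
    Three e (I.th b) (I.th c) ∧ (I.kind a = .R ∨ I.kind a = .Z) ∧
    (I.kind e = .R ∨ I.kind e = .Z) ∧ (I.th a).1 = (I.th e).1 ∧ I.th a ≠ e

def Inv3 (I : Inst V) : Prop :=
  ∀ a, a.1 ∈ I.A → I.kind a = .Z →
    I.Bridge a ∨ (∃ b c e, I.Dig a b c e) ∨ ∃ b c e, I.Dig (I.th a) b c e

def Inv (I : Inst V) : Prop :=
  ∀ a, a.1 ∈ I.A → I.kind a = .Z →
    I.Bridge a ∨ (∃ b c e, I.Dig a b c e) ∨ (∃ b c e, I.Dig (I.th a) b c e) ∨
      ∃ a0 b c e, I.Gad a0 b c e ∧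
        (a.1 = a0.1 ∨ a.1 = e.1 ∨ (I.th a).1 = a0.1 ∨ (I.th a).1 = e.1)

def Bad (I : Inst V) (a b c e : Dart V) : Prop :=
  I.Dig a b c e ∧ I.kind a = .Z ∧ I.kind e = .Z ∧ (I.th a).1 = (I.th e).1 ∧ I.th a ≠ e ∧
    I.g b = I.g c ∧ I.g b ≠ 0

def Theta0 (I : Inst V) (a b c : Dart V) : Prop :=
  I.Dig a b c (I.th a) ∧ I.kind a = .Z ∧ I.g b = I.g c ∧ I.A = {a.1, (I.th a).1}

def RVable (I : Inst V) (v : V) : Prop :=
  ∃ a b c : Dart V, a.1 = v ∧ Three a b c ∧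
    ((I.kind b ≠ .R ∧ I.kind c ≠ .R ∧
        (I.kind a ≠ .N ∨ I.kind b ≠ .N ∨ I.kind c ≠ .N ∨ I.th b = c)) ∨
      (I.kind b = .R ∧ I.th b = c ∧ I.kind a ≠ .N))

/-- Number of short darts. -/
def nZ (I : Inst V) : ℕ := ((I.A ×ˢ Finset.univ).filter fun d : Dart V => I.kind d = .Z).card

/-- The short edge of `a` can be put into the matching without making a loop. -/
def Addable (I : Inst V) (a b c b' c' : Dart V) : Prop :=
  a.1 ∈ I.A ∧ I.kind a = .Z ∧ Three a b c ∧ Three (I.th a) b' c' ∧ ¬ I.Bridge a ∧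
    ¬ ((I.th b).1 = (I.th a).1 ∧ (I.th c).1 = (I.th a).1) ∧ (I.add a b c b' c' 0 0).NoLoop

end Inst

section Graph

variable [Fintype V] (G : SimpleGraph V) [DecidableRel G.Adj]

/-- The goal: a proper colouring with `1..5` whose sums differ along every edge that is not a
component. -/
def Goal : Prop :=
  ∃ c : Sym2 V → ℕ, (∀ e ∈ G.edgeSet, 1 ≤ c e ∧ c e ≤ 5) ∧
    (∀ v w w', G.Adj v w → G.Adj v w' → w ≠ w' → c s(v, w) ≠ c s(v, w')) ∧
    ∀ u v, G.Adj u v → 2 ≤ G.degree u ∨ 2 ≤ G.degree v →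
      ∑ w ∈ G.neighborFinset u, c s(u, w) ≠ ∑ w ∈ G.neighborFinset v, c s(v, w)

def Sub3 : Prop := ∀ v, G.degree v ≤ 3

def T1only : Prop := ∀ v w, G.degree v = 2 → G.Adj v w → G.degree w = 3

def NoLeaf : Prop := ∀ v, G.degree v ≠ 1

def CutConn : Prop :=
  ∀ S : Set V, (∀ v w, G.Adj v w → v ∈ S → w ∈ S) → (∃ v ∈ S, 1 ≤ G.degree v) →
    ∀ w, 1 ≤ G.degree w → w ∈ S

def IsNb (nb : V → Fin 3 → V) : Prop :=
  ∀ v, G.degree v = 3 → Function.Injective (nb v) ∧ ∀ w, G.Adj v w ↔ ∃ i, nb v i = w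

def Mat (M : V → V) : Prop :=
  (∀ v, M (M v) = v) ∧ ∀ v, M v ≠ v → G.Adj v (M v) ∧ G.degree v = 3

def mAdd (M : V → V) (u v : V) : V → V := fun w => if w = u then v else if w = v then u else M w

def Lc (nb : V → Fin 3 → V) (I : Inst V) (M : V → V) (l : V → K) : Prop :=
  ∀ x, I.Lin x → ∃ k : Sym2 V → K, (∀ d : Dart V, d.1 ∈ I.A → k s(d.1, nb d.1 d.2) = x d) ∧
    ∀ v, v ∉ I.A → 2 ≤ G.degree v → ∑ w ∈ (G.neighborFinset v).erase (M v), k s(v, w) = l v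

def All (nb : V → Fin 3 → V) (I : Inst V) (M : V → V) : Prop :=
  ∀ l : V → K, ∃ g, (I.withG g).WF ∧ Lc G nb (I.withG g) M l

structure St0 (nb : V → Fin 3 → V) (I : Inst V) (M : V → V) : Prop where
  act : ∀ v, v ∈ I.A ↔ G.degree v = 3 ∧ M v = v
  kz : ∀ d : Dart V, d.1 ∈ I.A → (I.kind d = .Z ↔ nb d.1 d.2 ∈ I.A)
  thz : ∀ d : Dart V, d.1 ∈ I.A → I.kind d = .Z →
    (I.th d).1 = nb d.1 d.2 ∧ nb (I.th d).1 (I.th d).2 = d.1
  noN : I.NoK .N

def DCl (M : V → V) (A : Finset V) (S : Set V) : Prop :=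
  ∀ v w, G.Adj v w → w ≠ M v → ¬ (v ∈ A ∧ w ∈ A) → v ∈ S → w ∈ S

structure St1 (I : Inst V) (M : V → V) : Prop where
  noLoop : I.NoLoop
  noF : NoLeaf G → I.NoK .F
  conn : NoLeaf G → I.Conn
  rcl : NoLeaf G → ∀ S, DCl G M I.A S → I.RCl S
  hit : NoLeaf G → ∀ S, DCl G M I.A S → ∀ v ∈ S, 2 ≤ G.degree v → ∃ w ∈ I.A, w ∈ S
  rf : ¬ NoLeaf G → I.RF

/-- Classes: 0 = no edge of colour 3 at a cubic vertex, 1 = label B, 2 and 3 = blue. -/
structure Cls (M : V → V) (cls : V → Fin 4) : Prop where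
  act : ∀ v, G.degree v = 3 → M v = v → cls v = 0
  cub : ∀ v, 2 ≤ G.degree v → cls v = 0 → G.degree v = 3
  par : ∀ v, M v ≠ v → cls v = 0 → cls (M v) = 0
  spec : ∀ v w, M v ≠ v → cls v = 0 → G.Adj v w → w ≠ M v → 2 ≤ G.degree w → cls w ≠ 0
  ind : ∀ u w, G.Adj u w → 2 ≤ G.degree u → 2 ≤ G.degree w → cls u = cls w → cls u = 0
  red : ∀ u w, G.Adj u w → 2 ≤ G.degree u → 2 ≤ G.degree w → cls u = 0 → cls w ≠ 1

def lbl (cls : V → Fin 4) (v : V) : K :=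
  if cls v = 1 then kB else if (cls v = 2 ↔ G.degree v = 3) then kA else kC

def GoodL (M : V → V) (cls : V → Fin 4) (l : V → K) : Prop :=
  (∀ v, 2 ≤ G.degree v → cls v ≠ 0 → l v = lbl G cls v) ∧
    ∀ v, M v ≠ v → cls v = 0 → l v ≠ 0 ∧ l v ≠ l (M v)

end Graph

/-- Vertex sum in a cycle of length `n` with chords given by `p`. -/
def csum (n : ℕ) (p cy ch : ℕ → ℕ) (i : ℕ) : ℕ :=
  cy i + cy ((i + n - 1) % n) + if p i = i then 0 else ch i

end Pool.Agent.P.MP_0ad50f_co.SC
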