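import Pool.Agent.P.MP_0ad50f_co.SC.Basic

namespace Pool.Agent.P.MP_0ad50f_co.SC

variable {V : Type} [DecidableEq V] [Fintype V] {G : SimpleGraph V} [DecidableRel G.Adj]

theorem exists_nb (G : SimpleGraph V) [DecidableRel G.Adj] : ∃ nb, IsNb G nb := by
  have h : ∀ v, ∃ f : Fin 3 → V, G.degree v = 3 →
      Function.Injective f ∧ ∀ w, G.Adj v w ↔ ∃ i, f i = w := by
    intro v
    by_cases hv : G.degree v = 3
    · have hcard : (G.neighborFinset v).card = 3 := hv
      let e := Finset.equivFinOfCardEq hcard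
      refine ⟨fun i => (e.symm i).1, fun _ => ⟨?_, fun w => ⟨fun hw => ?_, ?_⟩⟩⟩
      · intro i j hij
        exact e.symm.injective (Subtype.ext hij)
      · refine ⟨e ⟨w, (G.mem_neighborFinset v w).2 hw⟩, ?_⟩
        simp
      · rintro ⟨i, rfl⟩
        exact (G.mem_neighborFinset v _).1 (e.symm i).2
    · exact ⟨fun _ => v, fun h => absurd h hv⟩
  choose nb hnb using h
  exact ⟨nb, hnb⟩

theorem init_oth (G : SimpleGraph V) [DecidableRel G.Adj] :
    ∃ oth : V → V → V, ∀ w v, G.degree w = 2 → G.Adj w v →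
      G.Adj w (oth w v) ∧ oth w v ≠ v ∧ ∀ u, G.Adj w u → u = v ∨ u = oth w v := by
  have h : ∀ w v, ∃ o, G.degree w = 2 → G.Adj w v →
      G.Adj w o ∧ o ≠ v ∧ ∀ u, G.Adj w u → u = v ∨ u = o := by
    intro w v
    by_cases hw : G.degree w = 2
    · have hcard : (G.neighborFinset w).card = 2 := hw
      obtain ⟨x, y, hxy, hs⟩ := Finset.card_eq_two.1 hcard
      have hm : ∀ u, G.Adj w u ↔ u = x ∨ u = y := by
        intro u
        rw [← G.mem_neighborFinset, hs]
        simp
      by_cases hv : v = x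
      · refine ⟨y, fun _ _ => ⟨(hm y).2 (Or.inr rfl), ?_, fun u hu => ?_⟩⟩
        · rw [hv]; exact hxy.symm
        · rw [hv]; exact (hm u).1 hu
      · refine ⟨x, fun _ ha => ⟨(hm x).2 (Or.inl rfl), fun h => hv h.symm, fun u hu => ?_⟩⟩
        have hvy : v = y := ((hm v).1 ha).resolve_left hv
        rw [hvy]
        exact ((hm u).1 hu).symm
    · exact ⟨v, fun h => absurd h hw⟩
  choose oth ho using h
  exact ⟨oth, ho⟩

theorem init_idx {nb : V → Fin 3 → V} (hnb : IsNb G nb) :
    ∃ idx : V → V → Fin 3, ∀ v w, G.degree v = 3 → G.Adj v w → nb v (idx v w) = w := by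
  have h : ∀ v w, ∃ j : Fin 3, G.degree v = 3 → G.Adj v w → nb v j = w := by
    intro v w
    by_cases hv : G.degree v = 3 ∧ G.Adj v w
    · obtain ⟨j, hj⟩ := ((hnb v hv.1).2 w).1 hv.2
      exact ⟨j, fun _ _ => hj⟩
    · exact ⟨0, fun h1 h2 => absurd ⟨h1, h2⟩ hv⟩
  choose idx hi using h
  exact ⟨idx, hi⟩

/-- The starting instance. -/
def initI (G : SimpleGraph V) [DecidableRel G.Adj] (nb : V → Fin 3 → V) (oth : V → V → V)
    (idx : V → V → Fin 3) : Inst V where
  A := Finset.univ.filter fun v => G.degree v = 3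
  th d := if G.degree (nb d.1 d.2) = 3 then (nb d.1 d.2, idx (nb d.1 d.2) d.1)
    else if G.degree (nb d.1 d.2) = 2 then
      (oth (nb d.1 d.2) d.1, idx (oth (nb d.1 d.2) d.1) (nb d.1 d.2)) else d
  kind d := if G.degree (nb d.1 d.2) = 3 then .Z else if G.degree (nb d.1 d.2) = 2 then .R else .F
  g _ := 0

def initG (G : SimpleGraph V) [DecidableRel G.Adj] (nb : V → Fin 3 → V) (l : V → K)
    (d : Dart V) : K :=
  if G.degree (nb d.1 d.2) = 2 then l (nb d.1 d.2) else 0

section

variable {nb : V → Fin 3 → V} {oth : V → V → V} {idx : V → V → Fin 3}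

theorem init_memA (v : V) : v ∈ (initI G nb oth idx).A ↔ G.degree v = 3 := by
  simp [initI]

theorem init_memB {g : Dart V → K} (v : V) :
    v ∈ ((initI G nb oth idx).withG g).A ↔ G.degree v = 3 :=
  init_memA (nb := nb) (oth := oth) (idx := idx) v

theorem init_th3 {d : Dart V} (h : G.degree (nb d.1 d.2) = 3) :
    (initI G nb oth idx).th d = (nb d.1 d.2, idx (nb d.1 d.2) d.1) := by
  simp [initI, h]

theorem init_th2 {d : Dart V} (h : G.degree (nb d.1 d.2) = 2) :
    (initI G nb oth idx).th d =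
      (oth (nb d.1 d.2) d.1, idx (oth (nb d.1 d.2) d.1) (nb d.1 d.2)) := by
  simp [initI, h]

theorem init_th1 {d : Dart V} (h3 : G.degree (nb d.1 d.2) ≠ 3) (h2 : G.degree (nb d.1 d.2) ≠ 2) :
    (initI G nb oth idx).th d = d := by
  simp [initI, h3, h2]

theorem init_k3 {d : Dart V} (h : G.degree (nb d.1 d.2) = 3) :
    (initI G nb oth idx).kind d = .Z := by
  simp [initI, h]

theorem init_k2 {d : Dart V} (h : G.degree (nb d.1 d.2) = 2) :
    (initI G nb oth idx).kind d = .R := by
  simp [initI, h]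

theorem init_k1 {d : Dart V} (h3 : G.degree (nb d.1 d.2) ≠ 3) (h2 : G.degree (nb d.1 d.2) ≠ 2) :
    (initI G nb oth idx).kind d = .F := by
  simp [initI, h3, h2]

theorem init_adj (hnb : IsNb G nb) {d : Dart V} (hd : G.degree d.1 = 3) :
    G.Adj d.1 (nb d.1 d.2) :=
  ((hnb d.1 hd).2 _).2 ⟨d.2, rfl⟩

theorem init_ext (hnb : IsNb G nb) {d e : Dart V} (hd : G.degree d.1 = 3) (h1 : e.1 = d.1)
    (h2 : nb e.1 e.2 = nb d.1 d.2) : e = d := by
  obtain ⟨v, i⟩ := d
  obtain ⟨w, j⟩ := e
  simp only at h1 h2 hd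
  subst h1
  rw [(hnb w hd).1 h2]

/-- The three cases of a dart at a cubic vertex. -/
theorem init_cases (hT : T1only G) (hnb : IsNb G nb)
    (ho : ∀ w v, G.degree w = 2 → G.Adj w v →
      G.Adj w (oth w v) ∧ oth w v ≠ v ∧ ∀ u, G.Adj w u → u = v ∨ u = oth w v)
    (hi : ∀ v w, G.degree v = 3 → G.Adj v w → nb v (idx v w) = w)
    {d : Dart V} (hd : G.degree d.1 = 3) :
    (G.degree (nb d.1 d.2) = 3 ∧ (initI G nb oth idx).kind d = .Z ∧
      ((initI G nb oth idx).th d).1 = nb d.1 d.2 ∧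
      nb ((initI G nb oth idx).th d).1 ((initI G nb oth idx).th d).2 = d.1) ∨
    (G.degree (nb d.1 d.2) = 2 ∧ (initI G nb oth idx).kind d = .R ∧
      ((initI G nb oth idx).th d).1 = oth (nb d.1 d.2) d.1 ∧
      G.degree (oth (nb d.1 d.2) d.1) = 3 ∧ oth (nb d.1 d.2) d.1 ≠ d.1 ∧
      G.Adj (nb d.1 d.2) (oth (nb d.1 d.2) d.1) ∧
      nb ((initI G nb oth idx).th d).1 ((initI G nb oth idx).th d).2 = nb d.1 d.2) ∨
    (G.degree (nb d.1 d.2) ≠ 3 ∧ G.degree (nb d.1 d.2) ≠ 2 ∧ (initI G nb oth idx).kind d = .F ∧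
      (initI G nb oth idx).th d = d) := by
  have ha := init_adj hnb hd
  by_cases h3 : G.degree (nb d.1 d.2) = 3
  · refine Or.inl ⟨h3, init_k3 h3, ?_, ?_⟩
    · rw [init_th3 h3]
    · rw [init_th3 h3]
      exact hi _ _ h3 ha.symm
  · by_cases h2 : G.degree (nb d.1 d.2) = 2
    · obtain ⟨o1, o2, _⟩ := ho _ _ h2 ha.symm
      have hdeg := hT _ _ h2 o1
      refine Or.inr (Or.inl ⟨h2, init_k2 h2, ?_, hdeg, o2, o1, ?_⟩)
      · rw [init_th2 h2]
      · rw [init_th2 h2]
        exact hi _ _ hdeg o1.symm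
    · exact Or.inr (Or.inr ⟨h3, h2, init_k1 h3 h2, init_th1 h3 h2⟩)

theorem init_spread (hT : T1only G) (hc : CutConn G) (hnb : IsNb G nb)
    (ho : ∀ w v, G.degree w = 2 → G.Adj w v →
      G.Adj w (oth w v) ∧ oth w v ≠ v ∧ ∀ u, G.Adj w u → u = v ∨ u = oth w v)
    (hi : ∀ v w, G.degree v = 3 → G.Adj v w → nb v (idx v w) = w)
    (S : Set V) (hS : (initI G nb oth idx).Closed S) (hv : ∃ v ∈ (initI G nb oth idx).A, v ∈ S)
    (hF : ∀ d : Dart V, d.1 ∈ (initI G nb oth idx).A → d.1 ∈ S →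
      (initI G nb oth idx).kind d ≠ .F) :
    ∀ w, 1 ≤ G.degree w →
      (G.degree w = 3 ∧ w ∈ S) ∨ (G.degree w = 2 ∧ ∃ y, G.Adj w y ∧ y ∈ S) := by
  refine hc {w | (G.degree w = 3 ∧ w ∈ S) ∨ (G.degree w = 2 ∧ ∃ y, G.Adj w y ∧ y ∈ S)} ?_ ?_
  · intro x y hxy hx
    rcases hx with ⟨hx3, hxS⟩ | ⟨hx2, y0, hy0, hy0S⟩
    · have hn : nb (x, idx x y).1 (x, idx x y).2 = y := hi x y hx3 hxy
      have hmem : (x, idx x y).1 ∈ (initI G nb oth idx).A := (init_memA x).2 hx3
      rcases init_cases hT hnb ho hi (d := (x, idx x y)) hx3 with h | h | h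
      · left
        have h1 := hS _ hmem hxS
        rw [h.2.2.1] at h1
        have h0 := h.1
        rw [hn] at h0 h1
        exact ⟨h0, h1⟩
      · right
        have h0 := h.1
        rw [hn] at h0
        exact ⟨h0, x, hxy.symm, hxS⟩
      · exact absurd h.2.2.1 (hF _ hmem hxS)
    · left
      have hy3 := hT _ _ hx2 hxy
      have hy03 := hT _ _ hx2 hy0
      refine ⟨hy3, ?_⟩
      rcases (ho x y0 hx2 hy0).2.2 y hxy with h | h
      · rw [h]; exact hy0S
      · have hn : nb (y0, idx y0 x).1 (y0, idx y0 x).2 = x := hi y0 x hy03 hy0.symm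
        have hmem : (y0, idx y0 x).1 ∈ (initI G nb oth idx).A := (init_memA y0).2 hy03
        have h1 := hS _ hmem hy0S
        have h2 : G.degree (nb (y0, idx y0 x).1 (y0, idx y0 x).2) = 2 := by
          rw [hn]; exact hx2
        rw [init_th2 h2, hn] at h1
        rw [h]; exact h1
  · obtain ⟨v, hvA, hvS⟩ := hv
    have h3 := (init_memA v).1 hvA
    exact ⟨v, Or.inl ⟨h3, hvS⟩, by omega⟩

theorem init_wf (hT : T1only G) (hnb : IsNb G nb)
    (ho : ∀ w v, G.degree w = 2 → G.Adj w v →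
      G.Adj w (oth w v) ∧ oth w v ≠ v ∧ ∀ u, G.Adj w u → u = v ∨ u = oth w v)
    (hi : ∀ v w, G.degree v = 3 → G.Adj v w → nb v (idx v w) = w) (l : V → K) :
    ((initI G nb oth idx).withG (initG G nb l)).WF := by
  have key : ∀ a : Dart V, G.degree a.1 = 3 →
      G.degree ((initI G nb oth idx).th a).1 = 3 ∧
      (initI G nb oth idx).th ((initI G nb oth idx).th a) = a ∧
      (initI G nb oth idx).kind ((initI G nb oth idx).th a) = (initI G nb oth idx).kind a ∧
      initG G nb l ((initI G nb oth idx).th a) = initG G nb l a ∧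
      ((initI G nb oth idx).kind a = .F ↔ (initI G nb oth idx).th a = a) ∧
      ((initI G nb oth idx).kind a = .Z → initG G nb l a = 0) := by
    intro a ha
    have hadj := init_adj hnb ha
    rcases init_cases hT hnb ho hi ha with ⟨h0, hk, h1, h2⟩ | ⟨h0, hk, h1, h2, h3, h4, h5⟩ |
      ⟨h0, h0', hk, h1⟩
    · have hd : G.degree ((initI G nb oth idx).th a).1 = 3 := by rw [h1]; exact h0
      have hn : G.degree (nb ((initI G nb oth idx).th a).1 ((initI G nb oth idx).th a).2) = 3 := by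
        rw [h2]; exact ha
      refine ⟨hd, ?_, ?_, ?_, ?_, ?_⟩
      · refine init_ext hnb ha ?_ ?_
        · rw [init_th3 hn]; exact h2
        · rw [init_th3 hn]
          simp only [h2]
          rw [h1]
          exact hi _ _ ha hadj
      · rw [init_k3 hn, hk]
      · simp [initG, hn, h0]
      · rw [hk]
        refine ⟨fun h => (by cases h), fun h => ?_⟩
        rw [h] at h1
        exact absurd h1 hadj.ne
      · intro _
        simp [initG, h0]
    · have hd : G.degree ((initI G nb oth idx).th a).1 = 3 := by rw [h1]; exact h2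
      have hn : G.degree (nb ((initI G nb oth idx).th a).1 ((initI G nb oth idx).th a).2) = 2 := by
        rw [h5]; exact h0
      have hback : oth (nb a.1 a.2) (oth (nb a.1 a.2) a.1) = a.1 := by
        rcases (ho _ _ h0 h4).2.2 a.1 hadj.symm with h | h
        · exact absurd h.symm h3
        · exact h.symm
      refine ⟨hd, ?_, ?_, ?_, ?_, ?_⟩
      · refine init_ext hnb ha ?_ ?_
        · rw [init_th2 hn]
          simp only [h5]
          rw [h1]; exact hback
        · rw [init_th2 hn]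
          simp only [h5]
          rw [h1, hback]
          exact hi _ _ ha hadj
      · rw [init_k2 hn, hk]
      · unfold initG
        rw [h5]
      · rw [hk]
        refine ⟨fun h => (by cases h), fun h => ?_⟩
        rw [h] at h1
        exact absurd h1.symm h3
      · intro h
        rw [hk] at h
        cases h
    · refine ⟨by rw [h1]; exact ha, by rw [h1, h1], by rw [h1], by rw [h1], ?_, ?_⟩
      · exact ⟨fun _ => h1, fun _ => hk⟩
      · intro h
        rw [hk] at h
        cases h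
  exact
    { mem := fun a ha => (init_memB _).2 (key a ((init_memB _).1 ha)).1
      inv := fun a ha => (key a ((init_memB _).1 ha)).2.1
      kind_th := fun a ha => (key a ((init_memB _).1 ha)).2.2.1
      g_th := fun a ha => (key a ((init_memB _).1 ha)).2.2.2.1
      free := fun a ha => (key a ((init_memB _).1 ha)).2.2.2.2.1
      gZ := fun a ha => (key a ((init_memB _).1 ha)).2.2.2.2.2 }

theorem init_lc (hT : T1only G) (h3 : Sub3 G) (hnb : IsNb G nb)
    (ho : ∀ w v, G.degree w = 2 → G.Adj w v →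
      G.Adj w (oth w v) ∧ oth w v ≠ v ∧ ∀ u, G.Adj w u → u = v ∨ u = oth w v)
    (hi : ∀ v w, G.degree v = 3 → G.Adj v w → nb v (idx v w) = w) (l : V → K) :
    Lc G nb ((initI G nb oth idx).withG (initG G nb l)) id l := by
  classical
  intro x hx
  have hx' : ∀ a : Dart V, G.degree a.1 = 3 →
      (initI G nb oth idx).kind a = .R ∨ (initI G nb oth idx).kind a = .Z →
      x ((initI G nb oth idx).th a) = x a + initG G nb l a :=
    fun a ha hk => hx a ((init_memB _).2 ha) hk
  obtain ⟨k, hkdef⟩ : ∃ k : Sym2 V → K, k = fun e =>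
      if h : ∃ d : Dart V, G.degree d.1 = 3 ∧ e = s(d.1, nb d.1 d.2) then x h.choose else 0 :=
    ⟨_, rfl⟩
  have hk : ∀ d : Dart V, G.degree d.1 = 3 → k s(d.1, nb d.1 d.2) = x d := by
    intro d hd
    have hex : ∃ d' : Dart V, G.degree d'.1 = 3 ∧ s(d.1, nb d.1 d.2) = s(d'.1, nb d'.1 d'.2) :=
      ⟨d, hd, rfl⟩
    simp only [hkdef, dif_pos hex]
    obtain ⟨c1, c2⟩ := hex.choose_spec
    generalize hex.choose = d' at c1 c2 ⊢
    rcases Sym2.eq_iff.1 c2 with ⟨e1, e2⟩ | ⟨e1, e2⟩
    · rw [init_ext hnb hd e1.symm e2.symm]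
    · have h0 : G.degree (nb d.1 d.2) = 3 := by rw [e2]; exact c1
      have hth : (initI G nb oth idx).th d = d' := by
        refine init_ext hnb c1 ?_ ?_
        · rw [init_th3 h0]; exact e2
        · rw [init_th3 h0, ← e1]
          exact hi _ _ h0 (init_adj hnb hd).symm
      have := hx' d hd (Or.inr (init_k3 h0))
      rw [hth] at this
      rw [this]
      simp [initG, h0]
  refine ⟨k, fun d hd => hk d ((init_memB _).1 hd), fun v hv h2 => ?_⟩
  have hv3 : G.degree v ≠ 3 := fun h => hv ((init_memB v).2 h)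
  have hv2 : G.degree v = 2 := by have := h3 v; omega
  obtain ⟨y, hy⟩ := (G.degree_pos_iff_exists_adj v).1 (by omega)
  obtain ⟨o1, o2, o3⟩ := ho v y hv2 hy
  have hy3 := hT _ _ hv2 hy
  have ho3 := hT _ _ hv2 o1
  have hset : (G.neighborFinset v).erase (id v) = {y, oth v y} := by
    ext u
    simp only [Finset.mem_erase, SimpleGraph.mem_neighborFinset, Finset.mem_insert,
      Finset.mem_singleton, id]
    constructor
    · exact fun h => o3 u h.2
    · rintro (h | h)
      · rw [h]; exact ⟨hy.ne.symm, hy⟩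
      · rw [h]; exact ⟨o1.ne.symm, o1⟩
  rw [hset, Finset.sum_pair o2.symm]
  have n1 : nb (y, idx y v).1 (y, idx y v).2 = v := hi y v hy3 hy.symm
  have n2 : nb (oth v y, idx (oth v y) v).1 (oth v y, idx (oth v y) v).2 = v := hi _ v ho3 o1.symm
  have k1 := hk (y, idx y v) hy3
  have k2 := hk (oth v y, idx (oth v y) v) ho3
  have h2' : G.degree (nb (y, idx y v).1 (y, idx y v).2) = 2 := by
    rw [n1]; exact hv2
  have k3 := hx' (y, idx y v) hy3 (Or.inl (init_k2 h2'))
  rw [init_th2 h2'] at k3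
  have hg : initG G nb l (y, idx y v) = l v := by
    unfold initG
    rw [n1, if_pos hv2]
  rw [hg] at k3
  have s1 : s(v, y) = s((y, idx y v).1, nb (y, idx y v).1 (y, idx y v).2) := by
    rw [n1]; exact Sym2.eq_swap
  have s2 : s(v, oth v y) = s((oth v y, idx (oth v y) v).1,
      nb (oth v y, idx (oth v y) v).1 (oth v y, idx (oth v y) v).2) := by
    rw [n2]; exact Sym2.eq_swap
  rw [s1, s2, k1, k2]
  rw [n1] at k3
  rw [k3, ← add_assoc, K_add_self, zero_add]

end

/-- The starting skeleton: empty matching, vertices of degree two suppressed. -/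
theorem init (h3 : Sub3 G) (hT : T1only G) (hc : CutConn G) {nb : V → Fin 3 → V}
    (hnb : IsNb G nb) :
    ∃ I : Inst V, St0 G nb I id ∧ St1 G I id ∧ All G nb I id := by
  obtain ⟨oth, ho⟩ := init_oth G
  obtain ⟨idx, hi⟩ := init_idx hnb
  have hnoF : NoLeaf G → (initI G nb oth idx).NoK .F := by
    intro hl a ha hk
    have ha3 := (init_memA _).1 ha
    have hpos : 0 < G.degree (nb a.1 a.2) :=
      (G.degree_pos_iff_exists_adj _).2 ⟨_, (init_adj hnb ha3).symm⟩
    rcases init_cases hT hnb ho hi ha3 with h | h | h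
    · rw [h.2.1] at hk; cases hk
    · rw [h.2.1] at hk; cases hk
    · have h1 := h.1
      have h2 := h.2.1
      have h4 := h3 (nb a.1 a.2)
      have h5 := hl (nb a.1 a.2)
      omega
  refine ⟨initI G nb oth idx, ⟨fun v => ?_, fun d hd => ?_, fun d hd hk => ?_, fun a ha hk => ?_⟩,
    ⟨fun a ha hk => ?_, hnoF, fun hl S hS hv v hvA => ?_, fun _ S hS d hd hk hdS => ?_,
      fun _ S hS v hvS h2 => ?_, fun hl S hS hv => ?_⟩,
    fun l => ⟨initG G nb l, init_wf hT hnb ho hi l, init_lc hT h3 hnb ho hi l⟩⟩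
  · rw [init_memA]; simp
  · rw [init_memA]
    rcases init_cases hT hnb ho hi ((init_memA _).1 hd) with h | h | h
    · exact ⟨fun _ => h.1, fun _ => h.2.1⟩
    · refine ⟨fun hk => ?_, fun hk => ?_⟩
      · rw [h.2.1] at hk; cases hk
      · have := h.1; omega
    · refine ⟨fun hk => ?_, fun hk => absurd hk h.1⟩
      rw [h.2.2.1] at hk; cases hk
  · rcases init_cases hT hnb ho hi ((init_memA _).1 hd) with h | h | h
    · exact ⟨h.2.2.1, h.2.2.2⟩
    · rw [h.2.1] at hk; cases hk
    · rw [h.2.2.1] at hk; cases hk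
  · rcases init_cases hT hnb ho hi ((init_memA _).1 ha) with h | h | h
    · rw [h.2.1] at hk; cases hk
    · rw [h.2.1] at hk; cases hk
    · rw [h.2.2.1] at hk; cases hk
  · have ha3 := (init_memA _).1 ha
    rcases init_cases hT hnb ho hi ha3 with h | h | h
    · rw [h.2.2.1]; exact (init_adj hnb ha3).ne.symm
    · rw [h.2.2.1]; exact h.2.2.2.2.1
    · exact absurd h.2.2.1 hk
  · have hv3 := (init_memA _).1 hvA
    rcases init_spread hT hc hnb ho hi S hS hv (fun d hd _ => hnoF hl d hd) v (by omega) with h | h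
    · exact h.2
    · have := h.1; omega
  · have hd3 := (init_memA _).1 hd
    have hadj := init_adj hnb hd3
    rcases init_cases hT hnb ho hi hd3 with h | h | h
    · rw [h.2.1] at hk; cases hk
    · have hnot : nb d.1 d.2 ∉ (initI G nb oth idx).A := by
        rw [init_memA]; have := h.1; omega
      have h1 : nb d.1 d.2 ∈ S := hS _ _ hadj hadj.ne.symm (fun hh => hnot hh.2) hdS
      rw [h.2.2.1]
      exact hS _ _ h.2.2.2.2.2.1 h.2.2.2.2.2.1.ne.symm (fun hh => hnot hh.1) h1
    · rw [h.2.2.1] at hk; cases hk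
  · by_cases hv3 : G.degree v = 3
    · exact ⟨v, (init_memA v).2 hv3, hvS⟩
    · have hv2 : G.degree v = 2 := by have := h3 v; omega
      obtain ⟨y, hy⟩ := (G.degree_pos_iff_exists_adj v).1 (by omega)
      exact ⟨y, (init_memA y).2 (hT _ _ hv2 hy),
        hS _ _ hy hy.ne.symm (fun hh => hv3 ((init_memA v).1 hh.1)) hvS⟩
  · by_contra hno
    have hF : ∀ d : Dart V, d.1 ∈ (initI G nb oth idx).A → d.1 ∈ S →
        (initI G nb oth idx).kind d ≠ .F := fun d h1 h2 h4 => hno ⟨d, h1, h2, h4⟩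
    apply hl
    intro w hw
    rcases init_spread hT hc hnb ho hi S hS hv hF w (by omega) with h | h
    · have := h.1; omega
    · have := h.1; omega

end Pool.Agent.P.MP_0ad50f_co.SC
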