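import Pool.Agent.P.MP_0ad50f_co.SC.Reach

namespace Pool.Agent.P.MP_0ad50f_co.SC

variable {V : Type} [DecidableEq V]

theorem lb_set (x : Dart V → K) {a b c : Dart V} (h3 : Three a b c) (s t v : K) :
    ∃ y : Dart V → K, y a = s ∧ y b = t ∧ y c = v ∧ ∀ d : Dart V, d.1 ≠ a.1 → y d = x d := by
  obtain ⟨hb, hc, hab, hac, hbc⟩ := h3
  refine ⟨fun d => if d = a then s else if d = b then t else if d = c then v else x d,
    by simp, by simp [hab.symm], by simp [hac.symm, hbc.symm], ?_⟩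
  intro d hd
  have h1 : d ≠ a := fun h => hd (by rw [h])
  have h2 : d ≠ b := fun h => hd (by rw [h, hb])
  have h3 : d ≠ c := fun h => hd (by rw [h, hc])
  simp [h1, h2, h3]

theorem lb_set3 (x : Dart V → K) {a b c e f g p q r : Dart V} (h1 : Three a b c)
    (h2 : Three e f g) (h3 : Three p q r) (hea : e.1 ≠ a.1) (hpa : p.1 ≠ a.1) (hpe : p.1 ≠ e.1)
    (va vb vc ve vf vg vp vq vr : K) :
    ∃ y : Dart V → K, (y a = va ∧ y b = vb ∧ y c = vc) ∧ (y e = ve ∧ y f = vf ∧ y g = vg) ∧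
      (y p = vp ∧ y q = vq ∧ y r = vr) ∧
      ∀ d : Dart V, d.1 ≠ a.1 → d.1 ≠ e.1 → d.1 ≠ p.1 → y d = x d := by
  obtain ⟨y1, a1, b1, c1, o1⟩ := lb_set x h1 va vb vc
  obtain ⟨y2, a2, b2, c2, o2⟩ := lb_set y1 h2 ve vf vg
  obtain ⟨y3, a3, b3, c3, o3⟩ := lb_set y2 h3 vp vq vr
  have hu : ∀ d : Dart V, d.1 = a.1 → y3 d = y1 d := fun d hd => by
    rw [o3 d (by rw [hd]; exact hpa.symm), o2 d (by rw [hd]; exact hea.symm)]
  have hz : ∀ d : Dart V, d.1 = e.1 → y3 d = y2 d := fun d hd => by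
    rw [o3 d (by rw [hd]; exact hpe.symm)]
  refine ⟨y3, ⟨?_, ?_, ?_⟩, ⟨?_, ?_, ?_⟩, ⟨a3, b3, c3⟩, ?_⟩
  · rw [hu a rfl, a1]
  · rw [hu b h1.1, b1]
  · rw [hu c h1.2.1, c1]
  · rw [hz e rfl, a2]
  · rw [hz f h2.1, b2]
  · rw [hz g h2.2.1, c2]
  · intro d d1 d2 d3
    rw [o3 d d3, o2 d d2, o1 d d1]

theorem lb_aa (x y : K) : x + y + y = x := by
  rw [add_assoc, K_add_self, add_zero]

set_option synthInstance.maxSize 100000 in
theorem lb_K1z : ∀ za ze : Bool, ∀ ga : K, (za = true → ga = 0) → ∀ ge : K,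
    (ze = true → ge = 0) → ∀ lam gc : K,
    ∃ P : K, P ≠ 0 ∧ ∃ Q : K, (P ≠ Q ∧ Q ≠ 0 ∧ P + Q ≠ lam) ∧ ∃ yc : K,
      (P + ga ≠ yc ∧ Q + ge ≠ yc + gc ∧ P + ga + yc ≠ Q + ge + (yc + gc)) ∧ ∃ yb : K,
      P + ga ≠ yb ∧ yb ≠ yc ∧ Q + ge ≠ yb ∧ yb ≠ yc + gc ∧ (za = true → yb + yc ≠ Q) ∧
      (ze = true → yb + (yc + gc) ≠ P) := by
  decide +kernel

theorem lb_K1 : ∀ xr lam ga ge gc : K, ∀ za ze : Bool, (za = true → ga = 0) → (ze = true → ge = 0) →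
    ∃ P Q yb yc : K, P ≠ Q ∧ P ≠ xr ∧ Q ≠ xr ∧ P + Q ≠ lam ∧
      (P + ga ≠ yb ∧ P + ga ≠ yc ∧ yb ≠ yc) ∧
      (Q + ge ≠ yb ∧ Q + ge ≠ yc + gc ∧ yb ≠ yc + gc) ∧
      P + ga + yc ≠ Q + ge + (yc + gc) ∧ (za = true → yb + yc ≠ Q + xr) ∧
      (ze = true → yb + (yc + gc) ≠ P + xr) := by
  intro xr lam ga ge gc za ze h1 h2
  obtain ⟨P, k1, Q, ⟨k2, k3, k4⟩, yc, ⟨k5, k6, k7⟩, yb, k8, k9, k10, k11, k12, k13⟩ :=
    lb_K1z za ze ga h1 ge h2 lam gc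
  have hx := K_add_self xr
  exact ⟨P + xr, Q + xr, yb + xr, yc + xr, fun h => k2 (by linear_combination h),
    fun h => k1 (by linear_combination h), fun h => k3 (by linear_combination h),
    fun h => k4 (by linear_combination h - hx),
    ⟨fun h => k8 (by linear_combination h), fun h => k5 (by linear_combination h),
      fun h => k9 (by linear_combination h)⟩,
    ⟨fun h => k10 (by linear_combination h), fun h => k6 (by linear_combination h),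
      fun h => k11 (by linear_combination h)⟩,
    fun h => k7 (by linear_combination h), fun hz h => k12 hz (by linear_combination h),
    fun hz h => k13 hz (by linear_combination h)⟩

set_option synthInstance.maxSize 100000 in
theorem lb_K2z : ∀ ze : Bool, ∀ ge : K, (ze = true → ge = 0) → ∀ gb gc : K,
    ¬ (ze = true ∧ gb = gc ∧ gb ≠ 0) → ∀ lam : K,
    ∃ P : K, P ≠ 0 ∧ ∃ Q : K, (P ≠ Q ∧ Q ≠ 0 ∧ P + Q ≠ lam) ∧ ∃ yc : K,
      (P ≠ yc ∧ Q + ge ≠ yc + gc) ∧ ∃ yb : K,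
      P ≠ yb ∧ yb ≠ yc ∧ Q + ge ≠ yb + gb ∧ yb + gb ≠ yc + gc ∧ yb + yc ≠ Q ∧
      (ze = true → yb + gb + (yc + gc) ≠ P) := by
  decide +kernel

theorem lb_K2 : ∀ xr lam ge gb gc : K, ∀ ze : Bool, (ze = true → ge = 0) →
    ¬ (ze = true ∧ gb = gc ∧ gb ≠ 0) →
    ∃ P Q yb yc : K, P ≠ Q ∧ P ≠ xr ∧ Q ≠ xr ∧ P + Q ≠ lam ∧
      (P ≠ yb ∧ P ≠ yc ∧ yb ≠ yc) ∧
      (Q + ge ≠ yb + gb ∧ Q + ge ≠ yc + gc ∧ yb + gb ≠ yc + gc) ∧
      yb + yc ≠ Q + xr ∧ (ze = true → yb + gb + (yc + gc) ≠ P + xr) := by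
  intro xr lam ge gb gc ze h1 h2
  obtain ⟨P, k1, Q, ⟨k2, k3, k4⟩, yc, ⟨k5, k6⟩, yb, k8, k9, k10, k11, k12, k13⟩ :=
    lb_K2z ze ge h1 gb gc h2 lam
  have hx := K_add_self xr
  exact ⟨P + xr, Q + xr, yb + xr, yc + xr, fun h => k2 (by linear_combination h),
    fun h => k1 (by linear_combination h), fun h => k3 (by linear_combination h),
    fun h => k4 (by linear_combination h - hx),
    ⟨fun h => k8 (by linear_combination h), fun h => k5 (by linear_combination h),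
      fun h => k9 (by linear_combination h)⟩,
    ⟨fun h => k10 (by linear_combination h), fun h => k6 (by linear_combination h),
      fun h => k11 (by linear_combination h)⟩,
    fun h => k12 (by linear_combination h), fun hz h => k13 hz (by linear_combination h)⟩

set_option synthInstance.maxSize 100000 in
theorem lb_K3 : ∀ P mu t s : K, mu ≠ 0 → (P = t + s ∨ P + (t + s) = mu) →
    ∃ yb yc : K, yb + yc = mu ∧ (P ≠ yb ∧ P ≠ yc ∧ yb ≠ yc) ∧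
      (t ≠ yb + s ∧ t ≠ yc + s ∧ yb + s ≠ yc + s) ∧ yb + s + (yc + s) = mu := by
  decide +kernel

set_option synthInstance.maxSize 100000 in
theorem lb_K4a : ∀ x1 x2 T kap : K, x1 ≠ x2 → ∃ P mu : K, (P ≠ x1 ∧ P ≠ x2) ∧
    mu ≠ 0 ∧ mu ≠ kap ∧ mu ≠ x1 + x2 ∧ (P = T ∨ P + T = mu) := by
  decide +kernel

set_option synthInstance.maxSize 100000 in
theorem lb_K4b : ∀ x1 l2 T kap : K, ∃ P y2 mu : K, (P ≠ x1 ∧ P ≠ y2 ∧ x1 ≠ y2) ∧ P + x1 ≠ l2 ∧
    mu ≠ 0 ∧ mu ≠ kap ∧ mu ≠ x1 + y2 ∧ (P = T ∨ P + T = mu) := by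
  decide +kernel

set_option synthInstance.maxSize 100000 in
theorem lb_K4c : ∀ l1 l2 T kap : K, ∃ P y1 y2 mu : K, (P ≠ y1 ∧ P ≠ y2 ∧ y1 ≠ y2) ∧
    P + y2 ≠ l1 ∧ P + y1 ≠ l2 ∧
    mu ≠ 0 ∧ mu ≠ kap ∧ mu ≠ y1 + y2 ∧ (P = T ∨ P + T = mu) := by
  decide +kernel

theorem lb_K4 (x1 x2 l1 l2 T kap : K) (m1 m2 : Prop) (hx : x1 ≠ x2) :
    ∃ P y1 y2 mu : K, (P ≠ y1 ∧ P ≠ y2 ∧ y1 ≠ y2) ∧
      (m1 → y1 = x1) ∧ (¬ m1 → P + y2 ≠ l1) ∧ (m2 → y2 = x2) ∧ (¬ m2 → P + y1 ≠ l2) ∧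
      mu ≠ 0 ∧ mu ≠ kap ∧ mu ≠ y1 + y2 ∧ (P = T ∨ P + T = mu) := by
  by_cases h1 : m1 <;> by_cases h2 : m2
  · obtain ⟨P, mu, ⟨k1, k2⟩, k⟩ := lb_K4a x1 x2 T kap hx
    exact ⟨P, x1, x2, mu, ⟨k1, k2, hx⟩, fun _ => rfl, fun h => absurd h1 h, fun _ => rfl,
      fun h => absurd h2 h, k⟩
  · obtain ⟨P, y2, mu, k1, k2, k⟩ := lb_K4b x1 l2 T kap
    exact ⟨P, x1, y2, mu, k1, fun _ => rfl, fun h => absurd h1 h, fun h => absurd h h2,
      fun _ => k2, k⟩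
  · obtain ⟨P, y1, mu, ⟨k1, k1', k1''⟩, k2, k3, k4, k5, k6⟩ := lb_K4b x2 l1 T kap
    exact ⟨P, y1, x2, mu, ⟨k1', k1, k1''.symm⟩, fun h => absurd h h1, fun _ => k2, fun _ => rfl,
      fun h => absurd h2 h, k3, k4, by rw [add_comm y1 x2]; exact k5, k6⟩
  · obtain ⟨P, y1, y2, mu, k1, k2, k3, k⟩ := lb_K4c l1 l2 T kap
    exact ⟨P, y1, y2, mu, k1, fun h => absurd h h1, fun _ => k2, fun h => absurd h h2,
      fun _ => k3, k⟩

namespace Inst

/-- A dart outside `X` whose partner is outside `X` keeps its condition. -/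
theorem lb_ok_rem {I : Inst V} {X : Finset V} {x : Dart V → K} (hx : (I.rem X).Sol x)
    {d : Dart V} (hd : d.1 ∈ I.A) (hdX : d.1 ∉ X) (ht : (I.th d).1 ∉ X) : I.Ok x d := by
  have := hx.2 d (by simp [rem, hd, hdX])
  simpa [Ok, rem, ht] using this

/-- Lifting over the three vertices of `a`, `e` and `th a`. -/
theorem lb_lift {I : Inst V} (h : I.WF) {a b c e q r : Dart V} (ha : a.1 ∈ I.A)
    (h3 : Three a b c) (h3' : Three e (I.th b) (I.th c)) (h3w : Three (I.th a) q r)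
    {x y : Dart V → K} (hx : (I.rem {a.1, e.1}).Sol x)
    (hy : ∀ d : Dart V, d.1 ≠ a.1 → d.1 ≠ e.1 → d.1 ≠ (I.th a).1 → y d = x d)
    (i1 : y a ≠ y b ∧ y a ≠ y c ∧ y b ≠ y c)
    (i2 : y e ≠ y (I.th b) ∧ y e ≠ y (I.th c) ∧ y (I.th b) ≠ y (I.th c))
    (i3 : y (I.th a) ≠ y q ∧ y (I.th a) ≠ y r ∧ y q ≠ y r)
    (oa : I.Ok y a) (ob : I.Ok y b) (oc : I.Ok y c) (oe : I.Ok y e) (oq : I.Ok y q)
    (or : I.Ok y r) : I.Solv := by
  have hb : b.1 ∈ I.A := by rw [h3.1]; exact ha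
  have hc : c.1 ∈ I.A := by rw [h3.2.1]; exact ha
  refine ⟨y, sol_of_rem h {a.1, e.1, (I.th a).1}
    (sol_rem_mono (by intro v; simp only [Finset.mem_insert, Finset.mem_singleton]; tauto) hx)
    ?_ ?_ ?_⟩
  · intro d hd
    simp only [Finset.mem_insert, Finset.mem_singleton, not_or] at hd
    exact hy d hd.1 hd.2.1 hd.2.2
  · intro v hv _
    simp only [Finset.mem_insert, Finset.mem_singleton] at hv
    rcases hv with rfl | rfl | rfl
    · exact (h3.inj_iff y).2 i1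
    · exact (h3'.inj_iff y).2 i2
    · exact (h3w.inj_iff y).2 i3
  · intro d hd _
    simp only [Finset.mem_insert, Finset.mem_singleton] at hd
    rcases hd with hd | hd | hd
    · rcases h3.cases d hd with rfl | rfl | rfl
      exacts [oa, ob, oc]
    · rcases h3'.cases d hd with rfl | rfl | rfl
      exacts [oe, ok_th h hb ob, ok_th h hc oc]
    · rcases h3w.cases d hd with rfl | rfl | rfl
      exacts [ok_th h ha oa, oq, or]

theorem lb_core {I : Inst V} (h : I.WF) {a b c e : Dart V} (ha : a.1 ∈ I.A)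
    (h3 : Three a b c) (hz : e.1 ≠ a.1) (h3' : Three e (I.th b) (I.th c))
    (hka : I.kind a = .R ∨ I.kind a = .Z) (hke : I.kind e = .R ∨ I.kind e = .Z)
    (hkb : I.kind b = .R ∨ I.kind b = .Z) (hkc : I.kind c = .R)
    (hc : (I.th a).1 = (I.th e).1) (hne : I.th a ≠ e) (hs : (I.rem {a.1, e.1}).Solv)
    (hK : ∀ xr lam : K, ∃ P Q yb yc : K, P ≠ Q ∧ P ≠ xr ∧ Q ≠ xr ∧ P + Q ≠ lam ∧
      (P + I.g a ≠ yb ∧ P + I.g a ≠ yc ∧ yb ≠ yc) ∧
      (Q + I.g e ≠ yb + I.g b ∧ Q + I.g e ≠ yc + I.g c ∧ yb + I.g b ≠ yc + I.g c) ∧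
      (I.kind b = .Z → P + I.g a + yc ≠ Q + I.g e + (yc + I.g c)) ∧
      (I.kind a = .Z → yb + yc ≠ Q + xr) ∧
      (I.kind e = .Z → yb + I.g b + (yc + I.g c) ≠ P + xr)) : I.Solv := by
  obtain ⟨x, hx⟩ := hs
  have hb : b.1 ∈ I.A := by rw [h3.1]; exact ha
  have he : e.1 ∈ I.A := by rw [← h3'.1]; exact h.mem b hb
  have haF : I.kind a ≠ .F := by rcases hka with k | k <;> simp [k]
  obtain ⟨hwu, hwz⟩ := outer_out h ha h3 hz h3' haF hne
  have hpq : I.th a ≠ I.th e := fun hh => hz (by rw [h.th_inj ha he hh])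
  obtain ⟨r, hr⟩ := Three.third hc hpq
  have h3w : Three (I.th a) (I.th e) r := hr.rot.swap
  have h3q : Three (I.th e) (I.th a) r := h3w.rot
  have hrw : r.1 = (I.th a).1 := h3w.2.1
  have hrA : r.1 ∈ I.A := by rw [hrw]; exact h.mem a ha
  have hru : r.1 ≠ a.1 := by rw [hrw]; exact hwu
  have hrz : r.1 ≠ e.1 := by rw [hrw]; exact hwz
  have hto : ¬ ((I.th r).1 = a.1 ∨ (I.th r).1 = e.1) := fun hh => by
    rcases leave h ha h3 h3' hrA hru hrz hh with k | k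
    · exact hr.2.2.1 k
    · exact hr.2.2.2.1 k
  obtain ⟨P, Q, yb, yc, k1, k2, k3, k4, k5, k6, k7, k8, k9⟩ := hK (x r) (lab x (I.th r))
  obtain ⟨y, ⟨ya, yb', yc'⟩, ⟨ye, yf, yg⟩, ⟨yp, yq, yr⟩, hy⟩ := lb_set3 x h3 h3' h3w hz hwu hwz
    (P + I.g a) yb yc (Q + I.g e) (yb + I.g b) (yc + I.g c) P Q (x r)
  have oe : I.Ok y e := by
    refine ⟨fun _ => by rw [yq, ye, lb_aa], fun k => ?_⟩
    have k' : I.kind e = .Z := by rcases hke with j | j <;> simp_all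
    rw [h3'.lab_eq, h3q.lab_eq, yf, yg, yp, yr]
    exact k9 k'
  refine lb_lift h ha h3 h3' h3w hx hy (by rw [ya, yb', yc']; exact k5)
    (by rw [ye, yf, yg]; exact k6) (by rw [yp, yq, yr]; exact ⟨k1, k2, k3⟩) ?_ ?_ ?_ oe
    (ok_th h he oe) ?_
  · refine ⟨fun _ => by rw [yp, ya, lb_aa], fun k => ?_⟩
    have k' : I.kind a = .Z := by rcases hka with j | j <;> simp_all
    rw [h3.lab_eq, h3w.lab_eq, yb', yc', yq, yr]
    exact k8 k'
  · refine ⟨fun _ => by rw [yf, yb'], fun k => ?_⟩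
    have k' : I.kind b = .Z := by rcases hkb with j | j <;> simp_all
    rw [h3.rot.lab_eq, h3'.rot.lab_eq, ya, yc', ye, yg]
    exact k7 k'
  · exact ⟨fun _ => by rw [yg, yc'], fun k => by simp [hkc] at k⟩
  · by_cases hF : I.kind r = .F
    · exact ⟨fun k => by simp [hF] at k, fun k => by simp [hF] at k⟩
    have htw : (I.th r).1 ≠ (I.th a).1 := fun hh => by
      rcases h3w.cases _ hh with k | k | k
      · exact hru (by rw [h.th_inj hrA ha k])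
      · exact hrz (by rw [h.th_inj hrA he k])
      · exact hF ((h.free r hrA).2 k)
    rw [not_or] at hto
    have hox : I.Ok x r := lb_ok_rem hx hrA (by simp [hru, hrz]) (by simp [hto.1, hto.2])
    refine ⟨fun k => by rw [hy _ hto.1 hto.2 htw, yr]; exact hox.1 k, fun _ => ?_⟩
    rw [hr.lab_eq, yp, yq, lab_congr (x := x) (y := y) (a := I.th r)
      (fun d hd => hy d (by rw [hd]; exact hto.1) (by rw [hd]; exact hto.2)
        (by rw [hd]; exact htw))]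
    exact k4

theorem lift_T1 {I : Inst V} (h : I.WF) {a b c e : Dart V} (hd : I.Gad a b c e)
    (hs : (I.rem {a.1, e.1}).Solv) : I.Solv := by
  obtain ⟨ha, h3, hkb, hkc, hz, h3', hka, hke, hc, hne⟩ := hd
  have hb : b.1 ∈ I.A := by rw [h3.1]; exact ha
  have he : e.1 ∈ I.A := by rw [← h3'.1]; exact h.mem b hb
  refine lb_core h ha h3 hz h3' hka hke (Or.inr hkb) hkc hc hne hs fun xr lam => ?_
  obtain ⟨P, Q, yb, yc, k1, k2, k3, k4, k5, k6, k7, k8, k9⟩ :=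
    lb_K1 xr lam (I.g a) (I.g e) (I.g c) (decide (I.kind a = .Z)) (decide (I.kind e = .Z))
      (fun k => h.gZ a ha (of_decide_eq_true k)) (fun k => h.gZ e he (of_decide_eq_true k))
  rw [h.gZ b hb hkb]
  refine ⟨P, Q, yb, yc, k1, k2, k3, k4, k5, by simpa using k6, fun _ => k7,
    fun k => k8 (decide_eq_true k), fun k => ?_⟩
  rw [add_zero]
  exact k9 (decide_eq_true k)

theorem lift_T2 {I : Inst V} (h : I.WF) {a b c e : Dart V} (hd : I.Dig a b c e)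
    (hk : I.kind a = .Z) (hke : I.kind e = .R ∨ I.kind e = .Z) (hc : (I.th a).1 = (I.th e).1)
    (hne : I.th a ≠ e) (hb : ¬ I.Bad a b c e) (hs : (I.rem {a.1, e.1}).Solv) : I.Solv := by
  have hd' := hd
  obtain ⟨ha, h3, hkb, hkc, hz, h3'⟩ := hd
  have hb' : b.1 ∈ I.A := by rw [h3.1]; exact ha
  have he : e.1 ∈ I.A := by rw [← h3'.1]; exact h.mem b hb'
  refine lb_core h ha h3 hz h3' (Or.inr hk) hke (Or.inl hkb) hkc hc hne hs fun xr lam => ?_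
  obtain ⟨P, Q, yb, yc, k1, k2, k3, k4, k5, k6, k7, k8⟩ :=
    lb_K2 xr lam (I.g e) (I.g b) (I.g c) (decide (I.kind e = .Z))
      (fun k => h.gZ e he (of_decide_eq_true k))
      (fun k => hb ⟨hd', hk, of_decide_eq_true k.1, hc, hne, k.2.1, k.2.2⟩)
  rw [h.gZ a ha hk]
  exact ⟨P, Q, yb, yc, k1, k2, k3, k4, by simpa using k5, k6, fun k => by simp [hkb] at k,
    fun _ => k7, fun k => k8 (decide_eq_true k)⟩

/-- The condition at one of the two other darts at the vertex of `th a`. -/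
theorem lb_side {I : Inst V} (h : I.WF) {a e r1 r2 : Dart V} (ha : a.1 ∈ I.A)
    (h3w : Three (I.th a) r1 r2) (hwu : (I.th a).1 ≠ a.1) (hwz : (I.th a).1 ≠ e.1)
    {x y : Dart V → K} (hx : (I.rem {a.1, e.1}).Sol x)
    (hy : ∀ d : Dart V, d.1 ≠ a.1 → d.1 ≠ e.1 → d.1 ≠ (I.th a).1 → y d = x d)
    (i3 : y (I.th a) ≠ y r1 ∧ y (I.th a) ≠ y r2 ∧ y r1 ≠ y r2)
    (hto : ¬ ((I.th r1).1 = a.1 ∨ (I.th r1).1 = e.1)) (hZ : I.kind r1 ≠ .Z)
    (m1 : I.kind r1 = .R → y r1 = x r1) (m2 : I.kind r2 = .R → y r2 = x r2)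
    (hl : ¬ I.kind r1 = .R → y (I.th a) + y r2 ≠ lab x (I.th r1)) : I.Ok y r1 := by
  have hrw : r1.1 = (I.th a).1 := h3w.1
  have hrA : r1.1 ∈ I.A := by rw [hrw]; exact h.mem a ha
  have hru : r1.1 ≠ a.1 := by rw [hrw]; exact hwu
  have hrz : r1.1 ≠ e.1 := by rw [hrw]; exact hwz
  by_cases hF : I.kind r1 = .F
  · exact ⟨fun k => by simp [hF] at k, fun k => by simp [hF] at k⟩
  rw [not_or] at hto
  have hox : I.Ok x r1 := lb_ok_rem hx hrA (by simp [hru, hrz]) (by simp [hto.1, hto.2])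
  by_cases htw : (I.th r1).1 = (I.th a).1
  · have hloop : I.th r1 = r2 := by
      rcases h3w.cases _ htw with k | k | k
      · exact absurd (by rw [h.th_inj hrA ha k]) hru
      · exact absurd ((h.free r1 hrA).2 k) hF
      · exact k
    refine ⟨fun k => ?_, fun _ => ?_⟩
    · have k' : I.kind r1 = .R := k.resolve_right hZ
      have k2 : I.kind r2 = .R := by rw [← hloop, h.kind_th r1 hrA, k']
      have := hox.1 k
      rw [hloop] at this ⊢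
      rw [m1 k', m2 k2, this]
    · rw [hloop]
      refine lab_ne ?_ (by rw [h3w.2.1, hrw]) h3w.2.2.2.2
      rw [hrw]
      exact (h3w.inj_iff y).2 i3
  · refine ⟨fun k => ?_, fun k => ?_⟩
    · rw [hy _ hto.1 hto.2 htw, m1 (k.resolve_right hZ)]
      exact hox.1 k
    · rw [h3w.rot.lab_eq, lab_congr (x := x) (y := y) (a := I.th r1)
        (fun d hd => hy d (by rw [hd]; exact hto.1) (by rw [hd]; exact hto.2)
          (by rw [hd]; exact htw))]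
      exact hl (by rcases k with k | k <;> simp [k])

theorem lift_D0f {I : Inst V} (h : I.WF) {a b c e : Dart V} (hd : I.Dig a b c e)
    (hk : I.kind a = .Z) (hke : I.kind e = .R ∨ I.kind e = .Z) (hc : (I.th a).1 ≠ (I.th e).1)
    (hne : I.th a ≠ e) (hg : I.g b = I.g c)
    (hz : ∀ d : Dart V, d.1 = (I.th a).1 → d ≠ I.th a → I.kind d ≠ .Z)
    (hs : (I.rem {a.1, e.1}).Solv) : I.Solv := by
  obtain ⟨x, hx⟩ := hs
  have hd' := hd.symm h
  obtain ⟨ha, h3, hkb, hkc, hzu, h3'⟩ := hd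
  have he : e.1 ∈ I.A := hd'.1
  obtain ⟨hwu, hwz⟩ := outer_out h ha h3 hzu h3' (by simp [hk]) hne
  have hne' : I.th e ≠ a := fun hh => hne (by rw [← hh, h.inv e he])
  obtain ⟨hqz, hqu⟩ := outer_out h he h3' hd'.2.2.2.2.1 hd'.2.2.2.2.2
    (by rcases hke with k | k <;> simp [k]) hne'
  obtain ⟨r1, r2, h3w⟩ := three_exists (I.th a)
  have hwA : (I.th a).1 ∈ I.A := h.mem a ha
  have hto : ∀ r : Dart V, r.1 = (I.th a).1 → I.th a ≠ r →
      ¬ ((I.th r).1 = a.1 ∨ (I.th r).1 = e.1) := fun r hr hr' hh => by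
    rcases leave h ha h3 h3' (d := r) (by rw [hr]; exact hwA) (by rw [hr]; exact hwu)
      (by rw [hr]; exact hwz) hh with k | k
    · exact hr' k.symm
    · exact hc (by rw [← hr, k])
  have hx12 : x r1 ≠ x r2 :=
    ((h3w.inj_iff x).1 (hx.1 _ (by simp [rem, hwA, hwu, hwz]))).2.2
  obtain ⟨P, y1, y2, mu, k1, k2, k3, k4, k5, k6, k7, k8, k9⟩ :=
    lb_K4 (x r1) (x r2) (lab x (I.th r1)) (lab x (I.th r2)) (x (I.th e) + I.g e + I.g b)
      (lab x (I.th e)) (I.kind r1 = .R) (I.kind r2 = .R) hx12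
  obtain ⟨yb, yc, j1, j2, j3, j4⟩ := lb_K3 P mu (x (I.th e) + I.g e) (I.g b) k6 k9
  obtain ⟨y, ⟨ya, yb', yc'⟩, ⟨ye, yf, yg⟩, ⟨yp, yq, yr⟩, hy⟩ := lb_set3 x h3 h3' h3w hzu hwu hwz
    P yb yc (x (I.th e) + I.g e) (yb + I.g b) (yc + I.g b) P y1 y2
  have i3 : y (I.th a) ≠ y r1 ∧ y (I.th a) ≠ y r2 ∧ y r1 ≠ y r2 := by
    rw [yp, yq, yr]; exact k1
  refine lb_lift h ha h3 h3' h3w hx hy (by rw [ya, yb', yc']; exact j2)
    (by rw [ye, yf, yg]; exact j3) i3 ?_ ?_ ?_ ?_ ?_ ?_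
  · refine ⟨fun _ => by rw [yp, ya, h.gZ a ha hk, add_zero], fun _ => ?_⟩
    rw [h3.lab_eq, h3w.lab_eq, yb', yc', yq, yr, j1]
    exact k8
  · exact ⟨fun _ => by rw [yf, yb'], fun k => by simp [hkb] at k⟩
  · exact ⟨fun _ => by rw [yg, yc', hg], fun k => by simp [hkc] at k⟩
  · refine ⟨fun _ => by rw [hy _ hqu hqz hc.symm, ye, lb_aa], fun _ => ?_⟩
    rw [h3'.lab_eq, yf, yg, j4, lab_congr (x := x) (y := y) (a := I.th e)
      (fun d hd => hy d (by rw [hd]; exact hqu) (by rw [hd]; exact hqz)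
        (by rw [hd]; exact hc.symm))]
    exact k7
  · exact lb_side h ha h3w hwu hwz hx hy i3 (hto r1 h3w.1 h3w.2.2.1)
      (hz r1 h3w.1 h3w.2.2.1.symm) (fun k => by rw [yq]; exact k2 k)
      (fun k => by rw [yr]; exact k4 k) (fun k => by rw [yp, yr]; exact k3 k)
  · exact lb_side h ha h3w.swap hwu hwz hx hy ⟨i3.2.1, i3.1, i3.2.2.symm⟩
      (hto r2 h3w.2.1 h3w.2.2.2.1) (hz r2 h3w.2.1 h3w.2.2.2.1.symm)
      (fun k => by rw [yr]; exact k4 k) (fun k => by rw [yq]; exact k2 k)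
      (fun k => by rw [yp, yq]; exact k5 k)

end Inst

end Pool.Agent.P.MP_0ad50f_co.SC
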