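import Pool.Agent.P.MP_0ad50f_co.SC.Reach

namespace Pool.Agent.P.MP_0ad50f_co.SC

variable {V : Type} [DecidableEq V]

theorem liftc0_k1 : ∀ xp lp lq : K, ∃ yb yc : K,
    xp ≠ yb ∧ xp ≠ yc ∧ yb ≠ yc ∧ yb + yc ≠ lp ∧ yb + yc ≠ lq := by
  decide

set_option synthInstance.maxSize 2048 in
theorem liftc0_k2 : ∀ gb gc lp lq : K, gb ≠ gc → (lp = lq → lp = gb + gc) →
    ∃ ya yc ye : K, (ya ≠ 0 ∧ ya ≠ yc ∧ 0 ≠ yc) ∧
      (ye ≠ 0 + gb ∧ ye ≠ yc + gc ∧ 0 + gb ≠ yc + gc) ∧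
      0 + yc ≠ lp ∧ 0 + gb + (yc + gc) ≠ lq := by
  decide +kernel

theorem liftc0_k3 : ∀ gb gc gb' gc' : K, gb ≠ gc → gb' + gc' = gb + gc → gb' ≠ gc' := by
  decide

set_option synthInstance.maxSize 2048 in
theorem liftc0_k4 : ∀ xp xq g ge yb yc : K, xq = xp + (g + ge) → xp ≠ yb → xp ≠ yc → yb ≠ yc →
    (xq + ge ≠ yb + g ∧ xq + ge ≠ yc + g ∧ yb + g ≠ yc + g) ∧ xq = xq + ge + ge ∧
      yb + g + (yc + g) = yb + yc := by
  decide +kernel

namespace Inst

theorem liftc0_out {I : Inst V} (h : I.WF) {a b c e : Dart V} (hd : I.Dig a b c e)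
    (hk : I.kind a ≠ .F) (hke : I.kind e ≠ .F) (hne : I.th a ≠ e) :
    (I.th a).1 ∉ ({a.1, e.1} : Finset V) ∧ (I.th e).1 ∉ ({a.1, e.1} : Finset V) ∧
      e.1 ∈ I.A := by
  have hs := Dig.symm h hd
  obtain ⟨ha, h3, kb, kc, hz, h3'⟩ := hd
  obtain ⟨he, s3, -, -, sz, s3'⟩ := hs
  have h1 := outer_out h ha h3 hz h3' hk hne
  have hne' : I.th e ≠ a := fun hh => hne (by rw [← hh, h.inv e he])
  have h2 := outer_out h he s3 sz s3' hke hne'
  refine ⟨?_, ?_, he⟩
  · simp only [Finset.mem_insert, Finset.mem_singleton, not_or]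
    exact h1
  · simp only [Finset.mem_insert, Finset.mem_singleton, not_or]
    exact ⟨h2.2, h2.1⟩

theorem liftc0_dig {I : Inst V} (h : I.WF) {a b c e : Dart V} (hd : I.Dig a b c e)
    (hk : I.kind a ≠ .F) (hke : I.kind e ≠ .F) (hne : I.th a ≠ e)
    {x : Dart V → K} (hx : (I.rem {a.1, e.1}).Sol x) (ya yb yc ye : K)
    (d1 : ya ≠ yb ∧ ya ≠ yc ∧ yb ≠ yc)
    (d2 : ye ≠ yb + I.g b ∧ ye ≠ yc + I.g c ∧ yb + I.g b ≠ yc + I.g c)
    (a1 : I.kind a = .R ∨ I.kind a = .Z → x (I.th a) = ya + I.g a)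
    (a2 : I.kind a = .Z ∨ I.kind a = .N → yb + yc ≠ lab x (I.th a))
    (e1 : I.kind e = .R ∨ I.kind e = .Z → x (I.th e) = ye + I.g e)
    (e2 : I.kind e = .Z ∨ I.kind e = .N → yb + I.g b + (yc + I.g c) ≠ lab x (I.th e)) :
    I.Solv := by
  obtain ⟨hp, hq, he⟩ := liftc0_out h hd hk hke hne
  obtain ⟨ha, h3, kb, kc, hz, h3'⟩ := hd
  have hb1 : b.1 = a.1 := h3.1
  have hc1 : c.1 = a.1 := h3.2.1
  have hb2 : (I.th b).1 = e.1 := h3'.1
  have hc2 : (I.th c).1 = e.1 := h3'.2.1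
  have hbA : b.1 ∈ I.A := by rw [hb1]; exact ha
  have hcA : c.1 ∈ I.A := by rw [hc1]; exact ha
  have cross : ∀ s t : Dart V, s.1 = e.1 → t.1 = a.1 → s ≠ t := fun s t hs ht hst =>
    hz (by rw [← hs, hst, ht])
  let y : Dart V → K := fun d =>
    if d = a then ya else if d = b then yb else if d = c then yc else if d = e then ye
    else if d = I.th b then yb + I.g b else if d = I.th c then yc + I.g c else x d
  have va : y a = ya := if_pos rfl
  have vb : y b = yb := by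
    simp only [y]
    rw [if_neg h3.2.2.1.symm, if_pos trivial]
  have vc : y c = yc := by
    simp only [y]
    rw [if_neg h3.2.2.2.1.symm, if_neg h3.2.2.2.2.symm, if_pos trivial]
  have ve : y e = ye := by
    simp only [y]
    rw [if_neg (cross e a rfl rfl), if_neg (cross e b rfl hb1), if_neg (cross e c rfl hc1),
      if_pos trivial]
  have vb' : y (I.th b) = yb + I.g b := by
    simp only [y]
    rw [if_neg (cross _ a hb2 rfl), if_neg (cross _ b hb2 hb1), if_neg (cross _ c hb2 hc1),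
      if_neg h3'.2.2.1.symm, if_pos trivial]
  have vc' : y (I.th c) = yc + I.g c := by
    simp only [y]
    rw [if_neg (cross _ a hc2 rfl), if_neg (cross _ b hc2 hb1), if_neg (cross _ c hc2 hc1),
      if_neg h3'.2.2.2.1.symm, if_neg h3'.2.2.2.2.symm, if_pos trivial]
  have hy : ∀ d : Dart V, d.1 ∉ ({a.1, e.1} : Finset V) → y d = x d := by
    intro d hdX
    simp only [Finset.mem_insert, Finset.mem_singleton, not_or] at hdX
    have n1 : ∀ t : Dart V, t.1 = a.1 → d ≠ t := fun t ht hh => hdX.1 (by rw [hh, ht])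
    have n2 : ∀ t : Dart V, t.1 = e.1 → d ≠ t := fun t ht hh => hdX.2 (by rw [hh, ht])
    simp only [y]
    rw [if_neg (n1 a rfl), if_neg (n1 b hb1), if_neg (n1 c hc1), if_neg (n2 e rfl),
      if_neg (n2 _ hb2), if_neg (n2 _ hc2)]
  have hl : ∀ t : Dart V, t.1 ∉ ({a.1, e.1} : Finset V) → lab y t = lab x t := fun t ht =>
    lab_congr fun d hdt => hy d (by rw [hdt]; exact ht)
  have okb : I.Ok y b := ⟨fun _ => by rw [vb', vb], fun hh => by rw [kb] at hh; simp at hh⟩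
  have okc : I.Ok y c := ⟨fun _ => by rw [vc', vc], fun hh => by rw [kc] at hh; simp at hh⟩
  refine ⟨y, sol_of_rem h _ hx hy ?_ ?_⟩
  · intro v hv _
    simp only [Finset.mem_insert, Finset.mem_singleton] at hv
    rcases hv with rfl | rfl
    · rw [h3.inj_iff, va, vb, vc]
      exact d1
    · rw [h3'.inj_iff, ve, vb', vc']
      exact d2
  · intro d hdX _
    simp only [Finset.mem_insert, Finset.mem_singleton] at hdX
    rcases hdX with hu | hu
    · rcases h3.cases d hu with rfl | rfl | rfl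
      · refine ⟨fun hh => ?_, fun hh => ?_⟩
        · rw [hy _ hp, va]
          exact a1 hh
        · rw [hl _ hp, h3.lab_eq, vb, vc]
          exact a2 hh
      · exact okb
      · exact okc
    · rcases h3'.cases d hu with rfl | rfl | rfl
      · refine ⟨fun hh => ?_, fun hh => ?_⟩
        · rw [hy _ hq, ve]
          exact e1 hh
        · rw [hl _ hq, h3'.lab_eq, vb', vc']
          exact e2 hh
      · exact ok_th h hbA okb
      · exact ok_th h hcA okc

theorem liftc0_free {I : Inst V} {X : Finset V} {d : Dart V} (hd : (I.th d).1 ∈ X) :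
    (I.rem X).kind d = .F := if_pos hd

theorem lift_D0r {I : Inst V} (h : I.WF) {a b c e : Dart V} (hd : I.Dig a b c e)
    (hk : I.kind a = .Z) (hke : I.kind e = .R ∨ I.kind e = .Z) (hne : I.th a ≠ e)
    (hg : I.g b = I.g c)
    (hs : ((I.rem {a.1, e.1}).join (I.th a) (I.th e) .R (I.g b + I.g e)).Solv) : I.Solv := by
  have hkF : I.kind a ≠ .F := by rw [hk]; simp
  have heF : I.kind e ≠ .F := by rcases hke with hh | hh <;> rw [hh] <;> simp
  obtain ⟨hp, hq, he⟩ := liftc0_out h hd hkF heF hne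
  have ha : a.1 ∈ I.A := hd.1
  obtain ⟨x, hx⟩ := hs
  have hpA : (I.th a).1 ∈ (I.rem {a.1, e.1}).A := Finset.mem_sdiff.2 ⟨h.mem a ha, hp⟩
  have hR := sol_join_R hpA hx
  have hx' : (I.rem {a.1, e.1}).Sol x := by
    refine sol_of_join (liftc0_free ?_) (liftc0_free ?_) hx
    · rw [h.inv a ha]
      simp
    · rw [h.inv e he]
      simp
  obtain ⟨yb, yc, k1, k2, k3, k4, k5⟩ :=
    liftc0_k1 (x (I.th a)) (lab x (I.th a)) (lab x (I.th e))
  obtain ⟨m1, m2, m3⟩ := liftc0_k4 _ _ _ _ yb yc hR k1 k2 k3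
  refine liftc0_dig h hd hkF heF hne hx' (x (I.th a)) yb yc (x (I.th e) + I.g e) ⟨k1, k2, k3⟩
    ?_ (fun _ => ?_) (fun _ => k4) (fun _ => m2) (fun _ => ?_)
  · rw [← hg]
    exact m1
  · rw [h.gZ a ha hk, add_zero]
  · rw [← hg, m3]
    exact k5

theorem lift_APd {I : Inst V} (h : I.WF) {a b c e : Dart V} (hd : I.Dig a b c e)
    (hk : I.kind a = .N) (hke : I.kind e = .N) (hne : I.th a ≠ e) (hg : I.g b ≠ I.g c)
    {x : Dart V → K} (hx : (I.rem {a.1, e.1}).Sol x)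
    (hlab : lab x (I.th a) = lab x (I.th e) → lab x (I.th a) = I.g b + I.g c) : I.Solv := by
  have hkF : I.kind a ≠ .F := by rw [hk]; simp
  have heF : I.kind e ≠ .F := by rw [hke]; simp
  obtain ⟨ya, yc, ye, k1, k2, k3, k4⟩ := liftc0_k2 _ _ _ _ hg hlab
  refine liftc0_dig h hd hkF heF hne hx ya 0 yc ye k1 k2 (fun hh => ?_) (fun _ => k3)
    (fun hh => ?_) (fun _ => k4)
  · rw [hk] at hh
    simp at hh
  · rw [hke] at hh
    simp at hh

theorem lift_APchain {I : Inst V} (h : I.WF) {a b c e b' c' e' : Dart V} (hd : I.Dig a b c e)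
    (hk : I.kind a = .N) (hne : I.th a ≠ e) (hg : I.g b ≠ I.g c)
    (hd' : I.Dig (I.th a) b' c' e') (hke' : I.kind e' = .N)
    (hg' : I.g b' + I.g c' = I.g b + I.g c)
    (hs : ((I.rem {(I.th a).1, e'.1}).join a (I.th e') .N 0).Solv) : I.Solv := by
  have hkF : I.kind a ≠ .F := by rw [hk]; simp
  obtain ⟨ha, h3, kb, kc, hz, h3'⟩ := hd
  have ho := outer_out h ha h3 hz h3' hkF hne
  have hinv := h.inv a ha
  have hkp : I.kind (I.th a) = .N := by rw [h.kind_th a ha, hk]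
  have hb'A : b'.1 ∈ I.A := by rw [hd'.2.1.1]; exact hd'.1
  have hne' : I.th (I.th a) ≠ e' := by
    rw [hinv]
    intro hae
    have t3 : Three e' (I.th b') (I.th c') := hd'.2.2.2.2.2
    have hb1 : b'.1 = (I.th a).1 := hd'.2.1.1
    rcases h3.cases (I.th b') (by rw [t3.1, hae]) with hh | hh | hh
    · exact t3.2.2.1 (by rw [hh, hae])
    · refine ho.2 ?_
      rw [← hb1, ← h3'.1, ← hh, h.inv b' hb'A]
    · refine ho.2 ?_
      rw [← hb1, ← h3'.2.1, ← hh, h.inv b' hb'A]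
  obtain ⟨hp, hq, he⟩ := liftc0_out h hd' (by rw [hkp]; simp) (by rw [hke']; simp) hne'
  rw [hinv] at hp
  obtain ⟨x, hx⟩ := hs
  have haA : a.1 ∈ (I.rem {(I.th a).1, e'.1}).A := Finset.mem_sdiff.2 ⟨ha, hp⟩
  have hN := sol_join_N haA hx
  have hx' : (I.rem {(I.th a).1, e'.1}).Sol x := by
    refine sol_of_join (liftc0_free ?_) (liftc0_free ?_) hx
    · simp
    · rw [h.inv e' he]
      simp
  refine lift_APd h hd' hkp hke' hne' (liftc0_k3 _ _ _ _ hg hg') hx' fun hh => ?_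
  rw [hinv] at hh
  exact absurd hh hN

end Inst

end Pool.Agent.P.MP_0ad50f_co.SC
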