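import Pool.Agent.P.MP_0ad50f_co.SC.Supp0

namespace Pool.Agent.P.MP_0ad50f_co.SC

variable {V : Type} [DecidableEq V]

theorem supp_K3 : ∀ p q : K, ∃ l : K, l ≠ 0 ∧ l ≠ p ∧ l ≠ q := by decide

theorem supp_K1 : ∀ p q l : K, l ≠ p + q → p + q + l ≠ 0 := by decide

theorem supp_K2 : ∀ p q l : K, p ≠ q → l ≠ p + q + l := by decide

namespace Inst

theorem supp_cut_far (I : Inst V) {a d : Dart V} (h1 : d ≠ a) (h2 : d ≠ I.th a) :
    (I.cut a).th d = I.th d ∧ (I.cut a).kind d = I.kind d := by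
  simp [cut, h1, h2]

theorem supp_nearR {I : Inst V} (h : I.WF) {a b c : Dart V} (ha : a.1 ∈ I.A) (h3 : Three a b c)
    (hF : I.kind a = .F) (hb : I.kind b = .R) (hc : I.kind c = .R) (l : K) {d : Dart V}
    (hd : d.1 ∈ I.A) (hdu : d.1 ≠ a.1) (hth : (I.th d).1 = a.1) :
    (I.supp b c l).kind d = .R ∧ (I.supp b c l).g d = I.g b + I.g c + l ∧
      ((d = I.th b ∧ (I.supp b c l).th d = I.th c) ∨
        (d = I.th c ∧ (I.supp b c l).th d = I.th b)) := by
  rcases supp_near h ha h3 hF l hd hdu hth with h1 | h1 | h1 | h1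
  · rw [hc] at h1; exact absurd h1.2.1 (by decide)
  · rw [hb] at h1; exact absurd h1.2.1 (by decide)
  · exact ⟨h1.2.2.1, h1.2.2.2.2, Or.inl ⟨h1.1, h1.2.2.2.1⟩⟩
  · exact ⟨h1.2.2.1, h1.2.2.2.2, Or.inr ⟨h1.1, h1.2.2.2.1⟩⟩

theorem supp_kindR {I : Inst V} (h : I.WF) {a b c : Dart V} (ha : a.1 ∈ I.A) (h3 : Three a b c)
    (hF : I.kind a = .F) (hb : I.kind b = .R) (hc : I.kind c = .R) (l : K) {d : Dart V}
    (hd : d.1 ∈ I.A) (hdu : d.1 ≠ a.1) : (I.supp b c l).kind d = I.kind d := by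
  by_cases hth : (I.th d).1 = a.1
  · obtain ⟨hk, -, h1 | h1⟩ := supp_nearR h ha h3 hF hb hc l hd hdu hth
    · rw [hk, h1.1, h.kind_th b (by rw [h3.1]; exact ha), hb]
    · rw [hk, h1.1, h.kind_th c (by rw [h3.2.1]; exact ha), hc]
  · exact (supp_far h ha h3 l hd hdu hth).2.1

/-- The elimination of a label edge between two vertices whose other darts are real. -/
theorem ne_core {I : Inst V} (h : I.WF) (hl : I.LoopsOK) {a b c b' c' : Dart V}
    (ha : a.1 ∈ I.A) (hk : I.kind a = .N) (hne : (I.th a).1 ≠ a.1) (h3 : Three a b c)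
    (h3' : Three (I.th a) b' c') (hb : I.kind b = .R) (hc : I.kind c = .R)
    (hb' : I.kind b' = .R) (hc' : I.kind c' = .R)
    (hd : ¬ (I.th b = c ∧ I.th b' = c' ∧ I.g b = I.g b'))
    (ht : ¬ ((I.th b).1 = (I.th a).1 ∧ (I.th c).1 = (I.th a).1 ∧ I.g b = I.g c)) :
    ∃ J : Inst V, J.WF ∧ J.LoopsOK ∧ (J.Solv → I.Solv) ∧ J.A = I.A \ {a.1, (I.th a).1} ∧
      (∀ d : Dart V, d.1 ∈ J.A → J.kind d = I.kind d) ∧
      (∀ d : Dart V, d.1 ∈ J.A → (I.th d).1 ≠ a.1 → (I.th d).1 ≠ (I.th a).1 → J.th d = I.th d) ∧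
      ∀ d d' : Dart V, d.1 ∈ J.A → (I.th d).1 = (I.th a).1 → d'.1 = (I.th a).1 → d' ≠ I.th a →
        d' ≠ I.th d → (I.th d').1 ≠ a.1 → J.th d = I.th d' := by
  have hw0 : (I.cut a).WF := wf_cut h ha
  have hl0 : (I.cut a).LoopsOK := loops_cut hl a
  have hA0 : (I.cut a).A = I.A := rfl
  have hg0 : (I.cut a).g = I.g := rfl
  have hv : (I.th a).1 ∈ I.A := h.mem a ha
  have hFa : (I.cut a).kind a = .F := by simp [cut]
  have hFa' : (I.cut a).kind (I.th a) = .F := by simp [cut]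
  have hta' : (I.cut a).th (I.th a) = I.th a := by simp [cut]
  have hbu : b.1 = a.1 := h3.1
  have hcu : c.1 = a.1 := h3.2.1
  have hbv : b'.1 = (I.th a).1 := h3'.1
  have hcv : c'.1 = (I.th a).1 := h3'.2.1
  have hbA : b.1 ∈ I.A := by rw [hbu]; exact ha
  have hcA : c.1 ∈ I.A := by rw [hcu]; exact ha
  have hbA' : b'.1 ∈ I.A := by rw [hbv]; exact hv
  have hcA' : c'.1 ∈ I.A := by rw [hcv]; exact hv
  have eb := supp_cut_far I (a := a) (d := b) h3.2.2.1.symm
    (fun e => hne (by rw [← e]; exact hbu))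
  have ec := supp_cut_far I (a := a) (d := c) h3.2.2.2.1.symm
    (fun e => hne (by rw [← e]; exact hcu))
  have eb' := supp_cut_far I (a := a) (d := b') (fun e => hne (by rw [← hbv, e]))
    h3'.2.2.1.symm
  have ec' := supp_cut_far I (a := a) (d := c') (fun e => hne (by rw [← hcv, e]))
    h3'.2.2.2.1.symm
  have hb0 : (I.cut a).kind b = .R := by rw [eb.2, hb]
  have hc0 : (I.cut a).kind c = .R := by rw [ec.2, hc]
  have hbvu : b'.1 ≠ a.1 := by rw [hbv]; exact hne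
  have hcvu : c'.1 ≠ a.1 := by rw [hcv]; exact hne
  have hloop : I.th b = c → I.g b ≠ 0 := fun e =>
    (hl b hbA (by rw [e, hcu, hbu])).1 hb
  -- the choice of the two labels
  have hch : ∃ l l' : K, l ≠ 0 ∧ (I.th b = c → l = I.g b) ∧ (I.th b ≠ c → l ≠ I.g b + I.g c) ∧
      l' ≠ 0 ∧ (((I.cut a).supp b c l).th b' = c' → l' = ((I.cut a).supp b c l).g b') ∧
      (((I.cut a).supp b c l).th b' ≠ c' →
        l' ≠ ((I.cut a).supp b c l).g b' + ((I.cut a).supp b c l).g c') ∧ l ≠ l' := by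
    by_cases hA : I.th b' = c'
    · have hfar : ∀ l : K, ((I.cut a).supp b c l).th b' = c' ∧
          ((I.cut a).supp b c l).g b' = I.g b' := by
        intro l
        have := supp_far hw0 ha h3 l (d := b') hbA' hbvu (by rw [eb'.1, hA]; exact hcvu)
        exact ⟨by rw [this.1, eb'.1, hA], by rw [this.2.2, hg0]⟩
      have hg' : I.g b' ≠ 0 := (hl b' hbA' (by rw [hA, hcv, hbv])).1 hb'
      by_cases hB : I.th b = c
      · exact ⟨I.g b, I.g b', hloop hB, fun _ => rfl, fun e => absurd hB e, hg',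
          fun _ => (hfar _).2.symm, fun e => absurd (hfar _).1 e, fun e => hd ⟨hB, hA, e⟩⟩
      · obtain ⟨l, l0, l1, l2⟩ := supp_K3 (I.g b') (I.g b + I.g c)
        exact ⟨l, I.g b', l0, fun e => absurd e hB, fun _ => l2, hg',
          fun _ => (hfar _).2.symm, fun e => absurd (hfar _).1 e, l1⟩
    · have hl1 : ∃ l : K, l ≠ 0 ∧ (I.th b = c → l = I.g b) ∧
          (I.th b ≠ c → l ≠ I.g b + I.g c) := by
        by_cases hB : I.th b = c
        · exact ⟨I.g b, hloop hB, fun _ => rfl, fun e => absurd hB e⟩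
        · obtain ⟨l, l0, l1, -⟩ := supp_K3 (I.g b + I.g c) 0
          exact ⟨l, l0, fun e => absurd e hB, fun _ => l1⟩
      obtain ⟨l, l0, l1, l2⟩ := hl1
      by_cases hC : ((I.cut a).supp b c l).th b' = c'
      · have hnear : ((I.cut a).th b').1 = a.1 := by
          by_contra hn
          have := supp_far hw0 ha h3 l (d := b') hbA' hbvu hn
          exact hA (by rw [← eb'.1, ← this.1, hC])
        obtain ⟨-, hg, hcase⟩ := supp_nearR hw0 ha h3 hFa hb0 hc0 l (d := b') hbA' hbvu hnear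
        rw [hg0] at hg
        rw [eb.1, ec.1, hC] at hcase
        have hbc : (I.th b).1 = (I.th a).1 ∧ (I.th c).1 = (I.th a).1 := by
          rcases hcase with e | e
          · exact ⟨by rw [← e.1, hbv], by rw [← e.2, hcv]⟩
          · exact ⟨by rw [← e.2, hcv], by rw [← e.1, hbv]⟩
        have hB : I.th b ≠ c := fun e => hne (by rw [← hbc.1, e, hcu])
        have hgne : I.g b ≠ I.g c := fun e => ht ⟨hbc.1, hbc.2, e⟩
        exact ⟨l, I.g b + I.g c + l, l0, l1, l2, supp_K1 _ _ _ (l2 hB), fun _ => hg.symm,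
          fun e => absurd hC e, supp_K2 _ _ _ hgne⟩
      · obtain ⟨l', m0, m1, m2⟩ := supp_K3 l
          (((I.cut a).supp b c l).g b' + ((I.cut a).supp b c l).g c')
        exact ⟨l, l', l0, l1, l2, m0, fun e => absurd e hC, fun _ => m2, m1.symm⟩
  obtain ⟨l, l', l0, l1, l2, m0, m1, m2, hll⟩ := hch
  have hw1 : ((I.cut a).supp b c l).WF := wf_supp hw0 ha h3 hFa l
  have hA1 : ((I.cut a).supp b c l).A = I.A \ {a.1} := by rw [supp_A, hA0, hbu]
  have hmem1 : ∀ w, w ∈ I.A → w ≠ a.1 → w ∈ ((I.cut a).supp b c l).A := by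
    intro w h1 h2
    rw [hA1]
    simp [h1, h2]
  have hv1 : (I.th a).1 ∈ ((I.cut a).supp b c l).A := hmem1 _ hv hne
  have hF1 : ((I.cut a).supp b c l).kind (I.th a) = .F := by
    rw [supp_kindR hw0 ha h3 hFa hb0 hc0 l (d := I.th a) hv hne, hFa']
  have hb1 : ((I.cut a).supp b c l).kind b' = .R := by
    rw [supp_kindR hw0 ha h3 hFa hb0 hc0 l (d := b') hbA' hbvu, eb'.2, hb']
  have hc1 : ((I.cut a).supp b c l).kind c' = .R := by
    rw [supp_kindR hw0 ha h3 hFa hb0 hc0 l (d := c') hcA' hcvu, ec'.2, hc']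
  have hl1 : ((I.cut a).supp b c l).LoopsOK :=
    loops_supp hw0 hl0 ha h3 hFa (by rw [eb.1, hg0]; exact fun e _ => l2 e)
  have hA2 : (((I.cut a).supp b c l).supp b' c' l').A = I.A \ {a.1, (I.th a).1} := by
    rw [supp_A, hA1, hbv]
    ext w
    simp only [Finset.mem_sdiff, Finset.mem_singleton, Finset.mem_insert, not_or, and_assoc]
  have hmem2 : ∀ d : Dart V, d.1 ∈ (((I.cut a).supp b c l).supp b' c' l').A →
      d.1 ∈ I.A ∧ d.1 ≠ a.1 ∧ d.1 ≠ (I.th a).1 := by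
    intro d hdA
    rw [hA2] at hdA
    simpa only [Finset.mem_sdiff, Finset.mem_singleton, Finset.mem_insert, not_or] using hdA
  have hcut : ∀ d : Dart V, d.1 ≠ a.1 → d.1 ≠ (I.th a).1 →
      (I.cut a).th d = I.th d ∧ (I.cut a).kind d = I.kind d := fun d h1 h2 =>
    supp_cut_far I (fun e => h1 (by rw [e])) (fun e => h2 (by rw [e]))
  refine ⟨((I.cut a).supp b c l).supp b' c' l', wf_supp hw1 hv1 h3' hF1 l',
    loops_supp hw1 hl1 hv1 h3' hF1 (fun e _ => m2 e), ?_, hA2, ?_, ?_, ?_⟩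
  · rintro ⟨x, hx⟩
    obtain ⟨y, hy, hyl, -⟩ := sol_of_supp hw1 hv1 h3' hF1 hb1 hc1 m0 m1 hx
    obtain ⟨z, hz, hzl, hzy⟩ := sol_of_supp hw0 ha h3 hFa hb0 hc0 l0
      (by rw [eb.1, hg0]; exact l1) hy
    refine ⟨z, sol_of_cut h ha hz ⟨?_, fun _ => ?_⟩⟩
    · rw [hk]
      rintro (e | e) <;> exact absurd e (by decide)
    · have : lab z (I.th a) = lab y (I.th a) :=
        lab_congr (fun d e => hzy d (by rw [e]; exact hne))
      rw [this, hyl, hzl]
      exact hll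
  · intro d hdA
    obtain ⟨d1, d2, d3⟩ := hmem2 d hdA
    rw [supp_kindR hw1 hv1 h3' hF1 hb1 hc1 l' (hmem1 _ d1 d2) d3,
      supp_kindR hw0 ha h3 hFa hb0 hc0 l (d := d) d1 d2, (hcut d d2 d3).2]
  · intro d hdA t1 t2
    obtain ⟨d1, d2, d3⟩ := hmem2 d hdA
    have e0 := (hcut d d2 d3).1
    have e1 := (supp_far hw0 ha h3 l (d := d) d1 d2 (by rw [e0]; exact t1)).1
    rw [e0] at e1
    rw [(supp_far hw1 hv1 h3' l' (hmem1 _ d1 d2) d3 (by rw [e1]; exact t2)).1, e1]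
  · intro d d' hdA t1 t2 t3 t4 t5
    obtain ⟨d1, d2, d3⟩ := hmem2 d hdA
    have e0 := (hcut d d2 d3).1
    have e1 := (supp_far hw0 ha h3 l (d := d) d1 d2 (by rw [e0, t1]; exact hne)).1
    rw [e0] at e1
    have hu' : d'.1 ≠ a.1 := by rw [t2]; exact hne
    have f0 := (supp_cut_far I (a := a) (d := d') (fun e => hu' (by rw [e])) t3).1
    have f1 := (supp_far hw0 ha h3 l (d := d') (by rw [t2]; exact hv) hu'
      (by rw [f0]; exact t5)).1
    rw [f0] at f1
    obtain ⟨-, -, hcase⟩ := supp_nearR hw1 hv1 h3' hF1 hb1 hc1 l' (hmem1 _ d1 d2) d3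
      (by rw [e1]; exact t1)
    rcases hcase with e | e
    · have hb2 : I.th d = b' := by
        rw [← e1, e.1]
        exact hw1.inv b' (hmem1 _ hbA' hbvu)
      rcases h3'.cases d' t2 with q | q | q
      · exact absurd q t3
      · exact absurd (q.trans hb2.symm) t4
      · rw [e.2, ← q, f1]
    · have hc2 : I.th d = c' := by
        rw [← e1, e.1]
        exact hw1.inv c' (hmem1 _ hcA' hcvu)
      rcases h3'.cases d' t2 with q | q | q
      · exact absurd q t3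
      · rw [e.2, ← q, f1]
      · exact absurd (q.trans hc2.symm) t4

end Inst

end Pool.Agent.P.MP_0ad50f_co.SC
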