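import Pool.Agent.P.MP_0ad50f_co.SC.Basic

namespace Pool.Agent.P.MP_0ad50f_co.SC

variable {V : Type} [DecidableEq V]

namespace Inst

theorem supp_A (I : Inst V) (b c : Dart V) (l : K) : (I.supp b c l).A = I.A \ {b.1} := by
  unfold supp
  split_ifs <;> rfl

theorem supp0_out {I : Inst V} (h : I.WF) {a b c : Dart V} (ha : a.1 ∈ I.A) (h3 : Three a b c)
    (hF : I.kind a = .F) (hb : I.kind b ≠ .F) (hbc : I.th b ≠ c) : (I.th b).1 ≠ a.1 := by
  have hbA : b.1 ∈ I.A := h3.1 ▸ ha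
  intro e
  rcases h3.cases _ e with e1 | e1 | e1
  · exact h3.2.2.1 (h.th_inj ha hbA (((h.free a ha).1 hF).trans e1.symm))
  · exact hb ((h.free b hbA).2 e1)
  · exact hbc e1

theorem supp0_swap {I : Inst V} (h : I.WF) {a b c : Dart V} (ha : a.1 ∈ I.A) (h3 : Three a b c)
    (hbc : I.th b ≠ c) : I.th c ≠ b := fun e =>
  hbc (by rw [← e, h.inv c (h3.2.1 ▸ ha)])

theorem supp0_free {I : Inst V} (h : I.WF) {b : Dart V} (hb : b.1 ∈ I.A) {u : V} (e : b.1 = u) :
    (I.rem {u}).kind (I.th b) = .F := by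
  simp [rem, h.inv b hb, e]

theorem wf_supp {I : Inst V} (h : I.WF) {a b c : Dart V} (ha : a.1 ∈ I.A) (h3 : Three a b c)
    (hF : I.kind a = .F) (l : K) : (I.supp b c l).WF := by
  have hbA : b.1 ∈ I.A := h3.1 ▸ ha
  have hcA : c.1 ∈ I.A := h3.2.1 ▸ ha
  unfold supp
  split_ifs with hc
  · exact wf_rem h _
  · simp only [not_or] at hc
    have h1 := supp0_out h ha h3 hF hc.1 hc.2.2
    have h2 := supp0_out h ha h3.swap hF hc.2.1 (supp0_swap h ha h3 hc.2.2)
    refine wf_join (wf_rem h _) ?_ ?_ (fun e => h3.2.2.2.2 (h.th_inj hbA hcA e))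
      (supp0_free h hbA rfl) (supp0_free h hcA (h3.2.1.trans h3.1.symm)) (Or.inl rfl) _
    · simp [rem, h.mem b hbA, h3.1, h1]
    · simp [rem, h.mem c hcA, h3.1, h2]

/-- Darts that do not point to the suppressed vertex are unchanged. -/
theorem supp_far {I : Inst V} (h : I.WF) {a b c : Dart V} (ha : a.1 ∈ I.A) (h3 : Three a b c)
    (l : K) {d : Dart V} (hd : d.1 ∈ I.A) (hdu : d.1 ≠ a.1) (hth : (I.th d).1 ≠ a.1) :
    (I.supp b c l).th d = I.th d ∧ (I.supp b c l).kind d = I.kind d ∧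
      (I.supp b c l).g d = I.g d := by
  have h1 : d ≠ I.th b := fun e => hth (by rw [e, h.inv b (h3.1 ▸ ha), h3.1])
  have h2 : d ≠ I.th c := fun e => hth (by rw [e, h.inv c (h3.2.1 ▸ ha), h3.2.1])
  unfold supp
  split_ifs
  · simp [rem, h3.1, hth]
  · simp [rem, join, h3.1, hth, h1, h2]

/-- A dart that points to the suppressed vertex is freed or joined to the other partner. -/
theorem supp_near {I : Inst V} (h : I.WF) {a b c : Dart V} (ha : a.1 ∈ I.A) (h3 : Three a b c)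
    (hF : I.kind a = .F) (l : K) {d : Dart V} (hd : d.1 ∈ I.A) (hdu : d.1 ≠ a.1)
    (hth : (I.th d).1 = a.1) :
    (d = I.th b ∧ I.kind c = .F ∧ (I.supp b c l).kind d = .F ∧ (I.supp b c l).th d = d) ∨
    (d = I.th c ∧ I.kind b = .F ∧ (I.supp b c l).kind d = .F ∧ (I.supp b c l).th d = d) ∨
    (d = I.th b ∧ I.kind c ≠ .F ∧ (I.supp b c l).kind d = .R ∧ (I.supp b c l).th d = I.th c ∧
      (I.supp b c l).g d = I.g b + I.g c + l) ∨
    (d = I.th c ∧ I.kind b ≠ .F ∧ (I.supp b c l).kind d = .R ∧ (I.supp b c l).th d = I.th b ∧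
      (I.supp b c l).g d = I.g b + I.g c + l) := by
  have hbA : b.1 ∈ I.A := h3.1 ▸ ha
  have hcA : c.1 ∈ I.A := h3.2.1 ▸ ha
  have hne : I.th c ≠ I.th b := fun e => h3.2.2.2.2 (h.th_inj hbA hcA e.symm)
  have hi := h.inv d hd
  rcases h3.cases _ hth with e | e | e
  · rw [e, (h.free a ha).1 hF] at hi
    exact absurd (by rw [hi]) hdu
  · rw [e] at hi
    have h1 : I.kind b ≠ .F := fun hk => hdu (by rw [← hi, (h.free b hbA).1 hk, h3.1])
    have h2 : I.th b ≠ c := fun hk => hdu (by rw [← hi, hk, h3.2.1])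
    by_cases hc : I.kind c = .F
    · exact Or.inl ⟨hi.symm, hc, by simp [supp, hc, rem, e], by simp [supp, hc, rem, e]⟩
    · subst hi
      exact Or.inr (Or.inr (Or.inl ⟨rfl, hc, by simp [supp, hc, h1, h2, join]⟩))
  · rw [e] at hi
    have h1 : I.kind c ≠ .F := fun hk => hdu (by rw [← hi, (h.free c hcA).1 hk, h3.2.1])
    have h2 : I.th b ≠ c := fun hk => hdu (by rw [← hi, ← hk, h.inv b hbA, h3.1])
    by_cases hb : I.kind b = .F
    · exact Or.inr (Or.inl ⟨hi.symm, hb, by simp [supp, hb, rem, e, h3.1, h3.2.1],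
        by simp [supp, hb, rem, e, h3.1, h3.2.1]⟩)
    · subst hi
      exact Or.inr (Or.inr (Or.inr ⟨rfl, hb, by simp [supp, hb, h1, h2, join, hne]⟩))

theorem loops_supp {I : Inst V} (h : I.WF) (hl : I.LoopsOK) {a b c : Dart V} (ha : a.1 ∈ I.A)
    (h3 : Three a b c) (hF : I.kind a = .F) {l : K}
    (hg : I.th b ≠ c → (I.th b).1 = (I.th c).1 → l ≠ I.g b + I.g c) : (I.supp b c l).LoopsOK := by
  have hK : ∀ x l : K, x + l = 0 → l = x := by decide
  unfold supp
  split_ifs with hc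
  · exact loops_rem hl _
  · simp only [not_or] at hc
    exact loops_join (loops_rem hl _) (Or.inr ⟨rfl, fun e e' => hg hc.2.2 e (hK _ _ e')⟩)

theorem lin_of_supp {I : Inst V} (h : I.WF) {a b c : Dart V} (ha : a.1 ∈ I.A) (h3 : Three a b c)
    (hF : I.kind a = .F) (hb : I.kind b ≠ .N) (hc : I.kind c ≠ .N) {l : K}
    (hl : I.th b = c → l = I.g b) {x : Dart V → K} (hx : (I.supp b c l).Lin x) (t : K) :
    ∃ y, I.Lin y ∧ y a = t ∧ y b + y c = l ∧ ∀ d : Dart V, d.1 ≠ a.1 → y d = x d := by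
  have hbA : b.1 ∈ I.A := h3.1 ▸ ha
  have hcA : c.1 ∈ I.A := h3.2.1 ▸ ha
  have k1 : ∀ u v : K, u + (u + v) = v := by decide
  have k2 : ∀ u v : K, u + v + u = v := by decide
  have k3 : ∀ u v w l : K, u + v + l = u + (v + w + l) + w := by decide
  have k4 : ∀ u v w : K, u = v + w → v = u + w := by decide
  have k5 : ∀ u v w : K, u + v = w → v = u + w ∧ u = v + w := by decide
  obtain ⟨yb, yc, e0, e1, e2⟩ : ∃ yb yc : K, yb + yc = l ∧
      (I.kind b ≠ .F → I.th b ≠ c → yb = x (I.th b) + I.g b) ∧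
      (I.kind c ≠ .F → I.th b ≠ c → yc = x (I.th c) + I.g c) := by
    by_cases h1 : I.kind b = .F
    · exact ⟨x (I.th c) + I.g c + l, _, k2 _ _, fun h2 => absurd h1 h2, fun _ _ => rfl⟩
    refine ⟨_, x (I.th b) + I.g b + l, k1 _ _, fun _ _ => rfl, fun h2 h4 => ?_⟩
    have h5 := supp0_out h ha h3 hF h1 h4
    have h6 := hx (I.th b) (by simp [supp_A, h.mem b hbA, h3.1, h5])
      (by simp [supp, h1, h2, h4, join])
    simp only [supp, h1, h2, h4, or_self, if_false, join, if_true, true_or] at h6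
    rw [h6]
    exact k3 _ _ _ _
  let y : Dart V → K := fun d => if d = a then t else if d = b then yb else if d = c then yc else x d
  have ya : y a = t := by simp [y]
  have yb' : y b = yb := by simp [y, h3.2.2.1.symm]
  have yc' : y c = yc := by simp [y, h3.2.2.2.1.symm, h3.2.2.2.2.symm]
  have yd : ∀ d : Dart V, d.1 ≠ a.1 → y d = x d := fun d hd => by
    have h1 : d ≠ a := fun e => hd (by rw [e])
    have h2 : d ≠ b := fun e => hd (by rw [e, h3.1])
    have h4 : d ≠ c := fun e => hd (by rw [e, h3.2.1])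
    simp [y, h1, h2, h4]
  have key : ∀ d : Dart V, d.1 = a.1 → I.kind d = .R ∨ I.kind d = .Z →
      y (I.th d) = y d + I.g d := by
    intro d hd hk
    have hk' : I.kind d ≠ .F := by rcases hk with e | e <;> simp [e]
    rcases h3.cases d hd with rfl | rfl | rfl
    · exact absurd hF hk'
    · by_cases h1 : I.th d = c
      · rw [h1, yb', yc', ← hl h1]
        exact (k5 _ _ _ e0).1
      · rw [yd _ (supp0_out h ha h3 hF hk' h1), yb']
        exact k4 _ _ _ (e1 hk' h1)
    · by_cases h1 : I.th b = d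
      · have h2 : I.th d = b := by rw [← h1, h.inv b hbA]
        have h4 : I.g d = l := by rw [hl h1, ← h1, h.g_th b hbA]
        rw [h2, yb', yc', h4]
        exact (k5 _ _ _ e0).2
      · rw [yd _ (supp0_out h ha h3.swap hF hk' (supp0_swap h ha h3 h1)), yc']
        exact k4 _ _ _ (e2 hk' h1)
  refine ⟨y, fun d hd hk => ?_, ya, by rw [yb', yc', e0], yd⟩
  by_cases h1 : d.1 = a.1
  · exact key d h1 hk
  by_cases h2 : (I.th d).1 = a.1
  · have h4 := key _ h2 (by rwa [h.kind_th d hd])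
    rw [h.inv d hd, h.g_th d hd] at h4
    exact k4 _ _ _ h4
  · obtain ⟨f1, f2, f3⟩ := supp_far h ha h3 l hd h1 h2
    have h4 := hx d (by simp [supp_A, hd, h3.1, h1]) (by rwa [f2])
    rw [f1, f3] at h4
    rw [yd _ h1, yd _ h2, h4]

theorem sol_of_supp {I : Inst V} (h : I.WF) {a b c : Dart V} (ha : a.1 ∈ I.A) (h3 : Three a b c)
    (hF : I.kind a = .F) (hb : I.kind b = .R) (hc : I.kind c = .R) {l : K} (hl0 : l ≠ 0)
    (hl : I.th b = c → l = I.g b) {x : Dart V → K} (hx : (I.supp b c l).Sol x) :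
    ∃ y, I.Sol y ∧ lab y a = l ∧ ∀ d : Dart V, d.1 ≠ a.1 → y d = x d := by
  have hbA : b.1 ∈ I.A := h3.1 ▸ ha
  have hcA : c.1 ∈ I.A := h3.2.1 ▸ ha
  have hK : ∀ u v : K, u + v ≠ 0 → ∃ t, t ≠ u ∧ t ≠ v ∧ u ≠ v := by decide
  obtain ⟨y, y1, -, y3, y4⟩ := lin_of_supp h ha h3 hF (by simp [hb]) (by simp [hc]) hl hx.lin 0
  obtain ⟨t, ht⟩ := hK (y b) (y c) (y3 ▸ hl0)
  have hx' : (I.rem {b.1}).Sol x := by
    unfold supp at hx
    split_ifs at hx
    · exact hx
    · exact sol_of_join (supp0_free h hbA rfl) (supp0_free h hcA (h3.2.1.trans h3.1.symm)) hx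
  have u1 := Function.update_of_ne h3.2.2.1.symm t y
  have u2 := Function.update_of_ne h3.2.2.2.1.symm t y
  have u3 : ∀ d : Dart V, d.1 ≠ a.1 → Function.update y a t d = x d := fun d hd => by
    rw [Function.update_of_ne fun e => hd (by rw [e]), y4 d hd]
  refine ⟨Function.update y a t, sol_of_rem h {b.1} hx' (fun d hd => u3 d (by simpa [h3.1] using hd))
    (fun v hv _ => ?_) fun d hd hdA => ?_, by rw [h3.lab_eq, u1, u2, y3], u3⟩
  · rw [Finset.mem_singleton.1 hv, h3.1, h3.inj_iff, u1, u2, Function.update_self]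
    exact ht
  · have hd' := h3.cases d ((Finset.mem_singleton.1 hd).trans h3.1)
    refine ⟨fun hk => ?_, fun hk => ?_⟩
    · have h1 : d ≠ a := fun e => by simp [e, hF] at hk
      have h2 : I.th d ≠ a := fun e => h1 (h.th_inj hdA ha (e.trans ((h.free a ha).1 hF).symm))
      rw [Function.update_of_ne h1, Function.update_of_ne h2]
      exact y1 d hdA hk
    · rcases hd' with rfl | rfl | rfl <;> simp [*] at hk

theorem supp0_withG (I : Inst V) (g : Dart V → K) (b c : Dart V) (l m : K) :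
    (I.withG g).supp b c l = (I.supp b c m).withG ((I.withG g).supp b c l).g := by
  by_cases hc : I.kind b = .F ∨ I.kind c = .F ∨ I.th b = c
  · have hc' : (I.withG g).kind b = .F ∨ (I.withG g).kind c = .F ∨ (I.withG g).th b = c := hc
    rw [supp, supp, if_pos hc, if_pos hc']
    rfl
  · have hc' : ¬ ((I.withG g).kind b = .F ∨ (I.withG g).kind c = .F ∨ (I.withG g).th b = c) := hc
    rw [supp, supp, if_neg hc, if_neg hc']
    rfl

theorem add_withG (I : Inst V) (g : Dart V → K) (a b c b' c' : Dart V) (l l' m m' : K) :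
    (I.withG g).add a b c b' c' l l' =
      (I.add a b c b' c' m m').withG ((I.withG g).add a b c b' c' l l').g := by
  have e : ((I.withG g).cut a).supp b c l = _ := supp0_withG (I.cut a) g b c l m
  unfold add
  rw [e]
  exact supp0_withG _ _ b' c' l' m'

end Inst

end Pool.Agent.P.MP_0ad50f_co.SC
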