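import Pool.Agent.P.MP_0ad50f_co.SC.TabH

namespace Pool.Agent.P.MP_0ad50f_co.SC

theorem tbAll_spec {n : ℕ} {f : ℕ → Bool} (h : tbAll n f = true) : ∀ i < n, f i = true := by
  induction n with
  | zero => intro i hi; omega
  | succ m ih =>
    have h' : (f m && tbAll m f) = true := h
    rw [Bool.and_eq_true] at h'
    intro i hi
    rcases Nat.lt_succ_iff_lt_or_eq.1 hi with h1 | h1
    · exact ih h'.2 i h1
    · rw [h1]; exact h'.1

theorem tbF_eq (x : ℕ) (f : ℕ → Bool) : tbF x f = f x := by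
  cases x <;> rfl

theorem tb_beq (a b : ℕ) : Nat.beq a b = decide (a = b) := by
  by_cases h : a = b
  · subst h; simp
  · simp only [h, decide_false]
    rw [← Bool.not_eq_true, Nat.beq_eq]
    exact h

theorem tb_ble (a b : ℕ) : Nat.ble a b = decide (a ≤ b) := by
  by_cases h : a ≤ b
  · simp [h]
  · simp only [h, decide_false]
    rw [← Bool.not_eq_true, Nat.ble_eq]
    exact h

/-- The conclusion of `tab`. -/
def tbC (n : ℕ) (p : ℕ → ℕ) : Prop :=
  ∃ cy ch : ℕ → ℕ, ∀ i < n, 1 ≤ cy i ∧ cy i ≤ 5 ∧ 1 ≤ ch i ∧ ch i ≤ 5 ∧ ch (p i) = ch i ∧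
      cy i ≠ cy ((i + 1) % n) ∧ (p i ≠ i → ch i ≠ cy i ∧ ch i ≠ cy ((i + n - 1) % n)) ∧
      csum n p cy ch i ≠ csum n p cy ch ((i + 1) % n) ∧
      (p i ≠ i → csum n p cy ch i ≠ csum n p cy ch (p i))

/-- The hypotheses of `tab`. -/
structure tbH (n k : ℕ) (p : ℕ → ℕ) : Prop where
  hk : 1 ≤ k
  hn : k + 3 ≤ n
  h0 : p 0 = k + 1
  hlt : ∀ i < n, p i < n
  hinv : ∀ i < n, p (p i) = i
  hadj : ∀ i < n, p i ≠ (i + 1) % n
  hfix : ∀ i < n, p i = i → p ((i + 1) % n) ≠ (i + 1) % n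
  hcov : ∀ i < n, p i ≠ i → i = 0 ∨ i = k + 1 ∨ i = 1 ∨ i = k ∨ i = k + 2 ∨ i = n - 1 ∨
      p i = 1 ∨ p i = k ∨ p i = k + 2 ∨ p i = n - 1

theorem tb_fixed {n k : ℕ} {p : ℕ → ℕ} (H : tbH n k p) {i : ℕ} (hi : i < n) (h0 : i ≠ 0)
    (h1 : i ≠ k + 1) (h2 : i ≠ 1) (h3 : i ≠ k) (h4 : i ≠ k + 2) (h5 : i ≠ n - 1) (h6 : i ≠ p 1)
    (h7 : i ≠ p k) (h8 : i ≠ p (k + 2)) (h9 : i ≠ p (n - 1)) : p i = i := by
  by_contra hne
  have hi' := H.hinv i hi
  rcases H.hcov i hi hne with h | h | h | h | h | h | h | h | h | h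
  · exact h0 h
  · exact h1 h
  · exact h2 h
  · exact h3 h
  · exact h4 h
  · exact h5 h
  · rw [h] at hi'; exact h6 hi'.symm
  · rw [h] at hi'; exact h7 hi'.symm
  · rw [h] at hi'; exact h8 hi'.symm
  · rw [h] at hi'; exact h9 hi'.symm

theorem tb_mk {n k : ℕ} {p : ℕ → ℕ} (H : tbH n k p) {i : ℕ} (hi : i < n) :
    tbMk n k (p 1) (p k) (p (k + 2)) (p (n - 1)) i = p i := by
  have hk := H.hk
  have hn := H.hn
  have e0 : p (k + 1) = 0 := by rw [← H.h0]; exact H.hinv 0 (by omega)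
  have e1 := H.hinv 1 (by omega)
  have e2 := H.hinv k (by omega)
  have e3 := H.hinv (k + 2) (by omega)
  have e4 := H.hinv (n - 1) (by omega)
  simp only [tbMk, tb_beq, Bool.cond_decide, Nat.succ_eq_add_one, Nat.add_eq, Nat.sub_eq]
  split_ifs with h0 h1 h2 h3 h4 h5 h6 h7 h8 h9
  · rw [h0, H.h0]
  · rw [h1, e0]
  · rw [h2]
  · rw [h3]
  · rw [h4]
  · rw [h5]
  · rw [h6, e1]
  · rw [h7, e2]
  · rw [h8, e3]
  · rw [h9, e4]
  · exact (tb_fixed H hi h0 h1 h2 h3 h4 h5 h6 h7 h8 h9).symm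

theorem tb_nx (n i : ℕ) : tbNx n i = (i + 1) % n := rfl

theorem tb_pv (n i : ℕ) : tbPv n i = (i + n - 1) % n := rfl

theorem tb_bad {n k : ℕ} {p P : ℕ → ℕ} (H : tbH n k p) (hP : ∀ i < n, P i = p i) {i : ℕ}
    (hi : i < n) : tbBad n P i = false := by
  have hj : (i + 1) % n < n := Nat.mod_lt _ (by omega)
  have h1 := H.hinv i hi
  have h2 := H.hadj i hi
  have h3 := H.hfix i hi
  simp only [tbBad, tbF_eq, tb_nx, tb_beq, hP i hi, hP _ (H.hlt i hi), hP _ hj, h1]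
  by_cases h : p i = i
  · simp [h2, h3 h]
  · simp [h2, h]

theorem tb_sum {n : ℕ} {p P : ℕ → ℕ} (hP : ∀ i < n, P i = p i) (y h : ℕ) {i : ℕ} (hi : i < n) :
    tbSum n P y h i = csum n p (tbDig y) (tbDig h) i := by
  simp only [tbSum, csum, tb_pv, tb_beq, Bool.cond_decide, Nat.add_eq, hP i hi]

theorem tb_good {n k : ℕ} {p P : ℕ → ℕ} (H : tbH n k p) (hP : ∀ i < n, P i = p i) {y h : ℕ}
    (hg : tbAll n (tbGoodAt n P y h) = true) : tbC n p := by
  refine ⟨tbDig y, tbDig h, fun i hi => ?_⟩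
  have hj : (i + 1) % n < n := Nat.mod_lt _ (by omega)
  have g := tbAll_spec hg i hi
  simp only [tbGoodAt, tbF_eq, tb_nx, tb_pv, tb_beq, tb_ble, hP i hi, tb_sum hP y h hi,
    tb_sum hP y h hj, tb_sum hP y h (H.hlt i hi), Bool.and_eq_true, Bool.or_eq_true,
    decide_eq_true_eq, Bool.not_eq_true', decide_eq_false_iff_not] at g
  obtain ⟨⟨⟨⟨⟨⟨⟨g1, g2⟩, g3⟩, g4⟩, g5⟩, g6⟩, g7⟩, g8⟩ := g
  refine ⟨g1, g2, g3, g4, g5, g6, fun hne => ?_, g7, fun hne => ?_⟩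
  · rcases g8 with g8 | g8
    · exact absurd g8 hne
    · exact ⟨g8.1.1, g8.1.2⟩
  · rcases g8 with g8 | g8
    · exact absurd g8 hne
    · exact g8.2

theorem tb_case {n k : ℕ} {p : ℕ → ℕ} (H : tbH n k p) {l : List ℕ} {m : ℕ}
    (hc : tbCase n k l m (p 1) (p k) (p (k + 2)) (p (n - 1)) = true) : tbC n p := by
  have hk := H.hk
  have hn := H.hn
  have hP : ∀ i < n, tbMk n k (p 1) (p k) (p (k + 2)) (p (n - 1)) i = p i :=
    fun i hi => tb_mk H hi
  have hb : ∀ i < n, tbBad n (tbMk n k (p 1) (p k) (p (k + 2)) (p (n - 1))) i = false :=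
    fun i hi => tb_bad H hP hi
  simp only [tbCase, tbF_eq, Nat.sub_eq, Nat.add_eq, Bool.or_eq_true] at hc
  rw [hb (n - 1) (by omega), hb 1 (by omega), hb k (by omega), hb (k + 2) (by omega),
    hb (k - 1) (by omega), hb (n - 2) (by omega), hP (n - 1) (by omega)] at hc
  rcases hc with ((((((((hc | hc) | hc) | hc) | hc) | hc) | hc) | hc) | hc)
  · simp at hc
  · rw [Bool.and_eq_true, tb_ble, decide_eq_true_eq] at hc
    rw [hb _ hc.1] at hc
    exact absurd hc.2 (by simp)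
  all_goals first | exact tb_good H hP hc | exact absurd hc (by simp)

theorem tb_out {n k a b c i : ℕ} (h : tbOut n k a b c i = true) :
    i ≠ 0 ∧ i ≠ k + 1 ∧ i ≠ 1 ∧ i ≠ k ∧ i ≠ k + 2 ∧ i ≠ n - 1 ∧ i ≠ a ∧ i ≠ b ∧ i ≠ c := by
  simp only [tbOut, tb_beq, Bool.and_eq_true, Bool.not_eq_true', decide_eq_false_iff_not,
    Nat.succ_eq_add_one, Nat.add_eq, Nat.sub_eq] at h
  tauto

theorem tb_tri {n k : ℕ} {p : ℕ → ℕ} (H : tbH n k p) {l : List ℕ}
    (hc : tbTri n k l (p 1) (p k) (p (k + 2)) = true) : tbC n p := by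
  have hk := H.hk
  have hn := H.hn
  simp only [tbTri, tbF_eq] at hc
  generalize tbMask n k (p 1) (p k) (p (k + 2)) = m at hc
  generalize Nat.log2 (tbGap n m) = i at hc
  rcases hb : (Nat.ble (Nat.add i 2) n && tbOut n k (p 1) (p k) (p (k + 2)) i &&
      tbOut n k (p 1) (p k) (p (k + 2)) (Nat.succ i)) with _ | _
  · rw [hb, cond_false] at hc
    exact tb_case H (tbAll_spec hc _ (H.hlt _ (by omega)))
  · rw [hb, cond_true, Bool.and_eq_true] at hc
    rw [Bool.and_eq_true, Bool.and_eq_true, tb_ble, decide_eq_true_eq, Nat.add_eq] at hb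
    obtain ⟨⟨hi, o1⟩, o2⟩ := hb
    obtain ⟨a0, a1, a2, a3, a4, a5, a6, a7, a8⟩ := tb_out o1
    obtain ⟨b0, b1, b2, b3, b4, b5, b6, b7, b8⟩ := tb_out o2
    by_cases d1 : i = p (n - 1)
    · have := hc.1
      rw [d1] at this
      exact tb_case H this
    by_cases d2 : Nat.succ i = p (n - 1)
    · have := hc.2
      rw [d2] at this
      exact tb_case H this
    have f1 := tb_fixed H (by omega : i < n) a0 a1 a2 a3 a4 a5 a6 a7 a8 d1
    have f2 := tb_fixed H (by omega : Nat.succ i < n) b0 b1 b2 b3 b4 b5 b6 b7 b8 d2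
    have f3 := H.hfix i (by omega) f1
    rw [Nat.mod_eq_of_lt (by omega)] at f3
    exact absurd f2 f3

theorem tb_no {n k : ℕ} {p : ℕ → ℕ} (H : tbH n k p) {x : ℕ} (hx : x < n) (h0 : x ≠ 0)
    (h1 : x ≠ k + 1) : tbNo k x (p x) = false := by
  have hk := H.hk
  have hn := H.hn
  have e0 : p (k + 1) = 0 := by rw [← H.h0]; exact H.hinv 0 (by omega)
  have e1 := H.hinv x hx
  have e2 := H.hadj x hx
  have e3 := H.hlt x hx
  simp only [tbNo, tb_beq, Nat.succ_eq_add_one, Bool.or_eq_false_iff, decide_eq_false_iff_not]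
  refine ⟨⟨fun h => ?_, fun h => ?_⟩, fun h => ?_⟩
  · rw [h, H.h0] at e1; exact h1 e1.symm
  · rw [h, e0] at e1; exact h0 e1.symm
  · rw [Nat.mod_eq_of_lt (by omega)] at e2; exact e2 h

theorem tb_chk {n k : ℕ} {p : ℕ → ℕ} (H : tbH n k p) {l : List ℕ} (hc : tbChk n k l = true) :
    tbC n p := by
  have hk := H.hk
  have hn := H.hn
  have h1 := tbAll_spec hc (p 1) (H.hlt _ (by omega))
  simp only [tb_no H (by omega : 1 < n) (by omega) (by omega), Bool.false_or] at h1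
  have h2 := tbAll_spec h1 (p k) (H.hlt _ (by omega))
  have hab : (Nat.beq k 1 && !Nat.beq (p 1) (p k)) = false := by
    by_cases h : k = 1
    · subst h; simp
    · simp [tb_beq, h]
  simp only [tb_no H (by omega : k < n) (by omega) (by omega), hab, Bool.false_or] at h2
  have h3 := tbAll_spec h2 (p (k + 2)) (H.hlt _ (by omega))
  simp only [Nat.add_eq, tb_no H (by omega : k + 2 < n) (by omega) (by omega),
    Bool.false_or] at h3
  exact tb_tri H h3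

theorem tb_pair {n k : ℕ} {p : ℕ → ℕ} (H : tbH n k p) {s : ℕ}
    (hs : (2 ≤ s ∧ s + 2 ≤ k) ∨ (k + 3 ≤ s ∧ s + 3 ≤ n)) :
    ∃ t, s ≤ t ∧ t ≤ s + 1 ∧ t ∈ ({p 1, p k, p (k + 2), p (n - 1)} : Finset ℕ) := by
  have hk := H.hk
  have hn := H.hn
  by_contra hcon
  have g : ∀ t, s ≤ t → t ≤ s + 1 → p t = t := by
    intro t h1 h2
    have hm : t ∉ ({p 1, p k, p (k + 2), p (n - 1)} : Finset ℕ) := fun h => hcon ⟨t, h1, h2, h⟩
    simp only [Finset.mem_insert, Finset.mem_singleton, not_or] at hm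
    exact tb_fixed H (by omega) (by omega) (by omega) (by omega) (by omega) (by omega) (by omega)
      hm.1 hm.2.1 hm.2.2.1 hm.2.2.2
  have f3 := H.hfix s (by omega) (g s le_rfl (by omega))
  rw [Nat.mod_eq_of_lt (by omega)] at f3
  exact f3 (g (s + 1) (by omega) le_rfl)

theorem tb_bound {n k : ℕ} {p : ℕ → ℕ} (H : tbH n k p) : (k - 2) / 2 + (n - k - 4) / 2 ≤ 4 := by
  have hk := H.hk
  have hn := H.hn
  by_contra hcon
  have g : ∀ j : Fin 5, ∃ t, (if j.1 < (k - 2) / 2 then 2 + 2 * j.1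
      else k + 3 + 2 * (j.1 - (k - 2) / 2)) ≤ t ∧ t ≤ (if j.1 < (k - 2) / 2 then 2 + 2 * j.1
      else k + 3 + 2 * (j.1 - (k - 2) / 2)) + 1 ∧
      t ∈ ({p 1, p k, p (k + 2), p (n - 1)} : Finset ℕ) := by
    intro j
    have := j.2
    apply tb_pair H
    split_ifs <;> omega
  choose t ht using g
  have hinj : Function.Injective t := by
    intro i j hij
    have a1 := (ht i).1
    have a2 := (ht i).2.1
    have b1 := (ht j).1
    have b2 := (ht j).2.1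
    apply Fin.ext
    split_ifs at a1 a2 b1 b2 <;> omega
  have hsub : Finset.univ.image t ⊆ ({p 1, p k, p (k + 2), p (n - 1)} : Finset ℕ) := by
    intro x hx
    obtain ⟨j, _, rfl⟩ := Finset.mem_image.1 hx
    exact (ht j).2.2
  have c1 := Finset.card_le_card hsub
  rw [Finset.card_image_of_injective _ hinj, Finset.card_univ, Fintype.card_fin] at c1
  have c2 : ({p 1, p k, p (k + 2), p (n - 1)} : Finset ℕ).card ≤ 4 := Finset.card_le_four
  omega

end Pool.Agent.P.MP_0ad50f_co.SC
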