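import Pool.Agent.P.MP_0ad50f_co.SC.Defs
import Pool.Agent.P.MP_0ad50f_co.SC.TabS
import Pool.Agent.P.MP_0ad50f_co.SC.TabTA
import Pool.Agent.P.MP_0ad50f_co.SC.TabTB
import Pool.Agent.P.MP_0ad50f_co.SC.TabTC
import Pool.Agent.P.MP_0ad50f_co.SC.TabTD
import Pool.Agent.P.MP_0ad50f_co.SC.TabTE

namespace Pool.Agent.P.MP_0ad50f_co.SC

/-- Cycles of length `n` with a chord from `0` to `k + 1` such that every other chord has an end
next to `0` or `k + 1` and no two vertices without a chord are adjacent. Edge `i` joins `i` and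
`i + 1`. -/
theorem tab (n k : ℕ) (p : ℕ → ℕ) (hk : 1 ≤ k) (hn : k + 3 ≤ n) (h0 : p 0 = k + 1)
    (hlt : ∀ i < n, p i < n) (hinv : ∀ i < n, p (p i) = i)
    (hadj : ∀ i < n, p i ≠ (i + 1) % n)
    (hfix : ∀ i < n, p i = i → p ((i + 1) % n) ≠ (i + 1) % n)
    (hcov : ∀ i < n, p i ≠ i → i = 0 ∨ i = k + 1 ∨ i = 1 ∨ i = k ∨ i = k + 2 ∨ i = n - 1 ∨
      p i = 1 ∨ p i = k ∨ p i = k + 2 ∨ p i = n - 1) :
    ∃ cy ch : ℕ → ℕ, ∀ i < n, 1 ≤ cy i ∧ cy i ≤ 5 ∧ 1 ≤ ch i ∧ ch i ≤ 5 ∧ ch (p i) = ch i ∧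
      cy i ≠ cy ((i + 1) % n) ∧ (p i ≠ i → ch i ≠ cy i ∧ ch i ≠ cy ((i + n - 1) % n)) ∧
      csum n p cy ch i ≠ csum n p cy ch ((i + 1) % n) ∧
      (p i ≠ i → csum n p cy ch i ≠ csum n p cy ch (p i)) := by
  have H : tbH n k p := ⟨hk, hn, h0, hlt, hinv, hadj, hfix, hcov⟩
  have hb := tb_bound H
  have h4 : 4 ≤ n := by omega
  have h16 : n ≤ 16 := by omega
  show tbC n p
  interval_cases n
  · have hk' : k ≤ 1 := by omega
    interval_cases k
    · exact tb_chk H tbK4_1
  · have hk' : k ≤ 2 := by omega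
    interval_cases k
    · exact tb_chk H tbK5_1
    · exact tb_chk H tbK5_2
  · have hk' : k ≤ 3 := by omega
    interval_cases k
    · exact tb_chk H tbK6_1
    · exact tb_chk H tbK6_2
    · exact tb_chk H tbK6_3
  · have hk' : k ≤ 4 := by omega
    interval_cases k
    · exact tb_chk H tbK7_1
    · exact tb_chk H tbK7_2
    · exact tb_chk H tbK7_3
    · exact tb_chk H tbK7_4
  · have hk' : k ≤ 5 := by omega
    interval_cases k
    · exact tb_chk H tbK8_1
    · exact tb_chk H tbK8_2
    · exact tb_chk H tbK8_3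
    · exact tb_chk H tbK8_4
    · exact tb_chk H tbK8_5
  · have hk' : k ≤ 6 := by omega
    interval_cases k
    · exact tb_chk H tbK9_1
    · exact tb_chk H tbK9_2
    · exact tb_chk H tbK9_3
    · exact tb_chk H tbK9_4
    · exact tb_chk H tbK9_5
    · exact tb_chk H tbK9_6
  · have hk' : k ≤ 7 := by omega
    interval_cases k
    · exact tb_chk H tbK10_1
    · exact tb_chk H tbK10_2
    · exact tb_chk H tbK10_3
    · exact tb_chk H tbK10_4
    · exact tb_chk H tbK10_5
    · exact tb_chk H tbK10_6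
    · exact tb_chk H tbK10_7
  · have hk' : k ≤ 8 := by omega
    interval_cases k
    · exact tb_chk H tbK11_1
    · exact tb_chk H tbK11_2
    · exact tb_chk H tbK11_3
    · exact tb_chk H tbK11_4
    · exact tb_chk H tbK11_5
    · exact tb_chk H tbK11_6
    · exact tb_chk H tbK11_7
    · exact tb_chk H tbK11_8
  · have hk' : k ≤ 9 := by omega
    interval_cases k
    · exact tb_chk H tbK12_1
    · exact tb_chk H tbK12_2
    · exact tb_chk H tbK12_3
    · exact tb_chk H tbK12_4
    · exact tb_chk H tbK12_5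
    · exact tb_chk H tbK12_6
    · exact tb_chk H tbK12_7
    · exact tb_chk H tbK12_8
    · exact tb_chk H tbK12_9
  · have hk' : k ≤ 10 := by omega
    interval_cases k
    · exact tb_chk H tbK13_1
    · exact tb_chk H tbK13_2
    · exact tb_chk H tbK13_3
    · exact tb_chk H tbK13_4
    · exact tb_chk H tbK13_5
    · exact tb_chk H tbK13_6
    · exact tb_chk H tbK13_7
    · exact tb_chk H tbK13_8
    · exact tb_chk H tbK13_9
    · exact tb_chk H tbK13_10
  · have hk' : k ≤ 11 := by omega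
    interval_cases k
    · exact tb_chk H tbK14_1
    · exact tb_chk H tbK14_2
    · exact tb_chk H tbK14_3
    · exact tb_chk H tbK14_4
    · exact tb_chk H tbK14_5
    · exact tb_chk H tbK14_6
    · exact tb_chk H tbK14_7
    · exact tb_chk H tbK14_8
    · exact tb_chk H tbK14_9
    · exact tb_chk H tbK14_10
    · exact tb_chk H tbK14_11
  · have hk' : k ≤ 12 := by omega
    interval_cases k
    · omega
    · exact tb_chk H tbK15_2
    · exact tb_chk H tbK15_3
    · exact tb_chk H tbK15_4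
    · exact tb_chk H tbK15_5
    · exact tb_chk H tbK15_6
    · exact tb_chk H tbK15_7
    · exact tb_chk H tbK15_8
    · exact tb_chk H tbK15_9
    · exact tb_chk H tbK15_10
    · exact tb_chk H tbK15_11
    · omega
  · have hk' : k ≤ 13 := by omega
    interval_cases k
    · omega
    · omega
    · exact tb_chk H tbK16_3
    · omega
    · exact tb_chk H tbK16_5
    · omega
    · exact tb_chk H tbK16_7
    · omega
    · exact tb_chk H tbK16_9
    · omega
    · exact tb_chk H tbK16_11
    · omega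
    · omega

end Pool.Agent.P.MP_0ad50f_co.SC
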