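import Pool.Agent.P.MP_0ad50f_co.SC.Defs

namespace Pool.Agent.P.MP_0ad50f_co.SC

/-- Bounded universal quantifier. -/
def tbAll (n : ℕ) (f : ℕ → Bool) : Bool :=
  Nat.rec (motive := fun _ => Bool) true (fun m ih => f m && ih) n

/-- Evaluate `x` first, then apply `f`. -/
def tbF (x : ℕ) (f : ℕ → Bool) : Bool :=
  Nat.rec (motive := fun _ => Bool) (f 0) (fun m _ => f (Nat.succ m)) x

/-- The chord map determined by its values at `1`, `k`, `k + 2`, `n - 1`. -/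
def tbMk (n k a b c d i : ℕ) : ℕ :=
  bif Nat.beq i 0 then Nat.succ k else
  bif Nat.beq i (Nat.succ k) then 0 else
  bif Nat.beq i 1 then a else
  bif Nat.beq i k then b else
  bif Nat.beq i (Nat.add k 2) then c else
  bif Nat.beq i (Nat.sub n 1) then d else
  bif Nat.beq i a then 1 else
  bif Nat.beq i b then k else
  bif Nat.beq i c then Nat.add k 2 else
  bif Nat.beq i d then Nat.sub n 1 else i

def tbDig (x i : ℕ) : ℕ := Nat.mod (Nat.shiftRight x (Nat.mul 3 i)) 8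

def tbNx (n i : ℕ) : ℕ := Nat.mod (Nat.succ i) n

def tbPv (n i : ℕ) : ℕ := Nat.mod (Nat.sub (Nat.add i n) 1) n

def tbSum (n : ℕ) (P : ℕ → ℕ) (y h i : ℕ) : ℕ :=
  Nat.add (Nat.add (tbDig y i) (tbDig y (tbPv n i)))
    (bif Nat.beq (P i) i then 0 else tbDig h i)

/-- The colouring with digits `y` (cycle) and `h` (chords) is good at `i`. -/
def tbGoodAt (n : ℕ) (P : ℕ → ℕ) (y h i : ℕ) : Bool :=
  tbF (P i) fun q => tbF (tbNx n i) fun j => tbF (tbDig y i) fun u => tbF (tbDig h i) fun v =>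
    tbF (tbSum n P y h i) fun s =>
      Nat.ble 1 u && Nat.ble u 5 && Nat.ble 1 v && Nat.ble v 5 && Nat.beq (tbDig h q) v &&
        !Nat.beq u (tbDig y j) && !Nat.beq s (tbSum n P y h j) &&
        (Nat.beq q i || (!Nat.beq v u && !Nat.beq v (tbDig y (tbPv n i)) &&
          !Nat.beq s (tbSum n P y h q)))

/-- One of the hypotheses fails at `i`. -/
def tbBad (n : ℕ) (P : ℕ → ℕ) (i : ℕ) : Bool :=
  tbF (P i) fun q => !Nat.beq (P q) i || tbF (tbNx n i) fun j =>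
    Nat.beq q j || (Nat.beq q i && Nat.beq (P j) j)

def tbFind (key : ℕ) (l : List ℕ) : ℕ :=
  List.rec (motive := fun _ => ℕ) 0
    (fun e _ ih => bif Nat.beq (Nat.mod e 65536) key then Nat.div e 65536 else ih) l

def tbMask (n k a b c : ℕ) : ℕ :=
  Nat.lor (Nat.lor (Nat.lor 3 (Nat.shiftLeft 7 k)) (Nat.shiftLeft 1 (Nat.sub n 1)))
    (Nat.lor (Nat.lor (Nat.shiftLeft 1 a) (Nat.shiftLeft 1 b)) (Nat.shiftLeft 1 c))

/-- Pairs `i, i + 1` outside the mask. -/
def tbGap (n m : ℕ) : ℕ :=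
  Nat.xor (Nat.land (Nat.lor m (Nat.shiftRight m 1)) (Nat.sub (Nat.shiftLeft 1 (Nat.sub n 1)) 1))
    (Nat.sub (Nat.shiftLeft 1 (Nat.sub n 1)) 1)

def tbCase (n k : ℕ) (l : List ℕ) (m a b c d : ℕ) : Bool :=
  !Nat.beq (tbMk n k a b c d (Nat.sub n 1)) d ||
  (tbF (Nat.log2 (tbGap n (Nat.lor m (Nat.shiftLeft 1 d)))) fun i =>
    Nat.ble (Nat.succ i) n && tbBad n (tbMk n k a b c d) i) ||
  tbBad n (tbMk n k a b c d) (Nat.sub n 1) || tbBad n (tbMk n k a b c d) 1 ||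
  tbBad n (tbMk n k a b c d) k || tbBad n (tbMk n k a b c d) (Nat.add k 2) ||
  tbBad n (tbMk n k a b c d) (Nat.sub k 1) || tbBad n (tbMk n k a b c d) (Nat.sub n 2) ||
  tbF (tbFind (Nat.add (Nat.add a (Nat.mul 16 b)) (Nat.add (Nat.mul 256 c) (Nat.mul 4096 d))) l)
    fun w => tbF (Nat.shiftRight w 48) fun h => tbAll n (tbGoodAt n (tbMk n k a b c d) w h)

/-- `i` is none of the nine listed vertices. -/
def tbOut (n k a b c i : ℕ) : Bool :=
  !Nat.beq i 0 && !Nat.beq i (Nat.succ k) && !Nat.beq i 1 && !Nat.beq i k &&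
    !Nat.beq i (Nat.add k 2) && !Nat.beq i (Nat.sub n 1) && !Nat.beq i a && !Nat.beq i b &&
    !Nat.beq i c

def tbTri (n k : ℕ) (l : List ℕ) (a b c : ℕ) : Bool :=
  tbF (tbMask n k a b c) fun m => tbF (Nat.log2 (tbGap n m)) fun i =>
    bif Nat.ble (Nat.add i 2) n && tbOut n k a b c i && tbOut n k a b c (Nat.succ i) then
      tbCase n k l m a b c i && tbCase n k l m a b c (Nat.succ i)
    else tbAll n (tbCase n k l m a b c)

/-- Values that `p x` cannot take. -/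
def tbNo (k x a : ℕ) : Bool :=
  Nat.beq a 0 || Nat.beq a (Nat.succ k) || Nat.beq a (Nat.succ x)

def tbChk (n k : ℕ) (l : List ℕ) : Bool :=
  tbAll n fun a => tbNo k 1 a || tbAll n fun b => tbNo k k b || (Nat.beq k 1 && !Nat.beq a b) ||
    tbAll n fun c => tbNo k (Nat.add k 2) c || tbTri n k l a b c

end Pool.Agent.P.MP_0ad50f_co.SC
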