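import Pool.Agent.P.MP_0ad50f_co.SC.ZL
import Pool.Agent.P.MP_0ad50f_co.SC.AP
import Pool.Agent.P.MP_0ad50f_co.SC.Add

namespace Pool.Agent.P.MP_0ad50f_co.SC

variable {V : Type} [DecidableEq V]

namespace Inst

theorem top_noF {I : Inst V} (hr : ∀ v ∈ I.A, ¬ I.Root v) : I.NoK .F := by
  intro a ha hk
  exact hr a.1 ha (Or.inl ⟨a.2, hk⟩)

theorem top_odd {I : Inst V} (hN : I.NoK .N) (hr : ∀ v ∈ I.A, ¬ I.Root v) {a b c : Dart V}
    (ha : a.1 ∈ I.A) (h3 : Three a b c) :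
    (I.kind a = .Z ∧ I.kind b = .R ∧ I.kind c = .R) ∨
    (I.kind a = .R ∧ I.kind b = .Z ∧ I.kind c = .R) ∨
    (I.kind a = .R ∧ I.kind b = .R ∧ I.kind c = .Z) ∨
    (I.kind a = .Z ∧ I.kind b = .Z ∧ I.kind c = .Z) := by
  have hb : b.1 ∈ I.A := h3.1 ▸ ha
  have hc : c.1 ∈ I.A := h3.2.1 ▸ ha
  have hF := top_noF hr
  have h1 := hN a ha
  have h2 := hN b hb
  have h4 := hN c hc
  have h5 := hF a ha
  have h6 := hF b hb
  have h7 := hF c hc
  have h8 : ¬ Even (I.jZN a.1) := fun h => hr a.1 ha (Or.inr h)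
  rw [h3.jZN_eq I] at h8
  revert h1 h2 h4 h5 h6 h7 h8
  cases I.kind a <;> cases I.kind b <;> cases I.kind c <;> decide

theorem top_digZ {I : Inst V} (hN : I.NoK .N) (hr : ∀ v ∈ I.A, ¬ I.Root v) {a b c e : Dart V}
    (hd : I.Dig a b c e) : I.kind a = .Z := by
  have h1 := hd.2.2.1
  have h2 := hd.2.2.2.1
  rcases top_odd hN hr hd.1 hd.2.1 with h | h | h | h
  · exact h.1
  · rw [h1] at h; exact absurd h.2.1 (by decide)
  · rw [h2] at h; exact absurd h.2.2 (by decide)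
  · exact h.1

theorem top_rootedRem {I : Inst V} (h : I.WF) (hc : I.Conn) {a : Dart V} (ha : a.1 ∈ I.A)
    (z : V) : (I.rem {a.1, z}).Rooted := by
  refine rootedP_rem (rootedP_of_conn h hc (h.mem a ha)) _ (Or.inr ⟨(I.th a).2, ?_⟩)
  have : I.th ((I.th a).1, (I.th a).2) = a := h.inv a ha
  rw [this]
  simp

theorem top_thetaA {I : Inst V} (h : I.WF) (hc : I.Conn) {a b c : Dart V}
    (hd : I.Dig a b c (I.th a)) : I.A = {a.1, (I.th a).1} := by
  obtain ⟨ha, h3, -, -, -, h3'⟩ := hd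
  have hb : b.1 ∈ I.A := h3.1 ▸ ha
  have hcc : c.1 ∈ I.A := h3.2.1 ▸ ha
  have hcl : I.Closed {v | v = a.1 ∨ v = (I.th a).1} := by
    intro d _ hS
    rcases hS with hS | hS
    · rcases h3.cases d hS with rfl | rfl | rfl
      · exact Or.inr rfl
      · exact Or.inr h3'.1
      · exact Or.inr h3'.2.1
    · rcases h3'.cases d hS with rfl | rfl | rfl
      · rw [h.inv a ha]; exact Or.inl rfl
      · rw [h.inv b hb]; exact Or.inl h3.1
      · rw [h.inv c hcc]; exact Or.inl h3.2.1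
  ext v
  simp only [Finset.mem_insert, Finset.mem_singleton]
  constructor
  · intro hv
    exact hc _ hcl ⟨a.1, ha, Or.inl rfl⟩ v hv
  · rintro (rfl | rfl)
    · exact ha
    · exact h.mem a ha

theorem top_jZN_congr {I J : Inst V} (v : V)
    (hk : ∀ i, (J.kind (v, i) = .Z ∨ J.kind (v, i) = .N) ↔
      (I.kind (v, i) = .Z ∨ I.kind (v, i) = .N)) : J.jZN v = I.jZN v := by
  unfold jZN
  congr 1
  exact Finset.filter_congr fun i _ => hk i

theorem top_theta {I : Inst V} (h : I.WF) (hl : I.NoLoop) (hN : I.NoK .N) (hc : I.Conn)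
    (hr : ∀ v ∈ I.A, ¬ I.Root v) {a b c : Dart V} (hd : I.Dig a b c (I.th a))
    (hg : I.g b ≠ I.g c) : I.Solv := by
  have hA := top_thetaA h hc hd
  have hk := top_digZ hN hr hd
  obtain ⟨ha, h3, hkb, hkc, hz, h3'⟩ := hd
  have hb : b.1 ∈ I.A := h3.1 ▸ ha
  have hcc : c.1 ∈ I.A := h3.2.1 ▸ ha
  have hkp : I.kind (I.th a) = .Z := (h.kind_th a ha).trans hk
  have hkb' : I.kind (I.th b) = .R := (h.kind_th b hb).trans hkb
  have hkc' : I.kind (I.th c) = .R := (h.kind_th c hcc).trans hkc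
  have hkeep : ∀ d : Dart V, I.kind d = .R → (I.setN a).kind d = .R := by
    intro d hd
    have h1 : ¬ (d = a ∨ d = I.th a) := by
      rintro (rfl | rfl)
      · rw [hk] at hd; exact absurd hd (by decide)
      · rw [hkp] at hd; exact absurd hd (by decide)
    simp only [setN, if_neg h1]
    exact hd
  refine lift_P h ha (Or.inr hk) hz h3 h3' hkb hkc hkb' hkc' ?_
  refine AP (I.setN a) (wf_setN h ha (by rw [hk]; decide)) (loops_setN hl.loopsOK a) ?_ ?_
    (a := a) (b := b) (c := c) (e := I.th a)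
    ⟨ha, h3, hkeep b hkb, hkeep c hkc, hz, h3'⟩ hg ⟨fun _ => 0, ?_⟩
  · intro d hd
    have hd' : d.1 ∈ I.A := hd
    rw [hA] at hd'
    simp only [Finset.mem_insert, Finset.mem_singleton] at hd'
    rcases hd' with hS | hS
    · rcases h3.cases d hS with rfl | rfl | rfl
      · simp [setN]
      · rw [hkeep _ hkb]; decide
      · rw [hkeep _ hkc]; decide
    · rcases h3'.cases d hS with rfl | rfl | rfl
      · simp [setN]
      · rw [hkeep _ hkb']; decide
      · rw [hkeep _ hkc']; decide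
  · intro v hv hroot
    apply hr v hv
    rcases hroot with ⟨i, hi⟩ | hev
    · left
      refine ⟨i, ?_⟩
      simp only [setN] at hi
      split_ifs at hi with h1
      exact hi
    · right
      rw [top_jZN_congr (I := I) (J := I.setN a) v] at hev
      · exact hev
      · intro i
        simp only [setN]
        split_ifs with h1
        · rcases h1 with h1 | h1
          · rw [h1, hk]; simp
          · rw [h1, hkp]; simp
        · exact Iff.rfl
  · intro v hv h1 h2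
    have hv' : v ∈ I.A := hv
    rw [hA] at hv'
    simp only [Finset.mem_insert, Finset.mem_singleton] at hv'
    rcases hv' with h | h
    · exact absurd h h1
    · exact absurd h h2

theorem top_zzz {I : Inst V} (h : I.WF) (hl : I.NoLoop) (hN : I.NoK .N) (hc : I.Conn)
    (hi : I.Inv3) (hr : ∀ v ∈ I.A, ¬ I.Root v) {a b c e : Dart V} (hd : I.Dig a b c e)
    (hne : I.th a ≠ e) (hg : I.g b = I.g c) (hpq : (I.th a).1 ≠ (I.th e).1)
    (hz : ∀ d : Dart V, d.1 = (I.th a).1 → I.kind d = .Z) : I.Solv := by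
  have hk := top_digZ hN hr hd
  have hd' := hd.symm h
  have hke := top_digZ hN hr hd'
  have ha := hd.1
  have he := hd'.1
  have hne' : I.th e ≠ a := by
    intro h1
    apply hne
    rw [← h1, h.inv e he]
  have o1 := outer_out h ha hd.2.1 hd.2.2.2.2.1 hd.2.2.2.2.2 (by rw [hk]; decide) hne
  have o2 := outer_out h he hd'.2.1 hd'.2.2.2.2.1 hd'.2.2.2.2.2 (by rw [hke]; decide) hne'
  refine lift_D0r h hd hk (Or.inr hke) hne hg ?_
  have hpA : (I.th a).1 ∈ (I.rem {a.1, e.1}).A := by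
    simp only [rem, Finset.mem_sdiff, Finset.mem_insert, Finset.mem_singleton, not_or]
    exact ⟨h.mem a ha, o1.1, o1.2⟩
  have hqA : (I.th e).1 ∈ (I.rem {a.1, e.1}).A := by
    simp only [rem, Finset.mem_sdiff, Finset.mem_insert, Finset.mem_singleton, not_or]
    exact ⟨h.mem e he, o2.2, o2.1⟩
  have hpF : (I.rem {a.1, e.1}).kind (I.th a) = .F := by
    simp [rem, h.inv a ha]
  have hqF : (I.rem {a.1, e.1}).kind (I.th e) = .F := by
    simp [rem, h.inv e he]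
  refine ZL3 _ (wf_join (wf_rem h _) hpA hqA (fun h1 => hpq (congrArg Prod.fst h1)) hpF hqF
    (Or.inl rfl) _) (loops_join (loops_rem hl.loopsOK _) (Or.inr ⟨rfl, fun h1 => absurd h1 hpq⟩))
    (inv3_D0r h hi hd hk (Or.inr hke) hne _) ?_
  refine (rootedP_D0r h hd hk (Or.inr hke) hne _ (rootedP_of_conn h hc (h.mem a ha))).rooted ?_
  obtain ⟨d2, d3, h3⟩ := three_exists (I.th a)
  have key : ∀ d : Dart V, d.1 = (I.th a).1 → d ≠ I.th a →
      ((I.rem {a.1, e.1}).join (I.th a) (I.th e) .R (I.g b + I.g e)).kind d = .Z := by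
    intro d h1 h2
    have h4 : d ≠ I.th e := fun h5 => hpq (by rw [← h1, h5])
    have h5 : ¬ ((I.th d).1 = a.1 ∨ (I.th d).1 = e.1) := by
      intro h6
      rcases leave h ha hd.2.1 hd.2.2.2.2.2 (h1 ▸ h.mem a ha) (h1 ▸ o1.1) (h1 ▸ o1.2) h6 with
        h7 | h7
      · exact h2 h7
      · exact h4 h7
    have h6 : ¬ (d = I.th a ∨ d = I.th e) := fun h7 => h7.elim h2 h4
    simp only [join, rem, if_neg h6, Finset.mem_insert, Finset.mem_singleton, if_neg h5]
    exact hz d h1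
  right
  rw [h3.jZN_eq, key d2 h3.1 h3.2.2.1.symm, key d3 h3.2.1 h3.2.2.2.1.symm]
  simp [join]

theorem top_allN {I : Inst V} (h : I.WF) (hl : I.NoLoop) (hN : I.NoK .N) (hc : I.Conn)
    (hr : ∀ v ∈ I.A, ¬ I.Root v) {a b c e : Dart V} (hd : I.Dig a b c e) (hb : ¬ I.Bridge a)
    (hne : I.th a ≠ e) (hg : I.g b ≠ I.g c) : I.allN.Solv := by
  have hF := top_noF hr
  have hkeep : ∀ d : Dart V, I.kind d = .R → I.allN.kind d = .R := by
    intro d hd
    simp [allN, hd]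
  refine AP I.allN (wf_allN h) ?_ ?_ ?_ (a := a) (b := b) (c := c) (e := e)
    ⟨hd.1, hd.2.1, hkeep b hd.2.2.1, hkeep c hd.2.2.2.1, hd.2.2.2.2.1, hd.2.2.2.2.2⟩ hg
    (rank_outside h hN hF hc hd hb hne)
  · intro d hd1 hd2
    exact absurd hd2 (hl d hd1 (hF d hd1))
  · intro d _
    simp only [allN]
    split_ifs with h1
    · decide
    · exact h1
  · intro v hv hroot
    apply hr v hv
    rcases hroot with ⟨i, hi⟩ | hev
    · left
      refine ⟨i, ?_⟩
      simp only [allN] at hi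
      split_ifs at hi with h1
      exact hi
    · right
      rw [top_jZN_congr (I := I) (J := I.allN) v] at hev
      · exact hev
      · intro i
        simp only [allN]
        split_ifs with h1
        · rw [h1]; simp
        · exact Iff.rfl

theorem TOP (I : Inst V) (h : I.WF) (hl : I.NoLoop) (hN : I.NoK .N) (hi : I.Inv)
    (hc : I.RF ∨ I.Conn) :
    I.Solv ∨
    (I.Conn ∧ I.Inv3 ∧ ∃ a b c e, I.Bad a b c e ∧
      ∀ d : Dart V, d.1 = (I.th a).1 → I.kind d = .Z) ∨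
    (I.NoK .F ∧ ∃ a b c, I.Theta0 a b c) := by
  rcases hc with hc | hc
  · exact Or.inl (ZL I h hl.loopsOK hi (rooted_of_RF h hc))
  by_cases hroot : ∃ c ∈ I.A, I.Root c
  · obtain ⟨c, hcA, hcR⟩ := hroot
    exact Or.inl (ZL I h hl.loopsOK hi ((rootedP_of_conn h hc hcA).rooted hcR))
  have hr : ∀ v ∈ I.A, ¬ I.Root v := fun v hv h1 => hroot ⟨v, hv, h1⟩
  by_cases hne : I.A.Nonempty
  swap
  · exact Or.inl (ZL I h hl.loopsOK hi (rooted_of_all fun v hv => absurd ⟨v, hv⟩ hne))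
  by_cases hgad : ∃ a b c e, I.Gad a b c e
  · obtain ⟨a, b, c, e, hd⟩ := hgad
    exact Or.inl (lift_T1 h hd (ZL _ (wf_rem h _) (loops_rem hl.loopsOK _) (inv_rem_gad h hi hd)
      (top_rootedRem h hc hd.1 _)))
  have hi3 : I.Inv3 := by
    intro a ha hk
    rcases hi a ha hk with h1 | h1 | h1 | ⟨a0, b, c, e, h1, -⟩
    · exact Or.inl h1
    · exact Or.inr (Or.inl h1)
    · exact Or.inr (Or.inr h1)
    · exact absurd ⟨a0, b, c, e, h1⟩ hgad
  by_cases hth : ∃ a b c, I.Dig a b c (I.th a)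
  · obtain ⟨a, b, c, hd⟩ := hth
    by_cases hg : I.g b = I.g c
    · exact Or.inr (Or.inr ⟨top_noF hr, a, b, c, hd, top_digZ hN hr hd, hg, top_thetaA h hc hd⟩)
    · exact Or.inl (top_theta h hl hN hc hr hd hg)
  have hth' : ∀ a b c e, I.Dig a b c e → I.th a ≠ e := by
    intro a b c e hd h1
    exact hth ⟨a, b, c, h1 ▸ hd⟩
  by_cases hg0 : ∃ a b c e, I.Dig a b c e ∧ I.g b = I.g c
  · obtain ⟨a, b, c, e, hd, hg⟩ := hg0
    have hk := top_digZ hN hr hd
    have hd' := hd.symm h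
    have hke := top_digZ hN hr hd'
    have ha := hd.1
    have he := hd'.1
    have hne' := hth' a b c e hd
    have hrem : (I.rem {a.1, e.1}).Solv :=
      ZL3 _ (wf_rem h _) (loops_rem hl.loopsOK _) (inv3_rem h hi3 hd hk)
        (top_rootedRem h hc ha _)
    have hkp : I.kind (I.th a) = .Z := (h.kind_th a ha).trans hk
    have hall : ∀ d' : Dart V, d'.1 = (I.th a).1 → d' ≠ I.th a → I.kind d' = .Z →
        ∀ d : Dart V, d.1 = (I.th a).1 → I.kind d = .Z := by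
      intro d' h1 h2 h4 d h5
      obtain ⟨r, h3⟩ := Three.third h1 h2
      have hrA : r.1 ∈ I.A := by rw [← h3.2.1]; exact h.mem a ha
      have hrZ : I.kind r = .Z := by
        rcases top_odd hN hr hrA h3 with h6 | h6 | h6 | h6
        · exact h6.1
        · rw [hkp] at h6; exact absurd h6.2.2 (by decide)
        · rw [h4] at h6; exact absurd h6.2.1 (by decide)
        · exact h6.1
      rcases h3.cases d (h5.trans h3.2.1) with rfl | rfl | rfl
      · exact hrZ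
      · exact h4
      · exact hkp
    by_cases hpq : (I.th a).1 = (I.th e).1
    · by_cases hbad : I.Bad a b c e
      · refine Or.inr (Or.inl ⟨hc, hi3, a, b, c, e, hbad, ?_⟩)
        refine hall (I.th e) hpq.symm ?_ ((h.kind_th e he).trans hke)
        intro h1
        exact hd.2.2.2.2.1 (congrArg Prod.fst (h.th_inj he ha h1))
      · exact Or.inl (lift_T2 h hd hk (Or.inr hke) hpq hne' hbad hrem)
    · by_cases hz : ∀ d : Dart V, d.1 = (I.th a).1 → d ≠ I.th a → I.kind d ≠ .Z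
      · exact Or.inl (lift_D0f h hd hk (Or.inr hke) hpq hne' hg hz hrem)
      · have hz' : ∃ d : Dart V, d.1 = (I.th a).1 ∧ d ≠ I.th a ∧ I.kind d = .Z := by
          by_contra hcon
          exact hz fun d h1 h2 h4 => hcon ⟨d, h1, h2, h4⟩
        obtain ⟨d', h1, h2, h4⟩ := hz'
        exact Or.inl (top_zzz h hl hN hc hi3 hr hd hne' hg hpq (hall d' h1 h2 h4))
  have hg' : ∀ a b c e, I.Dig a b c e → I.g b ≠ I.g c :=
    fun a b c e hd h1 => hg0 ⟨a, b, c, e, hd, h1⟩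
  left
  refine lift_allN I h ?_ ?_
  · intro a ha hk
    rcases hi3 a ha hk with h1 | ⟨b, c, e, hd⟩ | ⟨b, c, e, hd⟩
    · exact Or.inl h1
    · exact Or.inr (Or.inl ⟨b, c, e, hd, hth' _ _ _ _ hd, hg' _ _ _ _ hd⟩)
    · refine Or.inr (Or.inr ⟨b, c, e, hd, ?_, hg' _ _ _ _ hd⟩)
      have h1 := hth' _ _ _ _ hd
      rwa [h.inv a ha] at h1
  · obtain ⟨a, ha, hk, hb⟩ := exists_nonbridge h hl hN hc hne hr
    rcases hi3 a ha hk with h1 | ⟨b, c, e, hd⟩ | ⟨b, c, e, hd⟩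
    · exact absurd h1 hb
    · exact top_allN h hl hN hc hr hd hb (hth' _ _ _ _ hd) (hg' _ _ _ _ hd)
    · refine top_allN h hl hN hc hr hd ?_ (hth' _ _ _ _ hd) (hg' _ _ _ _ hd)
      intro h1
      have h2 := bridge_th h (h.mem a ha) h1
      rw [h.inv a ha] at h2
      exact hb h2

/-- The darts of the instance after the addition of an outer edge of a bad end gadget. -/
theorem top_E2near {I : Inst V} (h : I.WF) (hl : I.NoLoop) {a b c e b' c' r : Dart V}
    (hb : I.Bad a b c e) (hz : ∀ d : Dart V, d.1 = (I.th a).1 → I.kind d = .Z)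
    (h3' : Three (I.th a) b' c') (hr : (b' = I.th e ∧ c' = r) ∨ (b' = r ∧ c' = I.th e)) :
    ((I.add a b c b' c' kB kA).kind (I.th b) = .R ∧ (I.add a b c b' c' kB kA).th (I.th b) = I.th c ∧
      (I.add a b c b' c' kB kA).g (I.th b) = kB) ∧
    ((I.add a b c b' c' kB kA).kind (I.th c) = .R ∧ (I.add a b c b' c' kB kA).th (I.th c) = I.th b ∧
      (I.add a b c b' c' kB kA).g (I.th c) = kB) ∧
    ((I.add a b c b' c' kB kA).kind e = .R ∧ (I.add a b c b' c' kB kA).th e = I.th r) ∧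
    ((I.add a b c b' c' kB kA).kind (I.th r) = .R ∧ (I.add a b c b' c' kB kA).th (I.th r) = e) := by
  obtain ⟨hd, hk, hke, hpq, hne, hg, -⟩ := hb
  have hd' := hd.symm h
  have he := hd'.1
  obtain ⟨ha, h3, hkb, hkc, hzu, h3e⟩ := hd
  have hbA : b.1 ∈ I.A := h3.1 ▸ ha
  have hcA : c.1 ∈ I.A := h3.2.1 ▸ ha
  have hpA := h.mem a ha
  have o1 := outer_out h ha h3 hzu h3e (by rw [hk]; decide) hne
  have hb'A : b'.1 ∈ I.A := h3'.1 ▸ hpA
  have hc'A : c'.1 ∈ I.A := h3'.2.1 ▸ hpA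
  have w1 : (I.cut a).WF := wf_cut h ha
  have hF1 : (I.cut a).kind a = .F := by simp [cut]
  have w2 : ((I.cut a).supp b c kB).WF := wf_supp w1 ha h3 hF1 kB
  have cut_far : ∀ d : Dart V, d ≠ a → d ≠ I.th a →
      (I.cut a).th d = I.th d ∧ (I.cut a).kind d = I.kind d := by
    intro d h1 h2
    have : ¬ (d = a ∨ d = I.th a) := fun h4 => h4.elim h1 h2
    simp only [cut, if_neg this, and_self]
  have ne_of : ∀ {d d' : Dart V}, d.1 ≠ d'.1 → d ≠ d' := fun h1 h2 => h1 (congrArg Prod.fst h2)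
  have cb := cut_far b h3.2.2.1.symm (ne_of (h3.1 ▸ o1.1.symm))
  have cc := cut_far c h3.2.2.2.1.symm (ne_of (h3.2.1 ▸ o1.1.symm))
  have hgs : (I.cut a).g b + (I.cut a).g c + kB = kB := by
    show I.g b + I.g c + kB = kB
    rw [hg, K_add_self, zero_add]
  have hbc : I.th b ≠ I.th c := h3e.2.2.2.2
  have memA2 : ∀ d : Dart V, d.1 ∈ I.A → d.1 ≠ a.1 → d.1 ∈ ((I.cut a).supp b c kB).A := by
    intro d h1 h2
    rw [supp_A, h3.1]
    simp only [Finset.mem_sdiff, Finset.mem_singleton]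
    exact ⟨h1, h2⟩
  have s1 : ((I.cut a).supp b c kB).kind (I.th b) = .R ∧
      ((I.cut a).supp b c kB).th (I.th b) = I.th c ∧ ((I.cut a).supp b c kB).g (I.th b) = kB := by
    have h1 := cut_far (I.th b) (ne_of (h3e.1 ▸ hzu)) (ne_of (h3e.1 ▸ o1.2.symm))
    rcases supp_near w1 ha h3 hF1 kB (d := I.th b) (h.mem b hbA) (h3e.1 ▸ hzu)
      (by rw [h1.1, h.inv b hbA]; exact h3.1) with h2 | h2 | h2 | h2
    · rw [cc.2, hkc] at h2; exact absurd h2.2.1 (by decide)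
    · rw [cb.2, hkb] at h2; exact absurd h2.2.1 (by decide)
    · rw [cc.1, hgs] at h2; exact h2.2.2
    · rw [cc.1] at h2; exact absurd h2.1 hbc
  have s2 : ((I.cut a).supp b c kB).kind (I.th c) = .R ∧
      ((I.cut a).supp b c kB).th (I.th c) = I.th b ∧ ((I.cut a).supp b c kB).g (I.th c) = kB := by
    have h1 := cut_far (I.th c) (ne_of (h3e.2.1 ▸ hzu)) (ne_of (h3e.2.1 ▸ o1.2.symm))
    rcases supp_near w1 ha h3 hF1 kB (d := I.th c) (h.mem c hcA) (h3e.2.1 ▸ hzu)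
      (by rw [h1.1, h.inv c hcA]; exact h3.2.1) with h2 | h2 | h2 | h2
    · rw [cc.2, hkc] at h2; exact absurd h2.2.1 (by decide)
    · rw [cb.2, hkb] at h2; exact absurd h2.2.1 (by decide)
    · rw [cb.1] at h2; exact absurd h2.1.symm hbc
    · rw [cb.1, hgs] at h2; exact h2.2.2
  have far2 : ∀ d : Dart V, d.1 ∈ I.A → d.1 ≠ a.1 → d ≠ I.th a → (I.th d).1 ≠ a.1 →
      ((I.cut a).supp b c kB).th d = I.th d ∧ ((I.cut a).supp b c kB).kind d = I.kind d := by
    intro d h1 h2 h4 h5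
    have h6 := cut_far d (ne_of h2) h4
    have h7 := supp_far w1 ha h3 kB (d := d) h1 h2 (by rw [h6.1]; exact h5)
    exact ⟨h7.1.trans h6.1, h7.2.1.trans h6.2⟩
  have hpA2 := memA2 (I.th a) hpA o1.1
  have hF2 : ((I.cut a).supp b c kB).kind (I.th a) = .F := by
    have h6 : (I.cut a).th (I.th a) = I.th a := by simp [cut]
    have h7 := supp_far w1 ha h3 kB (d := I.th a) hpA o1.1 (by rw [h6]; exact o1.1)
    rw [h7.2.1]
    simp [cut]
  have hr1 : r.1 = (I.th a).1 := by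
    rcases hr with h1 | h1
    · rw [← h1.2]; exact h3'.2.1
    · rw [← h1.1]; exact h3'.1
  have hrp : r ≠ I.th a := by
    rcases hr with h1 | h1
    · rw [← h1.2]; exact h3'.2.2.2.1.symm
    · rw [← h1.1]; exact h3'.2.2.1.symm
  have hrq : r ≠ I.th e := by
    rcases hr with h1 | h1
    · rw [← h1.2, ← h1.1]; exact h3'.2.2.2.2.symm
    · rw [← h1.1, ← h1.2]; exact h3'.2.2.2.2
  have hqp : I.th e ≠ I.th a := fun h1 => hzu (congrArg Prod.fst (h.th_inj he ha h1))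
  have hrA : r.1 ∈ I.A := hr1 ▸ hpA
  have hro : ¬ ((I.th r).1 = a.1 ∨ (I.th r).1 = e.1) := fun h1 =>
    (leave h ha h3 h3e hrA (hr1 ▸ o1.1) (hr1 ▸ o1.2) h1).elim hrp hrq
  have hrw : (I.th r).1 ≠ (I.th a).1 := by
    rw [← hr1]
    exact hl r hrA (by rw [hz r hr1]; decide)
  have fq := far2 (I.th e) (h.mem e he) (hpq ▸ o1.1) hqp (by rw [h.inv e he]; exact hzu)
  have fr := far2 r hrA (hr1 ▸ o1.1) hrp (fun h1 => hro (Or.inl h1))
  have fe := far2 e he hzu hne.symm (hpq ▸ o1.1)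
  have ft := far2 (I.th r) (h.mem r hrA) (fun h1 => hro (Or.inl h1)) (ne_of hrw)
    (by rw [h.inv r hrA, hr1]; exact o1.1)
  rw [h.inv e he] at fq
  rw [h.inv r hrA] at ft
  have kq : I.kind (I.th e) = .Z := hz _ hpq.symm
  have kr : I.kind r = .Z := hz _ hr1
  have hetr : e ≠ I.th r := fun h1 => hro (Or.inr (by rw [← h1]))
  refine ⟨?_, ?_, ?_, ?_⟩
  · have h7 := supp_far w2 hpA2 h3' kA (d := I.th b) (memA2 _ (h.mem b hbA) (h3e.1 ▸ hzu))
      (h3e.1 ▸ o1.2.symm) (by rw [s1.2.1, h3e.2.1]; exact o1.2.symm)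
    exact ⟨h7.2.1.trans s1.1, h7.1.trans s1.2.1, h7.2.2.trans s1.2.2⟩
  · have h7 := supp_far w2 hpA2 h3' kA (d := I.th c) (memA2 _ (h.mem c hcA) (h3e.2.1 ▸ hzu))
      (h3e.2.1 ▸ o1.2.symm) (by rw [s2.2.1, h3e.1]; exact o1.2.symm)
    exact ⟨h7.2.1.trans s2.1, h7.1.trans s2.2.1, h7.2.2.trans s2.2.2⟩
  · have h7 := supp_near w2 hpA2 h3' hF2 kA (d := e) (memA2 _ he hzu) o1.2.symm
      (by rw [fe.1]; exact hpq.symm)
    rcases hr with ⟨rfl, rfl⟩ | ⟨rfl, rfl⟩
    · rw [fq.1, fq.2, fr.1, fr.2, kq, kr] at h7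
      rcases h7 with h2 | h2 | h2 | h2
      · exact absurd h2.2.1 (by decide)
      · exact absurd h2.2.1 (by decide)
      · exact ⟨h2.2.2.1, h2.2.2.2.1⟩
      · exact absurd h2.1 hetr
    · rw [fq.1, fq.2, fr.1, fr.2, kq, kr] at h7
      rcases h7 with h2 | h2 | h2 | h2
      · exact absurd h2.2.1 (by decide)
      · exact absurd h2.2.1 (by decide)
      · exact absurd h2.1 hetr
      · exact ⟨h2.2.2.1, h2.2.2.2.1⟩
  · have h7 := supp_near w2 hpA2 h3' hF2 kA (d := I.th r)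
      (memA2 _ (h.mem r hrA) (fun h1 => hro (Or.inl h1))) hrw (by rw [ft.1]; exact hr1)
    rcases hr with ⟨rfl, rfl⟩ | ⟨rfl, rfl⟩
    · rw [fq.1, fq.2, fr.1, fr.2, kq, kr] at h7
      rcases h7 with h2 | h2 | h2 | h2
      · exact absurd h2.2.1 (by decide)
      · exact absurd h2.2.1 (by decide)
      · exact absurd h2.1.symm hetr
      · exact ⟨h2.2.2.1, h2.2.2.2.1⟩
    · rw [fq.1, fq.2, fr.1, fr.2, kq, kr] at h7
      rcases h7 with h2 | h2 | h2 | h2
      · exact absurd h2.2.1 (by decide)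
      · exact absurd h2.2.1 (by decide)
      · exact ⟨h2.2.2.1, h2.2.2.2.1⟩
      · exact absurd h2.1.symm hetr

/-- After putting an outer edge of a bad end gadget into the matching the instance is rooted. -/
theorem E2abs (I : Inst V) (h : I.WF) (hl : I.NoLoop) (hN : I.NoK .N) (hi : I.Inv3)
    (hc : I.Conn) {a b c e b' c' : Dart V} (hb : I.Bad a b c e)
    (hz : ∀ d : Dart V, d.1 = (I.th a).1 → I.kind d = .Z) (h3' : Three (I.th a) b' c') :
    (I.add a b c b' c' kB kA).Solv := by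
  have hb0 := hb
  obtain ⟨hd, hk, hke, hpq, hne, -, -⟩ := hb0
  have hd' := hd.symm h
  have he := hd'.1
  obtain ⟨ha, h3, hkb, hkc, hzu, h3e⟩ := hd
  have hpA := h.mem a ha
  have o1 := outer_out h ha h3 hzu h3e (by rw [hk]; decide) hne
  have hqp : I.th e ≠ I.th a := fun h1 => hzu (congrArg Prod.fst (h.th_inj he ha h1))
  obtain ⟨r, hr⟩ : ∃ r, (b' = I.th e ∧ c' = r) ∨ (b' = r ∧ c' = I.th e) := by
    rcases h3'.cases (I.th e) hpq.symm with h1 | h1 | h1
    · exact absurd h1 hqp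
    · exact ⟨c', Or.inl ⟨h1.symm, rfl⟩⟩
    · exact ⟨b', Or.inr ⟨rfl, h1.symm⟩⟩
  obtain ⟨n1, n2, n3, n4⟩ := top_E2near h hl hb hz h3' hr
  have hr1 : r.1 = (I.th a).1 := by
    rcases hr with h1 | h1
    · rw [← h1.2]; exact h3'.2.1
    · rw [← h1.1]; exact h3'.1
  have hrp : r ≠ I.th a := by
    rcases hr with h1 | h1
    · rw [← h1.2]; exact h3'.2.2.2.1.symm
    · rw [← h1.1]; exact h3'.2.2.1.symm
  have hrq : r ≠ I.th e := by
    rcases hr with h1 | h1
    · rw [← h1.2, ← h1.1]; exact h3'.2.2.2.2.symm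
    · rw [← h1.1, ← h1.2]; exact h3'.2.2.2.2
  have hrA : r.1 ∈ I.A := hr1 ▸ hpA
  have hro : ¬ ((I.th r).1 = a.1 ∨ (I.th r).1 = e.1) := fun h1 =>
    (leave h ha h3 h3e hrA (hr1 ▸ o1.1) (hr1 ▸ o1.2) h1).elim hrp hrq
  have hw3 : ∀ d : Dart V, d.1 = (I.th a).1 → d = I.th a ∨ d = I.th e ∨ d = r := by
    intro d h1
    rcases h3'.cases d h1 with h2 | h2 | h2
    · exact Or.inl h2
    · rcases hr with h4 | h4
      · exact Or.inr (Or.inl (h2.trans h4.1))
      · exact Or.inr (Or.inr (h2.trans h4.1))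
    · rcases hr with h4 | h4
      · exact Or.inr (Or.inr (h2.trans h4.2))
      · exact Or.inr (Or.inl (h2.trans h4.2))
  have hA : ∀ v, v ∈ (I.add a b c b' c' kB kA).A ↔ v ∈ I.A ∧ v ≠ a.1 ∧ v ≠ (I.th a).1 := by
    intro v
    rw [add_A h3 h3']
    simp only [Finset.mem_sdiff, Finset.mem_insert, Finset.mem_singleton, not_or]
  have hout : ∀ d : Dart V, d.1 ∈ I.A → d.1 ≠ a.1 → d.1 ≠ e.1 → d.1 ≠ (I.th a).1 →
      ¬ ((I.th d).1 = a.1 ∨ (I.th d).1 = e.1) := by
    intro d h1 h2 h4 h5 h6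
    rcases leave h ha h3 h3e h1 h2 h4 h6 with h7 | h7
    · exact h5 (by rw [h7])
    · exact h5 (by rw [h7, hpq])
  have hcls : ∀ d : Dart V, d.1 ∈ (I.add a b c b' c' kB kA).A →
      d = I.th b ∨ d = I.th c ∨ d = e ∨ d = I.th r ∨
      (d.1 ≠ e.1 ∧ (I.th d).1 ≠ a.1 ∧ (I.th d).1 ≠ e.1 ∧ (I.th d).1 ≠ (I.th a).1 ∧
        (I.add a b c b' c' kB kA).th d = I.th d ∧
        (I.add a b c b' c' kB kA).kind d = I.kind d) := by
    intro d hd
    obtain ⟨h1, h2, h4⟩ := (hA _).1 hd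
    by_cases h5 : d.1 = e.1
    · rcases h3e.cases d h5 with h6 | h6 | h6
      · exact Or.inr (Or.inr (Or.inl h6))
      · exact Or.inl h6
      · exact Or.inr (Or.inl h6)
    have h6 := hout d h1 h2 h5 h4
    by_cases h7 : (I.th d).1 = (I.th a).1
    · rcases hw3 _ h7 with h8 | h8 | h8
      · exact absurd (congrArg Prod.fst (h.th_inj h1 ha h8)) h2
      · exact absurd (congrArg Prod.fst (h.th_inj h1 he h8)) h5
      · refine Or.inr (Or.inr (Or.inr (Or.inl ?_)))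
        rw [← h8, h.inv d h1]
    · have h8 := add_far h ha o1.1 h3 h3' kB kA h1 h2 h4 (fun h9 => h6 (Or.inl h9)) h7
      exact Or.inr (Or.inr (Or.inr (Or.inr
        ⟨h5, fun h9 => h6 (Or.inl h9), fun h9 => h6 (Or.inr h9), h7, h8.1, h8.2.1⟩)))
  have hdig : ∀ a2 b2 c2 e2 : Dart V, I.Dig a2 b2 c2 e2 → a2.1 ≠ a.1 → a2.1 ≠ e.1 →
      a2.1 ≠ (I.th a).1 → (I.add a b c b' c' kB kA).Dig a2 b2 c2 e2 := by
    intro a2 b2 c2 e2 hd2 h1 h2 h4
    obtain ⟨ha2, g3, gb, gc, gz, g3e⟩ := hd2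
    have far : ∀ d : Dart V, d.1 = a2.1 → I.kind d = .R →
        (I.add a b c b' c' kB kA).th d = I.th d ∧
          (I.add a b c b' c' kB kA).kind d = I.kind d := by
      intro d h5 h6
      have h7 : d.1 ∈ I.A := h5 ▸ ha2
      have h8 := hout d h7 (h5 ▸ h1) (h5 ▸ h2) (h5 ▸ h4)
      have h9 : (I.th d).1 ≠ (I.th a).1 := by
        intro h10
        have h11 := hz _ h10
        rw [h.kind_th d h7, h6] at h11
        exact absurd h11 (by decide)
      have h10 := add_far h ha o1.1 h3 h3' kB kA h7 (h5 ▸ h1) (h5 ▸ h4)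
        (fun h11 => h8 (Or.inl h11)) h9
      exact ⟨h10.1, h10.2.1⟩
    have f1 := far b2 g3.1 gb
    have f2 := far c2 g3.2.1 gc
    refine ⟨(hA _).2 ⟨ha2, h1, h4⟩, g3, f1.2.trans gb, f2.2.trans gc, gz, ?_⟩
    rw [f1.1, f2.1]
    exact g3e
  have hnb : ¬ I.Bridge a := by
    rintro ⟨S, h1, h2, h4⟩
    have h5 := h4 b (h3.1 ▸ ha) (Or.inl hkb) h3.2.2.1.symm (h3.1 ▸ h1)
    rw [h3e.1] at h5
    have h6 := h4 e he (Or.inr hke) (fun h7 => hzu (congrArg Prod.fst h7)) h5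
    exact h2 (hpq ▸ h6)
  have wJ := wf_add h ha o1.1 h3 h3' kB kA
  refine ZL3 _ wJ ?_ ?_ ?_
  · intro d hd hloop
    rcases hcls d hd with rfl | rfl | rfl | rfl | h1
    · rw [n1.1, n1.2.2]; exact ⟨fun _ => by decide, by decide⟩
    · rw [n2.1, n2.2.2]; exact ⟨fun _ => by decide, by decide⟩
    · rw [n3.2] at hloop; exact absurd (Or.inr hloop) hro
    · rw [n4.2] at hloop; exact absurd (Or.inr hloop.symm) hro
    · rw [h1.2.2.2.2.1] at hloop
      have h2 : I.kind d = .F := by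
        by_contra h4
        exact hl d ((hA _).1 hd).1 h4 hloop
      rw [h1.2.2.2.2.2, h2]
      exact ⟨fun h4 => absurd h4 (by decide), by decide⟩
  · intro d hd hkd
    obtain ⟨d1, d2, d3⟩ := (hA _).1 hd
    rcases hcls d hd with rfl | rfl | rfl | rfl | h1
    · rw [n1.1] at hkd; exact absurd hkd (by decide)
    · rw [n2.1] at hkd; exact absurd hkd (by decide)
    · rw [n3.1] at hkd; exact absurd hkd (by decide)
    · rw [n4.1] at hkd; exact absurd hkd (by decide)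
    obtain ⟨e1, e2, e3, e4, e5, e6⟩ := h1
    rcases hi d d1 (e6 ▸ hkd) with ⟨S, s1, s2, s3⟩ | ⟨b2, c2, e2', hd2⟩ | ⟨b2, c2, e2', hd2⟩
    · left
      refine ⟨S, s1, e5 ▸ s2, ?_⟩
      intro d' hd' hk' hne' hS
      rcases hcls d' hd' with rfl | rfl | rfl | rfl | h1
      · rw [n1.2.1, h3e.2.1, ← h3e.1]; exact hS
      · rw [n2.2.1, h3e.1, ← h3e.2.1]; exact hS
      · rw [n3.2]
        have h5 := s3 d' he (Or.inr hke) hne' hS
        refine s3 r hrA (Or.inr (hz r hr1)) (fun h6 => d3 (by rw [← h6, hr1])) ?_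
        rw [hr1, hpq]; exact h5
      · rw [n4.2]
        have h5 := s3 (I.th r) (h.mem r hrA) (Or.inr ((h.kind_th r hrA).trans (hz r hr1))) hne' hS
        rw [h.inv r hrA, hr1, hpq] at h5
        have h6 := s3 (I.th e) (h.mem e he) (Or.inr (hz _ hpq.symm))
          (fun h6 => d3 (by rw [← h6, hpq])) h5
        rwa [h.inv e he] at h6
      · rw [h1.2.2.2.2.1]
        rw [h1.2.2.2.2.2] at hk'
        exact s3 d' ((hA _).1 hd').1 hk' hne' hS
    · exact Or.inr (Or.inl ⟨b2, c2, e2', hdig _ _ _ _ hd2 d2 e1 d3⟩)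
    · refine Or.inr (Or.inr ⟨b2, c2, e2', ?_⟩)
      rw [e5]
      exact hdig _ _ _ _ hd2 e2 e3 e4
  · refine (rootedP_of_conn wJ (conn_add h hN hc ha o1.1 h3 h3' hnb kB kA)
      ((hA e.1).2 ⟨he, hzu, o1.2.symm⟩)).rooted (Or.inr ?_)
    rw [h3e.jZN_eq, n1.1, n2.1, n3.1]
    simp

end Inst

end Pool.Agent.P.MP_0ad50f_co.SC
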