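import Pool.Agent.P.MP_0ad50f_co.SC.CL
import Pool.Agent.P.MP_0ad50f_co.SC.LiftB
import Pool.Agent.P.MP_0ad50f_co.SC.LiftC

namespace Pool.Agent.P.MP_0ad50f_co.SC

variable {V : Type} [DecidableEq V]

namespace Inst

/-- Both partners of the outer darts of a digon lie outside the digon. -/
theorem zl_out {I : Inst V} (h : I.WF) {a b c e : Dart V} (hd : I.Dig a b c e)
    (hk : I.kind a = .Z) (hke : I.kind e = .R ∨ I.kind e = .Z) (hne : I.th a ≠ e) :
    e.1 ∈ I.A ∧ (I.th a).1 ≠ a.1 ∧ (I.th a).1 ≠ e.1 ∧ (I.th e).1 ≠ a.1 ∧ (I.th e).1 ≠ e.1 := by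
  have hs := Dig.symm h hd
  obtain ⟨ha, h3, -, -, hz, h3'⟩ := hd
  obtain ⟨he, g3, -, -, gz, g3'⟩ := hs
  have h1 := outer_out h ha h3 hz h3' (by rw [hk]; decide) hne
  have hne' : I.th e ≠ a := fun hh => hne (by rw [← hh, h.inv e he])
  have h2 := outer_out h he g3 gz g3' (by rcases hke with h' | h' <;> rw [h'] <;> decide) hne'
  exact ⟨he, h1.1, h1.2, h2.2, h2.1⟩

theorem zl_wf {I : Inst V} (h : I.WF) {a b c e : Dart V} (hd : I.Dig a b c e)
    (hk : I.kind a = .Z) (hke : I.kind e = .R ∨ I.kind e = .Z) (hne : I.th a ≠ e) (t : K) :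
    ((I.rem {a.1, e.1}).join (I.th a) (I.th e) .R t).WF := by
  obtain ⟨he, h1, h2, h3, h4⟩ := zl_out h hd hk hke hne
  have ha := hd.1
  have hz := hd.2.2.2.2.1
  refine wf_join (wf_rem h _) ?_ ?_ ?_ ?_ ?_ (Or.inl rfl) t
  · simp [rem, h.mem a ha, h1, h2]
  · simp [rem, h.mem e he, h3, h4]
  · intro hh
    exact hz (congrArg Prod.fst (h.th_inj ha he hh)).symm
  · simp [rem, h.inv a ha]
  · simp [rem, h.inv e he]

theorem zl_nZ {I : Inst V} {a e : Dart V} (ha : a.1 ∈ I.A) (hk : I.kind a = .Z) (t : K) :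
    ((I.rem {a.1, e.1}).join (I.th a) (I.th e) .R t).nZ < I.nZ :=
  lt_of_le_of_lt (nZ_join (by decide) t) (nZ_rem ha (by simp) hk)

/-- A dart outside the digon that is not a partner of an outer dart is unchanged. -/
theorem zl_far {I : Inst V} (h : I.WF) {a b c e : Dart V} (hd : I.Dig a b c e) (t : K)
    {d : Dart V} (hdA : d.1 ∈ I.A) (h1 : d.1 ≠ a.1) (h2 : d.1 ≠ e.1) (h3 : d ≠ I.th a)
    (h4 : d ≠ I.th e) :
    (I.th d).1 ≠ a.1 ∧ (I.th d).1 ≠ e.1 ∧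
    ((I.rem {a.1, e.1}).join (I.th a) (I.th e) .R t).th d = I.th d ∧
      ((I.rem {a.1, e.1}).join (I.th a) (I.th e) .R t).kind d = I.kind d := by
  have hl : ¬ ((I.th d).1 = a.1 ∨ (I.th d).1 = e.1) := fun hh => by
    rcases leave h hd.1 hd.2.1 hd.2.2.2.2.2 hdA h1 h2 hh with h' | h'
    · exact h3 h'
    · exact h4 h'
  rw [not_or] at hl
  refine ⟨hl.1, hl.2, ?_, ?_⟩
  · simp [join, rem, h3, h4, hl.1, hl.2]
  · simp [join, rem, h3, h4, hl.1, hl.2]

/-- The second step of the contraction of a digon of gain zero. -/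
theorem zl_second {I : Inst V} (h : I.WF) (hl : I.LoopsOK) (hi : I.Inv3) (hr : I.Rooted)
    (IH : ∀ J : Inst V, J.nZ < I.nZ → J.WF → J.LoopsOK → J.Inv3 → J.Rooted → J.Solv)
    (hB : ∀ a : Dart V, a.1 ∈ I.A → I.kind a = .Z → ¬ I.Bridge a)
    (hg : ∀ a b c e : Dart V, I.Dig a b c e → I.kind a = .Z → I.g b = I.g c)
    {a b c e : Dart V} (hd : I.Dig a b c e) (hk : I.kind a = .Z)
    (hke : I.kind e = .R ∨ I.kind e = .Z) (hne : I.th a ≠ e) (hc : (I.th a).1 ≠ (I.th e).1)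
    {d2 : Dart V} (h21 : d2.1 = (I.th a).1) (h22 : d2 ≠ I.th a) (h2k : I.kind d2 = .Z) (t : K) :
    ((I.rem {a.1, e.1}).join (I.th a) (I.th e) .R t).Solv := by
  obtain ⟨he, o1, o2, o3, o4⟩ := zl_out h hd hk hke hne
  have ha := hd.1
  have hW := zl_wf h hd hk hke hne t
  have hL : ((I.rem {a.1, e.1}).join (I.th a) (I.th e) .R t).LoopsOK :=
    loops_join (loops_rem hl _) (Or.inr ⟨rfl, fun hh => absurd hh hc⟩)
  have hI := inv3_D0r h hi hd hk hke hne t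
  have hP := rootedP_D0r h hd hk hke hne t (hr.rootedP _)
  have hn := zl_nZ (e := e) ha hk t
  have hpA : (I.th a).1 ∈ I.A := h.mem a ha
  have hd2A : d2.1 ∈ I.A := h21 ▸ hpA
  have hq : ∀ d : Dart V, d.1 = (I.th a).1 → d ≠ I.th e := fun d hd1 hh => hc (by rw [← hd1, hh])
  obtain ⟨f1, f2, f3, f4⟩ :=
    zl_far h hd t hd2A (h21 ▸ o1) (h21 ▸ o2) h22 (hq d2 h21)
  have hkp : ((I.rem {a.1, e.1}).join (I.th a) (I.th e) .R t).kind (I.th a) = .R := by
    simp [join]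
  have hdig := fun {a2 b2 c2 e2 : Dart V} (x : I.Dig a2 b2 c2 e2) (y : a2.1 ≠ a.1)
    (z : a2.1 ≠ e.1) => dig_D0r h hd hk hne t x y z
  have hfar := fun {d : Dart V} (x : d.1 ∈ I.A) (y : d.1 ≠ a.1) (z : d.1 ≠ e.1)
    (v : d ≠ I.th a) (w : d ≠ I.th e) => zl_far h hd t x y z v w
  have hkq : ((I.rem {a.1, e.1}).join (I.th a) (I.th e) .R t).kind (I.th e) = .R := by
    simp [join]
  have hAJ : ∀ v, v ∈ ((I.rem {a.1, e.1}).join (I.th a) (I.th e) .R t).A →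
      v ∈ I.A ∧ v ≠ a.1 ∧ v ≠ e.1 := by
    intro v hv
    simpa [join, rem, not_or] using hv
  generalize (I.rem {a.1, e.1}).join (I.th a) (I.th e) .R t = J at *
  by_cases hroot : J.Root (I.th a).1
  · exact IH J hn hW hL hI (hP.rooted hroot)
  obtain ⟨d3, h3⟩ : ∃ d3, Three d3 (I.th a) d2 := Three.third h21.symm h22.symm
  have h31 : d3.1 = (I.th a).1 := h3.1.symm
  have hk3 : J.kind d3 = .R := by
    have hj := h3.jZN_eq J
    rw [hkp, f4, h2k] at hj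
    unfold Root at hroot
    rw [not_or, ← h31] at hroot
    cases hk3 : J.kind d3 with
    | R => rfl
    | F => exact absurd ⟨d3.2, hk3⟩ hroot.1
    | Z => rw [hk3] at hj; exact absurd (by rw [hj]; decide) hroot.2
    | N => rw [hk3] at hj; exact absurd (by rw [hj]; decide) hroot.2
  have hkpI : I.kind (I.th a) = .Z := by rw [h.kind_th a ha, hk]
  obtain ⟨b2, c2, e2, hd2⟩ : ∃ b2 c2 e2, I.Dig (I.th d2) b2 c2 e2 := by
    rcases hi d2 hd2A h2k with hb | ⟨b', c', e', hd'⟩ | hd'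
    · exact absurd hb (hB d2 hd2A h2k)
    · exfalso
      rcases hd'.2.1.cases (I.th a) h21.symm with hh | hh | hh
      · exact h22 hh.symm
      · rw [hh, hd'.2.2.1] at hkpI; exact absurd hkpI (by decide)
      · rw [hh, hd'.2.2.2.1] at hkpI; exact absurd hkpI (by decide)
    · exact hd'
  have ha2A : (I.th d2).1 ∈ I.A := h.mem d2 hd2A
  have hk2 : I.kind (I.th d2) = .Z := by rw [h.kind_th d2 hd2A, h2k]
  have hne2 : I.th (I.th d2) ≠ e2 := fun hh =>
    theta_not_rooted h (hh ▸ hd2) (Or.inl hk2) hr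
  have hke2 := dig_kind h hd2 hk2 (hB _ ha2A hk2)
  obtain ⟨hdJ, g1, g2⟩ := hdig hd2 f1 f2
  have hgJ : J.g b2 = J.g c2 := by rw [g1, g2]; exact hg _ _ _ _ hd2 hk2
  have hd2J : d2.1 ∈ J.A := by
    have := hW.mem _ hdJ.1
    by_contra hh
    apply hh
    have h5 : J.th (I.th d2) = d2 := by
      obtain ⟨-, -, h6, -⟩ := hfar ha2A f1 f2
        (fun hh => (h21 ▸ o1) (congrArg Prod.fst (h.th_inj hd2A ha hh)))
        (fun hh => (h21 ▸ o2) (congrArg Prod.fst (h.th_inj hd2A he hh)))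
      rw [h6, h.inv d2 hd2A]
    rwa [h5] at this
  have hth2 : J.th (I.th d2) = d2 := by rw [← f3, hW.inv d2 hd2J]
  have hk2J : J.kind (I.th d2) = .Z := by rw [← f3, hW.kind_th d2 hd2J, f4, h2k]
  have he2J : e2.1 ∈ J.A := (Dig.symm hW hdJ).1
  have hke2J : J.kind e2 = .R ∨ J.kind e2 = .Z := by
    by_cases h5 : e2 = I.th a
    · exact Or.inl (h5 ▸ hkp)
    by_cases h6 : e2 = I.th e
    · exact Or.inl (h6 ▸ hkq)
    obtain ⟨x, y, z⟩ := hAJ _ he2J
    rw [(hfar x y z h5 h6).2.2.2]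
    exact hke2
  have hne2J : J.th (I.th d2) ≠ e2 := by
    rw [hth2, ← h.inv d2 hd2A]
    exact hne2
  have hs2 : (J.rem {(I.th d2).1, e2.1}).Solv := by
    refine IH _ (lt_trans (nZ_rem hdJ.1 (by simp) hk2J) hn) (wf_rem hW _) (loops_rem hL _)
      (inv3_rem hW hI hdJ hk2J) (rootedP_rem hP _ (Or.inr ⟨d2.2, ?_⟩))
    have : ((I.th a).1, d2.2) = d2 := by rw [← h21]
    rw [this, f3]
    simp
  have hoth : ∀ d : Dart V, d.1 = d2.1 → d ≠ d2 → J.kind d = .R := by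
    intro d hd1 hd2'
    rcases h3.cases d (by rw [hd1, h21, h31]) with hh | hh | hh
    · exact hh ▸ hk3
    · exact hh ▸ hkp
    · exact absurd hh hd2'
  by_cases hcc : (J.th (I.th d2)).1 = (J.th e2).1
  · refine lift_T2 hW hdJ hk2J hke2J hcc hne2J (fun hb => ?_) hs2
    have h5 : J.kind (J.th e2) = .R := by
      refine hoth _ (by rw [← hcc, hth2]) (fun hh => ?_)
      have h6 : e2 = I.th d2 := by rw [← f3, ← hh, hW.inv e2 he2J]
      exact hdJ.2.2.2.2.1 (by rw [h6])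
    rw [hW.kind_th e2 he2J, hb.2.2.1] at h5
    exact absurd h5 (by decide)
  · refine lift_D0f hW hdJ hk2J hke2J hcc hne2J hgJ (fun d hd1 hd2' => ?_) hs2
    rw [hth2] at hd1 hd2'
    rw [hoth d hd1 hd2']
    decide

theorem zl_step {I : Inst V} (h : I.WF) (hl : I.LoopsOK) (hi : I.Inv3) (hr : I.Rooted)
    (IH : ∀ J : Inst V, J.nZ < I.nZ → J.WF → J.LoopsOK → J.Inv3 → J.Rooted → J.Solv) :
    I.Solv := by
  by_cases hZ : I.NoK .Z
  · exact CL I h hl hZ hr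
  have hset : ∀ a : Dart V, a.1 ∈ I.A → I.kind a = .Z → (I.setN a).Solv := fun a ha hk =>
    IH _ (nZ_setN ha hk) (wf_setN h ha (by rw [hk]; decide)) (loops_setN hl a)
      (inv3_setN h hi ha hk) (rooted_setN hr h ha hk)
  by_cases hB : ∃ a : Dart V, a.1 ∈ I.A ∧ I.kind a = .Z ∧ I.Bridge a
  · obtain ⟨a, ha, hk, hb⟩ := hB
    exact lift_B h ha hk hb (hset a ha hk)
  have hB' : ∀ a : Dart V, a.1 ∈ I.A → I.kind a = .Z → ¬ I.Bridge a :=
    fun a ha hk hb => hB ⟨a, ha, hk, hb⟩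
  have hth : ∀ a b c e : Dart V, I.Dig a b c e → I.kind a = .Z → I.th a ≠ e :=
    fun a b c e hd hk hh => theta_not_rooted h (hh ▸ hd) (Or.inl hk) hr
  by_cases hD : ∃ a b c e : Dart V, I.Dig a b c e ∧ I.kind a = .Z ∧ I.g b ≠ I.g c
  · obtain ⟨a, b, c, e, hd, hk, hg⟩ := hD
    exact lift_D1 h hd hk (hth _ _ _ _ hd hk) hg (hset a hd.1 hk)
  have hg : ∀ a b c e : Dart V, I.Dig a b c e → I.kind a = .Z → I.g b = I.g c := by
    intro a b c e hd hk
    by_contra hh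
    exact hD ⟨a, b, c, e, hd, hk, hh⟩
  obtain ⟨a, b, c, e, hd, hk⟩ : ∃ a b c e : Dart V, I.Dig a b c e ∧ I.kind a = .Z := by
    unfold NoK at hZ
    push Not at hZ
    obtain ⟨a, ha, hk⟩ := hZ
    rcases hi a ha hk with hb | ⟨b, c, e, hd⟩ | ⟨b, c, e, hd⟩
    · exact absurd hb (hB' a ha hk)
    · exact ⟨a, b, c, e, hd, hk⟩
    · exact ⟨_, b, c, e, hd, by rw [h.kind_th a ha, hk]⟩
  have ha := hd.1
  have hne := hth _ _ _ _ hd hk
  have hke := dig_kind h hd hk (hB' a ha hk)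
  have hgb := hg _ _ _ _ hd hk
  have hrem : (I.rem {a.1, e.1}).Solv :=
    IH _ (nZ_rem ha (by simp) hk) (wf_rem h _) (loops_rem hl _) (inv3_rem h hi hd hk)
      (rooted_rem hr _)
  by_cases hc : (I.th a).1 = (I.th e).1
  · by_cases hb : I.Bad a b c e
    · refine lift_D0r h hd hk hke hne hgb (IH _ (zl_nZ ha hk _) (zl_wf h hd hk hke hne _)
        (loops_join (loops_rem hl _) (Or.inr ⟨rfl, fun _ => ?_⟩))
        (inv3_D0r h hi hd hk hke hne _) (rooted_bad h hb _ hr))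
      rw [h.gZ e (Dig.symm h hd).1 hb.2.2.1, add_zero]
      exact hb.2.2.2.2.2.2
    · exact lift_T2 h hd hk hke hc hne hb hrem
  by_cases hz : ∀ d : Dart V, d.1 = (I.th a).1 → d ≠ I.th a → I.kind d ≠ .Z
  · exact lift_D0f h hd hk hke hc hne hgb hz hrem
  push Not at hz
  obtain ⟨d2, h21, h22, h2k⟩ := hz
  exact lift_D0r h hd hk hke hne hgb
    (zl_second h hl hi hr IH hB' hg hd hk hke hne hc h21 h22 h2k _)

theorem ZL3 (I : Inst V) (h : I.WF) (hl : I.LoopsOK) (hi : I.Inv3) (hr : I.Rooted) :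
    I.Solv := by
  induction hn : I.nZ using Nat.strong_induction_on generalizing I with
  | _ n ih =>
    exact zl_step h hl hi hr fun J hJ h1 h2 h3 h4 => ih J.nZ (hn ▸ hJ) J h1 h2 h3 h4 rfl

theorem ZL (I : Inst V) (h : I.WF) (hl : I.LoopsOK) (hi : I.Inv) (hr : I.Rooted) : I.Solv := by
  induction hn : I.A.card using Nat.strong_induction_on generalizing I with
  | _ n ih =>
    by_cases hg : ∃ a b c e : Dart V, I.Gad a b c e
    · obtain ⟨a, b, c, e, hd⟩ := hg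
      refine lift_T1 h hd (ih _ ?_ _ (wf_rem h _) (loops_rem hl _) (inv_rem_gad h hi hd)
        (rooted_rem hr _) rfl)
      rw [← hn]
      refine Finset.card_lt_card ⟨Finset.sdiff_subset, fun hh => ?_⟩
      have := hh hd.1
      simp [rem] at this
    · refine ZL3 I h hl (fun a ha hk => ?_) hr
      rcases hi a ha hk with h1 | h1 | h1 | ⟨a0, b, c, e, h1, -⟩
      · exact Or.inl h1
      · exact Or.inr (Or.inl h1)
      · exact Or.inr (Or.inr h1)
      · exact absurd ⟨a0, b, c, e, h1⟩ hg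

end Inst

end Pool.Agent.P.MP_0ad50f_co.SC
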